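import Pool.Agent.LibFS14.Defs

/-!
Row E3 (SHORT/MEDIUM). Encoding of the hits.

PLAN. For every `n` the Chinese remainder theorem (`Nat.chineseRemainderOfFinset` over `P`, pairwise coprime distinct primes) gives `c n < ∏ P` with, for `p ∈ P`: `c n ≡ p - i` modulo `p` if `hit p i n` for some `i : Fin K` (unique by `hu`), and `c n ≡ 1` otherwise.
`p ∣ c n + i` iff `hit p i n`: in the first case with the position `j`: `p ∣ p - j + i` iff `i = j`, because `|i - j| < K < p`; in the second case `1 + i ≤ K < p` and `≥ 1`. `enc n = c n + (∏ P) * n`, `dec m = m / ∏ P`.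
-/

open Finset

namespace Pool.Agent.LibFS14

theorem exists_enc {K : ℕ} (P : Finset ℕ) (hP : ∀ p ∈ P, p.Prime ∧ K < p) (hit : ℕ → Fin K → ℕ → Prop)
    (hu : ∀ p ∈ P, ∀ (i j : Fin K) (n : ℕ), hit p i n → hit p j n → i = j) :
    ∃ enc dec : ℕ → ℕ, (∀ n, dec (enc n) = n) ∧ ∀ n, ∀ p ∈ P, ∀ i : Fin K, p ∣ enc n + i ↔ hit p i n := by
  classical
  have hcop : Set.Pairwise (↑P : Set ℕ) (Function.onFun Nat.Coprime (id : ℕ → ℕ)) := by
    intro p hp q hq hpq
    exact (Nat.coprime_primes (hP p hp).1 (hP q hq).1).2 hpq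
  have hne : ∀ p ∈ P, (id : ℕ → ℕ) p ≠ 0 := fun p hp => (hP p hp).1.ne_zero
  let r : ℕ → ℕ → ℕ := fun n p => if h : ∃ i : Fin K, hit p i n then p - (h.choose : ℕ) else 1
  let c : ℕ → ℕ := fun n => (Nat.chineseRemainderOfFinset (r n) id P hne hcop : ℕ)
  have hc : ∀ n, ∀ p ∈ P, c n ≡ r n p [MOD p] := fun n p hp =>
    (Nat.chineseRemainderOfFinset (r n) id P hne hcop).2 p hp
  have hlt : ∀ n, c n < ∏ p ∈ P, p := fun n =>
    Nat.chineseRemainderOfFinset_lt_prod (r n) id hne hcop
  have hM : 0 < ∏ p ∈ P, p := Finset.prod_pos fun p hp => (hP p hp).1.pos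
  refine ⟨fun n => c n + (∏ p ∈ P, p) * n, fun m => m / ∏ p ∈ P, p, fun n => ?_, fun n p hp i => ?_⟩
  · show (c n + (∏ p ∈ P, p) * n) / (∏ p ∈ P, p) = n
    rw [Nat.add_mul_div_left _ _ hM, Nat.div_eq_of_lt (hlt n), zero_add]
  · obtain ⟨hpp, hKp⟩ := hP p hp
    have hd : p ∣ (∏ p ∈ P, p) * n := (Finset.dvd_prod_of_mem _ hp).mul_right n
    have h1 : p ∣ c n + (∏ p ∈ P, p) * n + i ↔ p ∣ r n p + i := by
      have h2 : c n + (∏ p ∈ P, p) * n + i ≡ r n p + i [MOD p] := by
        refine Nat.ModEq.add_right _ ?_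
        have h3 : c n + (∏ p ∈ P, p) * n ≡ r n p + 0 [MOD p] :=
          Nat.ModEq.add (hc n p hp) ((Nat.modEq_zero_iff_dvd).2 hd)
        rwa [add_zero] at h3
      exact h2.dvd_iff (dvd_refl p)
    show p ∣ c n + (∏ p ∈ P, p) * n + i ↔ hit p i n
    rw [h1]
    have hi : (i : ℕ) < K := i.2
    by_cases h : ∃ j : Fin K, hit p j n
    · have hr : r n p = p - (h.choose : ℕ) := dif_pos h
      have hj := h.choose_spec
      have hjK : (h.choose : ℕ) < K := h.choose.2
      rw [hr]
      generalize h.choose = j at hj hjK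
      constructor
      · rintro ⟨k, hk⟩
        have hk1 : k = 1 := by
          have h4 : p * k < p * 2 := by omega
          have h5 : 0 < p * k := by omega
          have h6 := lt_of_mul_lt_mul_left h4 (Nat.zero_le p)
          have h7 : 0 < k := Nat.pos_of_ne_zero (by
            rintro rfl
            omega)
          omega
        rw [hk1] at hk
        have h8 : (i : ℕ) = j := by omega
        rw [Fin.ext h8]
        exact hj
      · intro hi'
        have h9 := hu p hp i j n hi' hj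
        rw [h9]
        have h10 : p - (j : ℕ) + j = p := by omega
        rw [h10]
    · have hr : r n p = 1 := dif_neg h
      rw [hr]
      constructor
      · intro h4
        have h5 := Nat.le_of_dvd (by omega) h4
        omega
      · intro h4
        exact absurd ⟨i, h4⟩ h

/-- a prime larger than `w` hits at most one form -/
theorem hit_unique {K : ℕ} (D : Data K) {w : ℕ} {x0 y0 : ℤ} (hC : D.Cls w x0 y0) {p : ℕ} (hp : p.Prime) (hw : w < p)
    {i j : Fin K} {n : ℕ} (hi : D.hit p i n) (hj : D.hit p j n) : i = j := by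
  by_contra hij
  obtain ⟨h1, h2⟩ := hi
  obtain ⟨h3, -⟩ := hj
  apply h2
  have hpZ : Prime (p : ℤ) := Nat.prime_iff_prime_int.1 hp
  have hdet := (hC.big p hp hw).2 i j hij
  have e1 : (p : ℤ) ∣ (D.u i * D.v j - D.u j * D.v i) * D.m n := by
    have : (D.u i * D.v j - D.u j * D.v i) * D.m n = D.v j * D.L i n - D.v i * D.L j n := by
      unfold Data.L
      ring
    rw [this]
    exact dvd_sub (h1.mul_left _) (h3.mul_left _)
  have e2 : (p : ℤ) ∣ (D.u i * D.v j - D.u j * D.v i) * n := by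
    have : (D.u i * D.v j - D.u j * D.v i) * n = D.u i * D.L j n - D.u j * D.L i n := by
      unfold Data.L
      ring
    rw [this]
    exact dvd_sub (h3.mul_left _) (h1.mul_left _)
  exact ⟨(hpZ.dvd_or_dvd e2).resolve_left hdet, (hpZ.dvd_or_dvd e1).resolve_left hdet⟩

end Pool.Agent.LibFS14
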