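import Pool.Agent.LibFS14.E0

/-!
Row E4 (SHORT/MEDIUM). The distribution hypothesis from the hits.

PLAN. `enc` is injective (`hd`): `Finset.sum_image`, so `∑ m ∈ T.image enc, om (dec m) * F m = ∑ n ∈ T, om n * F (enc n)`. For `σ : P → Option (Fin K)` with `alw P J σ`: `S = sp P σ`, `t p` = the position of `σ p` (`p ∈ S`), any position
otherwise (`0 < K`). The condition `∀ p i, σ p = some i → p ∣ enc n + i` is `∀ p ∈ S, hit p (t p) n` (`he`, `mem_sp`). If `∏ S ≤ Q`: `hh`. Otherwise both `∑ om * [..] ∈ [0, ∑ om]` and `X * ∏ h ∈ [0, X]` (`0 ≤ h p ≤ 1` for `p ≥ 3`: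
`1/p - 1/p^2 ≥ 0`, `1/(p-1) ≤ 1`), so the difference is at most the maximum of the two, `≤ ∑ om + X`.
-/

open Finset

namespace Pool.Agent.LibFS14

open Pool.Agent.LibSP4
open Pool.Agent.LibRG87 hiding QQ


private theorem E4_mem_sp {ι : Type} [Fintype ι] [DecidableEq ι] (P : Finset ℕ) {β : P → Option ι} {p : ℕ} :
    p ∈ sp P β ↔ ∃ h : p ∈ P, β ⟨p, h⟩ ≠ none := by
  simp [sp]

open scoped Classical in
theorem dist_of_hits {K : ℕ} (hK : 0 < K) (P : Finset ℕ) (hP : ∀ p ∈ P, p.Prime ∧ 3 ≤ p) (hit : ℕ → Fin K → ℕ → Prop)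
    (enc dec : ℕ → ℕ) (hd : ∀ n, dec (enc n) = n) (he : ∀ n, ∀ p ∈ P, ∀ i : Fin K, p ∣ enc n + i ↔ hit p i n)
    (J : Finset (Fin K)) (T : Finset ℕ) (om : ℕ → ℝ) (hom : ∀ n ∈ T, 0 ≤ om n) (X : ℝ) (hX : 0 ≤ X) (h : ℕ → ℝ)
    (h1 : ∀ p ∈ P, 1 / (p : ℝ) - 1 / (p : ℝ) ^ 2 ≤ h p) (h2 : ∀ p ∈ P, h p ≤ 1 / ((p : ℝ) - 1)) (Q E : ℝ) (hE : 0 ≤ E)
    (hh : ∀ (S : Finset ℕ) (t : ℕ → Fin K), S ⊆ P → (∀ p ∈ S, t p ∈ J) → ((∏ p ∈ S, p : ℕ) : ℝ) ≤ Q →
      |∑ n ∈ T.filter (fun n => ∀ p ∈ S, hit p (t p) n), om n - X * ∏ p ∈ S, h p| ≤ E) :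
    DistG P (bb K) J (T.image enc) (fun m => om (dec m)) X h
      (fun q => if (q : ℝ) ≤ Q then E else ∑ n ∈ T, om n + X) := by
  have hinj : Function.Injective enc := fun a b hab => by
    have := congrArg dec hab
    rwa [hd, hd] at this
  have hsum0 : 0 ≤ ∑ n ∈ T, om n := Finset.sum_nonneg hom
  refine ⟨?_, hX, ?_, h1, h2, ?_⟩
  · intro m hm
    obtain ⟨n, hn, rfl⟩ := Finset.mem_image.1 hm
    show 0 ≤ om (dec (enc n))
    rw [hd]
    exact hom n hn
  · intro q
    show 0 ≤ (if (q : ℝ) ≤ Q then E else ∑ n ∈ T, om n + X)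
    split_ifs
    · exact hE
    · exact add_nonneg hsum0 hX
  · intro σ hσ
    show _ ≤ (if ((∏ p ∈ sp P σ, p : ℕ) : ℝ) ≤ Q then E else ∑ n ∈ T, om n + X)
    set S : Finset ℕ := sp P σ with hSdef
    have hSP : S ⊆ P := fun p hp => ((E4_mem_sp P).1 hp).1
    -- the position
    let t : ℕ → Fin K := fun p => if hp : p ∈ P then (σ ⟨p, hp⟩).getD ⟨0, hK⟩ else ⟨0, hK⟩
    have ht : ∀ (p : ℕ) (hp : p ∈ P), σ ⟨p, hp⟩ ≠ none → σ ⟨p, hp⟩ = some (t p) := by
      intro p hp hne
      obtain ⟨i, hi⟩ := Option.ne_none_iff_exists'.1 hne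
      simp [t, hp, hi]
    have htJ : ∀ p ∈ S, t p ∈ J := by
      intro p hp
      obtain ⟨hpP, hne⟩ := (E4_mem_sp P).1 hp
      exact hσ ⟨p, hpP⟩ (t p) (ht p hpP hne)
    have hiff : ∀ n, (∀ (p : P) (i : Fin K), σ p = some i → (p : ℕ) ∣ enc n + bb K i) ↔
        ∀ p ∈ S, hit p (t p) n := by
      intro n
      constructor
      · intro H p hp
        obtain ⟨hpP, hne⟩ := (E4_mem_sp P).1 hp
        exact (he n p hpP (t p)).1 (H ⟨p, hpP⟩ (t p) (ht p hpP hne))
      · intro H p i hpi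
        have hne : σ ⟨(p : ℕ), p.2⟩ ≠ none := by
          intro h0
          have : σ p = none := h0
          rw [hpi] at this
          exact absurd this (by simp)
        have hpS : (p : ℕ) ∈ S := (E4_mem_sp P).2 ⟨p.2, hne⟩
        have hti : t p = i := by
          have e := ht p p.2 hne
          have e' : σ p = some (t p) := e
          rw [hpi] at e'
          exact (Option.some.inj e').symm
        have := (he n p p.2 (t p)).2 (H p hpS)
        rw [hti] at this
        exact this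
    have hsum : ∑ n ∈ T.image enc, om (dec n) *
        (if ∀ (p : P) (i : Fin K), σ p = some i → (p : ℕ) ∣ n + bb K i then (1 : ℝ) else 0) =
        ∑ n ∈ T.filter (fun n => ∀ p ∈ S, hit p (t p) n), om n := by
      rw [Finset.sum_image (fun a _ b _ hab => hinj hab), Finset.sum_filter]
      refine Finset.sum_congr rfl fun n _ => ?_
      rw [hd]
      by_cases hc : ∀ p ∈ S, hit p (t p) n
      · rw [if_pos ((hiff n).2 hc), if_pos hc, mul_one]
      · rw [if_neg (fun h' => hc ((hiff n).1 h')), if_neg hc, mul_zero]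
    have hgoal : |∑ n ∈ T.filter (fun n => ∀ p ∈ S, hit p (t p) n), om n - X * ∏ p ∈ S, h p| ≤
        (if ((∏ p ∈ S, p : ℕ) : ℝ) ≤ Q then E else ∑ n ∈ T, om n + X) := by
      split_ifs with hQ
      · exact hh S t hSP htJ hQ
      · have a1 : 0 ≤ ∑ n ∈ T.filter (fun n => ∀ p ∈ S, hit p (t p) n), om n :=
          Finset.sum_nonneg fun n hn => hom n (Finset.mem_filter.1 hn).1
        have a2 : ∑ n ∈ T.filter (fun n => ∀ p ∈ S, hit p (t p) n), om n ≤ ∑ n ∈ T, om n :=
          Finset.sum_le_sum_of_subset_of_nonneg (Finset.filter_subset _ _) fun n hn _ => hom n hn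
        have hb : ∀ p ∈ S, 0 ≤ h p ∧ h p ≤ 1 := by
          intro p hp
          have hpP := hSP hp
          have h3 : (3 : ℝ) ≤ p := by exact_mod_cast (hP p hpP).2
          have hpos : (0 : ℝ) < p := by linarith
          constructor
          · refine le_trans ?_ (h1 p hpP)
            rw [div_sub_div _ _ hpos.ne' (by positivity)]
            apply div_nonneg
            · nlinarith
            · positivity
          · refine (h2 p hpP).trans ?_
            rw [div_le_one (by linarith)]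
            linarith
        have a3 : 0 ≤ ∏ p ∈ S, h p := Finset.prod_nonneg fun p hp => (hb p hp).1
        have a4 : ∏ p ∈ S, h p ≤ 1 := Finset.prod_le_one (fun p hp => (hb p hp).1) fun p hp => (hb p hp).2
        have a5 : 0 ≤ X * ∏ p ∈ S, h p := mul_nonneg hX a3
        have a6 : X * ∏ p ∈ S, h p ≤ X := by nlinarith
        rw [abs_le]
        constructor <;> linarith
    have hrew : (∑ n ∈ T.image enc, (fun m => om (dec m)) n *
        (if ∀ (p : P) (i : Fin K), σ p = some i → (p : ℕ) ∣ n + bb K i then (1 : ℝ) else 0)) =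
        ∑ n ∈ T.filter (fun n => ∀ p ∈ S, hit p (t p) n), om n := hsum
    refine le_trans (le_of_eq ?_) hgoal
    congr 2
    refine Eq.trans (Finset.sum_congr rfl fun m _ => ?_) hrew
    by_cases hc : ∀ (p : P) (i : Fin K), σ p = some i → (p : ℕ) ∣ m + bb K i
    · simp only [if_pos hc]
    · simp only [if_neg hc]

theorem sum_enc {T : Finset ℕ} {enc dec : ℕ → ℕ} (hd : ∀ n, dec (enc n) = n) (om F : ℕ → ℝ) :
    ∑ m ∈ T.image enc, om (dec m) * F m = ∑ n ∈ T, om n * F (enc n) := by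
  have hinj : Function.Injective enc := fun a b hab => by
    have := congrArg dec hab
    rwa [hd, hd] at this
  rw [Finset.sum_image (fun a _ b _ hab => hinj hab)]
  refine Finset.sum_congr rfl fun n _ => ?_
  rw [hd]

end Pool.Agent.LibFS14
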