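import Pool.Agent.LibFS14.E0

/-!
Row E2: the mean square under a `DistG` (copy of LibSP4/B11.lean, which does not use the lower bound of the densities).
-/

open Finset

namespace Pool.Agent.LibFS14

open Pool.Agent.LibSP4
open Pool.Agent.LibRG87 hiding QQ

section B11

variable {ι : Type} [Fintype ι] [DecidableEq ι]

private noncomputable def E2_L (p : ℕ) (o c : Option ι) : ℝ :=
  match o with
  | none => 1
  | some j => if c = some j then -1 else 1 / ((p : ℝ) - 1)

omit [Fintype ι] in
private theorem E2_L0 (p : ℕ) (j : ι) : E2_L p (some j) none = 1 / ((p : ℝ) - 1) := by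
  simp [E2_L]

private noncomputable def E2_W (J : Finset ι) (p : ℕ) (o o' c : Option ι) : ℝ :=
  match c with
  | none => E2_L p o none * E2_L p o' none
  | some i => if i ∈ J then
      E2_L p o (some i) * E2_L p o' (some i) - E2_L p o none * E2_L p o' none else 0

private noncomputable def E2_hh (x : ℝ) (c : Option ι) : ℝ :=
  match c with
  | none => 1
  | some _ => x

private noncomputable def E2_w (p : ℕ) (o : Option ι) : ℝ :=
  match o with
  | none => 1
  | some _ => (p : ℝ) / ((p : ℝ) - 1)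

open scoped Classical in
private theorem E2_pt (J : Finset ι) (b : ι → ℕ) {p : ℕ}
    (hb : ∀ i ∈ J, ∀ i' ∈ J, i ≠ i' → ¬ b i ≡ b i' [MOD p]) (o o' : Option ι)
    (ho : ∀ i, o = some i → i ∈ J) (ho' : ∀ i, o' = some i → i ∈ J) (n : ℕ) :
    loc b p o n * loc b p o' n =
      ∑ c : Option ι, E2_W J p o o' c * (if ∀ i, c = some i → p ∣ n + b i then (1 : ℝ) else 0) := by
  have huniq : ∀ i ∈ J, ∀ i' ∈ J, p ∣ n + b i → p ∣ n + b i' → i = i' := by
    intro i hi i' hi' h1 h2
    by_contra hne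
    apply hb i hi i' hi' hne
    have h3 : n + b i ≡ n + b i' [MOD p] := by
      unfold Nat.ModEq
      rw [Nat.mod_eq_zero_of_dvd h1, Nat.mod_eq_zero_of_dvd h2]
    exact Nat.ModEq.add_left_cancel' n h3
  have hL : ∀ (c : Option ι), (∀ i ∈ J, (p ∣ n + b i ↔ c = some i)) →
      ∀ o : Option ι, (∀ i, o = some i → i ∈ J) → loc b p o n = E2_L p o c := by
    intro c hc o ho
    cases o with
    | none => rfl
    | some j =>
      have h1 := hc j (ho j rfl)
      show psi p (n + b j) = if c = some j then -1 else 1 / ((p : ℝ) - 1)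
      unfold psi
      by_cases h2 : p ∣ n + b j
      · rw [if_pos h2, if_pos (h1.1 h2)]
      · rw [if_neg h2, if_neg (fun h => h2 (h1.2 h))]
  rw [Fintype.sum_option]
  have h0 : (if ∀ i, (none : Option ι) = some i → p ∣ n + b i then (1 : ℝ) else 0) = 1 :=
    if_pos (fun i h => by cases h)
  rw [h0, mul_one]
  by_cases hex : ∃ i ∈ J, p ∣ n + b i
  · obtain ⟨i0, hi0, hd⟩ := hex
    have hc : ∀ i ∈ J, (p ∣ n + b i ↔ (some i0 : Option ι) = some i) := fun i hi =>
      ⟨fun h => congrArg some (huniq i0 hi0 i hi hd h), fun h => by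
        rw [← Option.some.inj h]; exact hd⟩
    rw [hL _ hc o ho, hL _ hc o' ho', Finset.sum_eq_single i0]
    · rw [if_pos (fun i h => by rw [← Option.some.inj h]; exact hd), mul_one]
      show _ = E2_L p o none * E2_L p o' none + (if i0 ∈ J then
        E2_L p o (some i0) * E2_L p o' (some i0) - E2_L p o none * E2_L p o' none else 0)
      rw [if_pos hi0]
      ring
    · intro i _ hi
      by_cases hiJ : i ∈ J
      · rw [if_neg, mul_zero]
        intro h
        exact hi (huniq i0 hi0 i hiJ hd (h i rfl)).symm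
      · show (if i ∈ J then _ else 0) * _ = _
        rw [if_neg hiJ, zero_mul]
    · intro h
      exact absurd (Finset.mem_univ _) h
  · push Not at hex
    have hc : ∀ i ∈ J, (p ∣ n + b i ↔ (none : Option ι) = some i) := fun i hi =>
      ⟨fun h => absurd h (hex i hi), fun h => by cases h⟩
    rw [hL _ hc o ho, hL _ hc o' ho', Finset.sum_eq_zero, add_zero]
    · rfl
    · intro i _
      by_cases hiJ : i ∈ J
      · rw [if_neg, mul_zero]
        intro h
        exact hex i hiJ (h i rfl)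
      · show (if i ∈ J then _ else 0) * _ = _
        rw [if_neg hiJ, zero_mul]

private theorem E2_mean (J : Finset ι) (h : ℕ → ℝ) (p : ℕ) (o o' : Option ι)
    (ho : ∀ i, o = some i → i ∈ J) (ho' : ∀ i, o' = some i → i ∈ J) :
    ∑ c : Option ι, E2_W J p o o' c * E2_hh (h p) c = mm h p o o' := by
  rw [Fintype.sum_option]
  have hn : E2_W J p o o' none * E2_hh (h p) (none : Option ι) =
      E2_L p o none * E2_L p o' none := by
    show E2_L p o none * E2_L p o' none * 1 = _
    rw [mul_one]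
  have hs : ∀ i : ι, E2_W J p o o' (some i) * E2_hh (h p) (some i) = (if i ∈ J then
      E2_L p o (some i) * E2_L p o' (some i) - E2_L p o none * E2_L p o' none else 0) * h p :=
    fun i => rfl
  rw [hn, Finset.sum_congr rfl fun i _ => hs i]
  cases o with
  | none =>
    cases o' with
    | none =>
      have h1 : ∀ i : ι, (if i ∈ J then
          E2_L p (none : Option ι) (some i) * E2_L p (none : Option ι) (some i) -
          E2_L p (none : Option ι) none * E2_L p (none : Option ι) none else 0) * h p = 0 := by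
        intro i
        have : E2_L p (none : Option ι) (some i) * E2_L p (none : Option ι) (some i) -
          E2_L p (none : Option ι) none * E2_L p (none : Option ι) none = 0 := by
          show (1 : ℝ) * 1 - 1 * 1 = 0
          norm_num
        rw [this, ite_self, zero_mul]
      rw [Finset.sum_eq_zero fun i _ => h1 i]
      show (1 : ℝ) * 1 + 0 = 1
      norm_num
    | some j =>
      have hj := ho' j rfl
      rw [Finset.sum_eq_single j]
      · rw [if_pos hj]
        have e1 : E2_L p (some j) (some j) = -1 := if_pos rfl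
        have e2 : E2_L p (some j) none = 1 / ((p : ℝ) - 1) := E2_L0 p j
        have e3 : ∀ c : Option ι, E2_L p (none : Option ι) c = 1 := fun _ => rfl
        rw [e1, e2, e3, e3]
        show _ = -h p + (1 - h p) / ((p : ℝ) - 1)
        ring
      · intro i _ hi
        by_cases hiJ : i ∈ J
        · have e1 : E2_L p (some j) (some i) = 1 / ((p : ℝ) - 1) :=
            if_neg (fun h => hi (Option.some.inj h))
          have e2 : E2_L p (some j) none = 1 / ((p : ℝ) - 1) := E2_L0 p j
          have e3 : ∀ c : Option ι, E2_L p (none : Option ι) c = 1 := fun _ => rfl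
          rw [if_pos hiJ, e1, e2, e3, e3, sub_self, zero_mul]
        · rw [if_neg hiJ, zero_mul]
      · intro hh
        exact absurd (Finset.mem_univ _) hh
  | some j =>
    have hj := ho j rfl
    have e2 : E2_L p (some j) none = 1 / ((p : ℝ) - 1) := E2_L0 p j
    cases o' with
    | none =>
      rw [Finset.sum_eq_single j]
      · rw [if_pos hj]
        have e1 : E2_L p (some j) (some j) = -1 := if_pos rfl
        have e3 : ∀ c : Option ι, E2_L p (none : Option ι) c = 1 := fun _ => rfl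
        rw [e1, e2, e3, e3]
        show _ = -h p + (1 - h p) / ((p : ℝ) - 1)
        ring
      · intro i _ hi
        by_cases hiJ : i ∈ J
        · have e1 : E2_L p (some j) (some i) = 1 / ((p : ℝ) - 1) :=
            if_neg (fun h => hi (Option.some.inj h))
          have e3 : ∀ c : Option ι, E2_L p (none : Option ι) c = 1 := fun _ => rfl
          rw [if_pos hiJ, e1, e2, e3, e3, sub_self, zero_mul]
        · rw [if_neg hiJ, zero_mul]
      · intro hh
        exact absurd (Finset.mem_univ _) hh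
    | some j' =>
      have hj' := ho' j' rfl
      have e2' : E2_L p (some j') none = 1 / ((p : ℝ) - 1) := E2_L0 p j'
      by_cases hjj : j = j'
      · subst hjj
        rw [Finset.sum_eq_single j]
        · rw [if_pos hj]
          have e1 : E2_L p (some j) (some j) = -1 := if_pos rfl
          rw [e1, e2]
          show _ = if j = j then h p + (1 - h p) / ((p : ℝ) - 1) ^ 2
            else -(2 * h p) / ((p : ℝ) - 1) + (1 - 2 * h p) / ((p : ℝ) - 1) ^ 2
          rw [if_pos rfl]
          rw [div_mul_div_comm, one_mul, ← pow_two]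
          ring
        · intro i _ hi
          by_cases hiJ : i ∈ J
          · have e1 : E2_L p (some j) (some i) = 1 / ((p : ℝ) - 1) :=
              if_neg (fun h => hi (Option.some.inj h))
            rw [if_pos hiJ, e1, e2, sub_self, zero_mul]
          · rw [if_neg hiJ, zero_mul]
        · intro hh
          exact absurd (Finset.mem_univ _) hh
      · have hterm : ∀ i : ι, (if i ∈ J then E2_L p (some j) (some i) * E2_L p (some j') (some i) -
            E2_L p (some j) none * E2_L p (some j') none else 0) * h p =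
            (if i = j then (-(1 / ((p : ℝ) - 1)) - 1 / ((p : ℝ) - 1) * (1 / ((p : ℝ) - 1))) * h p
              else 0) +
            (if i = j' then (-(1 / ((p : ℝ) - 1)) - 1 / ((p : ℝ) - 1) * (1 / ((p : ℝ) - 1))) * h p
              else 0) := by
          intro i
          rw [e2, e2']
          by_cases hij : i = j
          · subst hij
            have e1 : E2_L p (some i) (some i) = -1 := if_pos rfl
            have e3 : E2_L p (some j') (some i) = 1 / ((p : ℝ) - 1) :=
              if_neg (fun h => hjj (Option.some.inj h))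
            rw [if_pos hj, if_pos rfl, if_neg hjj, e1, e3]
            ring
          · by_cases hij' : i = j'
            · subst hij'
              have e1 : E2_L p (some i) (some i) = -1 := if_pos rfl
              have e3 : E2_L p (some j) (some i) = 1 / ((p : ℝ) - 1) :=
                if_neg (fun h => hij (Option.some.inj h))
              rw [if_pos hj', if_neg hij, if_pos rfl, e1, e3]
              ring
            · have e3 : E2_L p (some j) (some i) = 1 / ((p : ℝ) - 1) :=
                if_neg (fun h => hij (Option.some.inj h))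
              have e4 : E2_L p (some j') (some i) = 1 / ((p : ℝ) - 1) :=
                if_neg (fun h => hij' (Option.some.inj h))
              rw [if_neg hij, if_neg hij', e3, e4, sub_self, ite_self]
              ring
        rw [Finset.sum_congr rfl fun i _ => hterm i, Finset.sum_add_distrib, Finset.sum_ite_eq',
          Finset.sum_ite_eq', if_pos (Finset.mem_univ _), if_pos (Finset.mem_univ _), e2, e2']
        show _ = if j = j' then h p + (1 - h p) / ((p : ℝ) - 1) ^ 2
            else -(2 * h p) / ((p : ℝ) - 1) + (1 - 2 * h p) / ((p : ℝ) - 1) ^ 2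
        rw [if_neg hjj]
        have e5 : 1 / ((p : ℝ) - 1) * (1 / ((p : ℝ) - 1)) = 1 / ((p : ℝ) - 1) ^ 2 := by
          rw [div_mul_div_comm, one_mul, ← pow_two]
        rw [e5]
        ring

private theorem E2_expand (P : Finset ℕ) (F : P → Option ι → ℝ) :
    ∏ p : P, ∑ c, F p c = ∑ σ : P → Option ι, ∏ p, F p (σ p) := by
  rw [Finset.prod_univ_sum, Fintype.piFinset_univ]

private theorem E2_sp (P : Finset ℕ) (σ : P → Option ι) (g : ℕ → ℝ) :
    ∏ p ∈ sp P σ, g p = ∏ p : P, (if σ p = none then (1 : ℝ) else g p) := by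
  unfold sp
  rw [Finset.prod_image (fun x _ y _ h => Subtype.val_injective h), Finset.prod_filter]
  refine Finset.prod_congr rfl fun p _ => ?_
  by_cases h : σ p = none
  · rw [if_neg (not_not.2 h), if_pos h]
  · rw [if_pos h, if_neg h]

open scoped Classical in
private theorem E2_ind (P : Finset ℕ) (b : ι → ℕ) (σ : P → Option ι) (n : ℕ) :
    ∏ p : P, (if ∀ i, σ p = some i → (p : ℕ) ∣ n + b i then (1 : ℝ) else 0) =
      if ∀ p i, σ p = some i → (p : ℕ) ∣ n + b i then (1 : ℝ) else 0 := by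
  by_cases h : ∀ p i, σ p = some i → (p : ℕ) ∣ n + b i
  · rw [if_pos h]
    exact Finset.prod_eq_one fun p _ => if_pos (h p)
  · rw [if_neg h]
    push Not at h
    obtain ⟨p, i, h1, h2⟩ := h
    exact Finset.prod_eq_zero (Finset.mem_univ p) (if_neg (fun h3 => h2 (h3 i h1)))

private theorem E2_pair (P : Finset ℕ) (b : ι → ℕ) (J : Finset ι) (s : Finset ℕ) (om : ℕ → ℝ)
    (X : ℝ) (h Er : ℕ → ℝ) (hb : ∀ p ∈ P, ∀ i ∈ J, ∀ i' ∈ J, i ≠ i' → ¬ b i ≡ b i' [MOD p])
    (hD : DistG P b J s om X h Er) (β β' : P → Option ι) (hβ : alw P J β) (hβ' : alw P J β') :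
    |∑ n ∈ s, om n * (ee P b β n * ee P b β' n) - X * ∏ p : P, mm h (p : ℕ) (β p) (β' p)| ≤
      ∑ σ : P → Option ι, (∏ p : P, |E2_W J p (β p) (β' p) (σ p)|) * Er (∏ p ∈ sp P σ, p) := by
  classical
  have h1 : ∀ n, ee P b β n * ee P b β' n = ∑ σ : P → Option ι,
      (∏ p : P, E2_W J p (β p) (β' p) (σ p)) *
        (if ∀ p i, σ p = some i → (p : ℕ) ∣ n + b i then (1 : ℝ) else 0) := by
    intro n
    unfold ee
    rw [← Finset.prod_mul_distrib, Finset.prod_congr rfl fun (p : P) _ =>
      E2_pt J b (hb p p.2) (β p) (β' p) (fun i hi => hβ p i hi) (fun i hi => hβ' p i hi) n,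
      E2_expand]
    refine Finset.sum_congr rfl fun σ _ => ?_
    rw [Finset.prod_mul_distrib, E2_ind]
  have h2 : ∏ p : P, mm h (p : ℕ) (β p) (β' p) = ∑ σ : P → Option ι,
      (∏ p : P, E2_W J p (β p) (β' p) (σ p)) * ∏ p ∈ sp P σ, h p := by
    rw [Finset.prod_congr rfl fun (p : P) _ => (E2_mean J h (p : ℕ) (β p) (β' p)
      (fun i hi => hβ p i hi) (fun i hi => hβ' p i hi)).symm, E2_expand]
    refine Finset.sum_congr rfl fun σ _ => ?_
    rw [Finset.prod_mul_distrib, E2_sp]
    congr 1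
    refine Finset.prod_congr rfl fun p _ => ?_
    cases h3 : σ p with
    | none => rw [if_pos rfl]; rfl
    | some i => rw [if_neg (Option.some_ne_none i)]; rfl
  have h3 : ∑ n ∈ s, om n * (ee P b β n * ee P b β' n) - X * ∏ p : P, mm h (p : ℕ) (β p) (β' p) =
      ∑ σ : P → Option ι, (∏ p : P, E2_W J p (β p) (β' p) (σ p)) *
        (∑ n ∈ s, om n * (if ∀ p i, σ p = some i → (p : ℕ) ∣ n + b i then (1 : ℝ) else 0) -
          X * ∏ p ∈ sp P σ, h p) := by
    rw [h2, Finset.sum_congr rfl fun n _ => by rw [h1 n, Finset.mul_sum], Finset.sum_comm,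
      Finset.mul_sum, ← Finset.sum_sub_distrib]
    refine Finset.sum_congr rfl fun σ _ => ?_
    rw [mul_sub, Finset.mul_sum]
    congr 1
    · exact Finset.sum_congr rfl fun n _ => by ring
    · ring
  rw [h3]
  refine (Finset.abs_sum_le_sum_abs _ _).trans (Finset.sum_le_sum fun σ _ => ?_)
  rw [abs_mul, Finset.abs_prod]
  by_cases hσ : alw P J σ
  · exact mul_le_mul_of_nonneg_left (hD.hp σ hσ) (Finset.prod_nonneg fun p _ => abs_nonneg _)
  · unfold alw at hσ
    push Not at hσ
    obtain ⟨p, i, h4, h5⟩ := hσ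
    have h6 : ∏ p : P, |E2_W J p (β p) (β' p) (σ p)| = 0 := by
      refine Finset.prod_eq_zero (Finset.mem_univ p) ?_
      rw [h4, abs_eq_zero]
      exact if_neg h5
    rw [h6, zero_mul, zero_mul]

private theorem E2_rr {P T A B : Finset ℕ} (hP : ∀ p ∈ P, p.Prime) (hA : A ⊆ P) (hB : B ⊆ P)
    (hT : T ⊆ A ∪ B) : rr T ≤ rr A * rr B := by
  unfold rr
  have h1 : (∏ p ∈ T, p) ∣ (∏ p ∈ A, p) * ∏ p ∈ B, p := by
    refine (Finset.prod_dvd_prod_of_subset _ _ _ hT).trans ?_
    rw [← Finset.prod_union_inter]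
    exact dvd_mul_right _ _
  have h2 : 0 < (∏ p ∈ A, p) * ∏ p ∈ B, p :=
    Nat.mul_pos (Finset.prod_pos fun p hp => (hP p (hA hp)).pos)
      (Finset.prod_pos fun p hp => (hP p (hB hp)).pos)
  have h3 := Nat.le_of_dvd h2 h1
  have h4 : ((∏ p ∈ T, p : ℕ) : ℝ) ≤ (((∏ p ∈ A, p) * ∏ p ∈ B, p : ℕ) : ℝ) := by
    exact_mod_cast h3
  push_cast at h4
  exact h4

private theorem E2_w_nonneg {p : ℕ} (hp : 3 ≤ p) (o : Option ι) : 0 ≤ E2_w p o := by
  have h : (3 : ℝ) ≤ p := by exact_mod_cast hp
  cases o with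
  | none => exact zero_le_one
  | some i => exact div_nonneg (by linarith) (by linarith)

private theorem E2_rrph (P : Finset ℕ) (β : P → Option ι) :
    rr (sp P β) / ph (sp P β) = ∏ p : P, E2_w p (β p) := by
  unfold rr ph
  rw [← Finset.prod_div_distrib, E2_sp P β (fun p => (p : ℝ) / ((p : ℝ) - 1))]
  refine Finset.prod_congr rfl fun p _ => ?_
  cases h3 : β p with
  | none => rw [if_pos rfl]; rfl
  | some i => rw [if_neg (Option.some_ne_none i)]; rfl

private theorem E2_L_le {p : ℕ} (hp : 3 ≤ p) (o c : Option ι) : |E2_L p o c| ≤ 1 := by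
  have h : (3 : ℝ) ≤ p := by exact_mod_cast hp
  cases o with
  | none => show |(1 : ℝ)| ≤ 1; rw [abs_one]
  | some j =>
    show |if c = some j then (-1 : ℝ) else 1 / ((p : ℝ) - 1)| ≤ 1
    split_ifs
    · rw [abs_neg, abs_one]
    · rw [abs_of_nonneg (div_nonneg zero_le_one (by linarith)), div_le_one (by linarith)]
      linarith

private theorem E2_wsum {p : ℕ} (hp : 3 ≤ p) :
    ∑ o : Option ι, E2_w p o ≤ 1 + 2 * (Fintype.card ι : ℝ) := by
  have h : (3 : ℝ) ≤ p := by exact_mod_cast hp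
  rw [Fintype.sum_option]
  have h1 : ∀ i : ι, E2_w p (some i) ≤ 2 := fun i => by
    show (p : ℝ) / ((p : ℝ) - 1) ≤ 2
    rw [div_le_iff₀ (by linarith)]
    linarith
  have h2 : ∑ i : ι, E2_w p (some i) ≤ ∑ _i : ι, (2 : ℝ) := Finset.sum_le_sum fun i _ => h1 i
  rw [Finset.sum_const, Finset.card_univ, nsmul_eq_mul] at h2
  have h3 : E2_w p (none : Option ι) = 1 := rfl
  rw [h3]
  linarith

private theorem E2_Hsome (J : Finset ι) {p : ℕ} (hp : 3 ≤ p) (i : ι) :
    ∑ o : Option ι, ∑ o' : Option ι, E2_w p o * E2_w p o' * |E2_W J p o o' (some i)| ≤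
      2 * (1 + 2 * (Fintype.card ι : ℝ)) ^ 2 := by
  have h1 : ∀ o o' : Option ι, |E2_W J p o o' (some i)| ≤ 2 := by
    intro o o'
    show |if i ∈ J then E2_L p o (some i) * E2_L p o' (some i) -
      E2_L p o none * E2_L p o' none else 0| ≤ 2
    split_ifs
    · have h2 : |E2_L p o (some i) * E2_L p o' (some i)| ≤ 1 := by
        rw [abs_mul]
        exact mul_le_one₀ (E2_L_le hp _ _) (abs_nonneg _) (E2_L_le hp _ _)
      have h3 : |E2_L p o none * E2_L p o' none| ≤ 1 := by
        rw [abs_mul]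
        exact mul_le_one₀ (E2_L_le hp _ _) (abs_nonneg _) (E2_L_le hp _ _)
      exact (abs_sub _ _).trans (by linarith)
    · rw [abs_zero]; norm_num
  have h0 := E2_wsum (ι := ι) hp
  have h4 : 0 ≤ ∑ o : Option ι, E2_w p o := Finset.sum_nonneg fun o _ => E2_w_nonneg hp o
  calc ∑ o : Option ι, ∑ o' : Option ι, E2_w p o * E2_w p o' * |E2_W J p o o' (some i)|
      ≤ ∑ o : Option ι, ∑ o' : Option ι, E2_w p o * E2_w p o' * 2 :=
        Finset.sum_le_sum fun o _ => Finset.sum_le_sum fun o' _ =>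
          mul_le_mul_of_nonneg_left (h1 o o') (mul_nonneg (E2_w_nonneg hp o) (E2_w_nonneg hp o'))
    _ = 2 * (∑ o : Option ι, E2_w p o) ^ 2 := by
        rw [pow_two, Finset.sum_mul_sum, Finset.mul_sum]
        refine Finset.sum_congr rfl fun o _ => ?_
        rw [Finset.mul_sum]
        exact Finset.sum_congr rfl fun o' _ => by ring
    _ ≤ 2 * (1 + 2 * (Fintype.card ι : ℝ)) ^ 2 :=
        mul_le_mul_of_nonneg_left (pow_le_pow_left₀ h4 h0 2) (by norm_num)

private theorem E2_Hnone (J : Finset ι) {p : ℕ} (hp : 3 ≤ p) :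
    ∑ o : Option ι, ∑ o' : Option ι, E2_w p o * E2_w p o' * |E2_W J p o o' none| ≤
      1 + (3 * (Fintype.card ι : ℝ) + 2 * (Fintype.card ι : ℝ) ^ 2) / ((p : ℝ) - 1) := by
  have h : (3 : ℝ) ≤ p := by exact_mod_cast hp
  have hp1 : (0 : ℝ) < (p : ℝ) - 1 := by linarith
  set k : ℝ := (Fintype.card ι : ℝ) with hk
  have hk0 : 0 ≤ k := Nat.cast_nonneg _
  set x : ℝ := 1 / ((p : ℝ) - 1) with hx
  have hx0 : 0 < x := by positivity
  have hx2 : x ≤ 1 / 2 := by
    rw [hx, div_le_div_iff₀ hp1 (by norm_num)]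
    linarith
  have h1 : ∑ o : Option ι, ∑ o' : Option ι, E2_w p o * E2_w p o' * |E2_W J p o o' none| =
      (∑ o : Option ι, E2_w p o * |E2_L p o none|) ^ 2 := by
    rw [pow_two, Finset.sum_mul_sum]
    refine Finset.sum_congr rfl fun o _ => Finset.sum_congr rfl fun o' _ => ?_
    have e : E2_W J p o o' none = E2_L p o none * E2_L p o' none := rfl
    rw [e, abs_mul]
    ring
  have h2 : ∑ o : Option ι, E2_w p o * |E2_L p o none| = 1 + k * ((1 + x) * x) := by
    rw [Fintype.sum_option]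
    have e1 : E2_w p (none : Option ι) * |E2_L p (none : Option ι) none| = 1 := by
      show (1 : ℝ) * |(1 : ℝ)| = 1
      rw [abs_one, one_mul]
    have e2 : ∀ i : ι, E2_w p (some i) * |E2_L p (some i) none| = (1 + x) * x := by
      intro i
      have e3 : E2_L p (some i) none = x := E2_L0 p i
      have e4 : E2_w p (some i) = 1 + x := by
        show (p : ℝ) / ((p : ℝ) - 1) = 1 + x
        rw [hx]
        field_simp
        ring
      rw [e3, e4, abs_of_pos hx0]
    rw [e1, Finset.sum_congr rfl fun i _ => e2 i, Finset.sum_const, Finset.card_univ, nsmul_eq_mul]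
  rw [h1, h2]
  have h3 : (3 * k + 2 * k ^ 2) / ((p : ℝ) - 1) = (3 * k + 2 * k ^ 2) * x := by
    rw [hx]; ring
  rw [h3]
  have h4 : (1 + x) * x ≤ 3 / 2 * x := mul_le_mul_of_nonneg_right (by linarith) hx0.le
  have h5 : k * ((1 + x) * x) ≤ k * (3 / 2 * x) := mul_le_mul_of_nonneg_left h4 hk0
  have h6 : 0 ≤ k * ((1 + x) * x) := by positivity
  have h7 : (1 + k * ((1 + x) * x)) ^ 2 ≤ (1 + k * (3 / 2 * x)) ^ 2 :=
    pow_le_pow_left₀ (by linarith) (by linarith) 2
  refine h7.trans ?_
  have h8 : k ^ 2 * x ^ 2 ≤ k ^ 2 * (x * (1 / 2)) :=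
    mul_le_mul_of_nonneg_left (by nlinarith) (by positivity)
  nlinarith [mul_nonneg (sq_nonneg k) hx0.le]

private theorem E2_fiber (P : Finset ℕ) (H : P → Option ι → ℝ) (T : Finset ℕ) (hT : T ⊆ P) :
    ∑ σ : P → Option ι with sp P σ = T, ∏ p : P, H p (σ p) =
      ∏ p : P, (if (p : ℕ) ∈ T then ∑ i : ι, H p (some i) else H p none) := by
  classical
  have h1 : ∀ p : P, (if (p : ℕ) ∈ T then ∑ i : ι, H p (some i) else H p none) =
      ∑ c : Option ι, (if (c ≠ none ↔ (p : ℕ) ∈ T) then H p c else 0) := by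
    intro p
    rw [Fintype.sum_option]
    by_cases hp : (p : ℕ) ∈ T
    · rw [if_pos hp, if_neg (fun h => (h.2 hp) rfl), zero_add]
      exact Finset.sum_congr rfl fun i _ => (if_pos ⟨fun _ => hp, fun _ => Option.some_ne_none i⟩).symm
    · rw [if_neg hp, if_pos ⟨fun h => absurd rfl h, fun h => absurd h hp⟩, Finset.sum_eq_zero, add_zero]
      intro i _
      exact if_neg (fun h => hp (h.1 (Option.some_ne_none i)))
  rw [Finset.prod_congr rfl fun p _ => h1 p, E2_expand, Finset.sum_filter]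
  refine Finset.sum_congr rfl fun σ _ => ?_
  by_cases h : sp P σ = T
  · rw [if_pos h]
    refine Finset.prod_congr rfl fun p _ => (if_pos ?_).symm
    rw [← h, mem_sp]
    exact ⟨fun h2 => ⟨p.2, h2⟩, fun ⟨_, h2⟩ => h2⟩
  · rw [if_neg h]
    symm
    have h2 : ∃ p : P, ¬ (σ p ≠ none ↔ (p : ℕ) ∈ T) := by
      by_contra hcon
      push Not at hcon
      apply h
      ext q
      rw [mem_sp]
      constructor
      · rintro ⟨hq, h3⟩
        exact (hcon ⟨q, hq⟩).1 h3
      · intro hq
        exact ⟨hT hq, (hcon ⟨q, hT hq⟩).2 hq⟩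
    obtain ⟨p, hp⟩ := h2
    exact Finset.prod_eq_zero (Finset.mem_univ p) (if_neg hp)

end B11

theorem avgQG (k : ℕ) : ∃ C : ℕ, ∀ (ι : Type) [Fintype ι] [DecidableEq ι] (P : Finset ℕ)
    (b : ι → ℕ) (J : Finset ι) (s : Finset ℕ) (om : ℕ → ℝ) (X : ℝ) (h Er : ℕ → ℝ)
    (y : (P → Option ι) → ℝ) (Y D : ℝ), 0 ≤ Y → 0 ≤ D → Fintype.card ι = k → (∀ p ∈ P, p.Prime) → (∀ p ∈ P, 3 ≤ p) →
    (∀ p ∈ P, ∀ i ∈ J, ∀ i' ∈ J, i ≠ i' → ¬ b i ≡ b i' [MOD p]) →
    DistG P b J s om X h Er →
    (∀ β, y β ≠ 0 → alw P J β ∧ rr (sp P β) ≤ D) → (∀ β, |y β| ≤ Y * (rr (sp P β) / ph (sp P β))) →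
    |∑ n ∈ s, om n * PhiF P b y n ^ 2 - X * QQ P h y| ≤ Y ^ 2 * RemE C P (D ^ 2) Er := by
  refine ⟨2 * k * (1 + 2 * k) ^ 2 + 3 * k + 2 * k ^ 2, ?_⟩
  intro ι _ _ P b J s om X h Er y Y D hY hD0 hk hP hP3 hb hD hy hyb
  classical
  set C : ℕ := 2 * k * (1 + 2 * k) ^ 2 + 3 * k + 2 * k ^ 2 with hC
  set E : (P → Option ι) → (P → Option ι) → ℝ := fun β β' =>
    ∑ n ∈ s, om n * (ee P b β n * ee P b β' n) - X * ∏ p : P, mm h (p : ℕ) (β p) (β' p) with hE
  set K : Finset ℕ → ℝ := fun T => if rr T ≤ D ^ 2 then Er (∏ p ∈ T, p) else 0 with hK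
  have hK0 : ∀ T, 0 ≤ K T := fun T => by
    show 0 ≤ if rr T ≤ D ^ 2 then Er (∏ p ∈ T, p) else 0
    split_ifs
    · exact hD.Er_nonneg _
    · exact le_rfl
  -- the difference
  have h1 : ∑ n ∈ s, om n * PhiF P b y n ^ 2 - X * QQ P h y =
      ∑ β : P → Option ι, ∑ β' : P → Option ι, y β * y β' * E β β' := by
    have e1 : ∑ n ∈ s, om n * PhiF P b y n ^ 2 = ∑ β : P → Option ι, ∑ β' : P → Option ι,
        y β * y β' * ∑ n ∈ s, om n * (ee P b β n * ee P b β' n) := by
      have e2 : ∀ n, om n * PhiF P b y n ^ 2 = ∑ β : P → Option ι, ∑ β' : P → Option ι,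
          y β * y β' * (om n * (ee P b β n * ee P b β' n)) := by
        intro n
        unfold PhiF
        rw [pow_two, Finset.sum_mul_sum, Finset.mul_sum]
        refine Finset.sum_congr rfl fun β _ => ?_
        rw [Finset.mul_sum]
        exact Finset.sum_congr rfl fun β' _ => by ring
      rw [Finset.sum_congr rfl fun n _ => e2 n, Finset.sum_comm]
      refine Finset.sum_congr rfl fun β _ => ?_
      rw [Finset.sum_comm]
      refine Finset.sum_congr rfl fun β' _ => ?_
      rw [Finset.mul_sum]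
    rw [e1]
    unfold QQ
    rw [Finset.mul_sum, ← Finset.sum_sub_distrib]
    refine Finset.sum_congr rfl fun β _ => ?_
    rw [Finset.mul_sum, ← Finset.sum_sub_distrib]
    refine Finset.sum_congr rfl fun β' _ => ?_
    show _ = y β * y β' * (_ - _)
    ring
  -- one pair
  have h2 : ∀ β β' : P → Option ι, |y β * y β' * E β β'| ≤ ∑ σ : P → Option ι,
      Y ^ 2 * K (sp P σ) * ∏ p : P, (E2_w p (β p) * E2_w p (β' p) *
        |E2_W J p (β p) (β' p) (σ p)|) := by
    intro β β'
    have hnn : ∀ σ : P → Option ι, 0 ≤ Y ^ 2 * K (sp P σ) * ∏ p : P, (E2_w p (β p) * E2_w p (β' p) *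
        |E2_W J p (β p) (β' p) (σ p)|) := fun σ =>
      mul_nonneg (mul_nonneg (sq_nonneg _) (hK0 _)) (Finset.prod_nonneg fun p _ =>
        mul_nonneg (mul_nonneg (E2_w_nonneg (hP3 p p.2) _) (E2_w_nonneg (hP3 p p.2) _))
          (abs_nonneg _))
    by_cases hb0 : y β = 0
    · rw [hb0, zero_mul, zero_mul, abs_zero]
      exact Finset.sum_nonneg fun σ _ => hnn σ
    by_cases hb0' : y β' = 0
    · rw [hb0', mul_zero, zero_mul, abs_zero]
      exact Finset.sum_nonneg fun σ _ => hnn σ
    obtain ⟨ha, hr⟩ := hy β hb0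
    obtain ⟨ha', hr'⟩ := hy β' hb0'
    have e1 := E2_pair P b J s om X h Er hb hD β β' ha ha'
    have e2 : |y β| ≤ Y * ∏ p : P, E2_w p (β p) := by
      rw [← E2_rrph]; exact hyb β
    have e3 : |y β'| ≤ Y * ∏ p : P, E2_w p (β' p) := by
      rw [← E2_rrph]; exact hyb β'
    have hw : ∀ β : P → Option ι, 0 ≤ ∏ p : P, E2_w p (β p) := fun β =>
      Finset.prod_nonneg fun p _ => E2_w_nonneg (hP3 p p.2) _
    have e4 : |y β| * |y β'| ≤ (Y * ∏ p : P, E2_w p (β p)) * (Y * ∏ p : P, E2_w p (β' p)) :=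
      mul_le_mul e2 e3 (abs_nonneg _) (mul_nonneg hY (hw β))
    rw [abs_mul, abs_mul]
    refine (mul_le_mul e4 e1 (abs_nonneg _)
      (mul_nonneg (mul_nonneg hY (hw β)) (mul_nonneg hY (hw β')))).trans ?_
    rw [Finset.mul_sum]
    refine Finset.sum_le_sum fun σ _ => ?_
    have e5 : (Y * ∏ p : P, E2_w p (β p)) * (Y * ∏ p : P, E2_w p (β' p)) *
        ((∏ p : P, |E2_W J p (β p) (β' p) (σ p)|) * Er (∏ p ∈ sp P σ, p)) =
        Y ^ 2 * Er (∏ p ∈ sp P σ, p) * ∏ p : P, (E2_w p (β p) * E2_w p (β' p) *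
        |E2_W J p (β p) (β' p) (σ p)|) := by
      rw [Finset.prod_mul_distrib, Finset.prod_mul_distrib]
      ring
    rw [e5]
    by_cases hrr : rr (sp P σ) ≤ D ^ 2
    · have : K (sp P σ) = Er (∏ p ∈ sp P σ, p) := if_pos hrr
      rw [this]
    · have h6 : ∏ p : P, (E2_w p (β p) * E2_w p (β' p) *
          |E2_W J p (β p) (β' p) (σ p)|) = 0 := by
        have h7 : ¬ sp P σ ⊆ sp P β ∪ sp P β' := by
          intro hsub
          apply hrr
          refine (E2_rr hP (sp_subset P β) (sp_subset P β') hsub).trans ?_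
          rw [pow_two]
          exact mul_le_mul hr hr' (rr_pos P hP (sp_subset P β')).le hD0
        rw [Finset.not_subset] at h7
        obtain ⟨q, hq, hq'⟩ := h7
        rw [Finset.mem_union, not_or] at hq'
        obtain ⟨hqP, hqσ⟩ := (mem_sp P).1 hq
        have h8 : β ⟨q, hqP⟩ = none := by
          by_contra hne
          exact hq'.1 ((mem_sp P).2 ⟨hqP, hne⟩)
        have h9 : β' ⟨q, hqP⟩ = none := by
          by_contra hne
          exact hq'.2 ((mem_sp P).2 ⟨hqP, hne⟩)
        refine Finset.prod_eq_zero (Finset.mem_univ (⟨q, hqP⟩ : P)) ?_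
        obtain ⟨i, hi⟩ := Option.ne_none_iff_exists'.1 hqσ
        rw [h8, h9, hi]
        have h10 : E2_W J q (none : Option ι) (none : Option ι) (some i) = 0 := by
          show (if i ∈ J then (1 : ℝ) * 1 - 1 * 1 else 0) = 0
          rw [one_mul, sub_self, ite_self]
        show _ * |E2_W J q (none : Option ι) (none : Option ι) (some i)| = 0
        rw [h10, abs_zero, mul_zero]
      rw [h6, mul_zero, mul_zero]
  -- sum over the pairs
  set H : P → Option ι → ℝ := fun p c => ∑ o : Option ι, ∑ o' : Option ι,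
    E2_w p o * E2_w p o' * |E2_W J p o o' c| with hH
  have hH0 : ∀ p c, 0 ≤ H p c := fun p c => Finset.sum_nonneg fun o _ => Finset.sum_nonneg fun o' _ =>
    mul_nonneg (mul_nonneg (E2_w_nonneg (hP3 p p.2) _) (E2_w_nonneg (hP3 p p.2) _)) (abs_nonneg _)
  have h3 : |∑ n ∈ s, om n * PhiF P b y n ^ 2 - X * QQ P h y| ≤
      ∑ σ : P → Option ι, Y ^ 2 * K (sp P σ) * ∏ p : P, H p (σ p) := by
    rw [h1]
    refine (Finset.abs_sum_le_sum_abs _ _).trans ?_
    refine (Finset.sum_le_sum fun β _ => (Finset.abs_sum_le_sum_abs _ _).trans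
      (Finset.sum_le_sum fun β' _ => h2 β β')).trans (le_of_eq ?_)
    rw [Finset.sum_congr rfl fun β _ => Finset.sum_comm, Finset.sum_comm]
    refine Finset.sum_congr rfl fun σ _ => ?_
    have e1 : ∏ p : P, H p (σ p) = ∑ β : P → Option ι, ∑ β' : P → Option ι,
        ∏ p : P, (E2_w p (β p) * E2_w p (β' p) * |E2_W J p (β p) (β' p) (σ p)|) := by
      have e2 := E2_expand P (fun (p : P) (o : Option ι) => ∑ o' : Option ι,
        E2_w p o * E2_w p o' * |E2_W J p o o' (σ p)|)
      have e3 : ∏ p : P, H p (σ p) = ∏ p : P, ∑ o : Option ι, ∑ o' : Option ι,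
        E2_w p o * E2_w p o' * |E2_W J p o o' (σ p)| := rfl
      rw [e3, e2]
      refine Finset.sum_congr rfl fun β _ => ?_
      exact E2_expand P (fun (p : P) (o' : Option ι) =>
        E2_w p (β p) * E2_w p o' * |E2_W J p (β p) o' (σ p)|)
    rw [e1, Finset.mul_sum]
    refine Finset.sum_congr rfl fun β _ => ?_
    rw [Finset.mul_sum]
  refine h3.trans ?_
  -- group by the support
  have h4 : ∑ σ : P → Option ι, Y ^ 2 * K (sp P σ) * ∏ p : P, H p (σ p) =
      Y ^ 2 * ∑ T ∈ P.powerset, K T * ∏ p : P,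
        (if (p : ℕ) ∈ T then ∑ i : ι, H p (some i) else H p none) := by
    rw [Finset.mul_sum, ← Finset.sum_fiberwise_of_maps_to (g := fun σ : P → Option ι => sp P σ)
      (t := P.powerset) (fun σ _ => Finset.mem_powerset.2 (sp_subset P σ))]
    refine Finset.sum_congr rfl fun T hT => ?_
    rw [← E2_fiber P H T (Finset.mem_powerset.1 hT), Finset.mul_sum, Finset.mul_sum]
    refine Finset.sum_congr rfl fun σ hσ => ?_
    rw [(Finset.mem_filter.1 hσ).2]
    ring
  rw [h4]
  refine mul_le_mul_of_nonneg_left ?_ (sq_nonneg _)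
  unfold RemE
  rw [Finset.mul_sum, Finset.sum_filter]
  refine Finset.sum_le_sum fun T hT => ?_
  have hTP := Finset.mem_powerset.1 hT
  by_cases hrr : rr T ≤ D ^ 2
  · have e1 : K T = Er (∏ p ∈ T, p) := if_pos hrr
    rw [if_pos hrr, e1]
    have hkR : (Fintype.card ι : ℝ) = k := by rw [hk]
    have hCR : (C : ℝ) = 2 * k * (1 + 2 * k) ^ 2 + 3 * k + 2 * k ^ 2 := by
      rw [hC]; push_cast; ring
    have hk0 : (0 : ℝ) ≤ k := Nat.cast_nonneg _
    have hC0 : (0 : ℝ) ≤ C := Nat.cast_nonneg _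
    have e2 : ∏ p : P, (if (p : ℕ) ∈ T then ∑ i : ι, H p (some i) else H p none) ≤
        ∏ p : P, ((if (p : ℕ) ∈ T then (C : ℝ) else 1) * (1 + (C : ℝ) / (((p : ℕ) : ℝ) - 1))) := by
      refine Finset.prod_le_prod (fun p _ => ?_) fun p _ => ?_
      · split_ifs
        · exact Finset.sum_nonneg fun i _ => hH0 p _
        · exact hH0 p _
      · have h3p : (3 : ℝ) ≤ ((p : ℕ) : ℝ) := by exact_mod_cast hP3 p p.2
        have hp1 : (0 : ℝ) < ((p : ℕ) : ℝ) - 1 := by linarith
        by_cases hp : (p : ℕ) ∈ T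
        · rw [if_pos hp, if_pos hp]
          have e3 : ∑ i : ι, H p (some i) ≤ ∑ _i : ι, 2 * (1 + 2 * (Fintype.card ι : ℝ)) ^ 2 :=
            Finset.sum_le_sum fun i _ => E2_Hsome J (hP3 p p.2) i
          rw [Finset.sum_const, Finset.card_univ, nsmul_eq_mul, hkR] at e3
          have e4 : (k : ℝ) * (2 * (1 + 2 * k) ^ 2) ≤ C := by
            rw [hCR]
            nlinarith [sq_nonneg (k : ℝ)]
          have e5 : (C : ℝ) * 1 ≤ C * (1 + (C : ℝ) / (((p : ℕ) : ℝ) - 1)) :=
            mul_le_mul_of_nonneg_left (by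
              have : 0 ≤ (C : ℝ) / (((p : ℕ) : ℝ) - 1) := div_nonneg hC0 hp1.le
              linarith) hC0
          linarith
        · rw [if_neg hp, if_neg hp, one_mul]
          refine (E2_Hnone J (hP3 p p.2)).trans ?_
          rw [hkR]
          have e6 : (3 * (k : ℝ) + 2 * (k : ℝ) ^ 2) / (((p : ℕ) : ℝ) - 1) ≤
              (C : ℝ) / (((p : ℕ) : ℝ) - 1) := by
            refine div_le_div_of_nonneg_right ?_ hp1.le
            rw [hCR]
            have : (0 : ℝ) ≤ 2 * k * (1 + 2 * k) ^ 2 := by positivity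
            linarith
          linarith
    have e3 : ∏ p : P, ((if (p : ℕ) ∈ T then (C : ℝ) else 1) * (1 + (C : ℝ) / (((p : ℕ) : ℝ) - 1))) =
        (C : ℝ) ^ T.card * ∏ p ∈ P, (1 + (C : ℝ) / ((p : ℝ) - 1)) := by
      rw [Finset.prod_mul_distrib]
      congr 1
      · rw [Finset.prod_coe_sort P (fun p => if p ∈ T then (C : ℝ) else 1), ← Finset.prod_filter,
          Finset.prod_const]
        congr 2
        ext q
        rw [Finset.mem_filter]
        exact ⟨fun h => h.2, fun h => ⟨hTP h, h⟩⟩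
      · exact Finset.prod_coe_sort P (fun p => 1 + (C : ℝ) / ((p : ℝ) - 1))
    rw [e3] at e2
    calc Er (∏ p ∈ T, p) * ∏ p : P, (if (p : ℕ) ∈ T then ∑ i : ι, H p (some i) else H p none)
        ≤ Er (∏ p ∈ T, p) * ((C : ℝ) ^ T.card * ∏ p ∈ P, (1 + (C : ℝ) / ((p : ℝ) - 1))) :=
          mul_le_mul_of_nonneg_left e2 (hD.Er_nonneg _)
      _ = _ := by ring
  · have e1 : K T = 0 := if_neg hrr
    rw [if_neg hrr, e1, zero_mul]

end Pool.Agent.LibFS14
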