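import Pool.Agent.LibFS14.E0
import Pool.Agent.LibSP4.B17

/-!
Row E5 (SHORT). The remainder for a constant error.

PLAN. Only `T` with `rr T ≤ D ≤ Q` occur, for these `Er (∏ T) = E` (`rr T` is the cast of `∏ T`). So `RemE C (PP w Z) D Er = (E / 2) * RemE C (PP w Z) D (fun _ => 2)`. `PP w Z ⊆ PP w (Z ^ 2)`, all terms are `≥ 0` and the factors of the product
are `≥ 1`, so `RemE C (PP w Z) D (fun _ => 2) ≤ RemE C (PP w (Z ^ 2)) D (fun _ => 2) ≤ (Z ^ 2) ^ 2` (`Rem_const` with `Z ^ 2`).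
-/

open Finset

namespace Pool.Agent.LibFS14

open Pool.Agent.LibSP4
open Pool.Agent.LibRG87 hiding QQ


theorem Rem_small (C : ℕ) : ∃ Z0 : ℕ, ∀ (w Z : ℕ) (D Q E F : ℝ), Z0 ≤ Z → 2 ≤ w → w ≤ Z → 0 ≤ E → D ≤ (Z : ℝ) ^ 2 →
    D ≤ Q → RemE C (PP w Z) D (fun q => if (q : ℝ) ≤ Q then E else F) ≤ E * (Z : ℝ) ^ 4 := by
  classical
  obtain ⟨Z0, hZ0⟩ := Rem_const C
  refine ⟨max Z0 1, fun w Z D Q E F hZ hw hwZ hE hD hDQ => ?_⟩
  have hZ1 : 1 ≤ Z := (le_max_right _ _).trans hZ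
  have hZZ : Z ≤ Z ^ 2 := by nlinarith
  have hsub : PP w Z ⊆ PP w (Z ^ 2) := by
    unfold PP
    intro p hp
    rw [Finset.mem_filter, Finset.mem_Ioc] at hp ⊢
    exact ⟨⟨hp.1.1, hp.1.2.trans hZZ⟩, hp.2⟩
  have hprime : ∀ p ∈ PP w (Z ^ 2), (1 : ℝ) < p := by
    intro p hp
    unfold PP at hp
    exact_mod_cast (Finset.mem_filter.1 hp).2.one_lt
  have hfac : ∀ p ∈ PP w (Z ^ 2), (0 : ℝ) ≤ (C : ℝ) / ((p : ℝ) - 1) := by
    intro p hp
    exact div_nonneg (by positivity) (by linarith [hprime p hp])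
  have h0 := hZ0 w (Z ^ 2) D (((le_max_left _ _).trans hZ).trans hZZ) (by push_cast; exact hD) hw
    (hwZ.trans hZZ)
  -- the two products
  have hprod : ∏ p ∈ PP w Z, (1 + (C : ℝ) / ((p : ℝ) - 1)) ≤
      ∏ p ∈ PP w (Z ^ 2), (1 + (C : ℝ) / ((p : ℝ) - 1)) := by
    refine Finset.prod_le_prod_of_subset_of_one_le hsub ?_ ?_
    · intro p hp
      linarith [hfac p (hsub hp)]
    · intro p hp _
      linarith [hfac p hp]
  have hprod0 : 0 ≤ ∏ p ∈ PP w Z, (1 + (C : ℝ) / ((p : ℝ) - 1)) :=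
    Finset.prod_nonneg fun p hp => by linarith [hfac p (hsub hp)]
  -- the two sums
  have hsum : ∑ T ∈ (PP w Z).powerset with rr T ≤ D, (C : ℝ) ^ T.card *
      (fun q : ℕ => if (q : ℝ) ≤ Q then E else F) (∏ p ∈ T, p) ≤
      (E / 2) * ∑ T ∈ (PP w (Z ^ 2)).powerset with rr T ≤ D, (C : ℝ) ^ T.card *
        (fun _ : ℕ => (2 : ℝ)) (∏ p ∈ T, p) := by
    calc ∑ T ∈ (PP w Z).powerset with rr T ≤ D, (C : ℝ) ^ T.card *
          (fun q : ℕ => if (q : ℝ) ≤ Q then E else F) (∏ p ∈ T, p)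
        = ∑ T ∈ (PP w Z).powerset with rr T ≤ D, (C : ℝ) ^ T.card * E := by
          refine Finset.sum_congr rfl fun T hT => ?_
          have hT2 : rr T ≤ D := (Finset.mem_filter.1 hT).2
          have h1 : (((∏ p ∈ T, p : ℕ)) : ℝ) ≤ Q := by
            have h2 : (((∏ p ∈ T, p : ℕ)) : ℝ) = rr T := by
              unfold rr
              push_cast
              rfl
            rw [h2]
            exact hT2.trans hDQ
          simp only [if_pos h1]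
      _ ≤ ∑ T ∈ (PP w (Z ^ 2)).powerset with rr T ≤ D, (C : ℝ) ^ T.card * E := by
          refine Finset.sum_le_sum_of_subset_of_nonneg ?_ fun T _ _ => by positivity
          exact Finset.filter_subset_filter _ (Finset.powerset_mono.2 hsub)
      _ = _ := by
          rw [Finset.mul_sum]
          refine Finset.sum_congr rfl fun T _ => ?_
          ring
  have hsum0 : 0 ≤ ∑ T ∈ (PP w (Z ^ 2)).powerset with rr T ≤ D, (C : ℝ) ^ T.card *
        (fun _ : ℕ => (2 : ℝ)) (∏ p ∈ T, p) :=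
    Finset.sum_nonneg fun T _ => by positivity
  have hsum1 : 0 ≤ ∑ T ∈ (PP w Z).powerset with rr T ≤ D, (C : ℝ) ^ T.card *
      (fun q : ℕ => if (q : ℝ) ≤ Q then E else F) (∏ p ∈ T, p) := by
    refine Finset.sum_nonneg fun T hT => mul_nonneg (by positivity) ?_
    have hT2 : rr T ≤ D := (Finset.mem_filter.1 hT).2
    have h1 : (((∏ p ∈ T, p : ℕ)) : ℝ) ≤ Q := by
      have h2 : (((∏ p ∈ T, p : ℕ)) : ℝ) = rr T := by
        unfold rr
        push_cast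
        rfl
      rw [h2]
      exact hT2.trans hDQ
    simp only [if_pos h1]
    exact hE
  have hmain : RemE C (PP w Z) D (fun q => if (q : ℝ) ≤ Q then E else F) ≤
      (E / 2) * RemE C (PP w (Z ^ 2)) D (fun _ => 2) := by
    unfold RemE
    calc _ ≤ (∏ p ∈ PP w (Z ^ 2), (1 + (C : ℝ) / ((p : ℝ) - 1))) *
          ((E / 2) * ∑ T ∈ (PP w (Z ^ 2)).powerset with rr T ≤ D, (C : ℝ) ^ T.card *
            (fun _ : ℕ => (2 : ℝ)) (∏ p ∈ T, p)) := by
          convert mul_le_mul hprod hsum hsum1 (hprod0.trans hprod) using 2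
      _ = _ := by ring
  have hZ4 : ((Z ^ 2 : ℕ) : ℝ) ^ 2 = (Z : ℝ) ^ 4 := by
    push_cast
    ring
  calc _ ≤ (E / 2) * RemE C (PP w (Z ^ 2)) D (fun _ => 2) := hmain
    _ ≤ (E / 2) * ((Z ^ 2 : ℕ) : ℝ) ^ 2 := mul_le_mul_of_nonneg_left h0 (by positivity)
    _ = (E / 2) * (Z : ℝ) ^ 4 := by rw [hZ4]
    _ ≤ E * (Z : ℝ) ^ 4 := mul_le_mul_of_nonneg_right (by linarith) (by positivity)

end Pool.Agent.LibFS14
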