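import Pool.Agent.LibFS14.E1
import Pool.Agent.LibFS14.E2
import Pool.Agent.LibFS14.E5
import Pool.Agent.LibSP4.B25
import Pool.Agent.LibSP4.B26
import Pool.Agent.LibSP4.B03
import Pool.Agent.LibSP4.B04
import Pool.Agent.LibSP4.B09

/-!
Row E7 (MEDIUM). The mass at the primes (models: LibSP4/B27.lean and LibSP4/B28.lean).

PLAN. `P = PP w (y ^ M)`. For `m ∈ s` with `om m ≠ 0`: `PhiF P b (y0 ..) m = PhiF P b (y1 P y I (y ^ M) i) m` (`collapse1`, B03). `avgQG K` with `J = univ.erase i`, `y1` (`y1_bd`, B04), `Y = S1 P y I`, `D = y ^ M`; `near_diagG (K - 1)`; `DD_y1_ge` (B09) with `z = y ^ M`: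
`K ^ 2 * ∑ 1/(p-1)^2 ≤ e` (`sum_sq_small`, B26, `w` large) and `K * SL ≤ e * S2 * log (y ^ M / y ^ (2 ^ I)) = e * S2 * (M - 2 ^ I) * log y` (`asym 1 I M w (1/3)` (B25): `SL ≤ (4/3) kap log y ^ 2 (1 + I/2)`, `S2 ≥ (2/3) kap log y`, and `hp`).
Errors: `X * S1 ^ 2 * offE C P (K - 1) ≤ e X S1 ^ 2 S2 ^ (K - 1)` (`offE_small` with `e / 2 ^ K`), `S1 ^ 2 * RemE ≤ S1 ^ 2 * E * y ^ (4 M) ≤ S1 ^ 2 X / y ≤ e X S1 ^ 2 S2 ^ (K - 1)`. Sum: `1 - 4 e - e - e`.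
-/

open Finset

namespace Pool.Agent.LibFS14

open Pool.Agent.LibSP4
open Pool.Agent.LibRG87 hiding QQ


private theorem E7_A1 {X e s1 s2 Rm off Sg Q D : ℝ} (hX : 0 ≤ X) (he : 0 ≤ e) (hs2 : 1 ≤ s2)
    (h1 : |Sg - X * Q| ≤ s1 ^ 2 * Rm) (h2 : Rm ≤ e * X) (h3 : |Q - D| ≤ s1 ^ 2 * off) (h4 : off ≤ e * s2)
    (h5 : (1 - 4 * e) * (s1 ^ 2 * s2) ≤ D) : (1 - 6 * e) * (X * (s1 ^ 2 * s2)) ≤ Sg := by
  have a1 := (abs_le.1 h1).1
  have a3 := (abs_le.1 h3).1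
  have b1 : s1 ^ 2 * Rm ≤ s1 ^ 2 * (e * X) := mul_le_mul_of_nonneg_left h2 (sq_nonneg _)
  have b2 : s1 ^ 2 * off ≤ s1 ^ 2 * (e * s2) := mul_le_mul_of_nonneg_left h4 (sq_nonneg _)
  have b3 : (1 - 5 * e) * (s1 ^ 2 * s2) ≤ Q := by linarith
  have b4 : X * ((1 - 5 * e) * (s1 ^ 2 * s2)) ≤ X * Q := mul_le_mul_of_nonneg_left b3 hX
  have b5 : s1 ^ 2 * (e * X) * 1 ≤ s1 ^ 2 * (e * X) * s2 :=
    mul_le_mul_of_nonneg_left hs2 (mul_nonneg (sq_nonneg _) (mul_nonneg he hX))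
  linarith

private theorem E7_ratio {P : Finset ℕ} (hP : ∀ p ∈ P, p.Prime) {A : Finset ℕ} (hA : A ⊆ P) :
    1 ≤ rr A / ph A := by
  have h0 := ph_pos P hP hA
  rw [le_div_iff₀ h0, one_mul]
  unfold ph rr
  refine Finset.prod_le_prod (fun p hp => ?_) (fun p _ => by linarith)
  have : (1 : ℝ) ≤ p := by exact_mod_cast (hP p (hA hp)).one_lt.le
  linarith

open Filter in
theorem lower (K I M : ℕ) (hK : 1 ≤ K) (hIM : 2 ^ I < M) (e : ℝ) (he : 0 < e) (he1 : e ≤ 1 / 8)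
    (hp : (K : ℝ) * (I + 2) ≤ e * (M - 2 ^ I)) : ∃ w0 : ℕ, ∀ w ≥ w0, ∀ᶠ y : ℕ in atTop,
    ∀ (i : Fin K) (s : Finset ℕ) (om h : ℕ → ℝ) (X E F : ℝ), 0 ≤ E → E * (y : ℝ) ^ (4 * M + 1) ≤ X →
    DistG (PP w (y ^ M)) (bb K) (univ.erase i) s om X h (fun q => if (q : ℝ) ≤ (y : ℝ) ^ (8 * M) then E else F) →
    (∀ m ∈ s, om m ≠ 0 → ∀ p ∈ PP w (y ^ M), ¬ p ∣ m + i) →
    (1 - 6 * e) * (X * (S1 (PP w (y ^ M)) y I ^ 2 * S2 (PP w (y ^ M)) y I ^ (K - 1))) ≤ ∑ m ∈ s, om m * Ph K w M I y m := by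
  obtain ⟨C10, hC10, hnd⟩ := near_diagG (K - 1)
  obtain ⟨C11, hav⟩ := avgQG K
  obtain ⟨Z0, hZ0⟩ := Rem_small C11
  have hM1 : 1 ≤ M := lt_of_le_of_lt (Nat.zero_le _) hIM
  have hk0 : (0 : ℝ) < K := by exact_mod_cast hK
  obtain ⟨w1, hw1⟩ := offE_small (K - 1) C10 hC10 M hM1 (e / 2 ^ (K - 1)) (by positivity)
  obtain ⟨w2, hw2⟩ := sum_sq_small (e / (K : ℝ) ^ 2) (by positivity)
  refine ⟨max (max w1 w2) (max K 3), fun w hw => ?_⟩
  have hwa : w1 ≤ w := le_trans (le_trans (le_max_left _ _) (le_max_left _ _)) hw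
  have hwb : w2 ≤ w := le_trans (le_trans (le_max_right _ _) (le_max_left _ _)) hw
  have hwc : K ≤ w := le_trans (le_trans (le_max_left _ _) (le_max_right _ _)) hw
  have hwd : 3 ≤ w := le_trans (le_trans (le_max_right _ _) (le_max_right _ _)) hw
  have hPY : ∀ y, PY w 1 M y = PP w (y ^ M) := by
    intro y
    unfold PY
    rw [mul_one]
  filter_upwards [hw1 w hwa, asym 1 I M w le_rfl hIM (1 / 4) (by norm_num),
    eventually_ge_atTop (max (max w Z0) (max 2 ⌈1 / e⌉₊))] with y hoff hasy hy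
  intro i s om h X E F hE hEX hdist hev
  simp only [hPY] at hasy
  have hyw : w ≤ y := le_trans (le_trans (le_max_left _ _) (le_max_left _ _)) hy
  have hyZ : Z0 ≤ y := le_trans (le_trans (le_max_right _ _) (le_max_left _ _)) hy
  have hy2 : 2 ≤ y := le_trans (le_trans (le_max_left _ _) (le_max_right _ _)) hy
  have hye : ⌈1 / e⌉₊ ≤ y := le_trans (le_trans (le_max_right _ _) (le_max_right _ _)) hy
  have hX0 : 0 ≤ X := hdist.X_nonneg
  have hyR : (2 : ℝ) ≤ y := by exact_mod_cast hy2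
  have hy1 : (1 : ℝ) ≤ y := by linarith
  have hyy : y ≤ y ^ M := by
    calc y = y ^ 1 := (pow_one y).symm
      _ ≤ y ^ M := Nat.pow_le_pow_right (by omega) hM1
  have hlog : 0 < Real.log y := Real.log_pos (by linarith)
  have hP : ∀ p ∈ PP w (y ^ M), p.Prime := fun p hp => (Finset.mem_filter.1 hp).2
  have hPw : ∀ p ∈ PP w (y ^ M), w < p := fun p hp => (Finset.mem_Ioc.1 (Finset.mem_filter.1 hp).1).1
  have hPZ : ∀ p ∈ PP w (y ^ M), p ≤ y ^ M := fun p hp => (Finset.mem_Ioc.1 (Finset.mem_filter.1 hp).1).2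
  have hP3 : ∀ p ∈ PP w (y ^ M), 3 ≤ p := fun p hp => by
    have := hPw p hp
    omega
  obtain ⟨L, hL⟩ : ∃ L, L = kap w * Real.log y := ⟨_, rfl⟩
  have hL0 : 0 < L := by
    rw [hL]
    exact mul_pos (kap_pos w) hlog
  obtain ⟨as1, as2, as3, as4, as5, as6, as7⟩ := hasy
  have hS1 := one_le_S1 hP (y := y) (by omega) I
  have hS2 := one_le_S2 hP (y := y) (by omega) I
  have hLS2 : L ≤ 2 * S2 (PP w (y ^ M)) y I := by
    rw [← hL] at as3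
    linarith
  have hS2p : 1 ≤ S2 (PP w (y ^ M)) y I ^ (K - 1) := one_le_pow₀ hS2
  have hz0 : (0 : ℝ) ≤ (y : ℝ) ^ M := by positivity
  have hcard : Fintype.card (Fin K) = K := Fintype.card_fin K
  have hcardJ : (univ.erase i : Finset (Fin K)).card = K - 1 := by
    rw [Finset.card_erase_of_mem (Finset.mem_univ i), Finset.card_univ, hcard]
  have hmod : ∀ p ∈ PP w (y ^ M), ∀ i₁ ∈ (univ.erase i : Finset (Fin K)), ∀ i₂ ∈ (univ.erase i : Finset (Fin K)),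
      i₁ ≠ i₂ → ¬ bb K i₁ ≡ bb K i₂ [MOD p] := by
    intro p hp i₁ _ i₂ _ h12 hmod
    apply h12
    have h3 := hPw p hp
    have h4 := i₁.2
    have h5 := i₂.2
    exact Fin.ext (Nat.ModEq.eq_of_lt_of_lt hmod (show (i₁ : ℕ) < p by omega) (show (i₂ : ℕ) < p by omega))
  have hbd := fun β => y1_bd (PP w (y ^ M)) hP y I ((y : ℝ) ^ M) i β
  have hbd2 : ∀ β, |y1 (PP w (y ^ M)) y I ((y : ℝ) ^ M) i β| ≤
      S1 (PP w (y ^ M)) y I * (rr (sp (PP w (y ^ M)) β) / ph (sp (PP w (y ^ M)) β)) := by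
    intro β
    rw [abs_of_nonneg (hbd β).1]
    refine (hbd β).2.1.trans ?_
    exact le_mul_of_one_le_right (by linarith) (E7_ratio hP (sp_subset _ β))
  have m1 := hav (Fin K) (PP w (y ^ M)) (bb K) (univ.erase i) s om X h
    (fun q => if (q : ℝ) ≤ (y : ℝ) ^ (8 * M) then E else F)
    (y1 (PP w (y ^ M)) y I ((y : ℝ) ^ M) i) (S1 (PP w (y ^ M)) y I) ((y : ℝ) ^ M) (by linarith) hz0 hcard hP hP3 hmod
    hdist (fun β hβ => ⟨((hbd β).2.2 hβ).2, ((hbd β).2.2 hβ).1⟩) hbd2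
  have m2 := hnd (Fin K) (PP w (y ^ M)) (univ.erase i) h
    (y1 (PP w (y ^ M)) y I ((y : ℝ) ^ M) i) (S1 (PP w (y ^ M)) y I) (by linarith) hP3 hcardJ hdist.h_ge hdist.h_le
    (fun β hβ => ((hbd β).2.2 hβ).2) hbd2
  have m3 : RemE C11 (PP w (y ^ M)) (((y : ℝ) ^ M) ^ 2)
      (fun q => if (q : ℝ) ≤ (y : ℝ) ^ (8 * M) then E else F) ≤ e * X := by
    have hR := hZ0 w (y ^ M) (((y : ℝ) ^ M) ^ 2) ((y : ℝ) ^ (8 * M)) E F (hyZ.trans hyy) (by omega) (hyw.trans hyy) hE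
      (by rw [Nat.cast_pow]) (by
        rw [← pow_mul]
        exact pow_le_pow_right₀ hy1 (by omega))
    refine hR.trans ?_
    have hey : 1 ≤ e * y := by
      have h3 : 1 / e ≤ y := (Nat.le_ceil _).trans (by exact_mod_cast hye)
      rw [div_le_iff₀ he] at h3
      linarith
    have h4 : E * ((y ^ M : ℕ) : ℝ) ^ 4 * y = E * (y : ℝ) ^ (4 * M + 1) := by
      rw [Nat.cast_pow, ← pow_mul, mul_comm M 4, pow_succ]
      ring
    have h5 : 0 ≤ E * ((y ^ M : ℕ) : ℝ) ^ 4 := by positivity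
    calc E * ((y ^ M : ℕ) : ℝ) ^ 4 ≤ E * ((y ^ M : ℕ) : ℝ) ^ 4 * (e * y) := le_mul_of_one_le_right h5 hey
      _ = e * (E * ((y ^ M : ℕ) : ℝ) ^ 4 * y) := by ring
      _ ≤ e * X := by
          rw [h4]
          exact mul_le_mul_of_nonneg_left hEX he.le
  have m4 : offE C10 (PP w (y ^ M)) (K - 1) ≤ e * S2 (PP w (y ^ M)) y I ^ (K - 1) := by
    refine hoff.trans ?_
    rw [← hL]
    calc e / 2 ^ (K - 1) * L ^ (K - 1) ≤ e / 2 ^ (K - 1) * (2 * S2 (PP w (y ^ M)) y I) ^ (K - 1) :=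
          mul_le_mul_of_nonneg_left (pow_le_pow_left₀ hL0.le hLS2 _) (by positivity)
      _ = e * S2 (PP w (y ^ M)) y I ^ (K - 1) := by
          rw [mul_pow]
          field_simp
  have hyz : (y : ℝ) ^ (2 ^ I) < (y : ℝ) ^ M := pow_lt_pow_right₀ (by linarith) hIM
  have hsum : (Fintype.card (Fin K) : ℝ) ^ 2 * ∑ p ∈ PP w (y ^ M), 1 / ((p : ℝ) - 1) ^ 2 ≤ e := by
    have h3 := hw2 w (y ^ M) hwb
    rw [hcard]
    rw [le_div_iff₀ (by positivity)] at h3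
    linarith
  have hSL : Fintype.card (Fin K) * SL (PP w (y ^ M)) y I ≤
      e * S2 (PP w (y ^ M)) y I * Real.log ((y : ℝ) ^ M / (y : ℝ) ^ (2 ^ I)) := by
    have h3 : Real.log ((y : ℝ) ^ M / (y : ℝ) ^ (2 ^ I)) = ((M : ℝ) - 2 ^ I) * Real.log y := by
      rw [Real.log_div (by positivity) (by positivity), Real.log_pow, Real.log_pow]
      push_cast
      ring
    rw [h3, hcard]
    have hd : 0 ≤ (M : ℝ) - 2 ^ I := by
      have : (2 : ℝ) ^ I < M := by exact_mod_cast hIM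
      linarith
    have h4 : (K : ℝ) * SL (PP w (y ^ M)) y I ≤
        (K : ℝ) * ((1 + 1 / 4) * (kap w * Real.log y ^ 2 * (1 + I / 2))) :=
      mul_le_mul_of_nonneg_left as5 hk0.le
    have h5 : e * ((1 - 1 / 4) * (kap w * Real.log y)) * (((M : ℝ) - 2 ^ I) * Real.log y) ≤
        e * S2 (PP w (y ^ M)) y I * (((M : ℝ) - 2 ^ I) * Real.log y) :=
      mul_le_mul_of_nonneg_right (mul_le_mul_of_nonneg_left as3 he.le) (mul_nonneg hd hlog.le)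
    have h6 : 0 ≤ kap w * Real.log y ^ 2 := mul_nonneg (kap_pos w).le (sq_nonneg _)
    have h7 : (K : ℝ) * ((1 + 1 / 4) * (kap w * Real.log y ^ 2 * (1 + I / 2))) ≤
        e * ((1 - 1 / 4) * (kap w * Real.log y)) * (((M : ℝ) - 2 ^ I) * Real.log y) := by
      have h8 : (kap w * Real.log y ^ 2) * ((K : ℝ) * (I + 2)) ≤
          (kap w * Real.log y ^ 2) * (e * (M - 2 ^ I)) := mul_le_mul_of_nonneg_left hp h6
      have h9 : 0 ≤ (kap w * Real.log y ^ 2) * (e * (M - 2 ^ I)) :=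
        mul_nonneg h6 (mul_nonneg he.le hd)
      nlinarith
    linarith
  have m5 := DD_y1_ge (PP w (y ^ M)) hP (y := y) (by omega) I ((y : ℝ) ^ M) e he.le he1 hyz i hsum hSL
  rw [hcard] at m5
  have m6 := E7_A1 hX0 he.le hS2p m1 m3 m2 m4 m5
  refine m6.trans (le_of_eq ?_)
  refine Finset.sum_congr rfl fun m hm => ?_
  by_cases hom : om m = 0
  · rw [hom, zero_mul, zero_mul]
  · unfold Ph
    rw [collapse1 (PP w (y ^ M)) hP (y := y) (by omega) I ((y : ℝ) ^ M) (bb K) i m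
      (fun p hp _ => hev m hm hom p hp)]

end Pool.Agent.LibFS14
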