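import Pool.Agent.LibFS14.Defs
import Pool.Agent.LibPNT.PNT

/-!
Row H4 (SHORT/MEDIUM). The mass of the primes.

PLAN. Prime number theorem (`LibPNT.thetaAP_tendsto` with modulus `1`, or any form in the libraries: `∑_{p ≤ x} log p ~ x`): `∑_{ρ N + c < q ≤ 2 ρ N - c} log q ~ ρ N`, `c = |u|`; so it is `≥ (9/10) ρ N` for large `N`, and `X1 ≥ (9/10) cF N / W`.
Also the upper bound `D.L i n ≤ 2 ρ N`, i.e. `th i N n ≤ log (2 ρ N)`.
-/

open Finset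

namespace Pool.Agent.LibFS14

private theorem H4_rho_pos {K : ℕ} (D : Data K) (i : Fin K) : 0 < D.rho i := D.sys.pos i

private theorem H4_theta {x y : ℝ} (s : Finset ℕ)
    (h : ∀ q : ℕ, q.Prime → x < q → (q : ℝ) ≤ y → q ∈ s) :
    Chebyshev.theta y - Chebyshev.theta x ≤ ∑ q ∈ s, Real.log q := by
  classical
  unfold Chebyshev.theta
  have hsub : (Ioc 0 ⌊y⌋₊).filter Nat.Prime ⊆ (Ioc 0 ⌊x⌋₊).filter Nat.Prime ∪ s := by
    intro q hq
    rw [mem_filter, mem_Ioc] at hq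
    obtain ⟨⟨hq0, hqy⟩, hp⟩ := hq
    rw [mem_union, mem_filter, mem_Ioc]
    by_cases hx : (q : ℝ) ≤ x
    · exact Or.inl ⟨⟨hq0, Nat.le_floor hx⟩, hp⟩
    · exact Or.inr (h q hp (lt_of_not_ge hx) ((Nat.le_floor_iff' hq0.ne').1 hqy))
  have h1 : ∑ q ∈ (Ioc 0 ⌊y⌋₊).filter Nat.Prime, Real.log q ≤
      ∑ q ∈ (Ioc 0 ⌊x⌋₊).filter Nat.Prime ∪ s, Real.log q :=
    sum_le_sum_of_subset_of_nonneg hsub fun q _ _ => Real.log_natCast_nonneg q
  have h2 := sum_union_inter (s₁ := (Ioc 0 ⌊x⌋₊).filter Nat.Prime) (s₂ := s)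
    (f := fun q : ℕ => Real.log q)
  have h3 : 0 ≤ ∑ q ∈ (Ioc 0 ⌊x⌋₊).filter Nat.Prime ∩ s, Real.log q :=
    sum_nonneg fun q _ => Real.log_natCast_nonneg q
  linarith

private theorem H4_pnt : ∃ x0 : ℝ, 1 ≤ x0 ∧ ∀ x ≥ x0,
    99 / 100 * x ≤ Chebyshev.theta x ∧ Chebyshev.theta x ≤ 101 / 100 * x := by
  have h := LibPNT.theta_tendsto
  have h1 := h.eventually (lt_mem_nhds (show (99 / 100 : ℝ) < 1 by norm_num))
  have h2 := h.eventually (gt_mem_nhds (show (1 : ℝ) < 101 / 100 by norm_num))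
  obtain ⟨x0, hx0⟩ := Filter.eventually_atTop.1 (h1.and h2)
  refine ⟨max x0 1, le_max_right _ _, fun x hx => ?_⟩
  obtain ⟨h3, h4⟩ := hx0 x (le_trans (le_max_left _ _) hx)
  have hx1 : 0 < x := lt_of_lt_of_le one_pos (le_trans (le_max_right _ _) hx)
  rw [lt_div_iff₀ hx1] at h3
  rw [div_lt_iff₀ hx1] at h4
  exact ⟨h3.le, h4.le⟩

theorem X1_ge {K : ℕ} (D : Data K) (i : Fin K) (w : ℕ) : ∃ N0 : ℕ, ∀ N ≥ N0,
    9 / 10 * (D.cF * N / (primorial w : ℝ)) ≤ D.X1 i w N := by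
  have hr := H4_rho_pos D i
  obtain ⟨x0, hx1, hx0⟩ := H4_pnt
  have hc0 : 0 ≤ |(D.u i : ℝ)| := abs_nonneg _
  obtain ⟨N0, hN0⟩ := exists_nat_ge ((x0 + 100 * |(D.u i : ℝ)|) / D.rho i)
  refine ⟨N0, fun N hN => ?_⟩
  have hNr : x0 + 100 * |(D.u i : ℝ)| ≤ D.rho i * N := by
    have h1 : (x0 + 100 * |(D.u i : ℝ)|) / D.rho i ≤ N := hN0.trans (by exact_mod_cast hN)
    rw [div_le_iff₀ hr] at h1
    linarith
  have h1 := (hx0 (2 * D.rho i * N - |(D.u i : ℝ)|) (by nlinarith)).1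
  have h2 := (hx0 (D.rho i * N + |(D.u i : ℝ)|) (by linarith)).2
  have h3 := H4_theta (x := D.rho i * N + |(D.u i : ℝ)|)
    (y := 2 * D.rho i * N - |(D.u i : ℝ)|) (D.Rg i N) (by
      intro q hq hqx hqy
      unfold Data.Rg
      rw [mem_filter, mem_range]
      refine ⟨?_, hq, hqx, hqy⟩
      exact Nat.lt_succ_of_le (Nat.le_floor (by linarith)))
  have h4 : 9 / 10 * (D.rho i * N) ≤ ∑ q ∈ D.Rg i N, Real.log q := by nlinarith
  have hP : (0 : ℝ) < primorial w := by exact_mod_cast primorial_pos w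
  have hcF := D.bump.cpos
  unfold Data.X1
  calc 9 / 10 * (D.cF * N / (primorial w : ℝ))
      = D.cF / ((primorial w : ℝ) * D.rho i) * (9 / 10 * (D.rho i * N)) := by
        field_simp
    _ ≤ _ := mul_le_mul_of_nonneg_left h4 (by positivity)

theorem th_bd {K : ℕ} (D : Data K) (i : Fin K) : ∃ N0 : ℕ, ∀ N ≥ N0, ∀ n : ℕ,
    0 ≤ D.th i N n ∧ D.th i N n ≤ Real.log (2 * D.rho i * N) := by
  have hr := H4_rho_pos D i
  obtain ⟨N0, hN0⟩ := exists_nat_ge (1 / (2 * D.rho i))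
  refine ⟨N0, fun N hN n => ?_⟩
  have h1 : 1 ≤ 2 * D.rho i * N := by
    have h2 : 1 / (2 * D.rho i) ≤ N := hN0.trans (by exact_mod_cast hN)
    rw [div_le_iff₀ (by linarith)] at h2
    linarith
  unfold Data.th
  split_ifs with h
  · obtain ⟨q, hq, hqL⟩ := h
    unfold Data.Rg at hq
    rw [mem_filter] at hq
    obtain ⟨-, hp, -, hqy⟩ := hq
    rw [← hqL]
    have h3 : (0 : ℝ) < ((q : ℤ) : ℝ) := by exact_mod_cast hp.pos
    have h4 : (1 : ℝ) ≤ ((q : ℤ) : ℝ) := by exact_mod_cast hp.one_le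
    refine ⟨Real.log_nonneg h4, Real.log_le_log h3 ?_⟩
    have hc0 : 0 ≤ |(D.u i : ℝ)| := abs_nonneg _
    push_cast
    linarith
  · exact ⟨le_refl _, Real.log_nonneg h1⟩

end Pool.Agent.LibFS14
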