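import Pool.Agent.LibFS14.H3
import Pool.Agent.LibFS14.H4
import Pool.Agent.LibFS14.E3
import Pool.Agent.LibFS14.E4
import Pool.Agent.LibFS14.E7

/-!
Row E10 (SHORT/MEDIUM). The mass at the primes of the form `i`.

PLAN. As E9 with `lower` (E7), `om n = D.f n * D.th i N n` (`≥ 0`: `D.th i N n` is `0` or `log` of a prime), `X = D.X1 i w N`, `h p = 1/p` (`≥ 1/p - 1/p^2`, `≤ 1/(p-1)`), `E = C * (y ^ (8 M)) ^ 999` (`dist1`, H3), `J = univ.erase i` (so `t p ≠ i`). `E * y ^ (4 M + 1) ≤ X`: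
`X ≥ (9/10) cF N / W` (`X1_ge`, H4) and `C Y ^ 999 y ^ (4 M + 1)`, `y ^ (4 M + 1) ≤ y ^ (8 M - 1)= Y / y`. `om n ≠ 0` implies that `L i n = q` is a prime of `Rg`, `q > ρ N > y ^ M` for large `y`, so no `p ∈ P` divides it: `¬ D.hit p i n`, `¬ p ∣ enc n + i`.
-/

open Finset

namespace Pool.Agent.LibFS14

open Pool.Agent.LibSP4
open Pool.Agent.LibRG87 hiding QQ


private theorem E10_rho {K : ℕ} (D : Data K) (i : Fin K) : 0 < D.rho i := D.sys.pos i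

open scoped Classical in
private theorem E10_th_nonneg {K : ℕ} (D : Data K) (i : Fin K) (N n : ℕ) : 0 ≤ D.th i N n := by
  unfold Data.th
  split_ifs with h
  · obtain ⟨q, hq, hqL⟩ := h
    rw [← hqL, Int.cast_natCast]
    exact Real.log_natCast_nonneg q
  · exact le_rfl

/-- the primes of `Rg` are too large for hits -/
private theorem E10_nohit {K : ℕ} (D : Data K) (i : Fin K) (N n z : ℕ) (hz : (z : ℝ) ≤ D.rho i * N)
    (h : D.th i N n ≠ 0) (p : ℕ) (hp : p.Prime) (hpz : p ≤ z) : ¬ D.hit p i n := by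
  classical
  intro hh
  unfold Data.th at h
  by_cases hex : ∃ q ∈ D.Rg i N, (q : ℤ) = D.L i n
  · obtain ⟨q, hq, hqL⟩ := hex
    have h1 : (p : ℤ) ∣ (q : ℤ) := by
      rw [hqL]
      exact hh.1
    have h2 : p ∣ q := by exact_mod_cast h1
    unfold Data.Rg at hq
    rw [mem_filter] at hq
    obtain ⟨-, hqp, hq1, -⟩ := hq
    have h3 : p = q := (Nat.prime_dvd_prime_iff_eq hp hqp).1 h2
    have h4 : (q : ℝ) ≤ z := by
      rw [← h3]
      exact_mod_cast hpz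
    have h5 : 0 ≤ |(D.u i : ℝ)| := abs_nonneg _
    linarith
  · rw [if_neg hex] at h
    exact h rfl

open Filter in
theorem prime_ge (K I M : ℕ) (hK : 1 ≤ K) (hIM : 2 ^ I < M) (e : ℝ) (he : 0 < e) (he1 : e ≤ 1 / 8)
    (hp : (K : ℝ) * (I + 2) ≤ e * (M - 2 ^ I)) : ∃ w0 : ℕ, ∀ w ≥ w0,
    ∀ (D : Data K) (x0 y0 : ℤ), D.Cls w x0 y0 → ∀ (R : ℝ) (i : Fin K), ∀ᶠ y : ℕ in atTop, ∀ (A : ℤ) (B : ℕ),
    D.App R A B (y ^ (8 * M)) → ∀ enc dec : ℕ → ℕ, (∀ n, dec (enc n) = n) →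
    (∀ n, ∀ p ∈ PP w (y ^ M), ∀ i : Fin K, p ∣ enc n + i ↔ D.hit p i n) →
    (1 - 6 * e) * (D.X1 i w ((y ^ (8 * M)) ^ 1000) * (S1 (PP w (y ^ M)) y I ^ 2 * S2 (PP w (y ^ M)) y I ^ (K - 1))) ≤
      ∑ n ∈ D.TT w x0 y0 ((y ^ (8 * M)) ^ 1000), D.f n * D.th i ((y ^ (8 * M)) ^ 1000) n * Ph K w M I y (enc n) := by
  classical
  obtain ⟨w0, hw0⟩ := lower K I M hK hIM e he he1 hp
  refine ⟨w0, fun w hw D x0 y0 hC R i => ?_⟩
  have hM2 : 2 ≤ M := by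
    have : 1 ≤ 2 ^ I := Nat.one_le_two_pow
    omega
  obtain ⟨C, hC1, hdist⟩ := dist1 D R hC i
  obtain ⟨N0, hN0⟩ := X1_ge D i w
  have hρ := E10_rho D i
  have hcF := D.bump.cpos
  have hW : (0 : ℝ) < (primorial w : ℝ) := by exact_mod_cast primorial_pos w
  have ev1 : ∀ᶠ y : ℕ in atTop, 1 ≤ y ∧ N0 ≤ y ∧ 1 / D.rho i ≤ (y : ℝ) ∧
      C / (9 / 10 * D.cF / (primorial w : ℝ)) ≤ (y : ℝ) := by
    refine (eventually_ge_atTop 1).and ((eventually_ge_atTop N0).and ?_)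
    have h1 : Tendsto (fun y : ℕ => (y : ℝ)) atTop atTop := tendsto_natCast_atTop_atTop
    exact (h1.eventually_ge_atTop _).and (h1.eventually_ge_atTop _)
  filter_upwards [hw0 w hw, ev1] with y hy hev A B hApp enc dec hd he'
  obtain ⟨hy1, hyN, hyρ, hyC⟩ := hev
  have hy1' : (1 : ℝ) ≤ (y : ℝ) := by exact_mod_cast hy1
  have hy0 : (0 : ℝ) < (y : ℝ) := by linarith
  have hYcast : (((y ^ (8 * M)) ^ 1000 : ℕ) : ℝ) = ((y : ℝ) ^ (8 * M)) ^ 1000 := by push_cast; ring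
  have hNge : y ≤ (y ^ (8 * M)) ^ 1000 := by
    rw [← pow_mul]
    exact Nat.le_self_pow (by omega) y
  have hρN : ((y ^ M : ℕ) : ℝ) ≤ D.rho i * (((y ^ (8 * M)) ^ 1000 : ℕ) : ℝ) := by
    have h1 : 1 ≤ D.rho i * (y : ℝ) := by
      rw [div_le_iff₀ hρ] at hyρ
      linarith
    have h2 : (y : ℝ) ^ (M + 1) ≤ ((y : ℝ) ^ (8 * M)) ^ 1000 := by
      rw [← pow_mul]
      exact pow_le_pow_right₀ hy1' (by omega)
    rw [hYcast]
    push_cast
    calc (y : ℝ) ^ M = 1 * (y : ℝ) ^ M := (one_mul _).symm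
      _ ≤ (D.rho i * (y : ℝ)) * (y : ℝ) ^ M := mul_le_mul_of_nonneg_right h1 (by positivity)
      _ = D.rho i * (y : ℝ) ^ (M + 1) := by ring
      _ ≤ D.rho i * ((y : ℝ) ^ (8 * M)) ^ 1000 := mul_le_mul_of_nonneg_left h2 hρ.le
  obtain ⟨N, hNdef⟩ : ∃ N : ℕ, N = (y ^ (8 * M)) ^ 1000 := ⟨_, rfl⟩
  rw [← hNdef] at hρN hNge
  have hNcast : (N : ℝ) = ((y : ℝ) ^ (8 * M)) ^ 1000 := by rw [hNdef, hYcast]
  have hX1 : 9 / 10 * (D.cF * N / (primorial w : ℝ)) ≤ D.X1 i w N := hN0 N (hyN.trans hNge)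
  have hX0 : 0 ≤ D.X1 i w N := le_trans (by positivity) hX1
  have hE : C * ((y : ℝ) ^ (8 * M)) ^ 999 * (y : ℝ) ^ (4 * M + 1) ≤ D.X1 i w N := by
    refine le_trans ?_ hX1
    rw [hNcast]
    have h1 : C ≤ 9 / 10 * D.cF / (primorial w : ℝ) * (y : ℝ) := by
      rw [div_le_iff₀ (by positivity)] at hyC
      linarith
    have h2 : (y : ℝ) * (y : ℝ) ^ (4 * M + 1) ≤ (y : ℝ) ^ (8 * M) := by
      rw [← pow_succ']
      exact pow_le_pow_right₀ hy1' (by omega)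
    calc C * ((y : ℝ) ^ (8 * M)) ^ 999 * (y : ℝ) ^ (4 * M + 1)
        ≤ (9 / 10 * D.cF / (primorial w : ℝ) * (y : ℝ)) * ((y : ℝ) ^ (8 * M)) ^ 999 *
            (y : ℝ) ^ (4 * M + 1) := by
          refine mul_le_mul_of_nonneg_right ?_ (by positivity)
          exact mul_le_mul_of_nonneg_right h1 (by positivity)
      _ = 9 / 10 * D.cF / (primorial w : ℝ) * ((y : ℝ) ^ (8 * M)) ^ 999 *
            ((y : ℝ) * (y : ℝ) ^ (4 * M + 1)) := by ring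
      _ ≤ 9 / 10 * D.cF / (primorial w : ℝ) * ((y : ℝ) ^ (8 * M)) ^ 999 * (y : ℝ) ^ (8 * M) :=
          mul_le_mul_of_nonneg_left h2 (by positivity)
      _ = 9 / 10 * (D.cF * ((y : ℝ) ^ (8 * M)) ^ 1000 / (primorial w : ℝ)) := by ring
  have hE0 : 0 ≤ C * ((y : ℝ) ^ (8 * M)) ^ 999 := by positivity
  have hPP : ∀ p ∈ PP w (y ^ M), p.Prime ∧ w < p ∧ p ≤ y ^ M := by
    intro p hp
    unfold PP at hp
    rw [mem_filter, mem_Ioc] at hp
    exact ⟨hp.2, hp.1.1, hp.1.2⟩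
  have hom : ∀ n ∈ D.TT w x0 y0 N, 0 ≤ D.f n * D.th i N n := fun n _ =>
    mul_nonneg (D.bump.nn _) (E10_th_nonneg D i N n)
  have hdG := dist_of_hits (K := K) (by omega) (PP w (y ^ M))
    (fun p hp => ⟨(hPP p hp).1, by have h1 := (hPP p hp).2.1; have h2 := hC.w3; omega⟩)
    D.hit enc dec hd he' (univ.erase i) (D.TT w x0 y0 N) (fun n => D.f n * D.th i N n) hom
    (D.X1 i w N) hX0 (fun p => 1 / (p : ℝ))
    (fun p hp => by
      have : (0 : ℝ) ≤ 1 / (p : ℝ) ^ 2 := by positivity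
      linarith)
    (fun p hp => by
      have h1 : (1 : ℝ) < (p : ℝ) := by exact_mod_cast (hPP p hp).1.one_lt
      exact one_div_le_one_div_of_le (by linarith) (by linarith))
    ((y : ℝ) ^ (8 * M)) (C * ((y : ℝ) ^ (8 * M)) ^ 999) hE0
    (fun S t hS ht hprod => by
      have h1 := hdist A B (y ^ (8 * M)) hApp S t (fun p hp =>
        ⟨(hPP p (hS hp)).1, (hPP p (hS hp)).2.1, by
          have h2 := ht p hp
          rw [mem_erase] at h2
          exact h2.1⟩) (by exact_mod_cast hprod)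
      rw [← hNdef] at h1
      refine (le_of_eq ?_).trans (h1.trans (le_of_eq ?_))
      · rfl
      · push_cast
        rfl)
  have hfin := hy i _ _ _ _ _ _ hE0 hE hdG (fun m hm hne p hp => by
    obtain ⟨n, hn, rfl⟩ := mem_image.1 hm
    have hne' : D.f (dec (enc n)) * D.th i N (dec (enc n)) ≠ 0 := hne
    rw [hd] at hne'
    rw [he' n p hp i]
    exact E10_nohit D i N n (y ^ M) hρN (right_ne_zero_of_mul hne') p (hPP p hp).1 (hPP p hp).2.2)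
  rw [← hNdef]
  refine hfin.trans (le_of_eq ?_)
  exact sum_enc hd (fun n => D.f n * D.th i N n) (fun m => Ph K w M I y m)

end Pool.Agent.LibFS14
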