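import Pool.Agent.LibFS14.E1
import Pool.Agent.LibFS14.E2
import Pool.Agent.LibFS14.E5
import Pool.Agent.LibSP4.B25
import Pool.Agent.LibSP4.B26
import Pool.Agent.LibSP4.B02

/-!
Row E6 (MEDIUM). The total mass (model: LibSP4/B27.lean, `mass_le`, nearly a copy).

PLAN. `avgQG K` with `J = univ`, `y = y0`, `Y = 1`, `D = y ^ M` (`y0_bd`; `rr / ph ≥ 1`), `near_diagG K`, `DD_y0_le` (B02): the sum is `≤ X * (S2 ^ K + offE) + RemE`. `offE ≤ (e / 2) S2 ^ K` for large `y` (`offE_small K C M ..` (B26) with `e / 2 ^ (K + 1)`,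
`asym 1 I M w` (B25): `kap w log y ≤ 2 S2`; `PY w 1 M y = PP w (y ^ (M * 1))`). `RemE ≤ E * y ^ (4 M) ≤ X / y ≤ (e / 2) X S2 ^ K` (E5 with `Z = y ^ M`, `D ^ 2 = y ^ (2 M) ≤ Q = y ^ (8 M)`; `one_le_S2`). The positions `0, ..., K - 1` differ modulo `p > w ≥ K`
(`w0 ≥ K`, `w0 ≥ 3`).
-/

open Finset

namespace Pool.Agent.LibFS14

open Pool.Agent.LibSP4
open Pool.Agent.LibRG87 hiding QQ


private theorem E6_ph_le (P : Finset ℕ) (hP : ∀ p ∈ P, p.Prime) {A : Finset ℕ} (hA : A ⊆ P) :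
    1 ≤ rr A / ph A := by
  have h1 := ph_pos P hP hA
  rw [le_div_iff₀ h1, one_mul]
  unfold rr ph
  refine Finset.prod_le_prod ?_ ?_
  · intro p hp
    have : (1 : ℝ) ≤ p := by exact_mod_cast (hP p (hA hp)).one_lt.le
    linarith
  · intro p _
    linarith

open Filter in
theorem upper (K I M : ℕ) (hK : 1 ≤ K) (hIM : 2 ^ I < M) (e : ℝ) (he : 0 < e) : ∃ w0 : ℕ, ∀ w ≥ w0, ∀ᶠ y : ℕ in atTop,
    ∀ (s : Finset ℕ) (om h : ℕ → ℝ) (X E F : ℝ), 0 ≤ E → E * (y : ℝ) ^ (4 * M + 1) ≤ X →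
    DistG (PP w (y ^ M)) (bb K) univ s om X h (fun q => if (q : ℝ) ≤ (y : ℝ) ^ (8 * M) then E else F) →
    ∑ m ∈ s, om m * Ph K w M I y m ≤ (1 + e) * (X * S2 (PP w (y ^ M)) y I ^ K) := by
  obtain ⟨C10, hC10, h10⟩ := near_diagG K
  obtain ⟨C11, h11⟩ := avgQG K
  have hM1 : 1 ≤ M := by have := Nat.one_le_two_pow (n := I); omega
  obtain ⟨w1, hw1⟩ := offE_small K C10 hC10 M hM1 (e / 2 ^ (K + 1)) (by positivity)
  obtain ⟨Z0, hZ0⟩ := Rem_small C11
  refine ⟨max w1 (max K 3), fun w hw => ?_⟩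
  have hww1 : w1 ≤ w := le_trans (le_max_left _ _) hw
  have hwK : K ≤ w := le_trans (le_max_left _ _) (le_trans (le_max_right _ _) hw)
  have hw3 : 3 ≤ w := le_trans (le_max_right _ _) (le_trans (le_max_right _ _) hw)
  filter_upwards [hw1 w hww1, asym 1 I M w (le_refl 1) hIM (1 / 2) (by norm_num),
    eventually_ge_atTop (max Z0 w), eventually_ge_atTop 2,
    eventually_ge_atTop ⌈2 / e⌉₊] with y hoff has hyZ hy2 hye
  intro s om h X E F hE hEX hdist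
  have hyZ0 : Z0 ≤ y := le_trans (le_max_left _ _) hyZ
  have hyw : w ≤ y := le_trans (le_max_right _ _) hyZ
  have hy1 : 1 ≤ y := by omega
  have hy1R : (1 : ℝ) ≤ y := by exact_mod_cast hy1
  have hyZ' : y ≤ y ^ M := by
    calc y = y ^ 1 := (pow_one y).symm
      _ ≤ y ^ M := Nat.pow_le_pow_right hy1 hM1
  have hPp : ∀ p ∈ PP w (y ^ M), p.Prime := by
    intro p hp
    unfold PP at hp
    exact (Finset.mem_filter.1 hp).2
  have hPw : ∀ p ∈ PP w (y ^ M), w < p := by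
    intro p hp
    unfold PP at hp
    exact (Finset.mem_Ioc.1 (Finset.mem_filter.1 hp).1).1
  have hP3 : ∀ p ∈ PP w (y ^ M), 3 ≤ p := fun p hp => by have := hPw p hp; omega
  have hb0 := fun β => y0_bd (ι := Fin K) (PP w (y ^ M)) y I ((y : ℝ) ^ M) β
  have habs : ∀ β : PP w (y ^ M) → Option (Fin K), |y0 (PP w (y ^ M)) y I ((y : ℝ) ^ M) β| ≤
      1 * (rr (sp (PP w (y ^ M)) β) / ph (sp (PP w (y ^ M)) β)) := by
    intro β
    obtain ⟨h1, h2, -⟩ := hb0 β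
    rw [abs_of_nonneg h1, one_mul]
    exact h2.trans (E6_ph_le _ hPp (sp_subset _ _))
  have hA := h11 (Fin K) (PP w (y ^ M)) (bb K) univ s om X h
    (fun q => if (q : ℝ) ≤ (y : ℝ) ^ (8 * M) then E else F)
    (y0 (PP w (y ^ M)) y I ((y : ℝ) ^ M)) 1 ((y : ℝ) ^ M) zero_le_one (by positivity)
    (Fintype.card_fin K) hPp hP3
    (by
      intro p hp i _ i' _ hii hmod
      apply hii
      apply Fin.ext
      have hp' := hPw p hp
      have h1 := i.2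
      have h2 := i'.2
      have e1 : (i : ℕ) % p = (i' : ℕ) % p := hmod
      rwa [Nat.mod_eq_of_lt (by omega), Nat.mod_eq_of_lt (by omega)] at e1)
    hdist (fun β hβ => ⟨fun p i _ => Finset.mem_univ i, (hb0 β).2.2 hβ⟩) habs
  have hD := h10 (Fin K) (PP w (y ^ M)) univ h (y0 (PP w (y ^ M)) y I ((y : ℝ) ^ M)) 1
    zero_le_one hP3 (by rw [Finset.card_univ, Fintype.card_fin]) hdist.h_ge hdist.h_le
    (fun β _ => fun p i _ => Finset.mem_univ i) habs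
  have hDD := DD_y0_le (ι := Fin K) (PP w (y ^ M)) hPp y I ((y : ℝ) ^ M)
  rw [Fintype.card_fin] at hDD
  have hR := hZ0 w (y ^ M) (((y : ℝ) ^ M) ^ 2) ((y : ℝ) ^ (8 * M)) E F (le_trans hyZ0 hyZ') (by omega)
    (le_trans hyw hyZ') hE (by push_cast; exact le_refl _) (by
    rw [← pow_mul]
    exact pow_le_pow_right₀ hy1R (by omega))
  have hS1 : 1 ≤ S2 (PP w (y ^ M)) y I := one_le_S2 hPp hy1 I
  have hX0 : 0 ≤ X := hdist.X_nonneg
  obtain ⟨-, -, h3, -, -, -, -⟩ := has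
  have hPY : PY w 1 M y = PP w (y ^ M) := by
    unfold PY
    rw [Nat.mul_one]
  rw [hPY] at h3
  have hsum : ∑ m ∈ s, om m * Ph K w M I y m =
      ∑ m ∈ s, om m * PhiF (PP w (y ^ M)) (bb K) (y0 (PP w (y ^ M)) y I ((y : ℝ) ^ M)) m ^ 2 := rfl
  rw [hsum]
  generalize hSdef : S2 (PP w (y ^ M)) y I = S at *
  have hlog : 0 ≤ Real.log y := Real.log_nonneg hy1R
  have hkl : 0 ≤ kap w * Real.log y := mul_nonneg (kap_pos w).le hlog
  have hoff2 : offE C10 (PP w (y ^ M)) K ≤ e / 2 * S ^ K := by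
    refine hoff.trans ?_
    have h4 : (kap w * Real.log y) ^ K ≤ (2 * S) ^ K := pow_le_pow_left₀ hkl (by linarith) K
    calc e / 2 ^ (K + 1) * (kap w * Real.log y) ^ K ≤ e / 2 ^ (K + 1) * (2 * S) ^ K :=
          mul_le_mul_of_nonneg_left h4 (by positivity)
      _ = e / 2 * S ^ K := by rw [mul_pow, pow_succ]; field_simp
  have hrem : RemE C11 (PP w (y ^ M)) (((y : ℝ) ^ M) ^ 2)
      (fun q => if (q : ℝ) ≤ (y : ℝ) ^ (8 * M) then E else F) ≤ e / 2 * X := by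
    refine hR.trans ?_
    push_cast
    have hyr : 2 / e ≤ y := (Nat.le_ceil _).trans (by exact_mod_cast hye)
    rw [div_le_iff₀ he] at hyr
    have h5 : ((y : ℝ) ^ M) ^ 4 = (y : ℝ) ^ (4 * M) := by rw [← pow_mul, mul_comm]
    rw [h5]
    rw [pow_succ] at hEX
    have h6 : 0 ≤ E * (y : ℝ) ^ (4 * M) := by positivity
    have h7 : E * (y : ℝ) ^ (4 * M) * 2 ≤ E * (y : ℝ) ^ (4 * M) * (y * e) :=
      mul_le_mul_of_nonneg_left hyr h6
    have h8 : E * (y : ℝ) ^ (4 * M) * (y * e) ≤ X * e := by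
      calc E * (y : ℝ) ^ (4 * M) * (y * e) = E * ((y : ℝ) ^ (4 * M) * y) * e := by ring
        _ ≤ X * e := mul_le_mul_of_nonneg_right hEX he.le
    linarith
  have hQ : QQ (PP w (y ^ M)) h (y0 (PP w (y ^ M)) y I ((y : ℝ) ^ M) : (PP w (y ^ M) → Option (Fin K)) → ℝ) ≤
      S ^ K + e / 2 * S ^ K := by
    have := (abs_le.1 hD).2
    rw [one_pow, one_mul] at this
    linarith
  have h5 := (abs_le.1 hA).2
  rw [one_pow, one_mul] at h5
  have h6 : X * QQ (PP w (y ^ M)) h (y0 (PP w (y ^ M)) y I ((y : ℝ) ^ M) : (PP w (y ^ M) → Option (Fin K)) → ℝ) ≤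
      X * (S ^ K + e / 2 * S ^ K) := mul_le_mul_of_nonneg_left hQ hX0
  have h7 : X ≤ X * S ^ K := le_mul_of_one_le_right hX0 (one_le_pow₀ hS1)
  have h8 := mul_le_mul_of_nonneg_left h7 (show 0 ≤ e / 2 by linarith)
  nlinarith

end Pool.Agent.LibFS14
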