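import Pool.Agent.LibFS14.G4
import Pool.Agent.LibFS14.E3
import Pool.Agent.LibFS14.E4
import Pool.Agent.LibFS14.E6

/-!
Row E9 (SHORT/MEDIUM). The total mass of the points.

PLAN. `upper` (E6) with `s = (TT).image enc`, `om = D.f ∘ dec`, `X = D.X0 w (y ^ (8 M)) ^ 1000`, `h p = 1/p - 1/p^2` (`≤ 1/(p-1)`), `E = C * (y ^ (8 M)) ^ 997` (`dist0`, G4), `F = ∑ f + X`: `dist_of_hits` (E4) with `Q = y ^ (8 M)` (the primes of `PP w (y ^ M)` are `> w ≥ 3`;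
casts), `sum_enc`. `E * y ^ (4 M + 1) ≤ X` for large `y`: `C Y ^ 997 y ^ (4 M + 1) ≤ C Y ^ 998 ≤ c Y ^ 1000 = X`, `c = D.cF φ(W) / W ^ 2 > 0`, `Y = y ^ (8 M)`, `M ≥ 1`.
-/

open Finset

namespace Pool.Agent.LibFS14

open Pool.Agent.LibSP4
open Pool.Agent.LibRG87 hiding QQ


private theorem E9_mem {w z p : ℕ} (hp : p ∈ PP w z) : p.Prime ∧ w < p := by
  unfold PP at hp
  rw [Finset.mem_filter, Finset.mem_Ioc] at hp
  exact ⟨hp.2, hp.1.1⟩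

open Filter in
private theorem E9_big {K : ℕ} (D : Data K) (w M : ℕ) (hM : 1 ≤ M) (C : ℝ) (hC : 1 ≤ C) :
    ∀ᶠ y : ℕ in atTop, C * ((y : ℝ) ^ (8 * M)) ^ 997 * (y : ℝ) ^ (4 * M + 1) ≤
      D.X0 w ((y ^ (8 * M)) ^ 1000) := by
  have hW : (0 : ℝ) < (primorial w : ℝ) := by exact_mod_cast primorial_pos w
  have hphi : (0 : ℝ) < ((primorial w).totient : ℝ) := by
    exact_mod_cast Nat.totient_pos.2 (primorial_pos w)
  set c : ℝ := D.cF * (primorial w).totient / (primorial w : ℝ) ^ 2 with hc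
  have hcpos : 0 < c := by
    rw [hc]
    have := D.bump.cpos
    positivity
  filter_upwards [eventually_ge_atTop 1, eventually_ge_atTop ⌈C / c⌉₊] with y hy1 hy2
  have hy1' : (1 : ℝ) ≤ (y : ℝ) := by exact_mod_cast hy1
  have hy2' : C / c ≤ (y : ℝ) := (Nat.le_ceil _).trans (by exact_mod_cast hy2)
  have hX : D.X0 w ((y ^ (8 * M)) ^ 1000) = c * ((y : ℝ) ^ (8 * M)) ^ 1000 := by
    unfold Data.X0
    rw [hc]
    push_cast
    ring
  rw [hX]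
  set Y : ℝ := (y : ℝ) ^ (8 * M) with hY
  have hY1 : 1 ≤ Y := one_le_pow₀ hy1'
  have h1 : (y : ℝ) ^ (4 * M + 1) ≤ Y := by
    rw [hY]
    exact pow_le_pow_right₀ hy1' (by omega)
  have h2 : (y : ℝ) ≤ Y := by
    rw [hY]
    calc (y : ℝ) = (y : ℝ) ^ 1 := (pow_one _).symm
      _ ≤ _ := pow_le_pow_right₀ hy1' (by omega)
  have h3 : C ≤ c * Y := by
    have h4 : C / c ≤ Y := hy2'.trans h2
    rw [div_le_iff₀ hcpos] at h4
    linarith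
  have hY0 : 0 ≤ Y := by linarith
  have hp997 : 0 ≤ Y ^ 997 := pow_nonneg hY0 _
  have hp998 : 0 ≤ Y ^ 998 := pow_nonneg hY0 _
  calc C * Y ^ 997 * (y : ℝ) ^ (4 * M + 1) ≤ C * Y ^ 997 * Y :=
        mul_le_mul_of_nonneg_left h1 (by positivity)
    _ = C * Y ^ 998 := by ring
    _ ≤ (c * Y) * Y ^ 998 := mul_le_mul_of_nonneg_right h3 hp998
    _ = c * Y ^ 998 * Y := by ring
    _ = c * Y ^ 999 * 1 := by ring
    _ ≤ c * Y ^ 999 * Y := mul_le_mul_of_nonneg_left hY1 (by positivity)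
    _ = c * Y ^ 1000 := by ring

open Filter in
theorem total_le (K I M : ℕ) (hK : 1 ≤ K) (hIM : 2 ^ I < M) (e : ℝ) (he : 0 < e) : ∃ w0 : ℕ, ∀ w ≥ w0,
    ∀ (D : Data K) (x0 y0 : ℤ), D.Cls w x0 y0 → ∀ R : ℝ, ∀ᶠ y : ℕ in atTop, ∀ (A : ℤ) (B : ℕ), D.App R A B (y ^ (8 * M)) →
    ∀ enc dec : ℕ → ℕ, (∀ n, dec (enc n) = n) → (∀ n, ∀ p ∈ PP w (y ^ M), ∀ i : Fin K, p ∣ enc n + i ↔ D.hit p i n) →
    ∑ n ∈ D.TT w x0 y0 ((y ^ (8 * M)) ^ 1000), D.f n * Ph K w M I y (enc n) ≤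
      (1 + e) * (D.X0 w ((y ^ (8 * M)) ^ 1000) * S2 (PP w (y ^ M)) y I ^ K) := by
  obtain ⟨w0, hw0⟩ := upper K I M hK hIM e he
  refine ⟨w0, fun w hw D x0 y0 hC R => ?_⟩
  obtain ⟨C, hC1, hdist⟩ := dist0 D R hC
  have hM : 1 ≤ M := le_of_lt (lt_of_le_of_lt Nat.one_le_two_pow hIM)
  filter_upwards [hw0 w hw, E9_big D w M hM C hC1] with y hy1 hy2
  intro A B hApp enc dec hd henc
  have hX : 0 ≤ D.X0 w ((y ^ (8 * M)) ^ 1000) := by
    unfold Data.X0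
    have := D.bump.cpos
    positivity
  have hE : (0 : ℝ) ≤ C * ((y : ℝ) ^ (8 * M)) ^ 997 := by
    have : (0 : ℝ) ≤ C := by linarith
    positivity
  have hw3 : 3 ≤ w := hC.w3
  have hDG := dist_of_hits (K := K) (by omega) (PP w (y ^ M))
    (fun p hp => ⟨(E9_mem hp).1, by have := (E9_mem hp).2; omega⟩) D.hit enc dec hd henc
    Finset.univ (D.TT w x0 y0 ((y ^ (8 * M)) ^ 1000)) D.f (fun n _ => D.bump.nn _)
    (D.X0 w ((y ^ (8 * M)) ^ 1000)) hX (fun p => 1 / (p : ℝ) - 1 / (p : ℝ) ^ 2)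
    (fun p _ => le_refl _)
    (fun p hp => by
      have h3 : 3 ≤ p := by have := (E9_mem hp).2; omega
      have h3' : (3 : ℝ) ≤ (p : ℝ) := by exact_mod_cast h3
      have e1 : 1 / (p : ℝ) ≤ 1 / ((p : ℝ) - 1) :=
        one_div_le_one_div_of_le (by linarith) (by linarith)
      have e2 : 0 ≤ 1 / (p : ℝ) ^ 2 := by positivity
      show 1 / (p : ℝ) - 1 / (p : ℝ) ^ 2 ≤ 1 / ((p : ℝ) - 1)
      linarith)
    ((y : ℝ) ^ (8 * M)) (C * ((y : ℝ) ^ (8 * M)) ^ 997) hE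
    (fun S t hS _ hprod => by
      have h1 := hdist A B (y ^ (8 * M)) hApp S t (fun p hp => E9_mem (hS hp))
        (by exact_mod_cast hprod)
      push_cast at h1
      exact h1)
  have h2 := hy1 _ _ _ _ _ _ hE hy2 hDG
  rw [sum_enc hd] at h2
  exact h2

end Pool.Agent.LibFS14
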