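import Pool.Agent.LibFS14.Defs

/-!
Row K1 (MEDIUM). The class `(x0, y0)`.

PLAN. `w0` larger than `3`, `K`, all `|u i|`, all `|u i v j - u j v i|`, and so large that `primorial w ρ i ≥ 1` (`primorial w ≥ w` is not needed: `primorial w ≥` any prime `≤ w`, or `primorial` tends to infinity: there are infinitely many primes; monotone). A prime `p > w`
cannot divide a nonzero integer of absolute value `< p`. `(x0, y0)`: for each prime `p ≤ w` take `(x, y)` from `sys.adm p`; Chinese remainder theorem over the primes `p ≤ w` (`Nat.chineseRemainderOfFinset`, `Int` version, or `Ideal`/`ZMod` version).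
-/

open Finset

namespace Pool.Agent.LibFS14

private theorem K1_crt (s : Finset ℕ) (hs : ∀ p ∈ s, p.Prime) (a : ℕ → ℤ) :
    ∃ x : ℤ, ∀ p ∈ s, (p : ℤ) ∣ x - a p := by
  induction s using Finset.induction_on with
  | empty => exact ⟨0, fun p hp => absurd hp (Finset.notMem_empty p)⟩
  | insert q s hq ih =>
    obtain ⟨x, hx⟩ := ih fun p hp => hs p (Finset.mem_insert_of_mem hp)
    have hqp : q.Prime := hs q (Finset.mem_insert_self q s)
    have hco : IsCoprime (q : ℤ) (∏ p ∈ s, (p : ℤ)) := by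
      refine IsCoprime.prod_right fun p hp => ?_
      refine Nat.isCoprime_iff_coprime.2 ((Nat.coprime_primes hqp
        (hs p (Finset.mem_insert_of_mem hp))).2 fun h => hq (h ▸ hp))
    obtain ⟨u, v, huv⟩ := hco
    refine ⟨x + (a q - x) * (v * ∏ p ∈ s, (p : ℤ)), fun p hp => ?_⟩
    rcases Finset.mem_insert.1 hp with rfl | hp
    · refine ⟨-(a p - x) * u, ?_⟩
      have h1 : v * ∏ p ∈ s, (p : ℤ) = 1 - u * p := by linarith
      rw [h1]
      ring
    · have h1 : (p : ℤ) ∣ ∏ p ∈ s, (p : ℤ) := Finset.dvd_prod_of_mem _ hp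
      have h2 : x + (a q - x) * (v * ∏ p ∈ s, (p : ℤ)) - a p =
          (x - a p) + ((a q - x) * v) * ∏ p ∈ s, (p : ℤ) := by ring
      rw [h2]
      exact dvd_add (hx p hp) (dvd_mul_of_dvd_right h1 _)

private theorem K1_ndvd {p w : ℕ} {z : ℤ} (hz : z ≠ 0) (hw : z.natAbs ≤ w) (hp : w < p) :
    ¬ (p : ℤ) ∣ z := by
  intro h
  have h1 := Int.natAbs_dvd_natAbs.2 h
  rw [Int.natAbs_natCast] at h1
  have h2 := Nat.le_of_dvd (Int.natAbs_pos.2 hz) h1
  omega

theorem exists_cls {K : ℕ} (D : Data K) : ∃ w0 : ℕ, ∀ w ≥ w0, ∃ x0 y0 : ℤ, D.Cls w x0 y0 := by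
  classical
  obtain ⟨P, hP, hPp⟩ := Nat.exists_infinite_primes (∑ i, ⌈1 / D.rho i⌉₊)
  let S1 : ℕ := ∑ i, (D.u i).natAbs
  let S2 : ℕ := ∑ i, ∑ j, (D.u i * D.v j - D.u j * D.v i).natAbs
  refine ⟨3 + K + P + S1 + S2, fun w hw => ?_⟩
  have hrho : ∀ i, 0 < D.rho i := fun i => D.sys.pos i
  let c : ℕ → ℤ × ℤ := fun p => if h : p.Prime then
    (Classical.choose (D.sys.adm p h), Classical.choose (Classical.choose_spec (D.sys.adm p h)))
    else (0, 0)
  have hc : ∀ p : ℕ, p.Prime → ∀ i, ¬ (p : ℤ) ∣ D.u i * (c p).2 + D.v i * (c p).1 := by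
    intro p hp i
    have h1 := Classical.choose_spec (Classical.choose_spec (D.sys.adm p hp)) i
    have h2 : c p = (Classical.choose (D.sys.adm p hp),
        Classical.choose (Classical.choose_spec (D.sys.adm p hp))) := dif_pos hp
    rw [h2]
    exact h1
  obtain ⟨x0, hx0⟩ := K1_crt ((range (w + 1)).filter Nat.Prime)
    (fun p hp => (mem_filter.1 hp).2) fun p => (c p).1
  obtain ⟨y0, hy0⟩ := K1_crt ((range (w + 1)).filter Nat.Prime)
    (fun p hp => (mem_filter.1 hp).2) fun p => (c p).2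
  refine ⟨x0, y0, ?_, ?_, ?_, ?_, ?_⟩
  · omega
  · omega
  · intro i
    have h1 : P ∣ primorial w := by
      refine (hPp.dvd_primorial_iff).2 ?_
      omega
    have h2 : P ≤ primorial w := Nat.le_of_dvd (primorial_pos w) h1
    have h3 : ⌈1 / D.rho i⌉₊ ≤ ∑ i, ⌈1 / D.rho i⌉₊ :=
      Finset.single_le_sum (f := fun i => ⌈1 / D.rho i⌉₊) (fun _ _ => Nat.zero_le _) (mem_univ i)
    have h4 : (⌈1 / D.rho i⌉₊ : ℝ) ≤ (primorial w : ℝ) := by
      exact_mod_cast h3.trans (hP.trans h2)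
    have h5 : 1 / D.rho i ≤ (primorial w : ℝ) := (Nat.le_ceil _).trans h4
    rwa [div_le_iff₀ (hrho i)] at h5
  · intro p _ hwp
    refine ⟨fun i => K1_ndvd (D.sys.u0 i) ?_ hwp, fun i j hij => K1_ndvd ?_ ?_ hwp⟩
    · have h1 : (D.u i).natAbs ≤ S1 :=
        Finset.single_le_sum (f := fun i => (D.u i).natAbs) (fun _ _ => Nat.zero_le _) (mem_univ i)
      omega
    · exact sub_ne_zero.2 (D.sys.det i j hij)
    · have h1 : (D.u i * D.v j - D.u j * D.v i).natAbs ≤
          ∑ j, (D.u i * D.v j - D.u j * D.v i).natAbs :=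
        Finset.single_le_sum (f := fun j => (D.u i * D.v j - D.u j * D.v i).natAbs)
          (fun _ _ => Nat.zero_le _) (mem_univ j)
      have h2 : ∑ j, (D.u i * D.v j - D.u j * D.v i).natAbs ≤ S2 :=
        Finset.single_le_sum (f := fun i => ∑ j, (D.u i * D.v j - D.u j * D.v i).natAbs)
          (fun _ _ => Nat.zero_le _) (mem_univ i)
      omega
  · intro p hp hpw i h
    have hm : p ∈ (range (w + 1)).filter Nat.Prime := mem_filter.2 ⟨mem_range.2 (by omega), hp⟩
    have h1 := hx0 p hm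
    have h2 := hy0 p hm
    refine hc p hp i ?_
    have h3 : D.u i * (c p).2 + D.v i * (c p).1 = (D.u i * y0 + D.v i * x0) -
        (D.u i * (y0 - (c p).2) + D.v i * (x0 - (c p).1)) := by ring
    rw [h3]
    exact dvd_sub h (dvd_add (dvd_mul_of_dvd_right h2 _) (dvd_mul_of_dvd_right h1 _))

end Pool.Agent.LibFS14
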