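import Pool.Agent.LibFS14.E8
import Pool.Agent.LibFS14.E9
import Pool.Agent.LibFS14.E10
import Pool.Agent.LibFS14.K1

/-!
Row E11 (MEDIUM). Two primes.

PLAN. `e = 1/100`; `w ≥` the `w0` of `total_le`, `prime_ge` and `exists_cls` (K1). `y` large, `P = PP w (y ^ M)`, `enc`, `dec` from `exists_enc` (`hit_unique`, `K ≤ w < p`). Suppose the conclusion is false. Then for every `n ∈ TT` with `D.f n ≠ 0` at most one `i` has
`D.th i N n ≠ 0`, so `∑ i, D.th i N n ≤ Lg`, `Lg = log (2 ρmax N)` (`th_bd`, H4; `ρmax ≥` all `D.rho i`), and `∑_i ∑_n f th_i Φ ≤ Lg ∑_n f Φ` (`Ph ≥ 0`). With `total_le`, `prime_ge` (for every `i`), `X1_ge` (H4), `X0 = (cF N / W) kap w` (E8):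
`K * (94/100) * (9/10) * (cF N / W) * S1 ^ 2 * S2 ^ (K - 1) ≤ Lg * (101/100) * (cF N / W) * kap * S2 ^ K`; cancel `cF N / W > 0`, `S2 ^ (K - 1) > 0`. `asym 1 I M w (1/100)` (B25): `S1 ≥ 0.99 kap log y (1 + I/2)`, `S2 ≤ 1.01 * 1.5 * kap log y`,
`Lg ≤ 8001 M log y` for large `y` (`N = y ^ (8000 M)`). So `K (1 + I/2) ^ 2 ≤ 15000 M`, against `h2` (`M > 0`). `K = 2 ^ I ≥ 1`.
-/

open Finset

namespace Pool.Agent.LibFS14

open Pool.Agent.LibSP4
open Pool.Agent.LibRG87 hiding QQ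


private theorem E11_final (K M L a kap s1 s2 T I LHS : ℝ) (k : ℕ) (hM : 0 < M) (hL : 0 < L) (ha : 0 < a)
    (hkap : 0 < kap) (hs2 : 0 < s2) (hI : 0 ≤ I) (hK : 1 ≤ K) (hLHS : LHS = T)
    (hlow : K * ((1 - 6 * (1 / 100)) * (9 / 10 * a * (s1 ^ 2 * s2 ^ k))) ≤ LHS)
    (hup : T ≤ 8001 * M * L * ((1 + 1 / 100) * (a * kap * s2 ^ (k + 1))))
    (h1 : (1 - 1 / 100) * (kap * L * (1 + I / 2)) ≤ s1)
    (h2 : s2 ≤ (1 + 1 / 100) * (3 / 2 * (kap * L)))
    (h3 : M * 2 ≤ 1 / 10 ^ 6 * (K * (1 + I / 2) ^ 2)) : False := by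
  have h4 : K * ((1 - 6 * (1 / 100)) * (9 / 10 * a * (s1 ^ 2 * s2 ^ k))) ≤
      8001 * M * L * ((1 + 1 / 100) * (a * kap * s2 ^ (k + 1))) := by
    rw [hLHS] at hlow
    exact hlow.trans hup
  have hs2k : 0 < s2 ^ k := pow_pos hs2 k
  have h5 : a * s2 ^ k * (K * (423 / 500) * s1 ^ 2) ≤ a * s2 ^ k * (8001 * M * L * (101 / 100) * kap * s2) := by
    have e1 : a * s2 ^ k * (K * (423 / 500) * s1 ^ 2) =
        K * ((1 - 6 * (1 / 100)) * (9 / 10 * a * (s1 ^ 2 * s2 ^ k))) := by ring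
    have e2 : a * s2 ^ k * (8001 * M * L * (101 / 100) * kap * s2) =
        8001 * M * L * ((1 + 1 / 100) * (a * kap * s2 ^ (k + 1))) := by ring
    rw [e1, e2]
    exact h4
  have h6 : K * (423 / 500) * s1 ^ 2 ≤ 8001 * M * L * (101 / 100) * kap * s2 :=
    le_of_mul_le_mul_left h5 (mul_pos ha hs2k)
  have hkL : 0 < kap * L := mul_pos hkap hL
  have h7 : ((99 / 100) * (kap * L * (1 + I / 2))) ^ 2 ≤ s1 ^ 2 := by
    apply pow_le_pow_left₀
    · positivity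
    · linarith
  have h8 : K * (423 / 500) * ((99 / 100) * (kap * L * (1 + I / 2))) ^ 2 ≤
      8001 * M * L * (101 / 100) * kap * ((101 / 100) * (3 / 2 * (kap * L))) := by
    have h9 : K * (423 / 500) * ((99 / 100) * (kap * L * (1 + I / 2))) ^ 2 ≤ K * (423 / 500) * s1 ^ 2 :=
      mul_le_mul_of_nonneg_left h7 (by positivity)
    have h10 : 8001 * M * L * (101 / 100) * kap * s2 ≤
        8001 * M * L * (101 / 100) * kap * ((101 / 100) * (3 / 2 * (kap * L))) := by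
      apply mul_le_mul_of_nonneg_left _ (by positivity)
      linarith
    exact h9.trans (h6.trans h10)
  have h11 : (kap * L) ^ 2 * (K * (423 / 500) * (99 / 100) ^ 2 * (1 + I / 2) ^ 2) ≤
      (kap * L) ^ 2 * (8001 * M * (101 / 100) * ((101 / 100) * (3 / 2))) := by
    nlinarith [h8]
  have h12 : K * (423 / 500) * (99 / 100) ^ 2 * (1 + I / 2) ^ 2 ≤ 8001 * M * (101 / 100) * ((101 / 100) * (3 / 2)) :=
    le_of_mul_le_mul_left h11 (by positivity)
  nlinarith [h12, h3, hM]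

theorem two_primes {K : ℕ} (D : Data K) (I M : ℕ) (hK : K = 2 ^ I) (hIM : 2 ^ I < M)
    (h1 : (3 * 2 ^ I : ℝ) * (I + 2) ≤ 1 / 10 ^ 6 * (M - 2 ^ I)) (h2 : (M : ℝ) * 2 ≤ 1 / 10 ^ 6 * (2 ^ I * (1 + I / 2) ^ 2))
    (R : ℝ) : ∃ (w : ℕ) (x0 y0 : ℤ) (y1 : ℕ), ∀ y ≥ y1, ∀ (A : ℤ) (B : ℕ), D.App R A B (y ^ (8 * M)) →
    ∃ n ∈ D.TT w x0 y0 ((y ^ (8 * M)) ^ 1000), D.f n ≠ 0 ∧ ∃ i j : Fin K, i ≠ j ∧
      (∃ q ∈ D.Rg i ((y ^ (8 * M)) ^ 1000), (q : ℤ) = D.L i n) ∧ ∃ q ∈ D.Rg j ((y ^ (8 * M)) ^ 1000), (q : ℤ) = D.L j n := by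
  classical
  have hK1 : 1 ≤ K := by rw [hK]; exact Nat.one_le_two_pow
  have hKM : ((2 : ℝ) ^ I) < M := by exact_mod_cast hIM
  have hKR : (K : ℝ) = 2 ^ I := by rw [hK]; push_cast; ring
  have hM0 : (0 : ℝ) < M := lt_trans (by positivity) hKM
  have hM1 : 1 ≤ M := by
    have : (0 : ℕ) < M := lt_of_le_of_lt (Nat.zero_le _) hIM
    omega
  have hp : (K : ℝ) * (I + 2) ≤ 1 / 100 * (M - 2 ^ I) := by
    have h3 : (0 : ℝ) ≤ 2 ^ I * ((I : ℝ) + 2) := by positivity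
    rw [hKR]
    have h4 : (0 : ℝ) ≤ M - 2 ^ I := by linarith
    nlinarith
  obtain ⟨w1, hw1⟩ := total_le K I M hK1 hIM (1 / 100) (by norm_num)
  obtain ⟨w2, hw2⟩ := prime_ge K I M hK1 hIM (1 / 100) (by norm_num) (by norm_num) hp
  obtain ⟨w3, hw3⟩ := exists_cls D
  obtain ⟨w, hww1, hww2, hww3⟩ : ∃ w : ℕ, w1 ≤ w ∧ w2 ≤ w ∧ w3 ≤ w :=
    ⟨max w1 (max w2 w3), le_max_left _ _, (le_max_left _ _).trans (le_max_right _ _),
      (le_max_right _ _).trans (le_max_right _ _)⟩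
  obtain ⟨x0, yy0, hC⟩ := hw3 w hww3
  have e1 := hw1 w hww1 D x0 yy0 hC R
  have e2 := Filter.eventually_all.2 (fun i : Fin K => hw2 w hww2 D x0 yy0 hC R i)
  have e3 := asym 1 I M w le_rfl hIM (1 / 100) (by norm_num)
  have hN : Filter.Tendsto (fun y : ℕ => (y ^ (8 * M)) ^ 1000) Filter.atTop Filter.atTop := by
    apply Filter.tendsto_atTop_mono (f := fun y : ℕ => y) _ Filter.tendsto_id
    intro y
    have h1 : y ≤ y ^ (8 * M) := Nat.le_self_pow (by omega) y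
    exact h1.trans (Nat.le_self_pow (by norm_num) _)
  have e4 : ∀ᶠ y : ℕ in Filter.atTop, ∀ i : Fin K,
      9 / 10 * (D.cF * (((y ^ (8 * M)) ^ 1000 : ℕ) : ℝ) / (primorial w : ℝ)) ≤ D.X1 i w ((y ^ (8 * M)) ^ 1000) := by
    refine Filter.eventually_all.2 fun i => ?_
    obtain ⟨N0, hN0⟩ := X1_ge D i w
    exact (hN.eventually_ge_atTop N0).mono fun y hy => hN0 _ hy
  have e5 : ∀ᶠ y : ℕ in Filter.atTop, ∀ i : Fin K, ∀ n : ℕ,
      0 ≤ D.th i ((y ^ (8 * M)) ^ 1000) n ∧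
        D.th i ((y ^ (8 * M)) ^ 1000) n ≤ Real.log (2 * D.rho i * (((y ^ (8 * M)) ^ 1000 : ℕ) : ℝ)) := by
    refine Filter.eventually_all.2 fun i => ?_
    obtain ⟨N0, hN0⟩ := th_bd D i
    exact (hN.eventually_ge_atTop N0).mono fun y hy => hN0 _ hy
  have hlog : Filter.Tendsto (fun y : ℕ => Real.log (y : ℝ)) Filter.atTop Filter.atTop :=
    Real.tendsto_log_atTop.comp tendsto_natCast_atTop_atTop
  have hrho : ∀ i : Fin K, 0 < D.rho i := fun i => D.sys.pos i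
  have e6 : ∀ᶠ y : ℕ in Filter.atTop, ∀ i : Fin K,
      Real.log (2 * D.rho i * (((y ^ (8 * M)) ^ 1000 : ℕ) : ℝ)) ≤ 8001 * M * Real.log y := by
    refine Filter.eventually_all.2 fun i => ?_
    filter_upwards [hlog.eventually_ge_atTop (|Real.log (2 * D.rho i)|), Filter.eventually_ge_atTop 1] with y hy hy1
    have hy0 : (0 : ℝ) < (y : ℝ) := by exact_mod_cast hy1
    have hpow : (((y ^ (8 * M)) ^ 1000 : ℕ) : ℝ) = (y : ℝ) ^ (8000 * M) := by
      push_cast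
      rw [← pow_mul]
      congr 1
      ring
    rw [hpow, Real.log_mul (by have := hrho i; positivity) (by positivity), Real.log_pow]
    push_cast
    have h1 : Real.log (2 * D.rho i) ≤ Real.log y := (le_abs_self _).trans hy
    have h2 : 0 ≤ Real.log (y : ℝ) := (abs_nonneg _).trans hy
    have h3 : (1 : ℝ) ≤ M := by exact_mod_cast hM1
    nlinarith
  obtain ⟨y1, hy1⟩ := Filter.eventually_atTop.1 (e1.and (e2.and (e3.and (e4.and (e5.and (e6.and
    (hlog.eventually_ge_atTop 1)))))))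
  refine ⟨w, x0, yy0, max y1 1, fun y hy A B hApp => ?_⟩
  obtain ⟨f1, f2, f3, f4, f5, f6, f7⟩ := hy1 y (le_of_max_le_left hy)
  have hyy : 1 ≤ y := le_of_max_le_right hy
  by_contra hcon
  push Not at hcon
  -- the encoding
  obtain ⟨enc, dec, hdec, henc⟩ := exists_enc (K := K) (PP w (y ^ M)) (fun p hp => by
      have hp' := Finset.mem_filter.1 hp
      exact ⟨hp'.2, lt_of_le_of_lt hC.Kw (Finset.mem_Ioc.1 hp'.1).1⟩)
    (fun p i n => D.hit p i n) (fun p hp i j n hi hj => by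
      have hp' := Finset.mem_filter.1 hp
      exact hit_unique D hC hp'.2 (Finset.mem_Ioc.1 hp'.1).1 hi hj)
  have g1 := f1 A B hApp enc dec hdec henc
  have g2 := fun i => f2 i A B hApp enc dec hdec henc
  set N : ℕ := (y ^ (8 * M)) ^ 1000 with hNdef
  obtain ⟨a1, a2, a3, a4, a5, a6, a7⟩ := f3
  have hPY : PY w 1 M y = PP w (y ^ M) := by
    show PP w (y ^ (M * 1)) = _
    rw [mul_one]
  rw [hPY] at a1 a3 a4
  set s1 : ℝ := S1 (PP w (y ^ M)) y I with hs1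
  set s2 : ℝ := S2 (PP w (y ^ M)) y I with hs2
  have hL : 0 < Real.log (y : ℝ) := by linarith
  have hk := kap_pos w
  have hs2pos : 0 < s2 := by
    refine lt_of_lt_of_le ?_ a3
    have : 0 < kap w * Real.log (y : ℝ) := mul_pos hk hL
    linarith
  have hprim : (0 : ℝ) < (primorial w : ℝ) := by exact_mod_cast primorial_pos w
  have hNpos : (0 : ℝ) < (N : ℝ) := by
    have : 0 < N := by rw [hNdef]; positivity
    exact_mod_cast this
  set a : ℝ := D.cF * (N : ℝ) / (primorial w : ℝ) with hadef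
  have ha : 0 < a := div_pos (mul_pos D.bump.cpos hNpos) hprim
  have hX0 : D.X0 w N = a * kap w := by
    rw [kap_eq, hadef]
    unfold Data.X0
    field_simp
  have hFnn : ∀ n, 0 ≤ D.f n := fun n => D.bump.nn _
  have hPhnn : ∀ n, 0 ≤ Ph K w M I y n := fun n => sq_nonneg _
  -- at most one prime
  have hone : ∀ n ∈ D.TT w x0 yy0 N, D.f n ≠ 0 → ∑ i, D.th i N n ≤ 8001 * M * Real.log y := by
    intro n hn hfn
    by_cases hex : ∃ i, D.th i N n ≠ 0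
    · obtain ⟨i, hi⟩ := hex
      have hi' : ∃ q ∈ D.Rg i N, (q : ℤ) = D.L i n := by
        by_contra hne
        exact hi (if_neg hne)
      rw [Finset.sum_eq_single i]
      · exact ((f5 i n).2).trans (f6 i)
      · intro j _ hji
        obtain ⟨q, hq, hq2⟩ := hi'
        refine if_neg ?_
        rintro ⟨q', hq', hq2'⟩
        exact hcon n hn hfn i j (Ne.symm hji) ⟨q, hq, hq2⟩ q' hq' hq2'
      · intro h
        exact absurd (Finset.mem_univ i) h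
    · push Not at hex
      rw [Finset.sum_eq_zero fun i _ => hex i]
      positivity
  have hT : ∑ i, ∑ n ∈ D.TT w x0 yy0 N, D.f n * D.th i N n * Ph K w M I y (enc n) ≤
      8001 * M * Real.log y * ∑ n ∈ D.TT w x0 yy0 N, D.f n * Ph K w M I y (enc n) := by
    rw [Finset.sum_comm, Finset.mul_sum]
    refine Finset.sum_le_sum fun n hn => ?_
    have h1 : ∑ i, D.f n * D.th i N n * Ph K w M I y (enc n) =
        (∑ i, D.th i N n) * (D.f n * Ph K w M I y (enc n)) := by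
      rw [Finset.sum_mul]
      refine Finset.sum_congr rfl fun i _ => ?_
      ring
    rw [h1]
    by_cases hfn : D.f n = 0
    · rw [hfn]
      simp
    · exact mul_le_mul_of_nonneg_right (hone n hn hfn) (mul_nonneg (hFnn n) (hPhnn _))
  have hlow : (K : ℝ) * ((1 - 6 * (1 / 100)) * (9 / 10 * a * (s1 ^ 2 * s2 ^ (K - 1)))) ≤
      ∑ i, ∑ n ∈ D.TT w x0 yy0 N, D.f n * D.th i N n * Ph K w M I y (enc n) := by
    have h1 : (K : ℝ) * ((1 - 6 * (1 / 100)) * (9 / 10 * a * (s1 ^ 2 * s2 ^ (K - 1)))) =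
        ∑ _i : Fin K, ((1 - 6 * (1 / 100)) * (9 / 10 * a * (s1 ^ 2 * s2 ^ (K - 1)))) := by
      rw [Finset.sum_const, Finset.card_univ, Fintype.card_fin, nsmul_eq_mul]
    rw [h1]
    refine Finset.sum_le_sum fun i _ => ?_
    refine le_trans ?_ (g2 i)
    have h2 : 0 ≤ s1 ^ 2 * s2 ^ (K - 1) := mul_nonneg (sq_nonneg _) (pow_nonneg hs2pos.le _)
    have h3 : 9 / 10 * a ≤ D.X1 i w N := f4 i
    have h4 : 9 / 10 * a * (s1 ^ 2 * s2 ^ (K - 1)) ≤ D.X1 i w N * (s1 ^ 2 * s2 ^ (K - 1)) :=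
      mul_le_mul_of_nonneg_right h3 h2
    have h5 : (0 : ℝ) ≤ 1 - 6 * (1 / 100) := by norm_num
    exact mul_le_mul_of_nonneg_left h4 h5
  have hup : 8001 * M * Real.log y * ∑ n ∈ D.TT w x0 yy0 N, D.f n * Ph K w M I y (enc n) ≤
      8001 * M * Real.log y * ((1 + 1 / 100) * (a * kap w * s2 ^ (K - 1 + 1))) := by
    refine mul_le_mul_of_nonneg_left ?_ (by positivity)
    rw [Nat.sub_add_cancel hK1, ← hX0]
    exact g1
  have hK1R : (1 : ℝ) ≤ K := by exact_mod_cast hK1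
  refine E11_final (K : ℝ) (M : ℝ) (Real.log y) a (kap w) s1 s2
    (∑ i, ∑ n ∈ D.TT w x0 yy0 N, D.f n * D.th i N n * Ph K w M I y (enc n)) (I : ℝ) _ (K - 1)
    hM0 hL ha hk hs2pos (Nat.cast_nonneg I) hK1R rfl hlow (hT.trans hup) a1 a4 ?_
  rw [hKR]
  exact h2

end Pool.Agent.LibFS14
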