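import Pool.Agent.LibFS14.Defs

/-!
Row K2 (SHORT/MEDIUM). Approximations `A / B` and `y` with `N = y ^ (8000 M)` of the order of `B ^ 2`.

PLAN. `α` irrational: infinitely many rationals `r` with `|α - r| < 1 / r.den ^ 2` (`Real.infinite_rat_abs_sub_lt_one_div_den_sq_of_irrational`), so `r.den` is unbounded among them (for a bounded denominator only finitely many `r` satisfy `|α - r| < 1`). `A = r.num`, `B = r.den`. Let `y` be the least natural number with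
`B ^ 2 ≤ y ^ (8000 M)`; `y ≥ y1` if `B ^ 2 > y1 ^ (8000 M)`, and `(y - 1) ^ (8000 M) < B ^ 2`, `y ≤ 2 (y - 1)`, so `y ^ (8000 M) ≤ 2 ^ (8000 M) B ^ 2`. `(y ^ (8 M)) ^ 1000 = y ^ (8000 M)`.
-/

open Finset

namespace Pool.Agent.LibFS14

private lemma K2_fin (a : ℝ) (Q : ℕ) : {r : ℚ | r.den ≤ Q ∧ |a - r| < 1}.Finite := by
  obtain ⟨N, hN⟩ := exists_nat_ge ((|a| + 1) * Q)
  refine Set.Finite.subset (((Finset.Icc (-(N : ℤ)) N) ×ˢ (Finset.range (Q + 1))).image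
    (fun p : ℤ × ℕ => (p.1 : ℚ) / (p.2 : ℚ))).finite_toSet ?_
  rintro r ⟨h1, h2⟩
  rw [Finset.mem_coe, Finset.mem_image]
  refine ⟨(r.num, r.den), ?_, ?_⟩
  · rw [Finset.mem_product, Finset.mem_Icc, Finset.mem_range]
    have hd : (0 : ℝ) < r.den := by exact_mod_cast r.den_pos
    have h3 : |((r.num : ℤ) : ℝ)| ≤ N := by
      have e : ((r.num : ℤ) : ℝ) = (r : ℝ) * (r.den : ℝ) := by
        have := Rat.mul_den_eq_num r
        exact_mod_cast this.symm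
      rw [e, abs_mul, abs_of_pos hd]
      have h4 : |(r : ℝ)| ≤ |a| + 1 := by
        have : (r : ℝ) = a - (a - r) := by ring
        rw [this]
        exact (abs_sub _ _).trans (by linarith)
      have h5 : (r.den : ℝ) ≤ Q := by exact_mod_cast h1
      calc |(r : ℝ)| * r.den ≤ (|a| + 1) * Q := mul_le_mul h4 h5 hd.le (by positivity)
        _ ≤ N := hN
    have h6 : |r.num| ≤ (N : ℤ) := by exact_mod_cast h3
    rw [abs_le] at h6
    exact ⟨h6, Nat.lt_succ_of_le h1⟩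
  · exact Rat.num_div_den r

private lemma K2_den {a : ℝ} (ha : Irrational a) (Q : ℕ) :
    ∃ r : ℚ, Q < r.den ∧ |a - r| < 1 / (r.den : ℝ) ^ 2 := by
  by_contra hcon
  push Not at hcon
  have hinf := Real.infinite_rat_abs_sub_lt_one_div_den_sq_of_irrational ha
  apply hinf
  refine (K2_fin a Q).subset ?_
  intro r hr
  have hr' : |a - r| < 1 / (r.den : ℝ) ^ 2 := hr
  refine ⟨?_, ?_⟩
  · by_contra h
    push Not at h
    exact absurd hr' (not_lt.mpr (hcon r h))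
  · refine hr'.trans_le ?_
    have : (1 : ℝ) ≤ r.den := by exact_mod_cast r.den_pos
    rw [div_le_one (by positivity)]
    exact one_le_pow₀ this

theorem exists_app {K : ℕ} (D : Data K) (M : ℕ) (hM : 1 ≤ M) (y1 : ℕ) :
    ∃ (y : ℕ) (A : ℤ) (B : ℕ), y1 ≤ y ∧ D.App (2 ^ (8000 * M)) A B (y ^ (8 * M)) := by
  obtain ⟨r, hr1, hr2⟩ := K2_den D.irr ((y1 + 1) ^ (8000 * M))
  have hE : 8000 * M ≠ 0 := by omega
  have hB1 : 1 ≤ r.den := r.den_pos
  have hBB : (y1 + 1) ^ (8000 * M) < r.den ^ 2 :=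
    hr1.trans_le (Nat.le_self_pow (by norm_num) _)
  have hex : ∃ y : ℕ, r.den ^ 2 ≤ y ^ (8000 * M) :=
    ⟨r.den ^ 2, Nat.le_self_pow hE _⟩
  classical
  obtain ⟨y, hy1, hy2⟩ : ∃ y : ℕ, r.den ^ 2 ≤ y ^ (8000 * M) ∧ ∀ z < y, z ^ (8000 * M) < r.den ^ 2 :=
    ⟨Nat.find hex, Nat.find_spec hex, fun z hz => by
      have := Nat.find_min hex hz
      omega⟩
  have hyy : y1 + 1 < y := by
    by_contra h
    push Not at h
    have := Nat.pow_le_pow_left h (8000 * M)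
    omega
  have hz := hy2 (y - 1) (by omega)
  have h2 : y ^ (8000 * M) ≤ 2 ^ (8000 * M) * r.den ^ 2 := by
    calc y ^ (8000 * M) ≤ (2 * (y - 1)) ^ (8000 * M) := Nat.pow_le_pow_left (by omega) _
      _ = 2 ^ (8000 * M) * (y - 1) ^ (8000 * M) := mul_pow _ _ _
      _ ≤ 2 ^ (8000 * M) * r.den ^ 2 := Nat.mul_le_mul_left _ hz.le
  have e : ((y ^ (8 * M)) ^ 1000 : ℕ) = y ^ (8000 * M) := by
    rw [← pow_mul]
    congr 1
    ring
  have e' : (((y ^ (8 * M) : ℕ) : ℝ)) ^ 1000 = ((y ^ (8000 * M) : ℕ) : ℝ) := by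
    rw [← e, Nat.cast_pow (y ^ (8 * M)) 1000]
  refine ⟨y, r.num, r.den, by omega, ?_⟩
  refine ⟨hB1, Nat.one_le_pow _ _ (by omega), ?_, ?_, ?_, ?_⟩
  · rw [Int.isCoprime_iff_gcd_eq_one]
    exact r.reduced
  · have h3 : ((r.num : ℤ) : ℝ) / ((r.den : ℕ) : ℝ) = (r : ℝ) := by
      rw [Rat.cast_def]
    rw [h3]
    exact hr2.le
  · rw [e']
    exact_mod_cast hy1
  · rw [e']
    exact_mod_cast h2

end Pool.Agent.LibFS14
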