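import Pool.Agent.LibFS14.F1
import Pool.Agent.LibFS14.K2
import Pool.Agent.LibFS14.E11
import Pool.Agent.LibSP4.B31

/-!
Row A1 (SHORT/MEDIUM). Theorem A: two primes among `K` forms in the thin strip.

PLAN. `params 1 (1 / 10 ^ 6)` (LibSP4/B31) gives `I`, `M`; `K = 2 ^ I`; `3 ≤ K`: `M > 2 ^ I` and `M * 2 ≤ 1 / 10 ^ 6 * (2 ^ I * (1 + I/2) ^ 2)` give `(1 + I/2) ^ 2 ≥ 2 * 10 ^ 6`, so `I ≥ 2`. `D : Data K` with `ε' = min ε 1` and `exists_bump` (F1). `two_primes` (E11) with `R = 2 ^ (8000 M)`,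
`exists_app` (K2) with `y ≥ max y1 N0` (and `≥ 1`): `n > N = (y ^ (8 M)) ^ 1000 ≥ y ≥ N0`, `m = D.m n`; `D.f n ≠ 0` gives `0 < m - α n < ε'` (`Bump.supp`). The elements of `Rg` are primes.
-/

open Finset

namespace Pool.Agent.LibFS14

theorem stripA : ∃ K : ℕ, 3 ≤ K ∧ ∀ (α : ℝ) (u v : Fin K → ℤ), Irrational α → Sys K α u v → ∀ ε : ℝ, 0 < ε → ∀ N0 : ℕ,
    ∃ (n : ℕ) (m : ℤ) (i j : Fin K) (p q : ℕ), N0 ≤ n ∧ 0 < m - α * n ∧ m - α * n < ε ∧ i ≠ j ∧ p.Prime ∧ q.Prime ∧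
      (p : ℤ) = u i * m + v i * n ∧ (q : ℤ) = u j * m + v j * n := by
  obtain ⟨I, M, hIM, h1, h2⟩ := Pool.Agent.LibSP4.params 1 (1 / 10 ^ 6) (by norm_num)
  push_cast at h1 h2
  have h2' : (M : ℝ) * 2 ≤ 1 / 10 ^ 6 * (2 ^ I * (1 + I / 2) ^ 2) := by
    rw [mul_one] at h2
    exact h2
  have hI : 2 ≤ I := by
    by_contra hlt
    have hI1 : I ≤ 1 := by omega
    have hI1' : (I : ℝ) ≤ 1 := by exact_mod_cast hI1
    have hI0 : (0 : ℝ) ≤ I := Nat.cast_nonneg I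
    have hP : (0 : ℝ) < 2 ^ I := by positivity
    have hM : (2 : ℝ) ^ I < M := by exact_mod_cast hIM
    have hsq : (1 + (I : ℝ) / 2) ^ 2 ≤ 9 / 4 := by nlinarith
    have h3 : (2 : ℝ) ^ I * (1 + I / 2) ^ 2 ≤ 2 ^ I * (9 / 4) :=
      mul_le_mul_of_nonneg_left hsq hP.le
    nlinarith
  have hK : 3 ≤ 2 ^ I := by
    have h3 : 2 ^ 2 ≤ 2 ^ I := Nat.pow_le_pow_right (by norm_num) hI
    omega
  have hM1 : 1 ≤ M := by
    have : 0 < 2 ^ I := by positivity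
    omega
  refine ⟨2 ^ I, hK, ?_⟩
  intro α u v hα hS ε hε N0
  obtain ⟨F, cF, CF, hF⟩ := exists_bump (min ε 1) (lt_min hε one_pos)
  let D : Data (2 ^ I) :=
    { α := α, u := u, v := v, ε := min ε 1, F := F, cF := cF, CF := CF, irr := hα, sys := hS,
      ε1 := min_le_right _ _, bump := hF }
  obtain ⟨w, x0, y0, y1, hy1⟩ := two_primes D I M rfl hIM h1 h2' (2 ^ (8000 * M))
  obtain ⟨y, A, B, hy, hApp⟩ := exists_app D M hM1 (max y1 N0)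
  obtain ⟨n, hn, hfn, i, j, hij, ⟨q, hq, hqL⟩, q', hq', hqL'⟩ :=
    hy1 y ((le_max_left _ _).trans hy) A B hApp
  have hnN : (y ^ (8 * M)) ^ 1000 < n := by
    classical
    unfold Data.TT at hn
    exact (mem_Ioc.1 (mem_filter.1 hn).1).1
  have hyN : y ≤ (y ^ (8 * M)) ^ 1000 :=
    (Nat.le_self_pow (by omega) y).trans (Nat.le_self_pow (by norm_num) _)
  have hprime : ∀ (k : Fin (2 ^ I)) (r : ℕ), r ∈ D.Rg k ((y ^ (8 * M)) ^ 1000) → r.Prime := by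
    intro k r hr
    classical
    unfold Data.Rg at hr
    exact (mem_filter.1 hr).2.1
  have hsupp : 0 < (D.m n : ℝ) - D.α * n ∧ (D.m n : ℝ) - D.α * n < min ε 1 := hF.supp _ hfn
  refine ⟨n, D.m n, i, j, q, q', ?_, hsupp.1, hsupp.2.trans_le (min_le_left _ _), hij,
    hprime i q hq, hprime j q' hq', hqL, hqL'⟩
  have : N0 ≤ y := (le_max_right _ _).trans hy
  omega

end Pool.Agent.LibFS14
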