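import Pool.Agent.LibFS14.Defs

/-!
LibFS14: the statement for one `β`, and the conclusion of Theorem A.
-/

open Finset

namespace Pool.Agent.LibFS14

/-- for every `ε > 0` there are infinitely many primes `p` with `⌊β p⌋` prime and `β p - ⌊β p⌋ < ε` -/
def Good (β : ℝ) : Prop := ∀ ε : ℝ, 0 < ε → {p : ℕ | p.Prime ∧ (⌊β * p⌋₊).Prime ∧ Int.fract (β * p) < ε}.Infinite

/-- the conclusion of Theorem A for `K` forms -/
def StripK (K : ℕ) : Prop := ∀ (α : ℝ) (u v : Fin K → ℤ), Irrational α → Sys K α u v → ∀ ε : ℝ, 0 < ε → ∀ N0 : ℕ,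
    ∃ (n : ℕ) (m : ℤ) (i j : Fin K) (p q : ℕ), N0 ≤ n ∧ 0 < m - α * n ∧ m - α * n < ε ∧ i ≠ j ∧ p.Prime ∧ q.Prime ∧
      (p : ℤ) = u i * m + v i * n ∧ (q : ℤ) = u j * m + v j * n

end Pool.Agent.LibFS14
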