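import Pool.Agent.LibFS14.C0

/-!
Row C1 (MEDIUM). From Theorem A to one good quotient.
-/

open Finset

namespace Pool.Agent.LibFS14

private theorem C1_pair {K : ℕ} (hA : StripK K) (α : ℝ) (u v : Fin K → ℤ) (hα : Irrational α) (hS : Sys K α u v)
    (t : ℕ) : ∃ (w : Fin K × Fin K) (n : ℕ) (m : ℤ) (p q : ℕ), w.1 < w.2 ∧ t ≤ n ∧ 0 < m - α * n ∧
      m - α * n < 1 / ((t : ℝ) + 1) ∧ p.Prime ∧ q.Prime ∧
      (p : ℤ) = u w.1 * m + v w.1 * n ∧ (q : ℤ) = u w.2 * m + v w.2 * n := by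
  obtain ⟨n, m, i, j, p, q, h1, h2, h3, h4, h5, h6, h7, h8⟩ :=
    hA α u v hα hS (1 / ((t : ℝ) + 1)) (by positivity) t
  rcases lt_or_gt_of_ne h4 with h | h
  · exact ⟨(i, j), n, m, p, q, h, h1, h2, h3, h5, h6, h7, h8⟩
  · exact ⟨(j, i), n, m, q, p, h, h1, h2, h3, h6, h5, h8, h7⟩

theorem good_pair {K : ℕ} (hA : StripK K) (α : ℝ) (u v : Fin K → ℤ) (hα : Irrational α) (hS : Sys K α u v)
    (hd : ∀ i j, i < j → 0 < u i * v j - u j * v i) :
    ∃ i j, i < j ∧ Good (((u j : ℝ) * α + v j) / ((u i : ℝ) * α + v i)) := by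
  choose w n m p q h0 h1 h2 h3 h4 h5 h6 h7 using C1_pair hA α u v hα hS
  obtain ⟨⟨i, j⟩, hij⟩ := Finite.exists_infinite_fiber w
  have hS' : (w ⁻¹' {(i, j)}).Infinite := Set.infinite_coe_iff.1 hij
  have hlt : i < j := by
    obtain ⟨t, ht⟩ := hS'.nonempty
    have h8 : w t = (i, j) := ht
    have := h0 t
    rw [h8] at this
    exact this
  refine ⟨i, j, hlt, fun ε hε => ?_⟩
  have hρ : 0 < (u i : ℝ) * α + v i := hS.pos i
  set ρ : ℝ := (u i : ℝ) * α + v i with hρd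
  set D : ℝ := ((u i * v j - u j * v i : ℤ) : ℝ) with hD
  have hDpos : 0 < D := by
    rw [hD]
    exact_mod_cast hd i j hlt
  refine Set.infinite_of_forall_exists_gt fun a => ?_
  have hE : 0 < min ε 1 := lt_min hε one_pos
  obtain ⟨N, hN⟩ := exists_nat_gt (max (D / (ρ * min ε 1)) ((a + |(u i : ℝ)|) / ρ))
  obtain ⟨t, ht, htN⟩ := hS'.exists_gt N
  have htw : w t = (i, j) := ht
  have htN' : (N : ℝ) < t := by exact_mod_cast htN
  have k1 : D / (ρ * min ε 1) < t := (le_max_left _ _).trans_lt (hN.trans htN')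
  have k2 : (a + |(u i : ℝ)|) / ρ < t := (le_max_right _ _).trans_lt (hN.trans htN')
  have e1 := h1 t
  have e2 := h2 t
  have e3 := h3 t
  have e6 := h6 t
  have e7 := h7 t
  rw [htw] at e6 e7
  have r6 : (p t : ℝ) = u i * m t + v i * n t := by exact_mod_cast e6
  have r7 : (q t : ℝ) = u j * m t + v j * n t := by exact_mod_cast e7
  have hx1 : (m t : ℝ) - α * n t < 1 := by
    refine e3.trans_le ?_
    rw [div_le_one (by positivity)]
    have : (0 : ℝ) ≤ t := Nat.cast_nonneg t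
    linarith
  have hn : (t : ℝ) ≤ n t := by exact_mod_cast e1
  -- the size of `p`
  have hp : (a : ℝ) < p t := by
    have g1 : (p t : ℝ) = ρ * n t + u i * (m t - α * n t) := by
      rw [r6, hρd]
      ring
    have g2 : -|(u i : ℝ)| ≤ u i * (m t - α * n t) := by
      have g3 : |(u i : ℝ) * (m t - α * n t)| ≤ |(u i : ℝ)| := by
        rw [abs_mul, abs_of_pos e2]
        exact mul_le_of_le_one_right (abs_nonneg _) hx1.le
      exact (abs_le.1 g3).1.trans' (le_refl _)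
    rw [div_lt_iff₀ hρ] at k2
    have g4 : ρ * t ≤ ρ * n t := mul_le_mul_of_nonneg_left hn hρ.le
    rw [g1]
    linarith
  -- the fractional part
  have hδ : ((u j : ℝ) * α + v j) / ρ * p t - q t = D / ρ * (m t - α * n t) := by
    rw [r6, r7, hD]
    push_cast
    field_simp
    rw [hρd]
    ring
  have hδ0 : 0 < D / ρ * (m t - α * n t) := mul_pos (div_pos hDpos hρ) e2
  have hδ1 : D / ρ * (m t - α * n t) < min ε 1 := by
    have g1 : D / ρ * (m t - α * n t) ≤ D / ρ * (1 / ((t : ℝ) + 1)) :=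
      mul_le_mul_of_nonneg_left e3.le (div_pos hDpos hρ).le
    refine g1.trans_lt ?_
    rw [div_lt_iff₀ (mul_pos hρ hE)] at k1
    rw [div_mul_div_comm, mul_one, div_lt_iff₀ (by positivity)]
    nlinarith [mul_pos hρ hE]
  have hfl : ⌊((u j : ℝ) * α + v j) / ρ * p t⌋₊ = q t := by
    rw [Nat.floor_eq_iff]
    · constructor
      · linarith
      · have := lt_min_iff.1 hδ1
        linarith [this.2]
    · have : (0 : ℝ) ≤ q t := Nat.cast_nonneg _
      linarith
  have hfr : Int.fract (((u j : ℝ) * α + v j) / ρ * p t) = D / ρ * (m t - α * n t) := by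
    rw [Int.fract_eq_iff]
    refine ⟨hδ0.le, (lt_min_iff.1 hδ1).2, (q t : ℤ), ?_⟩
    push_cast
    linarith
  refine ⟨p t, ⟨h4 t, ?_, ?_⟩, ?_⟩
  · rw [hfl]
    exact h5 t
  · rw [hfr]
    exact (lt_min_iff.1 hδ1).1
  · exact_mod_cast hp

end Pool.Agent.LibFS14
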