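import Pool.Agent.LibFS14.C1

/-!
Row C2 (SHORT). The quotients `(α + j) / (α + i)`.

PLAN. `good_pair` with `u i = 1`, `v i = i + 1`: `Sys`: `u ≠ 0`, `α + i + 1 > 0`, `det = j - i ≠ 0`; admissible: `(x, y) = (0, 1)` gives `1`, not divisible by `p`. `det = (j + 1) - (i + 1) > 0` for `i < j`.
-/

open Finset

namespace Pool.Agent.LibFS14

theorem part_two {K : ℕ} (hA : StripK K) (α : ℝ) (hα : Irrational α) (h0 : 0 < α) :
    ∃ i j : ℕ, 1 ≤ i ∧ i < j ∧ j ≤ K ∧ Good ((α + j) / (α + i)) := by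
  have hS : Sys K α (fun _ => 1) (fun i => ((i : ℕ) : ℤ) + 1) := by
    refine ⟨fun i => one_ne_zero, fun i => ?_, fun i j hij h => ?_, fun p hp => ⟨0, 1, fun i h => ?_⟩⟩
    · push_cast
      positivity
    · apply hij
      apply Fin.ext
      simp only [one_mul, add_left_inj, Nat.cast_inj] at h
      exact h.symm
    · simp only [mul_one, mul_zero, add_zero] at h
      exact hp.one_lt.ne' (by exact_mod_cast Int.eq_one_of_dvd_one (by positivity) h)
  obtain ⟨i, j, hij, hG⟩ := good_pair hA α (fun _ => 1) (fun i => ((i : ℕ) : ℤ) + 1) hα hS (by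
    intro i j hij
    have : (i : ℕ) < (j : ℕ) := hij
    omega)
  refine ⟨(i : ℕ) + 1, (j : ℕ) + 1, by omega, ?_, j.2, ?_⟩
  · have : (i : ℕ) < (j : ℕ) := hij
    omega
  · push_cast at hG ⊢
    simpa only [one_mul] using hG

end Pool.Agent.LibFS14
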