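import Pool.Agent.LibFS14.C0

/-!
Row C3 (MEDIUM). Averaging over transversals.

PLAN. The transversals are `Fintype.piFinset V`, there are `∏ k, (V k).card` of them. Each contains a pair `i < j` with `G (f i) (f j)`, so `∏ k, (V k).card ≤ ∑_{i < j} #{f | G (f i) (f j)}` and `#{f | G (f i) (f j)} = g(i,j) * ∏_{k ≠ i, j} (V k).card`, `g(i,j)` = number of the pairs in
`V i ×ˢ V j` with `G`. If `K ^ 2 * g(i,j) < (V i).card * (V j).card` for all `i < j`, then `K ^ 2 * #{f | ..} < ∏ (V k).card` for each of the (at most `K ^ 2`) pairs; summing gives a contradiction. (The count of the `f`: e.g. the map `f ↦ ((f i, f j), f restricted)`; or by double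
counting with `Finset.card_eq_sum_card_fiberwise` over the value of `(f i, f j)`: every fibre is a `piFinset` of the sets `V k` with `V i`, `V j` replaced by singletons.)
-/

open Finset

namespace Pool.Agent.LibFS14

open scoped Classical in
private theorem C3_count {K : ℕ} {τ : Type} (V : Fin K → Finset τ) (G : τ → τ → Prop) (i j : Fin K) (hij : i ≠ j) :
    ((Fintype.piFinset V).filter fun f => G (f i) (f j)).card * ((V i).card * (V j).card) =
      ((V i ×ˢ V j).filter fun x => G x.1 x.2).card * (Fintype.piFinset V).card := by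
  have up : ∀ (f : Fin K → τ) (a b : τ), f ∈ Fintype.piFinset V → a ∈ V i → b ∈ V j →
      Function.update (Function.update f i a) j b ∈ Fintype.piFinset V := by
    intro f a b hf ha hb
    rw [Fintype.mem_piFinset] at hf ⊢
    intro k
    by_cases h1 : k = j
    · subst h1
      simpa using hb
    · by_cases h2 : k = i
      · subst h2
        simpa [h1] using ha
      · simpa [h1, h2] using hf k
  have vi : ∀ (f : Fin K → τ) (a b : τ), Function.update (Function.update f i a) j b i = a := by
    intro f a b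
    rw [Function.update_of_ne hij, Function.update_self]
  have vj : ∀ (f : Fin K → τ) (a b : τ), Function.update (Function.update f i a) j b j = b := by
    intro f a b
    rw [Function.update_self]
  have back : ∀ (f : Fin K → τ) (a b : τ), Function.update (Function.update
      (Function.update (Function.update f i a) j b) i (f i)) j (f j) = f := by
    intro f a b
    funext k
    by_cases h1 : k = j
    · subst h1
      simp
    · by_cases h2 : k = i
      · subst h2
        simp [h1]
      · simp [h1, h2]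
  rw [← card_product (V i) (V j), ← card_product, ← card_product]
  refine Finset.card_nbij'
    (fun x => ((x.1 i, x.1 j), Function.update (Function.update x.1 i x.2.1) j x.2.2))
    (fun x => (Function.update (Function.update x.2 i x.1.1) j x.1.2, (x.2 i, x.2 j))) ?_ ?_ ?_ ?_
  · rintro ⟨f, a, b⟩ hx
    simp only [coe_product, Set.mem_prod, mem_coe, mem_filter, mem_product] at hx ⊢
    obtain ⟨⟨hf, hG⟩, ha, hb⟩ := hx
    have hf' := Fintype.mem_piFinset.1 hf
    exact ⟨⟨⟨hf' i, hf' j⟩, hG⟩, up f a b hf ha hb⟩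
  · rintro ⟨⟨a, b⟩, f⟩ hx
    simp only [coe_product, Set.mem_prod, mem_coe, mem_filter, mem_product] at hx ⊢
    obtain ⟨⟨⟨ha, hb⟩, hG⟩, hf⟩ := hx
    have hf' := Fintype.mem_piFinset.1 hf
    refine ⟨⟨up f a b hf ha hb, ?_⟩, hf' i, hf' j⟩
    rw [vi, vj]
    exact hG
  · rintro ⟨f, a, b⟩ hx
    simp only [Prod.mk.injEq]
    exact ⟨back f a b, vi f a b, vj f a b⟩
  · rintro ⟨⟨a, b⟩, f⟩ hx
    simp only [Prod.mk.injEq]
    exact ⟨⟨vi f a b, vj f a b⟩, back f a b⟩

open scoped Classical in
theorem averaging {K : ℕ} {τ : Type} (V : Fin K → Finset τ) (hV : ∀ k, (V k).Nonempty) (G : τ → τ → Prop)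
    (h : ∀ f : Fin K → τ, (∀ k, f k ∈ V k) → ∃ i j, i < j ∧ G (f i) (f j)) :
    ∃ i j, i < j ∧ (V i).card * (V j).card ≤ K ^ 2 * ((V i ×ˢ V j).filter fun x => G x.1 x.2).card := by
  by_contra hcon
  push Not at hcon
  set P := Fintype.piFinset V with hP
  have hPpos : 0 < P.card := by
    rw [hP, Fintype.card_piFinset]
    exact Finset.prod_pos fun k _ => (hV k).card_pos
  set D := (univ : Finset (Fin K × Fin K)).filter (fun x => x.1 < x.2) with hD
  have hDc : D.card ≤ K ^ 2 := by
    refine (Finset.card_filter_le _ _).trans ?_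
    rw [Finset.card_univ, Fintype.card_prod, Fintype.card_fin]
    exact le_of_eq (by ring)
  have hsub : P ⊆ D.biUnion fun x => P.filter fun f => G (f x.1) (f x.2) := by
    intro f hf
    obtain ⟨i, j, hij, hG⟩ := h f (Fintype.mem_piFinset.1 hf)
    rw [mem_biUnion]
    exact ⟨(i, j), by simp [hD, hij], mem_filter.2 ⟨hf, hG⟩⟩
  have hle : P.card ≤ ∑ x ∈ D, (P.filter fun f => G (f x.1) (f x.2)).card :=
    (Finset.card_le_card hsub).trans Finset.card_biUnion_le
  have hDne : D.Nonempty := by
    obtain ⟨f, hf⟩ := Finset.card_pos.1 hPpos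
    obtain ⟨i, j, hij, hG⟩ := h f (Fintype.mem_piFinset.1 hf)
    exact ⟨(i, j), by simp [hD, hij]⟩
  have hlt : ∀ x ∈ D, K ^ 2 * (P.filter fun f => G (f x.1) (f x.2)).card < P.card := by
    intro x hx
    have hx' : x.1 < x.2 := (mem_filter.1 hx).2
    have h1 := hcon x.1 x.2 hx'
    have h2 := C3_count V G x.1 x.2 hx'.ne
    have hpos : 0 < (V x.1).card * (V x.2).card := Nat.mul_pos (hV _).card_pos (hV _).card_pos
    rw [← hP] at h2
    by_contra h3
    push Not at h3
    have h4 : P.card * ((V x.1).card * (V x.2).card) ≤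
        K ^ 2 * (P.filter fun f => G (f x.1) (f x.2)).card * ((V x.1).card * (V x.2).card) :=
      Nat.mul_le_mul_right _ h3
    rw [mul_assoc, h2] at h4
    have h5 : K ^ 2 * ((V x.1 ×ˢ V x.2).filter fun y => G y.1 y.2).card * P.card <
        (V x.1).card * (V x.2).card * P.card := Nat.mul_lt_mul_of_pos_right h1 hPpos
    rw [mul_comm ((V x.1).card * (V x.2).card) P.card, mul_assoc] at h5
    exact absurd h4 (not_le.2 h5)
  have h6 : K ^ 2 * P.card < K ^ 2 * P.card := by
    calc K ^ 2 * P.card ≤ K ^ 2 * ∑ x ∈ D, (P.filter fun f => G (f x.1) (f x.2)).card :=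
          Nat.mul_le_mul_left _ hle
      _ = ∑ x ∈ D, K ^ 2 * (P.filter fun f => G (f x.1) (f x.2)).card := by rw [Finset.mul_sum]
      _ < ∑ x ∈ D, P.card := Finset.sum_lt_sum_of_nonempty hDne hlt
      _ = D.card * P.card := by rw [Finset.sum_const, smul_eq_mul]
      _ ≤ K ^ 2 * P.card := Nat.mul_le_mul_right _ hDc
  exact lt_irrefl _ h6

end Pool.Agent.LibFS14
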