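import Pool.Agent.LibFS14.C0

/-!
LibFS14: the windows.
-/

open Finset

namespace Pool.Agent.LibFS14

/-- the window `k` for the height `X` (`x = (u, v)`) -/
noncomputable def Win (K : ℕ) (α : ℝ) (X : ℕ) (k : Fin K) : Finset (ℤ × ℤ) :=
  open scoped Classical in
  ((Icc (-(X : ℤ)) X) ×ˢ (Icc (-(X : ℤ)) X)).filter fun x => (X : ℝ) / 4 < x.1 ∧ (x.1 : ℝ) ≤ X / 2 ∧
    (primorial K : ℤ) ∣ x.1 - 1 ∧ IsCoprime x.1 x.2 ∧ (X : ℝ) / 4 ^ (K - (k : ℕ) + 1) < x.1 * α + x.2 ∧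
    (x.1 : ℝ) * α + x.2 ≤ 2 * (X / 4 ^ (K - (k : ℕ) + 1))

end Pool.Agent.LibFS14
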