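import Pool.Agent.LibFS14.C4

/-!
Row C5 (MEDIUM/STRONG). The windows are large.

PLAN. `W = primorial K ≥ 1`, `l = X / 4 ^ (K - k + 1)` (`≤ X / 16`), `U` = the `u ∈ (X/4, X/2]` with `W ∣ u - 1`: `X/(4W) - 1 ≤ #U ≤ X/(4W) + 1`. For `u ∈ U` the `v` with `l < u α + v ≤ 2 l` form an interval with at least `l - 1` and at most `l + 1` elements, and `|v| ≤ 2 l + |u| ≤ X` as `|α| < 1`,
`2 l ≤ X / 8`. Subtract the `(u, v)` with a common prime `p`: `p ∣ u`, so `p ∤ W`, `p > K ≥ 3` (all primes `≤ K` divide `W`, and `u ≡ 1`), `p ≤ X`; the number of `u ∈ U` with `p ∣ u` is at most `X/(4 W p) + 1` (one class modulo `W p`), and for each of them at most `l / p + 1` many `v`: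
at most `∑_{3 < p ≤ X} (X/(4 W p) + 1)(l/p + 1) ≤ (X l / (4 W)) ∑_{p ≥ 5} 1/p^2 + (X + l + ...)(1 + log X)`-like terms: `∑_{n ≥ 5} 1/n^2 ≤ 1/4`; the other terms are `≤ C X (1 + log X) `. So `#Win ≥ (X/(4W))(l)(1 - 1/4) - C X (1 + log X) ≥ X l / (8 W)` for `X ≥ X0`,
and `c = 1 / (8 W 4 ^ (K + 1))`. `X0` depends only on `K` (not needed: it may depend on `α`).
-/

open Finset

namespace Pool.Agent.LibFS14

private lemma C5_cnt (x y : ℝ) (hxy : x ≤ y) (r v : ℤ) (hr : 0 < r) :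
    (y - x) / r - 2 ≤ (((Ioc ⌊x⌋ ⌊y⌋).filter fun z => z ≡ v [ZMOD r]).card : ℝ) ∧
    (((Ioc ⌊x⌋ ⌊y⌋).filter fun z => z ≡ v [ZMOD r]).card : ℝ) ≤ (y - x) / r + 2 := by
  have h := Int.Ioc_filter_modEq_card ⌊x⌋ ⌊y⌋ hr v
  have hc : (((Ioc ⌊x⌋ ⌊y⌋).filter fun z => z ≡ v [ZMOD r]).card : ℝ)
      = (((max (⌊((⌊y⌋ : ℤ) - v) / (r : ℚ)⌋ - ⌊((⌊x⌋ : ℤ) - v) / (r : ℚ)⌋) 0 : ℤ)) : ℝ) := by
    rw [← h]; norm_cast
  rw [hc]
  have hr' : (0 : ℝ) < r := by exact_mod_cast hr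
  have hr1 : (1 : ℝ) ≤ r := by exact_mod_cast hr
  have e : ∀ z : ℤ, ((⌊((z : ℤ) - v) / (r : ℚ)⌋ : ℤ) : ℝ) ≤ ((z : ℝ) - v) / r ∧
      ((z : ℝ) - v) / r - 1 < ((⌊((z : ℤ) - v) / (r : ℚ)⌋ : ℤ) : ℝ) := by
    intro z
    have h1 := Int.floor_le (((z : ℤ) - v) / (r : ℚ))
    have h2 := Int.sub_one_lt_floor (((z : ℤ) - v) / (r : ℚ))
    constructor
    · have : (((⌊((z : ℤ) - v) / (r : ℚ)⌋ : ℤ) : ℚ) : ℝ) ≤ ((((z : ℤ) - v) / (r : ℚ) : ℚ) : ℝ) := by
        exact_mod_cast h1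
      push_cast at this
      exact this
    · have : ((((z : ℤ) - v) / (r : ℚ) - 1 : ℚ) : ℝ) < (((⌊((z : ℤ) - v) / (r : ℚ)⌋ : ℤ) : ℚ) : ℝ) := by
        exact_mod_cast h2
      push_cast at this
      exact this
  obtain ⟨a1, a2⟩ := e ⌊x⌋
  obtain ⟨b1, b2⟩ := e ⌊y⌋
  have fx1 := Int.floor_le x
  have fx2 := Int.sub_one_lt_floor x
  have fy1 := Int.floor_le y
  have fy2 := Int.sub_one_lt_floor y
  have k1 : ((⌊y⌋ : ℝ) - v) / r - ((⌊x⌋ : ℝ) - v) / r ≤ (y - x) / r + 1 := by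
    rw [← sub_div, div_le_iff₀ hr', add_mul, div_mul_cancel₀ _ hr'.ne']
    nlinarith
  have k2 : (y - x) / r - 1 ≤ ((⌊y⌋ : ℝ) - v) / r - ((⌊x⌋ : ℝ) - v) / r := by
    rw [← sub_div, le_div_iff₀ hr', sub_mul, div_mul_cancel₀ _ hr'.ne']
    nlinarith
  have k0 : 0 ≤ (y - x) / r := div_nonneg (by linarith) hr'.le
  rw [Int.cast_max]
  push_cast
  constructor
  · refine le_trans ?_ (le_max_left _ _)
    linarith
  · refine max_le ?_ ?_
    · linarith
    · linarith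

private lemma C5_sq (M : ℕ) : ∑ n ∈ Icc 5 M, (1 : ℝ) / (n : ℝ) ^ 2 ≤ 1 / 4 := by
  have : ∀ M : ℕ, 4 ≤ M → ∑ n ∈ Icc 5 M, (1 : ℝ) / (n : ℝ) ^ 2 ≤ 1 / 4 - 1 / M := by
    intro M hM
    induction M, hM using Nat.le_induction with
    | base => simp
    | succ m hm ih =>
      rw [Finset.sum_Icc_succ_top (by omega)]
      have hm' : (4 : ℝ) ≤ m := by exact_mod_cast hm
      have : (1 : ℝ) / ((m + 1 : ℕ) : ℝ) ^ 2 ≤ 1 / m - 1 / ((m + 1 : ℕ) : ℝ) := by
        push_cast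
        rw [div_sub_div _ _ (by positivity) (by positivity), div_le_div_iff₀ (by positivity) (by positivity)]
        nlinarith
      linarith
  rcases le_or_gt 4 M with h | h
  · have := this M h
    have h2 : (0 : ℝ) ≤ 1 / M := by positivity
    linarith
  · rw [Finset.Icc_eq_empty (by omega)]
    norm_num

private lemma C5_harm (M : ℕ) : ∑ n ∈ Icc 5 M, (1 : ℝ) / (n : ℝ) ≤ 1 + Real.log M := by
  have h := harmonic_le_one_add_log M
  rw [harmonic_eq_sum_Icc] at h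
  push_cast at h
  refine le_trans ?_ h
  have : ∑ n ∈ Icc 5 M, (1 : ℝ) / (n : ℝ) = ∑ n ∈ Icc 5 M, ((n : ℝ))⁻¹ := by
    refine Finset.sum_congr rfl fun n _ => by rw [one_div]
  rw [this]
  exact Finset.sum_le_sum_of_subset_of_nonneg (Finset.Icc_subset_Icc (by norm_num) le_rfl) (fun _ _ _ => by positivity)

private lemma C5_large (A : ℝ) : ∃ X0 : ℕ, 1 ≤ X0 ∧ ∀ X : ℕ, X0 ≤ X → A * (16 + 8 * Real.log X) ≤ X := by
  have h1 : Filter.Tendsto (fun x : ℝ => (A * (16 + 8 * Real.log x)) / x) Filter.atTop (nhds 0) := by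
    have a : Filter.Tendsto (fun x : ℝ => Real.log x / x) Filter.atTop (nhds 0) :=
      Real.isLittleO_log_id_atTop.tendsto_div_nhds_zero
    have b : Filter.Tendsto (fun x : ℝ => x⁻¹) Filter.atTop (nhds 0) := tendsto_inv_atTop_zero
    have c := (b.const_mul (A * 16)).add (a.const_mul (A * 8))
    rw [mul_zero, mul_zero, add_zero] at c
    refine c.congr fun x => ?_
    ring
  have h2 := (h1.comp tendsto_natCast_atTop_atTop).eventually (gt_mem_nhds (show (0 : ℝ) < 1 by norm_num))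
  obtain ⟨X0, hX0⟩ := Filter.eventually_atTop.1 h2
  refine ⟨max X0 1, le_max_right _ _, fun X hX => ?_⟩
  have := hX0 X (le_trans (le_max_left _ _) hX)
  simp only [Function.comp] at this
  have hXp : (0 : ℝ) < X := by
    have : 1 ≤ X := le_trans (le_max_right _ _) hX
    exact_mod_cast this
  rw [div_lt_one hXp] at this
  exact this.le

private lemma C5_cop (K : ℕ) (hK : 3 ≤ K) (X : ℕ) (u v : ℤ) (hu0 : 0 < u) (huX : u ≤ X) (hW : (primorial K : ℤ) ∣ u - 1)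
    (h : ¬ IsCoprime u v) : ∃ n ∈ Icc 5 X, (n : ℤ) ∣ u ∧ (n : ℤ) ∣ v := by
  rw [Int.isCoprime_iff_gcd_eq_one] at h
  obtain ⟨p, hp, hpd⟩ := Nat.exists_prime_and_dvd h
  have h1 : (p : ℤ) ∣ u := (Int.natCast_dvd_natCast.2 hpd).trans (Int.gcd_dvd_left _ _)
  have h2 : (p : ℤ) ∣ v := (Int.natCast_dvd_natCast.2 hpd).trans (Int.gcd_dvd_right _ _)
  refine ⟨p, ?_, h1, h2⟩
  have hpK : K < p := by
    by_contra hc
    have h3 : p ∣ primorial K := (hp.dvd_primorial_iff).2 (not_lt.1 hc)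
    have h4 : (p : ℤ) ∣ u - 1 := (Int.natCast_dvd_natCast.2 h3).trans hW
    have h5 : (p : ℤ) ∣ 1 := by
      have := dvd_sub h1 h4
      simpa using this
    have h6 : p ∣ 1 := by exact_mod_cast h5
    exact hp.one_lt.ne' (Nat.dvd_one.1 h6)
  rw [mem_Icc]
  constructor
  · have : p ≠ 4 := by
      rintro rfl
      revert hp
      decide
    omega
  · have := Int.le_of_dvd hu0 h1
    have : (p : ℤ) ≤ X := this.trans huX
    exact_mod_cast this

private lemma C5_class (W : ℕ) (hW : 0 < W) (x y : ℝ) (hxy : x ≤ y) (n : ℕ) (hn : 0 < n) :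
    (((Ioc ⌊x⌋ ⌊y⌋).filter fun z => (W : ℤ) ∣ z - 1 ∧ (n : ℤ) ∣ z).card : ℝ) ≤ (y - x) / (W * n) + 2 := by
  classical
  have hWn : (0 : ℤ) < (W : ℤ) * n := by positivity
  rcases ((Ioc ⌊x⌋ ⌊y⌋).filter fun z => (W : ℤ) ∣ z - 1 ∧ (n : ℤ) ∣ z).eq_empty_or_nonempty with h | ⟨u0, hu0⟩
  · rw [h]
    have : 0 ≤ (y - x) / (W * n) := div_nonneg (by linarith) (by positivity)
    simp
    linarith
  · have h2 := (C5_cnt x y hxy ((W : ℤ) * n) u0 hWn).2
    push_cast at h2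
    refine le_trans ?_ h2
    rw [mem_filter] at hu0
    obtain ⟨_, ⟨s, hs⟩, hd⟩ := hu0
    have hcop : IsCoprime (W : ℤ) (n : ℤ) := by
      obtain ⟨t, ht⟩ := hd
      refine ⟨-s, t, ?_⟩
      linarith
    have : ((Ioc ⌊x⌋ ⌊y⌋).filter fun z => (W : ℤ) ∣ z - 1 ∧ (n : ℤ) ∣ z) ⊆
        ((Ioc ⌊x⌋ ⌊y⌋).filter fun z => z ≡ u0 [ZMOD ((W : ℤ) * n)]) := by
      intro z hz
      rw [mem_filter] at hz ⊢
      refine ⟨hz.1, ?_⟩
      have e1 : (W : ℤ) ∣ u0 - z := by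
        have := dvd_sub (Dvd.intro s hs.symm) hz.2.1
        have e : u0 - 1 - (z - 1) = u0 - z := by ring
        rwa [e] at this
      have e2 : (n : ℤ) ∣ u0 - z := dvd_sub hd hz.2.2
      exact Int.modEq_iff_dvd.2 (hcop.mul_dvd e1 e2)
    exact_mod_cast Finset.card_le_card this

theorem win_card (K : ℕ) (hK : 3 ≤ K) : ∃ c : ℝ, 0 < c ∧ ∀ α : ℝ, |α| < 1 → ∃ X0 : ℕ, ∀ X ≥ X0, ∀ k : Fin K,
    c * (X : ℝ) ^ 2 ≤ (Win K α X k).card := by
  classical
  set W : ℕ := primorial K with hWdef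
  have hWpos : 0 < W := primorial_pos K
  have hW1 : (1 : ℝ) ≤ W := by exact_mod_cast hWpos
  have hW0 : (0 : ℝ) < W := by linarith
  refine ⟨1 / (8 * W * 4 ^ (K + 1)), by positivity, fun α hα => ?_⟩
  obtain ⟨X0, hX01, hX0⟩ := C5_large (16 * W * 4 ^ (K + 1))
  refine ⟨X0, fun X hX k => ?_⟩
  have hbig := hX0 X hX
  have hX1 : (1 : ℝ) ≤ X := by exact_mod_cast (le_trans hX01 hX)
  have hXp : (0 : ℝ) < X := by linarith
  have hlog : 0 ≤ Real.log X := Real.log_nonneg hX1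
  have hk := k.2
  set l : ℝ := (X : ℝ) / 4 ^ (K - (k : ℕ) + 1) with hl
  have hl0 : 0 < l := by positivity
  have hl16 : l ≤ X / 16 := by
    rw [hl]
    refine div_le_div_of_nonneg_left hXp.le (by norm_num) ?_
    calc (16 : ℝ) = 4 ^ 2 := by norm_num
      _ ≤ _ := pow_le_pow_right₀ (by norm_num) (by omega)
  have hlge : (X : ℝ) / 4 ^ (K + 1) ≤ l := by
    rw [hl]
    refine div_le_div_of_nonneg_left hXp.le (by positivity) ?_
    exact pow_le_pow_right₀ (by norm_num) (by omega)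
  have hlbig : 16 * W * (16 + 8 * Real.log X) ≤ l := by
    refine le_trans ?_ hlge
    rw [le_div_iff₀ (by positivity)]
    linarith
  have hl1 : 1 ≤ l := by nlinarith
  -- the sets
  set U : Finset ℤ := (Ioc ⌊(X : ℝ) / 4⌋ ⌊(X : ℝ) / 2⌋).filter fun z => z ≡ 1 [ZMOD (W : ℤ)] with hU
  set J : ℤ → Finset ℤ := fun u => Ioc ⌊l - u * α⌋ ⌊2 * l - u * α⌋ with hJ
  have hUmem : ∀ u ∈ U, (X : ℝ) / 4 < u ∧ (u : ℝ) ≤ X / 2 ∧ (W : ℤ) ∣ u - 1 := by
    intro u hu
    rw [hU, mem_filter, mem_Ioc, Int.floor_lt, Int.le_floor] at hu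
    exact ⟨hu.1.1, hu.1.2, (Int.modEq_iff_dvd.1 hu.2.symm)⟩
  have hUcard : (X : ℝ) / (4 * W) - 2 ≤ U.card := by
    have := (C5_cnt ((X : ℝ) / 4) ((X : ℝ) / 2) (by linarith) (W : ℤ) 1 (by exact_mod_cast hWpos)).1
    refine le_trans (le_of_eq ?_) this
    push_cast
    field_simp
    ring
  have hUcard' : (U.card : ℝ) ≤ X := by
    have := (C5_cnt ((X : ℝ) / 4) ((X : ℝ) / 2) (by linarith) (W : ℤ) 1 (by exact_mod_cast hWpos)).2
    refine le_trans this ?_
    push_cast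
    have e1 : ((X : ℝ) / 2 - X / 4) / W ≤ (X : ℝ) / 2 - X / 4 := div_le_self (by linarith) hW1
    have e2 : (16 : ℝ) ≤ X := by nlinarith
    linarith
  -- cardinality of the window from below
  have hwin : ∑ u ∈ U, ((J u).filter fun v => IsCoprime u v).card ≤ (Win K α X k).card := by
    rw [← Finset.card_sigma]
    refine Finset.card_le_card_of_injOn (fun x => (x.1, x.2)) ?_ ?_
    · rintro ⟨u, v⟩ hx
      simp only [Finset.coe_sigma, Set.mem_sigma_iff, Finset.mem_coe, Finset.mem_filter] at hx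
      obtain ⟨hu, hv, hc⟩ := hx
      obtain ⟨h1, h2, h3⟩ := hUmem u hu
      rw [hJ, mem_Ioc, Int.floor_lt, Int.le_floor] at hv
      simp only [Finset.mem_coe, Win, mem_filter, mem_product, mem_Icc]
      have hua : |(u : ℝ) * α| ≤ X / 2 := by
        rw [abs_mul]
        have a1 : |(u : ℝ)| ≤ X / 2 := by
          rw [abs_of_nonneg (by linarith)]; exact h2
        calc |(u : ℝ)| * |α| ≤ X / 2 * 1 := mul_le_mul a1 hα.le (abs_nonneg _) (by linarith)
          _ = X / 2 := mul_one _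
      rw [abs_le] at hua
      refine ⟨⟨⟨?_, ?_⟩, ?_, ?_⟩, h1, h2, h3, hc, ?_, ?_⟩
      · have : (-(X : ℝ)) ≤ u := by linarith
        exact_mod_cast this
      · have : (u : ℝ) ≤ X := by linarith
        exact_mod_cast this
      · have : (-(X : ℝ)) ≤ v := by linarith [hua.1, hua.2, hv.1]
        exact_mod_cast this
      · have : (v : ℝ) ≤ X := by linarith [hua.1, hua.2, hv.2]
        exact_mod_cast this
      · rw [← hl]; linarith [hv.1]
      · rw [← hl]; linarith [hv.2]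
    · rintro ⟨u, v⟩ _ ⟨u', v'⟩ _ h
      simp only [Prod.mk.injEq] at h
      obtain ⟨rfl, rfl⟩ := h
      rfl
  -- each u
  have hone : ∀ u ∈ U, (l - 2) - ∑ n ∈ Icc 5 X, (if (n : ℤ) ∣ u then (l / n + 2) else 0) ≤
      (((J u).filter fun v => IsCoprime u v).card : ℝ) := by
    intro u hu
    obtain ⟨h1, h2, h3⟩ := hUmem u hu
    have hu0 : 0 < u := by
      have : (0 : ℝ) < u := by linarith
      exact_mod_cast this
    have huX : u ≤ X := by
      have : (u : ℝ) ≤ X := by linarith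
      exact_mod_cast this
    have hJc : l - 2 ≤ ((J u).card : ℝ) := by
      have := (C5_cnt (l - u * α) (2 * l - u * α) (by linarith) 1 0 (by norm_num)).1
      have e : ((Ioc ⌊l - u * α⌋ ⌊2 * l - u * α⌋).filter fun z => z ≡ 0 [ZMOD 1]) = J u := by
        rw [hJ, Finset.filter_true_of_mem]
        intro z _
        exact Int.modEq_iff_dvd.2 (one_dvd _)
      rw [e] at this
      refine le_trans (le_of_eq ?_) this
      push_cast
      ring
    have hcover : J u ⊆ ((J u).filter fun v => IsCoprime u v) ∪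
        ((Icc 5 X).filter fun n : ℕ => (n : ℤ) ∣ u).biUnion fun n => (J u).filter fun v => (n : ℤ) ∣ v := by
      intro v hv
      by_cases hc : IsCoprime u v
      · exact mem_union_left _ (mem_filter.2 ⟨hv, hc⟩)
      · obtain ⟨n, hn, hnu, hnv⟩ := C5_cop K hK X u v hu0 huX h3 hc
        exact mem_union_right _ (mem_biUnion.2 ⟨n, mem_filter.2 ⟨hn, hnu⟩, mem_filter.2 ⟨hv, hnv⟩⟩)
    have hcc : (J u).card ≤ ((J u).filter fun v => IsCoprime u v).card +
        ∑ n ∈ (Icc 5 X).filter (fun n : ℕ => (n : ℤ) ∣ u), ((J u).filter fun v => (n : ℤ) ∣ v).card :=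
      (Finset.card_le_card hcover).trans ((Finset.card_union_le _ _).trans (Nat.add_le_add_left Finset.card_biUnion_le _))
    have hcc' : ((J u).card : ℝ) ≤ (((J u).filter fun v => IsCoprime u v).card : ℝ) +
        ∑ n ∈ (Icc 5 X).filter (fun n : ℕ => (n : ℤ) ∣ u), (((J u).filter fun v => (n : ℤ) ∣ v).card : ℝ) := by
      exact_mod_cast hcc
    have hs : ∑ n ∈ (Icc 5 X).filter (fun n : ℕ => (n : ℤ) ∣ u), (((J u).filter fun v => (n : ℤ) ∣ v).card : ℝ) ≤
        ∑ n ∈ Icc 5 X, (if (n : ℤ) ∣ u then (l / n + 2) else 0) := by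
      rw [← Finset.sum_filter]
      refine Finset.sum_le_sum fun n hn => ?_
      rw [mem_filter, mem_Icc] at hn
      have hn0 : 0 < n := by omega
      have := (C5_cnt (l - u * α) (2 * l - u * α) (by linarith) n 0 (by exact_mod_cast hn0)).2
      have e : ((Ioc ⌊l - u * α⌋ ⌊2 * l - u * α⌋).filter fun z => z ≡ 0 [ZMOD n]) = (J u).filter fun v => (n : ℤ) ∣ v := by
        rw [hJ]
        refine Finset.filter_congr fun z _ => ?_
        exact Int.modEq_zero_iff_dvd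
      rw [e] at this
      refine le_trans this (le_of_eq ?_)
      push_cast
      ring
    linarith
  have hsum : (U.card : ℝ) * (l - 2) - ∑ n ∈ Icc 5 X, (l / n + 2) * ((X : ℝ) / (4 * W * n) + 2) ≤ ((Win K α X k).card : ℝ) := by
    have h1 : ∑ u ∈ U, ((l - 2) - ∑ n ∈ Icc 5 X, (if (n : ℤ) ∣ u then (l / n + 2) else 0)) ≤ ((Win K α X k).card : ℝ) := by
      refine (Finset.sum_le_sum hone).trans ?_
      exact_mod_cast hwin
    refine le_trans ?_ h1
    rw [Finset.sum_sub_distrib, Finset.sum_const, nsmul_eq_mul, Finset.sum_comm]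
    refine sub_le_sub_left ?_ _
    refine Finset.sum_le_sum fun n hn => ?_
    rw [mem_Icc] at hn
    have hn0 : 0 < n := by omega
    have hnr : (0 : ℝ) < n := by exact_mod_cast hn0
    rw [← Finset.sum_filter, Finset.sum_const, nsmul_eq_mul, mul_comm]
    refine mul_le_mul_of_nonneg_left ?_ (by positivity)
    have := C5_class W hWpos ((X : ℝ) / 4) ((X : ℝ) / 2) (by linarith) n hn0
    have e : U.filter (fun u => (n : ℤ) ∣ u) =
        (Ioc ⌊(X : ℝ) / 4⌋ ⌊(X : ℝ) / 2⌋).filter fun z => (W : ℤ) ∣ z - 1 ∧ (n : ℤ) ∣ z := by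
      rw [hU, Finset.filter_filter]
      refine Finset.filter_congr fun z _ => ?_
      rw [Int.modEq_comm, Int.modEq_iff_dvd]
    rw [e]
    refine le_trans this (le_of_eq ?_)
    field_simp
    ring
  have hS : ∑ n ∈ Icc 5 X, (l / n + 2) * ((X : ℝ) / (4 * W * n) + 2) ≤
      (X * l / (4 * W)) * (1 / 4) + (2 * l + X / (2 * W)) * (1 + Real.log X) + 4 * X := by
    have e : ∑ n ∈ Icc 5 X, (l / n + 2) * ((X : ℝ) / (4 * W * n) + 2) =
        (X * l / (4 * W)) * ∑ n ∈ Icc 5 X, (1 : ℝ) / (n : ℝ) ^ 2 + (2 * l + X / (2 * W)) * ∑ n ∈ Icc 5 X, (1 : ℝ) / (n : ℝ)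
          + ∑ n ∈ Icc 5 X, (4 : ℝ) := by
      rw [Finset.mul_sum, Finset.mul_sum, ← Finset.sum_add_distrib, ← Finset.sum_add_distrib]
      refine Finset.sum_congr rfl fun n hn => ?_
      rw [mem_Icc] at hn
      have hnr : (n : ℝ) ≠ 0 := by
        have : n ≠ 0 := by omega
        exact_mod_cast this
      field_simp
      ring
    rw [e]
    have t1 := mul_le_mul_of_nonneg_left (C5_sq X) (show 0 ≤ X * l / (4 * W) by positivity)
    have t2 := mul_le_mul_of_nonneg_left (C5_harm X) (show 0 ≤ 2 * l + X / (2 * W) by positivity)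
    have t3 : ∑ n ∈ Icc 5 X, (4 : ℝ) ≤ 4 * X := by
      rw [Finset.sum_const, nsmul_eq_mul, Nat.card_Icc]
      have : ((X + 1 - 5 : ℕ) : ℝ) ≤ X := by
        have : X + 1 - 5 ≤ X := by omega
        exact_mod_cast this
      linarith
    linarith
  refine le_trans ?_ hsum
  -- numerics
  have hXW : (X : ℝ) / (2 * W) ≤ X := by
    refine div_le_self hXp.le ?_
    linarith
  have hXW4 : (X : ℝ) / (4 * W) ≤ X := by
    refine div_le_self hXp.le ?_
    linarith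
  have hl2 : 0 ≤ l - 2 := by nlinarith
  have hUl : ((X : ℝ) / (4 * W) - 2) * (l - 2) ≤ (U.card : ℝ) * (l - 2) := mul_le_mul_of_nonneg_right hUcard hl2
  have hq : (2 * l + X / (2 * W)) * (1 + Real.log X) ≤ 3 * X * (1 + Real.log X) := by
    refine mul_le_mul_of_nonneg_right ?_ (by linarith)
    linarith
  have hmain : 16 * X + 8 * (X * Real.log X) ≤ X * l / (16 * W) := by
    rw [le_div_iff₀ (by positivity)]
    have : X * (16 * W * (16 + 8 * Real.log X)) ≤ X * l := mul_le_mul_of_nonneg_left hlbig hXp.le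
    linarith
  have hXlog : 0 ≤ X * Real.log X := mul_nonneg hXp.le hlog
  have hq' : 3 * X * (1 + Real.log X) = 3 * X + 3 * (X * Real.log X) := by ring
  have hfin : 1 / (8 * W * 4 ^ (K + 1)) * (X : ℝ) ^ 2 ≤ X * l / (8 * W) := by
    have : 1 / (8 * W * 4 ^ (K + 1)) * (X : ℝ) ^ 2 = X * (X / 4 ^ (K + 1)) / (8 * W) := by
      field_simp
    rw [this]
    refine div_le_div_of_nonneg_right ?_ (by positivity)
    exact mul_le_mul_of_nonneg_left hlge hXp.le
  have ex1 : ((X : ℝ) / (4 * W) - 2) * (l - 2) = X * l / (4 * W) - 2 * l - 2 * ((X : ℝ) / (4 * W)) + 4 := by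
    field_simp
    ring
  have ex2 : X * l / (4 * W) = 4 * (X * l / (16 * W)) := by
    field_simp
    ring
  have ex3 : X * l / (8 * W) = 2 * (X * l / (16 * W)) := by
    field_simp
    ring
  rw [ex3] at hfin
  rw [ex1, ex2] at hUl
  rw [ex2] at hS
  linarith

end Pool.Agent.LibFS14
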