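import Pool.Agent.LibFS14.C4
import Pool.Agent.LibFS14.C1

/-!
Row C6 (MEDIUM). A transversal of the windows contains a good pair.

PLAN. `u k = (f k).1`, `v k = (f k).2`, `ρ k = u k α + v k`. For `i < j`: `ρ j > X / 4 ^ (K - j + 1) ≥ 4 X / 4 ^ (K - i + 1) ≥ 2 ρ i` (`j ≤ K - 1`), `u j ≤ X / 2 < 2 u i`, so `det = u i v j - u j v i = u i ρ j - u j ρ i > 0`. `Sys`: `u k > X/4 > 0`, `ρ k > 0`, `det ≠ 0` (both signs),
admissible: `p ≤ K`: `(x, y) = (0, 1)`: `p ∣ primorial K ∣ u k - 1`, so `p ∤ u k`. `p > K`: `x = 1`, `y ∈ {0, ..., p - 1}`: for each `k` at most one `y` modulo `p` with `p ∣ u k y + v k` (if `p ∣ u k` then `p ∤ v k` as `u k`, `v k` are coprime; otherwise two solutions are congruent): at most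
`K < p` values of `y` are excluded (`Finset.exists_mem_notMem_of_card_lt_card`). `good_pair` (C1). `β > 1` because `ρ j > ρ i > 0`. `β` irrational: if `β = r` rational, `(u j - r u i) α = r v i - v j`; `u j - r u i = 0` would give `r v i = v j` and `det = 0`; otherwise `α` is rational.
-/

open Finset

namespace Pool.Agent.LibFS14

private theorem C6_mem {K : ℕ} {α : ℝ} {X : ℕ} {k : Fin K} {x : ℤ × ℤ} (h : x ∈ Win K α X k) :
    (X : ℝ) / 4 < x.1 ∧ (x.1 : ℝ) ≤ X / 2 ∧ (primorial K : ℤ) ∣ x.1 - 1 ∧ IsCoprime x.1 x.2 ∧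
      (X : ℝ) / 4 ^ (K - (k : ℕ) + 1) < x.1 * α + x.2 ∧
      (x.1 : ℝ) * α + x.2 ≤ 2 * (X / 4 ^ (K - (k : ℕ) + 1)) := by
  classical
  unfold Win at h
  exact (mem_filter.1 h).2

private theorem C6_adm {K : ℕ} (u v : Fin K → ℤ) (h1 : ∀ i, (primorial K : ℤ) ∣ u i - 1)
    (h2 : ∀ i, IsCoprime (u i) (v i)) (p : ℕ) (hp : p.Prime) :
    ∃ x y : ℤ, ∀ i, ¬ (p : ℤ) ∣ u i * y + v i * x := by
  by_cases hpK : p ≤ K
  · refine ⟨0, 1, fun i hi => ?_⟩
    rw [mul_one, mul_zero, add_zero] at hi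
    have h3 : (p : ℤ) ∣ (primorial K : ℤ) := by
      exact_mod_cast (hp.dvd_primorial_iff.2 hpK)
    have h4 : (p : ℤ) ∣ u i - 1 := h3.trans (h1 i)
    have h5 : (p : ℤ) ∣ 1 := by
      have := dvd_sub hi h4
      simpa using this
    have h6 : p ∣ 1 := by exact_mod_cast h5
    exact hp.one_lt.ne' (Nat.dvd_one.1 h6)
  · rw [not_le] at hpK
    by_contra hcon
    push Not at hcon
    have h7 : ∀ y : Fin p, ∃ i, (p : ℤ) ∣ u i * ((y : ℕ) : ℤ) + v i * 1 := fun y => hcon 1 _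
    choose g hg using h7
    obtain ⟨y, z, hyz, hgyz⟩ := Fintype.exists_ne_map_eq_of_card_lt g (by simpa using hpK)
    have h8 := hg y
    have h9 := hg z
    rw [← hgyz] at h9
    have h10 : (p : ℤ) ∣ u (g y) * (((y : ℕ) : ℤ) - ((z : ℕ) : ℤ)) := by
      have := dvd_sub h8 h9
      have e : u (g y) * ((y : ℕ) : ℤ) + v (g y) * 1 - (u (g y) * ((z : ℕ) : ℤ) + v (g y) * 1) =
        u (g y) * (((y : ℕ) : ℤ) - ((z : ℕ) : ℤ)) := by ring
      rwa [e] at this
    have hpp : Prime (p : ℤ) := Nat.prime_iff_prime_int.1 hp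
    rcases hpp.dvd_or_dvd h10 with h11 | h11
    · have h12 : (p : ℤ) ∣ v (g y) := by
        have h13 := dvd_sub h8 (h11.mul_right ((y : ℕ) : ℤ))
        simpa using h13
      have h14 := (h2 (g y)).isUnit_of_dvd' h11 h12
      exact hpp.not_isUnit h14
    · have hy := y.2
      have hz := z.2
      have h15 : ((y : ℕ) : ℤ) - ((z : ℕ) : ℤ) = 0 := by
        refine Int.eq_zero_of_abs_lt_dvd h11 ?_
        rw [abs_lt]
        constructor <;> omega
      apply hyz
      apply Fin.ext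
      omega

theorem transversal {K : ℕ} (hA : StripK K) (α : ℝ) (hα : Irrational α) (X : ℕ) (f : Fin K → ℤ × ℤ)
    (hf : ∀ k, f k ∈ Win K α X k) : ∃ i j, i < j ∧ 0 < ((f i).1 : ℝ) * α + (f i).2 ∧
      1 < (((f j).1 : ℝ) * α + (f j).2) / (((f i).1 : ℝ) * α + (f i).2) ∧
      Irrational ((((f j).1 : ℝ) * α + (f j).2) / (((f i).1 : ℝ) * α + (f i).2)) ∧
      Good ((((f j).1 : ℝ) * α + (f j).2) / (((f i).1 : ℝ) * α + (f i).2)) := by
  have hX : (0 : ℝ) ≤ X := Nat.cast_nonneg X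
  have hu : ∀ k, (0 : ℝ) < (f k).1 := fun k => lt_of_le_of_lt (by positivity) (C6_mem (hf k)).1
  have hr : ∀ k, (0 : ℝ) < ((f k).1 : ℝ) * α + (f k).2 := fun k =>
    lt_of_le_of_lt (by positivity) (C6_mem (hf k)).2.2.2.2.1
  have h2 : ∀ i j : Fin K, i < j → 2 * (((f i).1 : ℝ) * α + (f i).2) < ((f j).1 : ℝ) * α + (f j).2 := by
    intro i j hij
    have hi := (C6_mem (hf i)).2.2.2.2.2
    have hj := (C6_mem (hf j)).2.2.2.2.1
    have hij' : (i : ℕ) < (j : ℕ) := hij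
    have hjK := j.2
    have e : (4 : ℝ) ^ (K - (i : ℕ) + 1) = 4 ^ (K - (j : ℕ) + 1) * 4 ^ ((j : ℕ) - (i : ℕ)) := by
      rw [← pow_add]
      congr 1
      omega
    have h4 : (4 : ℝ) ≤ 4 ^ ((j : ℕ) - (i : ℕ)) := by
      calc (4 : ℝ) = 4 ^ 1 := by norm_num
        _ ≤ _ := pow_le_pow_right₀ (by norm_num) (by omega)
    have h5 : (X : ℝ) / 4 ^ (K - (i : ℕ) + 1) ≤ X / 4 ^ (K - (j : ℕ) + 1) / 4 := by
      rw [e, div_div]
      apply div_le_div_of_nonneg_left hX (by positivity)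
      exact mul_le_mul_of_nonneg_left h4 (by positivity)
    linarith
  have hd : ∀ i j : Fin K, i < j → 0 < (f i).1 * (f j).2 - (f j).1 * (f i).2 := by
    intro i j hij
    have h3 := h2 i j hij
    have hi := (C6_mem (hf i)).1
    have hj := (C6_mem (hf j)).2.1
    have h4 : ((f j).1 : ℝ) < 2 * (f i).1 := by linarith
    have h5 : (0 : ℝ) < (f i).1 * (f j).2 - (f j).1 * (f i).2 := by
      have e : ((f i).1 : ℝ) * (f j).2 - (f j).1 * (f i).2 =
        (f i).1 * (((f j).1 : ℝ) * α + (f j).2) - (f j).1 * (((f i).1 : ℝ) * α + (f i).2) := by ring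
      rw [e]
      have h6 : ((f j).1 : ℝ) * (((f i).1 : ℝ) * α + (f i).2) < 2 * (f i).1 * (((f i).1 : ℝ) * α + (f i).2) :=
        mul_lt_mul_of_pos_right h4 (hr i)
      have h7 : ((f i).1 : ℝ) * (2 * (((f i).1 : ℝ) * α + (f i).2)) < (f i).1 * (((f j).1 : ℝ) * α + (f j).2) :=
        mul_lt_mul_of_pos_left h3 (hu i)
      linarith
    exact_mod_cast h5
  have hS : Sys K α (fun k => (f k).1) (fun k => (f k).2) := by
    refine ⟨?_, ?_, ?_, ?_⟩
    · intro i hi
      have := hu i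

      rw [hi] at this
      simp at this
    · intro i
      exact hr i
    · intro i j hij
      rcases lt_or_gt_of_ne hij with h | h
      · have := hd i j h

        omega
      · have := hd j i h

        omega
    · intro p hp
      exact C6_adm _ _ (fun i => (C6_mem (hf i)).2.2.1) (fun i => (C6_mem (hf i)).2.2.2.1) p hp
  obtain ⟨i, j, hij, hG⟩ := good_pair hA α (fun k => (f k).1) (fun k => (f k).2) hα hS hd
  refine ⟨i, j, hij, hr i, ?_, ?_, hG⟩
  · rw [one_lt_div (hr i)]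
    have := h2 i j hij
    have := hr i
    linarith
  · rintro ⟨r, hrr⟩
    have hne : ((f i).1 : ℝ) * α + (f i).2 ≠ 0 := (hr i).ne'
    have h3 : (r : ℝ) * (((f i).1 : ℝ) * α + (f i).2) = ((f j).1 : ℝ) * α + (f j).2 := by
      rw [hrr, div_mul_cancel₀ _ hne]
    have h4 : (((f j).1 : ℝ) - r * (f i).1) * α = r * (f i).2 - (f j).2 := by linarith
    by_cases h5 : ((f j).1 : ℝ) - r * (f i).1 = 0
    · have h6 : (r : ℝ) * (f i).2 - (f j).2 = 0 := by rw [← h4, h5, zero_mul]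
      have h7 : ((f i).1 : ℝ) * (f j).2 - (f j).1 * (f i).2 = 0 := by
        have h8 : ((f j).1 : ℝ) = r * (f i).1 := by linarith
        have h9 : ((f j).2 : ℝ) = r * (f i).2 := by linarith
        rw [h8, h9]; ring
      have h10 : (0 : ℝ) < ((f i).1 : ℝ) * (f j).2 - (f j).1 * (f i).2 := by
        exact_mod_cast hd i j hij
      linarith
    · apply hα
      have h6 : α = (r * (f i).2 - (f j).2) / (((f j).1 : ℝ) - r * (f i).1) := by
        rw [eq_div_iff h5]; linarith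
      refine ⟨(r * (f i).2 - (f j).2) / (((f j).1 : ℚ) - r * (f i).1), ?_⟩
      rw [h6]
      push_cast
      rfl

end Pool.Agent.LibFS14
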