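import Pool.Agent.LibFS14.C3
import Pool.Agent.LibFS14.C5
import Pool.Agent.LibFS14.C6

/-!
LibFS14: the set of the good quadruples.
-/

open Finset

namespace Pool.Agent.LibFS14

/-- the quadruples `(a, b, c, d)` of integers of absolute value at most `X` for which `c α + d > 0` and
`β = (a α + b) / (c α + d) > 1` is irrational and good -/
noncomputable def Quad (α : ℝ) (X : ℕ) : Finset ((ℤ × ℤ) × ℤ × ℤ) :=
  open scoped Classical in
  (((Icc (-(X : ℤ)) X) ×ˢ (Icc (-(X : ℤ)) X)) ×ˢ (Icc (-(X : ℤ)) X) ×ˢ (Icc (-(X : ℤ)) X)).filter fun x =>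
    0 < (x.2.1 : ℝ) * α + x.2.2 ∧ 1 < ((x.1.1 : ℝ) * α + x.1.2) / ((x.2.1 : ℝ) * α + x.2.2) ∧
    Irrational (((x.1.1 : ℝ) * α + x.1.2) / ((x.2.1 : ℝ) * α + x.2.2)) ∧
    Good (((x.1.1 : ℝ) * α + x.1.2) / ((x.2.1 : ℝ) * α + x.2.2))

end Pool.Agent.LibFS14
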