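import Pool.Agent.LibFS14.C7

/-!
Row C8 (SHORT/MEDIUM). The count for `|α| < 1`.

PLAN. `averaging` (C3) with `V k = Win K α X k` (nonempty for large `X` by `win_card`, C5: positive cardinality), `G x x'` = the four properties of `transversal` (C6) for the pair `(x, x')` (`x` at the place `i`, `x'` at the place `j`). The pairs `(x, x') ∈ V i ×ˢ V j` with `G` are mapped
injectively to the quadruples `(x', x) ∈ Quad α X` (the windows lie in `Icc (-X) X`). So `#Quad ≥ #V i #V j / K ^ 2 ≥ c ^ 2 X ^ 4 / K ^ 2`.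
-/

open Finset

namespace Pool.Agent.LibFS14

theorem quad_lt {K : ℕ} (hK : 3 ≤ K) (hA : StripK K) : ∃ c : ℝ, 0 < c ∧ ∀ α : ℝ, Irrational α → |α| < 1 →
    ∃ X0 : ℕ, ∀ X ≥ X0, c * (X : ℝ) ^ 4 ≤ (Quad α X).card := by
  classical
  obtain ⟨c0, hc0, hw⟩ := win_card K hK
  have hK0 : (0 : ℝ) < (K : ℝ) := by
    have : 0 < K := by omega
    exact_mod_cast this
  refine ⟨c0 ^ 2 / (K : ℝ) ^ 2, by positivity, ?_⟩
  intro α hα h1
  obtain ⟨X1, hX1⟩ := hw α h1
  refine ⟨max X1 1, ?_⟩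
  intro X hX
  have hXa : X1 ≤ X := le_trans (le_max_left _ _) hX
  have hXb : 1 ≤ X := le_trans (le_max_right _ _) hX
  have hXp : (0 : ℝ) < (X : ℝ) := by exact_mod_cast hXb
  have hwin : ∀ k : Fin K, c0 * (X : ℝ) ^ 2 ≤ ((Win K α X k).card : ℝ) := fun k => hX1 X hXa k
  have hne : ∀ k : Fin K, (Win K α X k).Nonempty := by
    intro k
    have h2 : (0 : ℝ) < ((Win K α X k).card : ℝ) := lt_of_lt_of_le (by positivity) (hwin k)
    exact Finset.card_pos.mp (by exact_mod_cast h2)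
  obtain ⟨i, j, hij, hc⟩ := averaging (fun k => Win K α X k) hne
    (fun x y => 0 < (x.1 : ℝ) * α + x.2 ∧ 1 < ((y.1 : ℝ) * α + y.2) / ((x.1 : ℝ) * α + x.2) ∧
      Irrational (((y.1 : ℝ) * α + y.2) / ((x.1 : ℝ) * α + x.2)) ∧
      Good (((y.1 : ℝ) * α + y.2) / ((x.1 : ℝ) * α + x.2)))
    (fun f hf => transversal hA α hα X f hf)
  have hmem : ∀ (k : Fin K) (x : ℤ × ℤ), x ∈ Win K α X k →
      x ∈ (Icc (-(X : ℤ)) X) ×ˢ (Icc (-(X : ℤ)) X) := by
    intro k x hx
    unfold Win at hx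
    exact (Finset.mem_filter.mp hx).1
  have hnat : (Win K α X i).card * (Win K α X j).card ≤ K ^ 2 * (Quad α X).card := by
    refine le_trans hc (Nat.mul_le_mul_left _ ?_)
    refine Finset.card_le_card_of_injOn (fun x => (x.2, x.1)) ?_ ?_
    · intro x hx
      rw [Finset.mem_coe] at hx
      have hx' := (@Finset.mem_filter _ _ (fun a => Classical.propDecidable _) _ _).mp hx
      have hp := Finset.mem_product.mp hx'.1
      unfold Quad
      refine Finset.mem_coe.mpr (Finset.mem_filter.mpr ⟨?_, hx'.2⟩)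
      exact Finset.mem_product.mpr ⟨hmem j _ hp.2, hmem i _ hp.1⟩
    · intro x _ y _ hxy
      have h3 := Prod.mk.inj hxy
      exact Prod.ext h3.2 h3.1
  have hreal : ((Win K α X i).card : ℝ) * ((Win K α X j).card : ℝ) ≤
      (K : ℝ) ^ 2 * ((Quad α X).card : ℝ) := by exact_mod_cast hnat
  have hprod : (c0 * (X : ℝ) ^ 2) * (c0 * (X : ℝ) ^ 2) ≤
      ((Win K α X i).card : ℝ) * ((Win K α X j).card : ℝ) :=
    mul_le_mul (hwin i) (hwin j) (by positivity) (by positivity)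
  have hfin : (c0 * (X : ℝ) ^ 2) * (c0 * (X : ℝ) ^ 2) ≤ (K : ℝ) ^ 2 * ((Quad α X).card : ℝ) :=
    le_trans hprod hreal
  rw [div_mul_eq_mul_div, div_le_iff₀ (by positivity)]
  nlinarith [hfin]

end Pool.Agent.LibFS14
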