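import Pool.Agent.LibFS14.C8

/-!
Row C9 (SHORT/MEDIUM). The count for all `α`.

PLAN. `|α| ≠ 1` as `α` is irrational. For `|α| > 1` use `α' = 1/α` (irrational, `|α'| < 1`): for `s = 1` (`α > 0`) or `s = -1` (`α < 0`) the map `((a, b), (c, d)) ↦ ((s b, s a), (s d, s c))` sends `Quad α' X` injectively into `Quad α X`: `s d α + s c = s α (c α' + d) > 0` (`s α = |α| > 0`),
and the quotient is the same: `(s b α + s a) / (s d α + s c) = (a α' + b) / (c α' + d)`.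
-/

open Finset

namespace Pool.Agent.LibFS14

private theorem C9_card {α : ℝ} (s : ℤ) (hs : s = 1 ∨ s = -1) (hsα : 0 < (s : ℝ) * α) (X : ℕ) :
    (Quad α⁻¹ X).card ≤ (Quad α X).card := by
  classical
  have hα0 : α ≠ 0 := by
    rintro rfl
    simp at hsα
  have key : ∀ a b : ℤ, ((s * b : ℤ) : ℝ) * α + ((s * a : ℤ) : ℝ) = ((s : ℝ) * α) * ((a : ℝ) * α⁻¹ + b) := by
    intro a b
    push_cast
    field_simp
    ring
  have hI : ∀ a : ℤ, a ∈ Icc (-(X : ℤ)) X → s * a ∈ Icc (-(X : ℤ)) X := by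
    intro a ha
    rw [mem_Icc] at ha ⊢
    rcases hs with h | h
    · subst h
      constructor <;> linarith [ha.1, ha.2]
    · subst h
      constructor <;> linarith [ha.1, ha.2]
  have hs0 : s ≠ 0 := by
    rcases hs with h | h <;> rw [h] <;> norm_num
  refine Finset.card_le_card_of_injOn
    (fun x => ((s * x.1.2, s * x.1.1), (s * x.2.2, s * x.2.1))) ?_ ?_
  · intro x hx
    rw [Finset.mem_coe] at hx ⊢
    simp only [Quad, mem_filter, mem_product] at hx ⊢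
    obtain ⟨⟨⟨h1, h2⟩, h3, h4⟩, h5, h6, h7, h8⟩ := hx
    rw [key x.1.1 x.1.2, key x.2.1 x.2.2, mul_div_mul_left _ _ hsα.ne']
    exact ⟨⟨⟨hI _ h2, hI _ h1⟩, hI _ h4, hI _ h3⟩, mul_pos hsα h5, h6, h7, h8⟩
  · rintro ⟨⟨a, b⟩, c, d⟩ - ⟨⟨a', b'⟩, c', d'⟩ - h
    simp only [Prod.mk.injEq] at h
    obtain ⟨⟨h1, h2⟩, h3, h4⟩ := h
    rw [mul_left_cancel₀ hs0 h1, mul_left_cancel₀ hs0 h2, mul_left_cancel₀ hs0 h3, mul_left_cancel₀ hs0 h4]

theorem quad_all {K : ℕ} (hK : 3 ≤ K) (hA : StripK K) : ∃ c : ℝ, 0 < c ∧ ∀ α : ℝ, Irrational α →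
    ∃ X0 : ℕ, ∀ X ≥ X0, c * (X : ℝ) ^ 4 ≤ (Quad α X).card := by
  obtain ⟨c, hc, h⟩ := quad_lt hK hA
  refine ⟨c, hc, fun α hα => ?_⟩
  by_cases h1 : |α| < 1
  · exact h α hα h1
  have hne : |α| ≠ 1 := by
    intro h2
    rcases (abs_eq (zero_le_one' ℝ)).1 h2 with h3 | h3
    · exact hα ⟨1, by rw [h3]; norm_num⟩
    · exact hα ⟨-1, by rw [h3]; norm_num⟩
  have h2 : 1 < |α| := lt_of_le_of_ne (not_lt.1 h1) hne.symm
  have h3 : |α⁻¹| < 1 := by
    rw [abs_inv]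
    exact inv_lt_one_of_one_lt₀ h2
  obtain ⟨X0, hX⟩ := h α⁻¹ hα.inv h3
  refine ⟨X0, fun X hX' => (hX X hX').trans ?_⟩
  have h4 : (Quad α⁻¹ X).card ≤ (Quad α X).card := by
    rcases lt_or_gt_of_ne (show α ≠ 0 by rintro rfl; simp at h2; linarith) with h5 | h5
    · exact C9_card (-1) (Or.inr rfl) (by push_cast; linarith) X
    · exact C9_card 1 (Or.inl rfl) (by push_cast; linarith) X
  exact_mod_cast h4

end Pool.Agent.LibFS14
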