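import Mathlib

/-!
LibFS14 (MP_f0c91c_nt, primes `p` with `⌊β p⌋` prime): definitions.

`α` irrational, forms `u i * m + v i * n` at the points `(n, m)` of the strip `0 < m - α n < ε`, `m = ⌊α n⌋ + 1`.
Page: store L25_f0c91c_helper14.md.
-/

open Finset

namespace Pool.Agent.LibFS14

/-- there are infinitely many primes `p` with `⌊β p⌋` prime -/
def PInf (β : ℝ) : Prop := {p : ℕ | p.Prime ∧ (⌊β * p⌋₊).Prime}.Infinite

/-- admissible systems of linear forms `u i * m + v i * n`, positive at `(1, α)` and pairwise not proportional -/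
structure Sys (K : ℕ) (α : ℝ) (u v : Fin K → ℤ) : Prop where
  u0 : ∀ i, u i ≠ 0
  pos : ∀ i, 0 < (u i : ℝ) * α + v i
  det : ∀ i j, i ≠ j → u i * v j ≠ u j * v i
  adm : ∀ p : ℕ, p.Prime → ∃ x y : ℤ, ∀ i, ¬ (p : ℤ) ∣ u i * y + v i * x

/-- `e(x) = exp(2 π i x)` -/
noncomputable def ex (x : ℝ) : ℂ := Complex.exp (2 * Real.pi * Complex.I * x)

/-- the periodisation of `x ↦ F (L x)` -/
noncomputable def per (F : ℝ → ℝ) (L x : ℝ) : ℝ := ∑' k : ℤ, F (L * (x - k))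

/-- a bump function supported in `(0, ε)`, with a finite form of Poisson's formula -/
structure Bump (ε : ℝ) (F : ℝ → ℝ) (cF CF : ℝ) : Prop where
  nn : ∀ x, 0 ≤ F x
  le1 : ∀ x, F x ≤ 1
  supp : ∀ x, F x ≠ 0 → 0 < x ∧ x < ε
  cpos : 0 < cF
  cle : cF ≤ 1
  Cpos : 1 ≤ CF
  pois : ∀ L : ℝ, 1 ≤ L → ∀ H : ℕ, 1 ≤ H → ∃ c : ℤ → ℂ, (∀ h, ‖c h‖ ≤ CF) ∧ ∀ x : ℝ,
    ‖((per F L x : ℝ) : ℂ) - ((cF / L : ℝ) : ℂ) - ∑ h ∈ (Icc (-(H : ℤ)) H).erase 0, c h * ex (h * x)‖ ≤ CF * L / H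

/-- everything which is fixed before the approximation `A / B` is chosen -/
structure Data (K : ℕ) where
  /-- the slope -/
  α : ℝ
  /-- coefficients of `m` -/
  u : Fin K → ℤ
  /-- coefficients of `n` -/
  v : Fin K → ℤ
  /-- the width of the strip -/
  ε : ℝ
  /-- the bump function -/
  F : ℝ → ℝ
  /-- its integral -/
  cF : ℝ
  /-- the constant in Poisson's formula -/
  CF : ℝ
  irr : Irrational α
  sys : Sys K α u v
  ε1 : ε ≤ 1
  bump : Bump ε F cF CF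

namespace Data

variable {K : ℕ} (D : Data K)

/-- the integer `m` of `n` -/
noncomputable def m (n : ℕ) : ℤ := ⌊D.α * n⌋ + 1

/-- the value of the form `i` -/
noncomputable def L (i : Fin K) (n : ℕ) : ℤ := D.u i * D.m n + D.v i * n

/-- the slope of the form `i` -/
noncomputable def rho (i : Fin K) : ℝ := D.u i * D.α + D.v i

/-- the weight -/
noncomputable def f (n : ℕ) : ℝ := D.F (D.m n - D.α * n)

/-- `p` divides the form `i` and does not divide `(n, m)` -/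
def hit (p : ℕ) (i : Fin K) (n : ℕ) : Prop := (p : ℤ) ∣ D.L i n ∧ ¬ ((p : ℤ) ∣ n ∧ (p : ℤ) ∣ D.m n)

/-- the conditions on `w` and the class `(x0, y0)` modulo the primes `p ≤ w` -/
structure Cls (w : ℕ) (x0 y0 : ℤ) : Prop where
  w3 : 3 ≤ w
  Kw : K ≤ w
  W1 : ∀ i, 1 ≤ (primorial w : ℝ) * D.rho i
  big : ∀ p : ℕ, p.Prime → w < p → (∀ i, ¬ (p : ℤ) ∣ D.u i) ∧ ∀ i j, i ≠ j → ¬ (p : ℤ) ∣ D.u i * D.v j - D.u j * D.v i
  cop : ∀ p : ℕ, p.Prime → p ≤ w → ∀ i, ¬ (p : ℤ) ∣ D.u i * y0 + D.v i * x0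

/-- `(n, m)` is `l (x0, y0)` modulo `primorial w` -/
def inc (w : ℕ) (x0 y0 l : ℤ) (n : ℕ) : Prop :=
  (primorial w : ℤ) ∣ (n : ℤ) - l * x0 ∧ (primorial w : ℤ) ∣ D.m n - l * y0

/-- the points used -/
noncomputable def TT (w : ℕ) (x0 y0 : ℤ) (N : ℕ) : Finset ℕ :=
  open scoped Classical in
  (Ioc N (2 * N)).filter fun n => ∃ l : ℤ, IsCoprime l (primorial w : ℤ) ∧ D.inc w x0 y0 l n

/-- the approximation `A / B`, with `N = Y ^ 1000` of the order of `B ^ 2` -/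
structure App (R : ℝ) (A : ℤ) (B Y : ℕ) : Prop where
  B1 : 1 ≤ B
  Y1 : 1 ≤ Y
  cop : IsCoprime A (B : ℤ)
  app : |D.α - A / B| ≤ 1 / (B : ℝ) ^ 2
  le : (B : ℝ) ^ 2 ≤ (Y : ℝ) ^ 1000
  ge : (Y : ℝ) ^ 1000 ≤ R * (B : ℝ) ^ 2

/-- the primes used for the form `i` -/
noncomputable def Rg (i : Fin K) (N : ℕ) : Finset ℕ :=
  open scoped Classical in
  (range (⌊2 * D.rho i * N⌋₊ + 1)).filter fun q =>
    q.Prime ∧ D.rho i * N + |(D.u i : ℝ)| < q ∧ (q : ℝ) ≤ 2 * D.rho i * N - |(D.u i : ℝ)|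

/-- `log (L i n)` if this is a prime of `Rg`, `0` otherwise -/
noncomputable def th (i : Fin K) (N n : ℕ) : ℝ :=
  open scoped Classical in
  if ∃ q ∈ D.Rg i N, (q : ℤ) = D.L i n then Real.log (D.L i n) else 0

/-- the mass of all points -/
noncomputable def X0 (w N : ℕ) : ℝ := D.cF * N * (primorial w).totient / (primorial w : ℝ) ^ 2

/-- the mass of the primes of the form `i` -/
noncomputable def X1 (i : Fin K) (w N : ℕ) : ℝ :=
  D.cF / ((primorial w : ℝ) * D.rho i) * ∑ q ∈ D.Rg i N, Real.log q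

end Data

end Pool.Agent.LibFS14
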