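import Pool.Agent.LibFS14.Defs
import Pool.Agent.LibSP4.Defs

/-!
LibFS14: the distribution hypothesis of the sieve (as `LibSP4.Dist`, with the weaker lower bound for the densities), and the base weight.
-/

open Finset

namespace Pool.Agent.LibFS14

open Pool.Agent.LibSP4
open Pool.Agent.LibRG87 hiding QQ


/-- the weights `om` on `s` have mass `X` and see the divisibilities `p ∣ n + b i`, `i ∈ J`, with the densities `h p`,
up to the error `Er q` for the modulus `q` -/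
structure DistG {ι : Type} [Fintype ι] [DecidableEq ι] (P : Finset ℕ) (b : ι → ℕ) (J : Finset ι) (s : Finset ℕ)
    (om : ℕ → ℝ) (X : ℝ) (h Er : ℕ → ℝ) : Prop where
  om_nonneg : ∀ n ∈ s, 0 ≤ om n
  X_nonneg : 0 ≤ X
  Er_nonneg : ∀ q, 0 ≤ Er q
  h_ge : ∀ p ∈ P, 1 / (p : ℝ) - 1 / (p : ℝ) ^ 2 ≤ h p
  h_le : ∀ p ∈ P, h p ≤ 1 / ((p : ℝ) - 1)
  hp : ∀ σ : P → Option ι, alw P J σ →
    |∑ n ∈ s, om n * (open scoped Classical in if ∀ p i, σ p = some i → (p : ℕ) ∣ n + b i then (1 : ℝ) else 0) -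
      X * ∏ p ∈ sp P σ, h p| ≤ Er (∏ p ∈ sp P σ, p)

/-- the positions `0, 1, ..., K - 1` -/
def bb (K : ℕ) : Fin K → ℕ := fun i => (i : ℕ)

/-- the base weight at the code `m` -/
noncomputable def Ph (K w M I y m : ℕ) : ℝ := PhiF (PP w (y ^ M)) (bb K) (y0 (PP w (y ^ M)) y I ((y : ℝ) ^ M)) m ^ 2

end Pool.Agent.LibFS14
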