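import Pool.Agent.LibFS14.Defs
import Pool.Agent.LibSP4.B14

/-!
Row E8 (SHORT). `kap w = φ(W) / W`.

PLAN. `Nat.totient_eq_mul_prod_factors` or `Nat.totient_mul` by induction over the primes `≤ w`; `(primorial w).primeFactors` = the primes `≤ w`.
-/

open Finset

namespace Pool.Agent.LibFS14

open Pool.Agent.LibSP4
open Pool.Agent.LibRG87 hiding QQ

private theorem E8_aux (s : Finset ℕ) (hs : ∀ p ∈ s, p.Prime) :
    ∏ p ∈ s, (1 - 1 / (p : ℝ)) = ((∏ p ∈ s, p).totient : ℝ) / ((∏ p ∈ s, p : ℕ) : ℝ) := by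
  induction s using Finset.induction_on with
  | empty => simp
  | insert q s hq ih =>
    have hqp : q.Prime := hs q (mem_insert_self _ _)
    have hs' : ∀ p ∈ s, p.Prime := fun p hp => hs p (mem_insert_of_mem hp)
    have hcop : Nat.Coprime q (∏ p ∈ s, p) := by
      refine Nat.Coprime.prod_right fun p hp => ?_
      exact (Nat.coprime_primes hqp (hs' p hp)).2 (fun h => hq (h ▸ hp))
    have h0 : ((∏ p ∈ s, p : ℕ) : ℝ) ≠ 0 := by
      rw [Nat.cast_ne_zero]
      exact Finset.prod_ne_zero_iff.2 fun p hp => (hs' p hp).ne_zero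
    have hq0 : (q : ℝ) ≠ 0 := Nat.cast_ne_zero.2 hqp.ne_zero
    rw [prod_insert hq, prod_insert hq, Nat.totient_mul hcop, ih hs', Nat.totient_prime hqp]
    push_cast [Nat.cast_sub hqp.one_le]
    have h0' : (∏ p ∈ s, (p : ℝ)) ≠ 0 := by
      have := h0
      rwa [Nat.cast_prod] at this
    field_simp

theorem kap_eq (w : ℕ) : kap w = ((primorial w).totient : ℝ) / primorial w := by
  unfold kap primorial
  exact E8_aux _ (fun p hp => (mem_filter.1 hp).2)

end Pool.Agent.LibFS14
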