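import Pool.Agent.LibFS14.Defs

/-!
Row F1 (MEDIUM). A bump function with the finite form of Poisson's formula.

PLAN. `F`: a smooth function with support in `(0, ε)`, values in `[0, 1]`, `∫ F = cF > 0` (`cF ≤ 1`: multiply `F` by a small constant, or use that the support lies in `(0, ε)` and `F ≤ 1`, `ε ≤ 1`: for `ε > 1` replace `ε` by `1`); for
instance a `ContDiffBump` at `ε'/2`, or `exists_contDiff_tsupport_subset`. As a Schwartz function (`HasCompactSupport.toSchwartzMap` or by hand) its Fourier transform satisfies `‖𝓕 F ξ‖ ≤ C` and `‖𝓕 F ξ‖ * |ξ|^2 ≤ C` (`SchwartzMap.decay`).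
For `g x = F (L x)`: `𝓕 g ξ = (1/L) 𝓕 F (ξ / L)` (substitution), so `‖𝓕 g h‖ ≤ min (C, C L / h ^ 2)` for `L ≥ 1`. Poisson: `Real.tsum_eq_tsum_fourier_of_rpow_decay_of_summable` (or `SchwartzMap.tsum_eq_tsum_fourier`) applied to `g`:
`∑' k, g (x + k) = ∑' h, 𝓕 g h * fourier h x`; `per F L x = ∑' k, g (x - k)` (`Equiv.neg ℤ`); `𝓕 g 0 = (1/L) ∫ F`; `fourier h x = ex (h x)`. Put `c h = 𝓕 g h`; the tail `∑_{|h| > H} C L / h ^ 2 ≤ 2 C L / H`. `CF = 2 C + 1` (or larger).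
-/

open Finset

namespace Pool.Agent.LibFS14

open MeasureTheory FourierTransform SchwartzMap Filter

private theorem F1_four (F : ℝ → ℂ) (L : ℝ) (hL : 0 < L) (ξ : ℝ) :
    𝓕 (fun x => F (L * x)) ξ = (L⁻¹ : ℝ) • 𝓕 F (ξ / L) := by
  rw [Real.fourier_real_eq, Real.fourier_real_eq]
  have h := MeasureTheory.Measure.integral_comp_mul_left
    (fun y : ℝ => Real.fourierChar (-(y * (ξ / L))) • F y) L
  rw [abs_of_pos (inv_pos.2 hL)] at h
  rw [← h]
  have h1 : ∀ v : ℝ, L * v * (ξ / L) = v * ξ := by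
    intro v
    field_simp
  simp_rw [h1]

private theorem F1_tail (a : ℤ → ℂ) (s : ℂ) (hs : HasSum a s) (C : ℝ) (hC : 0 ≤ C)
    (ha : ∀ h : ℤ, h ≠ 0 → ‖a h‖ ≤ C / (h : ℝ) ^ 2) (H : ℕ) (hH : 1 ≤ H) :
    ‖s - ∑ h ∈ Icc (-(H : ℤ)) H, a h‖ ≤ 2 * C / H := by
  have hH0 : (0 : ℝ) < H := by exact_mod_cast hH
  have key : ∀ m : ℕ, ‖∑ h ∈ Icc (-((H + m : ℕ) : ℤ)) ((H + m : ℕ) : ℤ), a h -
      ∑ h ∈ Icc (-(H : ℤ)) H, a h‖ ≤ 2 * C * (1 / (H : ℝ) - 1 / (H + m)) := by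
    intro m
    induction m with
    | zero => simp
    | succ m ih =>
      have hI : Icc (-((H + (m + 1) : ℕ) : ℤ)) ((H + (m + 1) : ℕ) : ℤ) =
          insert ((H + (m + 1) : ℕ) : ℤ) (insert (-((H + (m + 1) : ℕ) : ℤ))
            (Icc (-((H + m : ℕ) : ℤ)) ((H + m : ℕ) : ℤ))) := by
        ext x
        simp only [mem_insert, mem_Icc]
        omega
      rw [hI, sum_insert (by
        simp only [mem_insert, mem_Icc]
        omega), sum_insert (by
        simp only [mem_Icc]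
        omega)]
      have e1 := ha ((H + (m + 1) : ℕ) : ℤ) (by omega)
      have e2 := ha (-((H + (m + 1) : ℕ) : ℤ)) (by omega)
      have hk : (0 : ℝ) < (H : ℝ) + m := by positivity
      have e3 : C / (((H + (m + 1) : ℕ) : ℤ) : ℝ) ^ 2 ≤
          C * (1 / ((H : ℝ) + m) - 1 / ((H : ℝ) + (m + 1))) := by
        push_cast
        rw [div_eq_mul_inv]
        refine mul_le_mul_of_nonneg_left ?_ hC
        rw [div_sub_div _ _ hk.ne' (by positivity), inv_eq_one_div,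
          div_le_div_iff₀ (by positivity) (by positivity)]
        nlinarith
      have e4 : C / ((-((H + (m + 1) : ℕ) : ℤ) : ℤ) : ℝ) ^ 2 =
          C / (((H + (m + 1) : ℕ) : ℤ) : ℝ) ^ 2 := by
        push_cast
        ring
      rw [e4] at e2
      have e5 : a ((H + (m + 1) : ℕ) : ℤ) + (a (-((H + (m + 1) : ℕ) : ℤ)) +
          ∑ h ∈ Icc (-((H + m : ℕ) : ℤ)) ((H + m : ℕ) : ℤ), a h) - ∑ h ∈ Icc (-(H : ℤ)) H, a h =
          a ((H + (m + 1) : ℕ) : ℤ) + a (-((H + (m + 1) : ℕ) : ℤ)) +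
          (∑ h ∈ Icc (-((H + m : ℕ) : ℤ)) ((H + m : ℕ) : ℤ), a h -
            ∑ h ∈ Icc (-(H : ℤ)) H, a h) := by ring
      rw [e5]
      refine (norm_add_le _ _).trans ((add_le_add (norm_add_le _ _) ih).trans ?_)
      push_cast at e1 e2 e3 ⊢
      linarith
  have hlim : Tendsto (fun M : ℕ => ‖∑ h ∈ Icc (-(M : ℤ)) (M : ℤ), a h -
      ∑ h ∈ Icc (-(H : ℤ)) H, a h‖) atTop (nhds ‖s - ∑ h ∈ Icc (-(H : ℤ)) H, a h‖) :=
    ((hs.comp (Finset.tendsto_Icc_neg (R := ℤ))).sub_const _).norm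
  refine le_of_tendsto hlim (eventually_atTop.2 ⟨H, fun M hM => ?_⟩)
  obtain ⟨m, rfl⟩ := Nat.exists_eq_add_of_le hM
  refine (key m).trans ?_
  have h1 : (0 : ℝ) ≤ 1 / ((H : ℝ) + m) := by positivity
  have h2 : 2 * C * (1 / (H : ℝ) - 1 / (H + m)) = 2 * C / H - 2 * C * (1 / ((H : ℝ) + m)) := by
    ring
  rw [h2]
  have h3 : 0 ≤ 2 * C * (1 / ((H : ℝ) + m)) := by positivity
  linarith

private theorem F1_per (F : ℝ → ℝ) (L x : ℝ) :
    ((per F L x : ℝ) : ℂ) = ∑' n : ℤ, ((F (L * (x + n)) : ℝ) : ℂ) := by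
  unfold per
  rw [Complex.ofReal_tsum, ← (Equiv.neg ℤ).tsum_eq]
  refine tsum_congr fun n => ?_
  rw [Equiv.neg_apply, Int.cast_neg, sub_neg_eq_add]

theorem exists_bump (ε : ℝ) (hε : 0 < ε) : ∃ (F : ℝ → ℝ) (cF CF : ℝ), Bump ε F cF CF := by
  set δ := min ε 1 with hδ
  have hδ0 : 0 < δ := lt_min hε one_pos
  have hδ1 : δ ≤ 1 := min_le_right _ _
  have hδε : δ ≤ ε := min_le_left _ _
  let b : ContDiffBump (δ / 2 : ℝ) := ⟨δ / 8, δ / 4, by positivity, by linarith⟩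
  have hcs : HasCompactSupport (fun x => ((b x : ℝ) : ℂ)) :=
    b.hasCompactSupport.comp_left (g := Complex.ofReal) rfl
  have hcd : ContDiff ℝ (⊤ : ℕ∞) (fun x => ((b x : ℝ) : ℂ)) := Complex.ofRealCLM.contDiff.comp b.contDiff
  let G : SchwartzMap ℝ ℂ := hcs.toSchwartzMap hcd
  obtain ⟨C0, hC0, h0⟩ := (𝓕 G).decay 0 0
  obtain ⟨C2, hC2, h2⟩ := (𝓕 G).decay 2 0
  have hG : ∀ ξ, (𝓕 G) ξ = 𝓕 (fun x => ((b x : ℝ) : ℂ)) ξ := fun ξ => rfl
  have hint : ((∫ x, b x : ℝ) : ℂ) = 𝓕 (fun x => ((b x : ℝ) : ℂ)) 0 := by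
    rw [Real.fourier_real_eq]
    simp only [mul_zero, neg_zero, AddChar.map_zero_eq_one, one_smul]
    exact integral_ofReal.symm
  refine ⟨b, ∫ x, b x, 2 * C2 + C0 + 1, fun x => b.nonneg, fun x => b.le_one, ?_,
    b.integral_pos, ?_, by linarith, ?_⟩
  · intro x hx
    have h1 : x ∈ Metric.ball (δ / 2 : ℝ) (δ / 4) := by
      have h1 : x ∈ Function.support b := hx
      rw [b.support_eq] at h1
      exact h1
    rw [Metric.mem_ball, Real.dist_eq, abs_lt] at h1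
    constructor <;> linarith
  · refine (b.integral_le_measure_closedBall volume).trans ?_
    rw [Real.volume_real_closedBall (by positivity)]
    change 2 * (δ / 4) ≤ 1
    linarith
  · intro L hL H hH
    have hL0 : 0 < L := lt_of_lt_of_le one_pos hL
    have hcsL : HasCompactSupport (fun x => ((b (L * x) : ℝ) : ℂ)) :=
      hcs.comp_homeomorph (Homeomorph.mulLeft₀ L hL0.ne')
    have hcdL : ContDiff ℝ (⊤ : ℕ∞) (fun x => ((b (L * x) : ℝ) : ℂ)) :=
      hcd.comp (contDiff_const.mul contDiff_id)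
    let g : SchwartzMap ℝ ℂ := hcsL.toSchwartzMap hcdL
    have hg : ∀ ξ, (𝓕 g) ξ = (L⁻¹ : ℝ) • (𝓕 G) (ξ / L) := by
      intro ξ
      exact F1_four (fun x => ((b x : ℝ) : ℂ)) L hL0 ξ
    have hgn : ∀ ξ, ‖(𝓕 g) ξ‖ = L⁻¹ * ‖(𝓕 G) (ξ / L)‖ := by
      intro ξ
      rw [hg, norm_smul, Real.norm_eq_abs, abs_of_pos (inv_pos.2 hL0)]
    have hb1 : ∀ ξ, ‖(𝓕 g) ξ‖ ≤ C0 := by
      intro ξ
      rw [hgn]
      have h1 := h0 (ξ / L)
      rw [pow_zero, one_mul, norm_iteratedFDeriv_zero] at h1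
      calc L⁻¹ * ‖(𝓕 G) (ξ / L)‖ ≤ 1 * C0 :=
            mul_le_mul (inv_le_one_of_one_le₀ hL) h1 (norm_nonneg _) zero_le_one
        _ = C0 := one_mul _
    have hb2 : ∀ ξ : ℝ, ξ ≠ 0 → ‖(𝓕 g) ξ‖ ≤ C2 * L / ξ ^ 2 := by
      intro ξ hξ
      rw [hgn]
      have h1 := h2 (ξ / L)
      rw [norm_iteratedFDeriv_zero, Real.norm_eq_abs, sq_abs] at h1
      have hξ2 : 0 < ξ ^ 2 := by positivity
      rw [le_div_iff₀ hξ2]
      have h3 : L⁻¹ * ‖(𝓕 G) (ξ / L)‖ * ξ ^ 2 = L * ((ξ / L) ^ 2 * ‖(𝓕 G) (ξ / L)‖) := by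
        field_simp
      rw [h3, mul_comm C2 L]
      exact mul_le_mul_of_nonneg_left h1 hL0.le
    refine ⟨fun h => (𝓕 g) h, fun h => (hb1 h).trans (by linarith), fun x => ?_⟩
    have hpo := SchwartzMap.tsum_eq_tsum_fourier g x
    have hterm : ∀ h : ℤ, (𝓕 g) h * fourier h (x : UnitAddCircle) = (𝓕 g) h * ex (h * x) := by
      intro h
      rw [fourier_coe_apply, ex]
      congr 2
      push_cast
      ring
    simp_rw [hterm] at hpo
    have hexn : ∀ y : ℝ, ‖ex y‖ = 1 := by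
      intro y
      rw [ex]
      have : (2 * Real.pi * Complex.I * y : ℂ) = ((2 * Real.pi * y : ℝ) : ℂ) * Complex.I := by
        push_cast
        ring
      rw [this, Complex.norm_exp_ofReal_mul_I]
    have hnorm : ∀ h : ℤ, h ≠ 0 → ‖(𝓕 g) h * ex (h * x)‖ ≤ C2 * L / (h : ℝ) ^ 2 := by
      intro h hh
      rw [norm_mul, hexn, mul_one]
      exact hb2 h (by exact_mod_cast hh)
    have hsum : Summable (fun h : ℤ => (𝓕 g) h * ex (h * x)) := by
      refine Summable.of_norm_bounded_eventually (g := fun h : ℤ => C2 * L / (h : ℝ) ^ 2) ?_ ?_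
      · simp_rw [div_eq_mul_inv]
        refine Summable.mul_left _ ?_
        have h1 := Real.summable_one_div_int_pow (p := 2).2 one_lt_two
        simpa only [one_div] using h1
      · rw [Filter.eventually_cofinite]
        refine (Set.finite_singleton (0 : ℤ)).subset fun h hh => ?_
        by_contra h1
        exact hh (hnorm h h1)
    have htail := F1_tail _ _ hsum.hasSum (C2 * L) (by positivity) hnorm H hH
    rw [← hpo] at htail
    have hper : ((per b L x : ℝ) : ℂ) = ∑' n : ℤ, g (x + n) := F1_per b L x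
    rw [← hper] at htail
    have h0mem : (0 : ℤ) ∈ Icc (-(H : ℤ)) H := by
      rw [mem_Icc]
      omega
    rw [← add_sum_erase _ _ h0mem] at htail
    have hz : (𝓕 g) ((0 : ℤ) : ℝ) * ex (((0 : ℤ) : ℝ) * x) = (((∫ x, b x) / L : ℝ) : ℂ) := by
      have e0 : ex (((0 : ℤ) : ℝ) * x) = 1 := by
        rw [ex]
        simp
      rw [e0, mul_one, hg, Int.cast_zero, zero_div, hG, ← hint, Complex.real_smul]
      push_cast
      exact (div_eq_inv_mul _ _).symm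
    rw [hz] at htail
    rw [sub_sub]
    refine htail.trans ?_
    have hH0 : (0 : ℝ) < H := by exact_mod_cast hH
    rw [div_le_div_iff_of_pos_right hH0]
    nlinarith

end Pool.Agent.LibFS14
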