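import Pool.Agent.LibFS14.Defs

/-!
Row F2 (SHORT/MEDIUM). The average of the periodisation over a weighted finite family.

PLAN. Use `hB.pois L hL H hH`: multiply by `w t`, sum over `t`; `∑_t w t (∑_h c h ex (h x_t)) = ∑_h c h (∑_t w t ex (h x_t))`, at most `CF * (2 H) * E`, because for `h < 0` the inner sum is the complex conjugate of the one for `-h`
(`w t` real, `ex (-y) = conj (ex y)`). The remainder is at most `CF * L / H * ∑ w t`. `|x| = ‖(x : ℂ)‖` (`Complex.norm_real`).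
-/

open Finset

namespace Pool.Agent.LibFS14

private theorem F2_conj (y : ℝ) : ex (-y) = (starRingEnd ℂ) (ex y) := by
  unfold ex
  rw [← Complex.exp_conj]
  congr 1
  simp only [map_mul, Complex.conj_I, Complex.conj_ofReal, Complex.ofReal_neg]
  rw [show (starRingEnd ℂ) (2 : ℂ) = 2 from by simpa using Complex.conj_ofReal 2]
  ring

theorem per_avg {ε : ℝ} {F : ℝ → ℝ} {cF CF : ℝ} (hB : Bump ε F cF CF) (L : ℝ) (hL : 1 ≤ L) (H : ℕ) (hH : 1 ≤ H)
    {τ : Type} (T : Finset τ) (w : τ → ℝ) (hw : ∀ t ∈ T, 0 ≤ w t) (x : τ → ℝ) (E : ℝ)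
    (hE : ∀ h : ℕ, 1 ≤ h → h ≤ H → ‖∑ t ∈ T, ((w t : ℝ) : ℂ) * ex (h * x t)‖ ≤ E) :
    |∑ t ∈ T, w t * per F L (x t) - cF / L * ∑ t ∈ T, w t| ≤ 2 * CF * H * E + CF * L / H * ∑ t ∈ T, w t := by
  obtain ⟨c, hc, hp⟩ := hB.pois L hL H hH
  have hCF : 0 ≤ CF := le_trans zero_le_one hB.Cpos
  have hE0 : 0 ≤ E := le_trans (norm_nonneg _) (hE 1 le_rfl hH)
  have hin : ∀ h ∈ (Icc (-(H : ℤ)) H).erase 0, ‖∑ t ∈ T, ((w t : ℝ) : ℂ) * ex (h * x t)‖ ≤ E := by
    intro h hh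
    rw [mem_erase, mem_Icc] at hh
    obtain ⟨h0, h1, h2⟩ := hh
    have hn1 : 1 ≤ h.natAbs := by omega
    have hn2 : h.natAbs ≤ H := by omega
    have hEn := hE h.natAbs hn1 hn2
    rcases le_or_gt 0 h with hpos | hneg
    · have e : ((h.natAbs : ℕ) : ℝ) = (h : ℝ) := by
        have h3 : ((h.natAbs : ℕ) : ℤ) = h := Int.natAbs_of_nonneg hpos
        have h4 : (((h.natAbs : ℕ) : ℤ) : ℝ) = (h : ℝ) := congrArg (fun z : ℤ => (z : ℝ)) h3
        rwa [Int.cast_natCast] at h4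
      rw [e] at hEn
      exact hEn
    · have e : ((h.natAbs : ℕ) : ℝ) = -(h : ℝ) := by
        have h3 : ((h.natAbs : ℕ) : ℤ) = -h := by omega
        have h4 : (((h.natAbs : ℕ) : ℤ) : ℝ) = ((-h : ℤ) : ℝ) := congrArg (fun z : ℤ => (z : ℝ)) h3
        rwa [Int.cast_natCast, Int.cast_neg] at h4
      have e2 : ∑ t ∈ T, ((w t : ℝ) : ℂ) * ex (h * x t) =
          (starRingEnd ℂ) (∑ t ∈ T, ((w t : ℝ) : ℂ) * ex ((h.natAbs : ℕ) * x t)) := by
        rw [map_sum]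
        apply sum_congr rfl
        intro t _
        rw [map_mul, Complex.conj_ofReal, ← F2_conj, e]
        congr 2
        ring
      rw [e2, RCLike.norm_conj]
      exact hEn
  have hcard : ((Icc (-(H : ℤ)) H).erase 0).card = 2 * H := by
    rw [card_erase_of_mem (by rw [mem_Icc]; omega), Int.card_Icc]
    omega
  have key : (((∑ t ∈ T, w t * per F L (x t) - cF / L * ∑ t ∈ T, w t : ℝ)) : ℂ) =
      (∑ t ∈ T, ((w t : ℝ) : ℂ) * (((per F L (x t) : ℝ) : ℂ) - ((cF / L : ℝ) : ℂ) -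
        ∑ h ∈ (Icc (-(H : ℤ)) H).erase 0, c h * ex (h * x t))) +
      ∑ h ∈ (Icc (-(H : ℤ)) H).erase 0, c h * ∑ t ∈ T, ((w t : ℝ) : ℂ) * ex (h * x t) := by
    have e1 : ∑ h ∈ (Icc (-(H : ℤ)) H).erase 0, c h * ∑ t ∈ T, ((w t : ℝ) : ℂ) * ex (h * x t) =
        ∑ t ∈ T, ((w t : ℝ) : ℂ) * ∑ h ∈ (Icc (-(H : ℤ)) H).erase 0, c h * ex (h * x t) := by
      simp only [mul_sum]
      rw [sum_comm]
      apply sum_congr rfl
      intro t _
      apply sum_congr rfl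
      intro h _
      ring
    rw [e1, ← sum_add_distrib]
    push_cast
    rw [mul_sum, ← sum_sub_distrib]
    apply sum_congr rfl
    intro t _
    ring
  rw [← Real.norm_eq_abs, ← Complex.norm_real, key]
  refine le_trans (norm_add_le _ _) ?_
  have b1 : ‖∑ t ∈ T, ((w t : ℝ) : ℂ) * (((per F L (x t) : ℝ) : ℂ) - ((cF / L : ℝ) : ℂ) -
        ∑ h ∈ (Icc (-(H : ℤ)) H).erase 0, c h * ex (h * x t))‖ ≤ CF * L / H * ∑ t ∈ T, w t := by
    refine le_trans (norm_sum_le _ _) ?_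
    rw [mul_sum]
    apply sum_le_sum
    intro t ht
    rw [norm_mul, Complex.norm_real, Real.norm_eq_abs, abs_of_nonneg (hw t ht), mul_comm]
    exact mul_le_mul_of_nonneg_right (hp (x t)) (hw t ht)
  have b2 : ‖∑ h ∈ (Icc (-(H : ℤ)) H).erase 0, c h * ∑ t ∈ T, ((w t : ℝ) : ℂ) * ex (h * x t)‖ ≤ 2 * CF * H * E := by
    refine le_trans (norm_sum_le _ _) ?_
    have : ∑ h ∈ (Icc (-(H : ℤ)) H).erase 0, ‖c h * ∑ t ∈ T, ((w t : ℝ) : ℂ) * ex (h * x t)‖ ≤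
        ∑ _h ∈ (Icc (-(H : ℤ)) H).erase 0, CF * E := by
      apply sum_le_sum
      intro h hh
      rw [norm_mul]
      exact mul_le_mul (hc h) (hin h hh) (norm_nonneg _) hCF
    refine le_trans this ?_
    rw [sum_const, hcard, nsmul_eq_mul]
    push_cast
    apply le_of_eq
    ring
  linarith

end Pool.Agent.LibFS14
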