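import Pool.Agent.LibFS14.Defs

/-!
Row V1 (SHORT/MEDIUM). The geometric sum.

PLAN. `ex (c + s θ) = ex c * ex θ ^ s`; for `ex θ ≠ 1`: `‖∑‖ ≤ 2 / ‖ex θ - 1‖`, `‖ex θ - 1‖ = 2 |sin (π θ)|`, and `|sin (π θ)| ≥ 2 δ` if `θ` has distance `≥ δ` from the integers: reduce to `θ' = θ - round θ`, `|θ'| ≤ 1/2`, `δ ≤ |θ'|`,
`Real.mul_le_sin` (`2/π x ≤ sin x` on `[0, π/2]`). So the bound is `1 / (2 δ)`. The version over `Ico a b` in `ℤ` by translation (or the other way round).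
-/

open Finset

namespace Pool.Agent.LibFS14

private theorem V1_norm (x : ℝ) : ‖ex x‖ = 1 := by
  unfold ex
  have h : (2 * Real.pi * Complex.I * x : ℂ) = Complex.I * ((2 * Real.pi * x : ℝ) : ℂ) := by
    push_cast
    ring
  rw [h, Complex.norm_exp_I_mul_ofReal]

private theorem V1_add (c θ : ℝ) (s : ℕ) : ex (c + s * θ) = ex c * ex θ ^ s := by
  unfold ex
  rw [← Complex.exp_nat_mul, ← Complex.exp_add]
  congr 1
  push_cast
  ring

private theorem V1_sub (θ δ : ℝ) (hδ : 0 < δ) (h : ∀ k : ℤ, δ ≤ |θ - k|) :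
    4 * δ ≤ ‖ex θ - 1‖ := by
  unfold ex
  have h1 : (2 * Real.pi * Complex.I * θ : ℂ) = Complex.I * ((2 * Real.pi * θ : ℝ) : ℂ) := by
    push_cast
    ring
  rw [h1, Complex.norm_exp_I_mul_ofReal_sub_one, norm_mul, Real.norm_eq_abs, Real.norm_eq_abs,
    abs_of_pos (by norm_num : (0 : ℝ) < 2)]
  have h2 : 2 * Real.pi * θ / 2 = Real.pi * (θ - round θ) + (round θ : ℤ) * Real.pi := by ring
  have h3 : |Real.sin (2 * Real.pi * θ / 2)| = Real.sin (Real.pi * |θ - round θ|) := by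
    rw [h2, Real.sin_add_int_mul_pi, abs_mul]
    have e1 : |((-1 : ℝ)) ^ (round θ)| = 1 := by
      rw [abs_zpow, abs_neg, abs_one, one_zpow]
    rw [e1, one_mul]
    have hle : |θ - round θ| ≤ 1 / 2 := abs_sub_round θ
    have hpi := Real.pi_pos
    have hnn : 0 ≤ Real.sin (Real.pi * |θ - round θ|) := by
      apply Real.sin_nonneg_of_nonneg_of_le_pi
      · positivity
      · nlinarith
    rcases abs_cases (θ - round θ) with ⟨e, _⟩ | ⟨e, _⟩
    · rw [e] at hnn ⊢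
      exact abs_of_nonneg hnn
    · rw [e] at hnn ⊢
      rw [← abs_of_nonneg hnn, mul_neg, Real.sin_neg, abs_neg]
  rw [h3]
  have h4 := h (round θ)
  have hle : |θ - round θ| ≤ 1 / 2 := abs_sub_round θ
  have hpi := Real.pi_pos
  have h5 := Real.mul_le_sin (x := Real.pi * |θ - round θ|) (by positivity) (by nlinarith)
  have h6 : 2 / Real.pi * (Real.pi * |θ - round θ|) = 2 * |θ - round θ| := by
    field_simp
  rw [h6] at h5
  linarith

theorem geom (c θ δ : ℝ) (hδ : 0 < δ) (h : ∀ k : ℤ, δ ≤ |θ - k|) (n : ℕ) :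
    ‖∑ s ∈ range n, ex (c + s * θ)‖ ≤ 1 / (2 * δ) := by
  have h1 := V1_sub θ δ hδ h
  have hne : ex θ ≠ 1 := by
    intro e
    rw [e, sub_self, norm_zero] at h1
    linarith
  have h2 : ∑ s ∈ range n, ex (c + s * θ) = ex c * ((ex θ ^ n - 1) / (ex θ - 1)) := by
    rw [← geom_sum_eq hne, mul_sum]
    exact sum_congr rfl fun s _ => V1_add c θ s
  rw [h2, norm_mul, V1_norm, one_mul, norm_div]
  have h3 : ‖ex θ ^ n - 1‖ ≤ 2 := by
    refine (norm_sub_le _ _).trans ?_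
    rw [norm_pow, V1_norm, one_pow, norm_one]
    norm_num
  calc ‖ex θ ^ n - 1‖ / ‖ex θ - 1‖ ≤ 2 / (4 * δ) := by gcongr
    _ = 1 / (2 * δ) := by
      field_simp
      norm_num

theorem geomN (c θ δ : ℝ) (hδ : 0 < δ) (h : ∀ k : ℤ, δ ≤ |θ - k|) (a b : ℕ) :
    ‖∑ s ∈ Ico a b, ex (c + s * θ)‖ ≤ 1 / (2 * δ) := by
  rw [sum_Ico_eq_sum_range]
  have h1 := geom (c + a * θ) θ δ hδ h (b - a)
  have h2 : ∑ s ∈ range (b - a), ex (c + ((a + s : ℕ) : ℝ) * θ) =
      ∑ s ∈ range (b - a), ex (c + a * θ + s * θ) := by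
    refine sum_congr rfl fun s _ => ?_
    congr 1
    push_cast
    ring
  rw [h2]
  exact h1

theorem geomZ (c θ δ : ℝ) (hδ : 0 < δ) (h : ∀ k : ℤ, δ ≤ |θ - k|) (a b : ℤ) :
    ‖∑ s ∈ Ico a b, ex (c + s * θ)‖ ≤ 1 / (2 * δ) := by
  have h1 := geom (c + a * θ) θ δ hδ h (b - a).toNat
  have h2 : ∑ s ∈ Ico a b, ex (c + s * θ) =
      ∑ s ∈ range (b - a).toNat, ex (c + a * θ + s * θ) := by
    symm
    apply sum_bij (fun (s : ℕ) _ => a + (s : ℤ))
    · intro s hs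
      rw [mem_range] at hs
      rw [mem_Ico]
      omega
    · intro s _ s' _ e
      simpa using e
    · intro z hz
      rw [mem_Ico] at hz
      refine ⟨(z - a).toNat, ?_, ?_⟩
      · rw [mem_range]
        omega
      · show a + ((z - a).toNat : ℤ) = z
        omega
    · intro s _
      congr 1
      push_cast
      ring
  rw [h2]
  exact h1

end Pool.Agent.LibFS14
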