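import Pool.Agent.LibFS14.F2
import Pool.Agent.LibFS14.V1

/-!
Row G1 (MEDIUM/STRONG). The basic count (all points).

PLAN. The `n ∈ (N, 2 N]`, `N = Y ^ 1000`, with `n = n1 + D1 s`: `s` runs over an interval `Ico s0 s1` of `ℤ`, `|(s1 - s0) - N / D1| ≤ 1`. For such `n` the integers `m' = a0 + b0 s + D2 k`: `F (m' - α n) = F (D2 (x_s + k))`, `x_s = (a0 + b0 s - α n) / D2`, is nonzero only
for `m' = D.m n` (support in `(0, ε)`, `ε ≤ 1`: `Int.floor_eq_iff`), so `D.f n * [D2 ∣ D.m n - a0 - b0 s] = per D.F D2 x_s` (`tsum` with one nonzero term; `k ↦ -k`). `per_avg` (F2) with `L = D2`, `H = Y ^ 10`, `w = 1`: the sum over the family is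
`cF / D2 * (s1 - s0)` up to `2 CF H E + CF D2 / H * (s1 - s0)`. `E`: `h x_s = c + s θ`, `θ = h (b0 - α D1) / D2`; `θ` is close to `h (b0 B - A D1) / (D2 B)`: not an integer for `1 ≤ h < B / D1` (if `B ∣ h (b0 B - A D1)` then `B ∣ h D1`), so it has
distance `≥ 1 / (D2 B)` from the integers, and `|θ - h (b0 B - A D1) / (D2 B)| ≤ h D1 / (D2 B ^ 2) ≤ 1 / (2 D2 B)` if `2 h D1 ≤ B`. `V1.geomZ` with `δ = 1 / (2 D2 B)`: `E = D2 B`. `B ≥ Y ^ 500 / sqrt R`, so `2 H D1 ≤ 2 W Y ^ 11 ≤ B` for `Y ≥ Y0`;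
for `Y < Y0` everything is bounded by a constant. Total error `≤ 2 CF Y ^ 10 * W Y * B + CF W Y (N + 1) / Y ^ 10 + cF ≤ C Y ^ 995` (`B ≤ Y ^ 500`).
-/

open Finset

namespace Pool.Agent.LibFS14

open scoped Classical in
private theorem G1_per {K : ℕ} (D : Data K) (n : ℕ) (D2 : ℕ) (hD2 : 1 ≤ D2) (z : ℤ) :
    per D.F (D2 : ℝ) (((z : ℝ) - D.α * n) / D2) = (if (D2 : ℤ) ∣ D.m n - z then D.f n else 0) := by
  have hD2' : (D2 : ℝ) ≠ 0 := by
    have : (1 : ℝ) ≤ D2 := by exact_mod_cast hD2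
    linarith
  have hterm : ∀ k : ℤ, (D2 : ℝ) * (((z : ℝ) - D.α * n) / D2 - k) = ((z - D2 * k : ℤ) : ℝ) - D.α * n := by
    intro k
    push_cast
    field_simp
    ring
  have hz : ∀ k : ℤ, D.F ((D2 : ℝ) * (((z : ℝ) - D.α * n) / D2 - k)) ≠ 0 → z - D2 * k = D.m n := by
    intro k hk
    rw [hterm] at hk
    obtain ⟨h1, h2⟩ := D.bump.supp _ hk
    have h3 := D.ε1
    obtain ⟨y, hy⟩ : ∃ y : ℤ, y = z - D2 * k := ⟨_, rfl⟩
    rw [← hy] at h1 h2 ⊢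
    have : ⌊D.α * n⌋ = y - 1 := by
      rw [Int.floor_eq_iff]
      push_cast
      constructor <;> linarith
    unfold Data.m
    rw [this]
    ring
  unfold per
  by_cases h : (D2 : ℤ) ∣ D.m n - z
  · rw [if_pos h]
    obtain ⟨c, hc⟩ := h
    rw [tsum_eq_single (-c)]
    · rw [hterm]
      unfold Data.f
      have : ((z - D2 * (-c) : ℤ) : ℝ) = D.m n := by
        have : (z - D2 * (-c) : ℤ) = D.m n := by linarith
        rw [this]
      rw [this]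
    · intro k hk
      by_contra hne
      have h1 := hz k hne
      apply hk
      have h2 : (D2 : ℤ) * (c + k) = 0 := by linarith
      have h3 : (D2 : ℤ) ≠ 0 := by
        have : 0 < D2 := hD2
        exact_mod_cast this.ne'
      rcases mul_eq_zero.1 h2 with h4 | h4
      · exact absurd h4 h3
      · linarith
  · rw [if_neg h]
    have : ∀ k : ℤ, D.F ((D2 : ℝ) * (((z : ℝ) - D.α * n) / D2 - k)) = 0 := by
      intro k
      by_contra hne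
      apply h
      refine ⟨-k, ?_⟩
      have := hz k hne
      linarith
    simp only [this, tsum_zero]

private theorem G1_dist (A : ℤ) (B h D1 D2 : ℕ) (b0 : ℤ) (α : ℝ) (hB : 1 ≤ B) (hcop : IsCoprime A (B : ℤ))
    (happ : |α - A / B| ≤ 1 / (B : ℝ) ^ 2) (hh : 1 ≤ h) (hD1 : 1 ≤ D1) (hD2 : 1 ≤ D2) (hle : 2 * (h * D1) ≤ B) (k : ℤ) :
    1 / (2 * ((D2 : ℝ) * B)) ≤ |(h : ℝ) * (b0 - α * D1) / D2 - k| := by
  have hBr : (1 : ℝ) ≤ B := by exact_mod_cast hB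
  have hD2r : (1 : ℝ) ≤ D2 := by exact_mod_cast hD2
  have hD1r : (1 : ℝ) ≤ D1 := by exact_mod_cast hD1
  have hhr : (1 : ℝ) ≤ h := by exact_mod_cast hh
  have hler : 2 * ((h : ℝ) * D1) ≤ B := by exact_mod_cast hle
  obtain ⟨M, hM⟩ : ∃ M : ℤ, M = h * (b0 * B - A * D1) - k * D2 * B := ⟨_, rfl⟩
  have hM0 : M ≠ 0 := by
    intro h0
    have h1 : (B : ℤ) ∣ A * (h * D1) := by
      refine ⟨h * b0 - k * D2, ?_⟩
      have : (h : ℤ) * (b0 * B - A * D1) - k * D2 * B = 0 := by rw [← hM, h0]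
      linarith
    have h2 : (B : ℤ) ∣ ((h * D1 : ℕ) : ℤ) := by
      push_cast
      exact hcop.symm.dvd_of_dvd_mul_left h1
    have h3 : B ∣ h * D1 := by exact_mod_cast h2
    have h4 : 0 < h * D1 := Nat.mul_pos hh hD1
    have h5 := Nat.le_of_dvd h4 h3
    omega
  have hM1 : (1 : ℝ) ≤ |(M : ℝ)| := by
    have : (1 : ℤ) ≤ |M| := Int.one_le_abs hM0
    exact_mod_cast this
  have hkey : ((h : ℝ) * (b0 - α * D1) / D2 - k) * (D2 * B) = M - h * D1 * B * (α - A / B) := by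
    rw [hM]
    push_cast
    have : (B : ℝ) ≠ 0 := by positivity
    have : (D2 : ℝ) ≠ 0 := by positivity
    field_simp
    ring
  have herr : |(h : ℝ) * D1 * B * (α - A / B)| ≤ 1 / 2 := by
    rw [abs_mul, abs_of_nonneg (by positivity : (0 : ℝ) ≤ h * D1 * B)]
    calc (h : ℝ) * D1 * B * |α - A / B| ≤ h * D1 * B * (1 / (B : ℝ) ^ 2) :=
          mul_le_mul_of_nonneg_left happ (by positivity)
      _ = (h * D1) / B := by
          have : (B : ℝ) ≠ 0 := by positivity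
          field_simp
      _ ≤ 1 / 2 := by
          rw [div_le_div_iff₀ (by positivity) (by norm_num)]
          linarith
  have hge : 1 / 2 ≤ |(h : ℝ) * (b0 - α * D1) / D2 - k| * (D2 * B) := by
    have h1 : |((h : ℝ) * (b0 - α * D1) / D2 - k) * (D2 * B)| = |(h : ℝ) * (b0 - α * D1) / D2 - k| * (D2 * B) := by
      rw [abs_mul, abs_of_nonneg (by positivity : (0 : ℝ) ≤ (D2 : ℝ) * B)]
    rw [← h1, hkey]
    have h2 := abs_sub_abs_le_abs_sub (M : ℝ) ((h : ℝ) * D1 * B * (α - A / B))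
    linarith
  have hpos : (0 : ℝ) < D2 * B := by positivity
  rw [div_le_iff₀ (by positivity)]
  linarith

private theorem G1_ico (N D1 : ℕ) (hD1 : 1 ≤ D1) (n1 : ℤ) : ∃ s0 s1 : ℤ,
    (∀ s : ℤ, s ∈ Ico s0 s1 ↔ ((N : ℤ) < n1 + D1 * s ∧ n1 + D1 * s ≤ 2 * N)) ∧
    |(∑ _s ∈ Ico s0 s1, (1 : ℝ)) - (N : ℝ) / D1| ≤ 1 := by
  have hD1z : (0 : ℤ) < D1 := by exact_mod_cast hD1
  have hD1r : (0 : ℝ) < D1 := by exact_mod_cast hD1
  obtain ⟨q0, hq0⟩ : ∃ q : ℤ, q = ((N : ℤ) - n1) / D1 := ⟨_, rfl⟩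
  obtain ⟨q1, hq1⟩ : ∃ q : ℤ, q = (2 * (N : ℤ) - n1) / D1 := ⟨_, rfl⟩
  have a1 : q0 * D1 ≤ (N : ℤ) - n1 := by
    rw [hq0]; exact Int.ediv_mul_le _ hD1z.ne'
  have a2 : (N : ℤ) - n1 < (q0 + 1) * D1 := by
    rw [hq0]; exact Int.lt_ediv_add_one_mul_self _ hD1z
  have b1 : q1 * D1 ≤ 2 * (N : ℤ) - n1 := by
    rw [hq1]; exact Int.ediv_mul_le _ hD1z.ne'
  have b2 : 2 * (N : ℤ) - n1 < (q1 + 1) * D1 := by
    rw [hq1]; exact Int.lt_ediv_add_one_mul_self _ hD1z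
  have hq : q0 ≤ q1 := by
    rw [hq0, hq1]
    apply Int.ediv_le_ediv hD1z
    have : (0 : ℤ) ≤ N := Int.natCast_nonneg _
    linarith
  refine ⟨q0 + 1, q1 + 1, ?_, ?_⟩
  · intro s
    rw [mem_Ico]
    constructor
    · rintro ⟨h1, h2⟩
      constructor
      · nlinarith
      · have : s ≤ q1 := by linarith
        nlinarith
    · rintro ⟨h1, h2⟩
      constructor
      · by_contra hc
        have : s ≤ q0 := by push Not at hc; linarith
        nlinarith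
      · by_contra hc
        have : q1 + 1 ≤ s := by push Not at hc; linarith
        nlinarith
  · have hcard : (∑ _s ∈ Ico (q0 + 1) (q1 + 1), (1 : ℝ)) = (q1 : ℝ) - q0 := by
      rw [Finset.sum_const, Int.card_Ico, nsmul_eq_mul, mul_one]
      have h1 : ((q1 + 1 - (q0 + 1)).toNat : ℤ) = q1 - q0 := by
        rw [Int.toNat_of_nonneg (by linarith)]; ring
      have h2 : (((q1 + 1 - (q0 + 1)).toNat : ℤ) : ℝ) = ((q1 - q0 : ℤ) : ℝ) := by rw [h1]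
      push_cast at h2
      exact_mod_cast h2
    rw [hcard]
    have a1' : (q0 : ℝ) * D1 ≤ N - n1 := by exact_mod_cast a1
    have a2' : (N : ℝ) - n1 < (q0 + 1) * D1 := by exact_mod_cast a2
    have b1' : (q1 : ℝ) * D1 ≤ 2 * N - n1 := by exact_mod_cast b1
    have b2' : 2 * (N : ℝ) - n1 < (q1 + 1) * D1 := by exact_mod_cast b2
    have key : |((q1 : ℝ) - q0 - N / D1) * D1| ≤ D1 := by
      have : ((q1 : ℝ) - q0 - N / D1) * D1 = q1 * D1 - q0 * D1 - N := by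
        field_simp
      rw [this, abs_le]
      constructor <;> nlinarith
    rw [abs_mul, abs_of_pos hD1r] at key
    by_contra hc
    push Not at hc
    nlinarith

open scoped Classical in
private theorem G1_reindex {K : ℕ} (D : Data K) (N D1 D2 : ℕ) (hD1 : 1 ≤ D1) (hD2 : 1 ≤ D2) (n1 a0 b0 s0 s1 : ℤ)
    (hs : ∀ s : ℤ, s ∈ Ico s0 s1 ↔ ((N : ℤ) < n1 + D1 * s ∧ n1 + D1 * s ≤ 2 * N)) :
    ∑ n ∈ (Ioc N (2 * N)).filter (fun n : ℕ => ∃ s : ℤ, (n : ℤ) = n1 + D1 * s ∧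
        (D2 : ℤ) ∣ D.m n - (a0 + b0 * s)), D.f n =
      ∑ s ∈ Ico s0 s1, per D.F (D2 : ℝ) (((a0 : ℝ) + b0 * s - D.α * (n1 + D1 * s)) / D2) := by
  have hN : (0 : ℤ) ≤ N := Int.natCast_nonneg _
  have h1 : ∀ s ∈ Ico s0 s1, per D.F (D2 : ℝ) (((a0 : ℝ) + b0 * s - D.α * (n1 + D1 * s)) / D2) =
      (if (D2 : ℤ) ∣ D.m (n1 + D1 * s).toNat - (a0 + b0 * s) then D.f (n1 + D1 * s).toNat else 0) := by
    intro s hsm
    have h2 := (hs s).1 hsm
    rw [← G1_per D _ D2 hD2 (a0 + b0 * s)]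
    congr 2
    have h3 : (((n1 + D1 * s).toNat : ℕ) : ℤ) = n1 + D1 * s := Int.toNat_of_nonneg (by linarith [h2.1])
    have h4 : (((n1 + D1 * s).toNat : ℕ) : ℝ) = n1 + D1 * s := by
      have : ((((n1 + D1 * s).toNat : ℕ) : ℤ) : ℝ) = ((n1 + D1 * s : ℤ) : ℝ) := by rw [h3]
      push_cast at this
      exact_mod_cast this
    rw [h4]
    push_cast
    ring
  rw [Finset.sum_congr rfl h1, ← Finset.sum_filter]
  symm
  apply Finset.sum_bij (fun (s : ℤ) _ => (n1 + D1 * s).toNat)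
  · intro s hsm
    rw [mem_filter] at hsm ⊢
    have h2 := (hs s).1 hsm.1
    have h3 : (((n1 + D1 * s).toNat : ℕ) : ℤ) = n1 + D1 * s := Int.toNat_of_nonneg (by linarith [h2.1])
    refine ⟨?_, s, h3, hsm.2⟩
    rw [mem_Ioc]
    constructor
    · have : (N : ℤ) < (((n1 + D1 * s).toNat : ℕ) : ℤ) := by rw [h3]; exact h2.1
      exact_mod_cast this
    · have : (((n1 + D1 * s).toNat : ℕ) : ℤ) ≤ 2 * N := by rw [h3]; exact h2.2
      exact_mod_cast this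
  · intro s hsm s' hsm' he
    rw [mem_filter] at hsm hsm'
    have h2 := (hs s).1 hsm.1
    have h3 : (((n1 + D1 * s).toNat : ℕ) : ℤ) = n1 + D1 * s := Int.toNat_of_nonneg (by linarith [h2.1])
    have h2' := (hs s').1 hsm'.1
    have h3' : (((n1 + D1 * s').toNat : ℕ) : ℤ) = n1 + D1 * s' := Int.toNat_of_nonneg (by linarith [h2'.1])
    have he' : (((n1 + D1 * s).toNat : ℕ) : ℤ) = (((n1 + D1 * s').toNat : ℕ) : ℤ) := by
      exact_mod_cast he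
    rw [h3, h3'] at he'
    have h5 : (D1 : ℤ) * (s - s') = 0 := by linarith
    have h6 : (D1 : ℤ) ≠ 0 := by
      have : 0 < D1 := hD1
      exact_mod_cast this.ne'
    rcases mul_eq_zero.1 h5 with h7 | h7
    · exact absurd h7 h6
    · linarith
  · intro n hn
    rw [mem_filter, mem_Ioc] at hn
    obtain ⟨⟨h2, h3⟩, s, h4, h5⟩ := hn
    have h6 : (n1 + (D1 : ℤ) * s).toNat = n := by rw [← h4]; exact Int.toNat_natCast n
    refine ⟨s, ?_, h6⟩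
    rw [mem_filter]
    refine ⟨(hs s).2 ⟨?_, ?_⟩, ?_⟩
    · rw [← h4]; exact_mod_cast h2
    · rw [← h4]; exact_mod_cast h3
    · rw [h6]; exact h5
  · intro s hsm
    rfl

open scoped Classical in
theorem count {K : ℕ} (D : Data K) (R : ℝ) (W : ℕ) (hW : 1 ≤ W) : ∃ C : ℝ, 1 ≤ C ∧
    ∀ (A : ℤ) (B Y : ℕ), D.App R A B Y → ∀ (D1 D2 : ℕ) (n1 a0 b0 : ℤ), 1 ≤ D1 → D1 ≤ W * Y → 1 ≤ D2 → D2 ≤ W * Y →
    |∑ n ∈ (Ioc (Y ^ 1000) (2 * Y ^ 1000)).filter (fun n : ℕ => ∃ s : ℤ, (n : ℤ) = n1 + D1 * s ∧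
        (D2 : ℤ) ∣ D.m n - (a0 + b0 * s)), D.f n - D.cF * (Y : ℝ) ^ 1000 / (D1 * D2)| ≤ C * (Y : ℝ) ^ 995 := by
  have hWr : (1 : ℝ) ≤ W := by exact_mod_cast hW
  have hCF := D.bump.Cpos
  have hcF0 := D.bump.cpos
  have hcF1 := D.bump.cle
  obtain ⟨Q, hQ⟩ : ∃ Q : ℝ, Q = 4 * (W : ℝ) ^ 2 * |R| := ⟨_, rfl⟩
  have hQ0 : 0 ≤ Q := by rw [hQ]; positivity
  refine ⟨4 * D.CF * W + 1 + 2 * Q ^ 5, ?_, ?_⟩
  · have : 0 ≤ 4 * D.CF * W := by positivity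
    have : 0 ≤ 2 * Q ^ 5 := by positivity
    linarith
  intro A B Y hApp D1 D2 n1 a0 b0 hD1 hD1W hD2 hD2W
  have hY1 : (1 : ℝ) ≤ Y := by exact_mod_cast hApp.Y1
  have hB1 : (1 : ℝ) ≤ B := by exact_mod_cast hApp.B1
  have hD1r : (1 : ℝ) ≤ D1 := by exact_mod_cast hD1
  have hD2r : (1 : ℝ) ≤ D2 := by exact_mod_cast hD2
  have hD2W' : (D2 : ℝ) ≤ W * Y := by exact_mod_cast hD2W
  have hD1W' : (D1 : ℝ) ≤ W * Y := by exact_mod_cast hD1W
  obtain ⟨N, hN⟩ : ∃ N : ℕ, N = Y ^ 1000 := ⟨_, rfl⟩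
  have hNr : (N : ℝ) = (Y : ℝ) ^ 1000 := by rw [hN]; push_cast; rfl
  rw [← hN, ← hNr]
  have hN1 : (1 : ℝ) ≤ N := by rw [hNr]; exact one_le_pow₀ hY1
  have hP0 : (0 : ℝ) < (Y : ℝ) ^ 995 := by positivity
  have hP1 : (1 : ℝ) ≤ (Y : ℝ) ^ 995 := one_le_pow₀ hY1
  by_cases hcase : (Y : ℝ) < Q
  · -- trivial bound
    have hf : ∀ n : ℕ, 0 ≤ D.f n ∧ D.f n ≤ 1 := fun n => ⟨D.bump.nn _, D.bump.le1 _⟩
    have h1 : 0 ≤ ∑ n ∈ (Ioc N (2 * N)).filter (fun n : ℕ => ∃ s : ℤ, (n : ℤ) = n1 + D1 * s ∧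
        (D2 : ℤ) ∣ D.m n - (a0 + b0 * s)), D.f n := Finset.sum_nonneg fun n _ => (hf n).1
    have h2 : ∑ n ∈ (Ioc N (2 * N)).filter (fun n : ℕ => ∃ s : ℤ, (n : ℤ) = n1 + D1 * s ∧
        (D2 : ℤ) ∣ D.m n - (a0 + b0 * s)), D.f n ≤ N := by
      calc _ ≤ ∑ n ∈ (Ioc N (2 * N)).filter (fun n : ℕ => ∃ s : ℤ, (n : ℤ) = n1 + D1 * s ∧
        (D2 : ℤ) ∣ D.m n - (a0 + b0 * s)), (1 : ℝ) := Finset.sum_le_sum fun n _ => (hf n).2
        _ ≤ ∑ n ∈ Ioc N (2 * N), (1 : ℝ) := by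
            apply Finset.sum_le_sum_of_subset_of_nonneg (Finset.filter_subset _ _)
            intro _ _ _; norm_num
        _ = N := by
            rw [Finset.sum_const, Nat.card_Ioc, nsmul_eq_mul, mul_one]
            congr 1
            omega
    have h3 : 0 ≤ D.cF * (N : ℝ) / (D1 * D2) := by positivity
    have h4 : D.cF * (N : ℝ) / (D1 * D2) ≤ N := by
      rw [div_le_iff₀ (by positivity)]
      have : (1 : ℝ) ≤ D1 * D2 := by nlinarith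
      nlinarith
    have h5 : (N : ℝ) ≤ Q ^ 5 * (Y : ℝ) ^ 995 := by
      rw [hNr]
      have : (Y : ℝ) ^ 1000 = (Y : ℝ) ^ 5 * (Y : ℝ) ^ 995 := by rw [← pow_add]
      rw [this]
      apply mul_le_mul_of_nonneg_right _ hP0.le
      exact pow_le_pow_left₀ (by linarith) hcase.le 5
    rw [abs_le]
    have h6 : 0 ≤ (4 * D.CF * W + 1) * (Y : ℝ) ^ 995 := by positivity
    have h7 : 0 ≤ Q ^ 5 * (Y : ℝ) ^ 995 := by positivity
    constructor
    · nlinarith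
    · nlinarith
  · push Not at hcase
    -- main case
    obtain ⟨s0, s1, hs, hcard⟩ := G1_ico N D1 hD1 n1
    rw [G1_reindex D N D1 D2 hD1 hD2 n1 a0 b0 s0 s1 hs]
    -- the bound for `h D1`
    have hR : 0 < R := by
      by_contra hc
      push Not at hc
      have h1 := hApp.ge
      have h2 : (1 : ℝ) ≤ (Y : ℝ) ^ 1000 := one_le_pow₀ hY1
      have h3 : R * (B : ℝ) ^ 2 ≤ 0 := mul_nonpos_of_nonpos_of_nonneg hc (by positivity)
      linarith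
    have hBbig : 2 * (W : ℝ) * (Y : ℝ) ^ 11 ≤ B := by
      have h1 := hApp.ge
      have h2 : (2 * (W : ℝ) * (Y : ℝ) ^ 11) ^ 2 ≤ (B : ℝ) ^ 2 := by
        have h3 : R * (2 * (W : ℝ) * (Y : ℝ) ^ 11) ^ 2 ≤ R * (B : ℝ) ^ 2 := by
          calc R * (2 * (W : ℝ) * (Y : ℝ) ^ 11) ^ 2 = Q * (Y : ℝ) ^ 22 := by
                rw [hQ, abs_of_pos hR]; ring
            _ ≤ Y * (Y : ℝ) ^ 22 := mul_le_mul_of_nonneg_right hcase (by positivity)
            _ = (Y : ℝ) ^ 23 := by ring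
            _ ≤ (Y : ℝ) ^ 1000 := pow_le_pow_right₀ hY1 (by norm_num)
            _ ≤ _ := h1
        exact le_of_mul_le_mul_left h3 hR
      exact le_of_sq_le_sq h2 (by positivity)
    have hBle : (B : ℝ) ≤ (Y : ℝ) ^ 500 := by
      have h1 := hApp.le
      have h2 : (Y : ℝ) ^ 1000 = ((Y : ℝ) ^ 500) ^ 2 := by rw [← pow_mul]
      rw [h2] at h1
      exact le_of_sq_le_sq h1 (by positivity)
    have hH1 : 1 ≤ Y ^ 10 := Nat.one_le_pow _ _ hApp.Y1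
    have hE : ∀ h : ℕ, 1 ≤ h → h ≤ Y ^ 10 →
        ‖∑ t ∈ Ico s0 s1, (((fun _ : ℤ => (1 : ℝ)) t : ℝ) : ℂ) *
          ex (h * (fun s : ℤ => ((a0 : ℝ) + b0 * s - D.α * (n1 + D1 * s)) / D2) t)‖ ≤ D2 * B := by
      intro h hh1 hhH
      have hle : 2 * (h * D1) ≤ B := by
        have h1 : (h : ℝ) ≤ (Y : ℝ) ^ 10 := by exact_mod_cast hhH
        have h2 : 2 * ((h : ℝ) * D1) ≤ B := by
          calc 2 * ((h : ℝ) * D1) ≤ 2 * ((Y : ℝ) ^ 10 * (W * Y)) := by gcongr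
            _ = 2 * (W : ℝ) * (Y : ℝ) ^ 11 := by ring
            _ ≤ B := hBbig
        exact_mod_cast h2
      have hd := G1_dist A B h D1 D2 b0 D.α hApp.B1 hApp.cop hApp.app hh1 hD1 hD2 hle
      have hg := geomZ ((h : ℝ) * (a0 - D.α * n1) / D2) ((h : ℝ) * (b0 - D.α * D1) / D2)
        (1 / (2 * ((D2 : ℝ) * B))) (by positivity) hd s0 s1
      have he : 1 / (2 * (1 / (2 * ((D2 : ℝ) * B)))) = D2 * B := by
        field_simp
      rw [he] at hg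
      refine le_trans (le_of_eq ?_) hg
      congr 1
      apply Finset.sum_congr rfl
      intro s _
      simp only [Complex.ofReal_one, one_mul]
      congr 1
      ring
    have hmain := per_avg D.bump (D2 : ℝ) hD2r (Y ^ 10) hH1 (Ico s0 s1) (fun _ => (1 : ℝ)) (fun _ _ => by norm_num)
      (fun s : ℤ => ((a0 : ℝ) + b0 * s - D.α * (n1 + D1 * s)) / D2) (D2 * B) hE
    simp only [one_mul] at hmain
    obtain ⟨S, hS⟩ : ∃ S : ℝ, S = ∑ t ∈ Ico s0 s1, per D.F (D2 : ℝ) (((a0 : ℝ) + b0 * t - D.α * (n1 + D1 * t)) / D2) :=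
      ⟨_, rfl⟩
    rw [← hS] at hmain ⊢
    obtain ⟨cc, hcc⟩ : ∃ cc : ℝ, cc = ∑ _s ∈ Ico s0 s1, (1 : ℝ) := ⟨_, rfl⟩
    rw [← hcc] at hmain hcard
    have hcc2 : cc ≤ 2 * N := by
      have h1 := (abs_le.1 hcard).2
      have h2 : (N : ℝ) / D1 ≤ N := div_le_self (by linarith) hD1r
      linarith
    have hcc0 : 0 ≤ cc := by rw [hcc]; exact Finset.sum_nonneg fun _ _ => by norm_num
    -- the three errors
    have e1 : 2 * D.CF * ((Y ^ 10 : ℕ) : ℝ) * (D2 * B) ≤ 2 * D.CF * W * (Y : ℝ) ^ 995 := by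
      push_cast
      calc 2 * D.CF * (Y : ℝ) ^ 10 * (D2 * B) ≤ 2 * D.CF * (Y : ℝ) ^ 10 * ((W * Y) * (Y : ℝ) ^ 500) := by gcongr
        _ = 2 * D.CF * W * (Y : ℝ) ^ 511 := by ring
        _ ≤ 2 * D.CF * W * (Y : ℝ) ^ 995 := by
            apply mul_le_mul_of_nonneg_left _ (by positivity)
            exact pow_le_pow_right₀ hY1 (by norm_num)
    have e2 : D.CF * (D2 : ℝ) / ((Y ^ 10 : ℕ) : ℝ) * cc ≤ 2 * D.CF * W * (Y : ℝ) ^ 995 := by
      push_cast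
      have hY10 : (0 : ℝ) < (Y : ℝ) ^ 10 := by positivity
      calc D.CF * (D2 : ℝ) / (Y : ℝ) ^ 10 * cc ≤ D.CF * (W * Y) / (Y : ℝ) ^ 10 * (2 * N) := by gcongr
        _ = 2 * D.CF * W * (Y * (Y : ℝ) ^ 1000 / (Y : ℝ) ^ 10) := by rw [hNr]; ring
        _ = 2 * D.CF * W * (Y : ℝ) ^ 991 := by
            congr 1
            rw [div_eq_iff hY10.ne', ← pow_add, ← pow_succ']
        _ ≤ 2 * D.CF * W * (Y : ℝ) ^ 995 := by
            apply mul_le_mul_of_nonneg_left _ (by positivity)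
            exact pow_le_pow_right₀ hY1 (by norm_num)
    have e3 : |D.cF / D2 * cc - D.cF * N / (D1 * D2)| ≤ 1 := by
      have h1 : D.cF / D2 * cc - D.cF * N / (D1 * D2) = D.cF / D2 * (cc - N / D1) := by
        field_simp
      rw [h1, abs_mul]
      have h2 : |D.cF / (D2 : ℝ)| ≤ 1 := by
        rw [abs_of_nonneg (by positivity), div_le_one (by positivity)]
        linarith
      calc _ ≤ 1 * 1 := mul_le_mul h2 hcard (abs_nonneg _) (by norm_num)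
        _ = 1 := by norm_num
    have e4 : |S - D.cF * N / (D1 * D2)| ≤ |S - D.cF / D2 * cc| + |D.cF / D2 * cc - D.cF * N / (D1 * D2)| :=
      abs_sub_le _ _ _
    have h7 : 0 ≤ Q ^ 5 * (Y : ℝ) ^ 995 := by positivity
    calc |S - D.cF * N / (D1 * D2)| ≤ |S - D.cF / D2 * cc| + |D.cF / D2 * cc - D.cF * N / (D1 * D2)| := e4
      _ ≤ (2 * D.CF * W * (Y : ℝ) ^ 995 + 2 * D.CF * W * (Y : ℝ) ^ 995) + 1 := by linarith
      _ ≤ (4 * D.CF * W + 1 + 2 * Q ^ 5) * (Y : ℝ) ^ 995 := by nlinarith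

end Pool.Agent.LibFS14
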