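import Pool.Agent.LibFS14.Defs

/-!
Row G2 (MEDIUM). The divisibility conditions as arithmetic progressions.

PLAN. `W = primorial w`; `e = ∏ E`, `s' = ∏ S`: `W`, `e`, `s'` are pairwise coprime (primes of `E`, `S` are `> w`, `E`, `S` disjoint). For `p ∈ S`, `p ∤ u`: `p ∣ u m + v n` iff `m = c_p n` modulo `p` with `c_p = - v / u` modulo `p` (`i = t p`, `D.Cls.big`).
`n1`: `n1 = l x0` modulo `W`, `n1 = 0` modulo `e`. For `n = n1 + W e s`: the conditions on `m` are `m = l y0` modulo `W`, `m = 0` modulo `e`, `m = c_p n1 + c_p W e s` modulo `p ∈ S`; choose `a0`, `b0` by the Chinese remainder theorem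
(`a0 = l y0, 0, c_p n1`, `b0 = 0, 0, c_p W e` modulo `W`, `e`, `p`). `D2 = W e s'` divides `m - (a0 + b0 s)` iff `W`, `e` and all `p ∈ S` do.
-/

open Finset

namespace Pool.Agent.LibFS14

private theorem G2_crt2 (a b x y : ℤ) (h : IsCoprime a b) : ∃ z : ℤ, a ∣ z - x ∧ b ∣ z - y := by
  obtain ⟨r, s, hrs⟩ := h
  refine ⟨x * (s * b) + y * (r * a), ⟨(y - x) * r, ?_⟩, ⟨(x - y) * s, ?_⟩⟩
  · linear_combination x * hrs
  · linear_combination y * hrs

private theorem G2_cop_prod (a : ℤ) (S : Finset ℕ) (h : ∀ p ∈ S, IsCoprime a (p : ℤ)) :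
    IsCoprime a ((∏ p ∈ S, p : ℕ) : ℤ) := by
  rw [Nat.cast_prod]
  exact IsCoprime.prod_right h

private theorem G2_crtS (S : Finset ℕ) (hS : ∀ p ∈ S, p.Prime) (c : ℕ → ℤ) :
    ∃ z : ℤ, ∀ p ∈ S, (p : ℤ) ∣ z - c p := by
  classical
  induction S using Finset.induction_on with
  | empty => exact ⟨0, by simp⟩
  | insert q S hq ih =>
    obtain ⟨z, hz⟩ := ih fun p hp => hS p (Finset.mem_insert_of_mem hp)
    have hqp := hS q (Finset.mem_insert_self q S)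
    have hc : IsCoprime (q : ℤ) ((∏ p ∈ S, p : ℕ) : ℤ) := by
      apply G2_cop_prod
      intro p hp
      rw [Nat.isCoprime_iff_coprime]
      refine (Nat.coprime_primes hqp (hS p (Finset.mem_insert_of_mem hp))).2 ?_
      rintro rfl
      exact hq hp
    obtain ⟨y, hy1, hy2⟩ := G2_crt2 (q : ℤ) ((∏ p ∈ S, p : ℕ) : ℤ) (c q) z hc
    refine ⟨y, fun p hp => ?_⟩
    rcases Finset.mem_insert.1 hp with rfl | hp
    · exact hy1
    · have h1 : (p : ℤ) ∣ ((∏ p ∈ S, p : ℕ) : ℤ) := by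
        exact_mod_cast Finset.dvd_prod_of_mem (fun p : ℕ => p) hp
      have := dvd_add (h1.trans hy2) (hz p hp)
      simpa using this

private theorem G2_prod_dvd (S : Finset ℕ) (hS : ∀ p ∈ S, p.Prime) (x : ℤ) :
    ((∏ p ∈ S, p : ℕ) : ℤ) ∣ x ↔ ∀ p ∈ S, (p : ℤ) ∣ x := by
  constructor
  · intro h p hp
    have h1 : (p : ℤ) ∣ ((∏ p ∈ S, p : ℕ) : ℤ) := by
      exact_mod_cast Finset.dvd_prod_of_mem (fun p : ℕ => p) hp
    exact h1.trans h
  · intro h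
    rw [Nat.cast_prod]
    refine Finset.prod_dvd_of_coprime ?_ h
    intro p hp q hq hpq
    show IsCoprime (p : ℤ) (q : ℤ)
    rw [Nat.isCoprime_iff_coprime]
    exact (Nat.coprime_primes (hS p hp) (hS q hq)).2 hpq

private theorem G2_copW (w p : ℕ) (hp : p.Prime) (h : w < p) : IsCoprime ((primorial w : ℕ) : ℤ) (p : ℤ) := by
  rw [Nat.isCoprime_iff_coprime, Nat.coprime_comm, Nat.Prime.coprime_iff_not_dvd hp]
  intro hd
  unfold primorial at hd
  obtain ⟨q, hq, hpq⟩ := (Prime.dvd_finsetProd_iff hp.prime _).1 hd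
  simp only [Finset.mem_filter, Finset.mem_range] at hq
  have := (Nat.prime_dvd_prime_iff_eq hp hq.2).1 hpq
  omega

private theorem G2_mul_dvd {a b x : ℤ} (h : IsCoprime a b) : a * b ∣ x ↔ a ∣ x ∧ b ∣ x :=
  ⟨fun H => ⟨(Dvd.intro _ rfl).trans H, (Dvd.intro_left _ rfl).trans H⟩, fun H => h.mul_dvd H.1 H.2⟩

theorem to_ap {K : ℕ} (D : Data K) {w : ℕ} {x0 y0 : ℤ} (hC : D.Cls w x0 y0) (l : ℤ) (E S : Finset ℕ)
    (hE : ∀ p ∈ E, p.Prime ∧ w < p) (hS : ∀ p ∈ S, p.Prime ∧ w < p) (hES : Disjoint E S) (t : ℕ → Fin K) :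
    ∃ n1 a0 b0 : ℤ, ∀ n : ℕ, (D.inc w x0 y0 l n ∧ (∀ p ∈ E, (p : ℤ) ∣ n ∧ (p : ℤ) ∣ D.m n) ∧ ∀ p ∈ S, (p : ℤ) ∣ D.L (t p) n) ↔
      ∃ s : ℤ, (n : ℤ) = n1 + ((primorial w * ∏ p ∈ E, p : ℕ) : ℤ) * s ∧
        ((primorial w * (∏ p ∈ E, p) * ∏ p ∈ S, p : ℕ) : ℤ) ∣ D.m n - (a0 + b0 * s) := by
  classical
  set W : ℤ := ((primorial w : ℕ) : ℤ) with hW
  set e : ℤ := ((∏ p ∈ E, p : ℕ) : ℤ) with he
  set s' : ℤ := ((∏ p ∈ S, p : ℕ) : ℤ) with hs'
  have hEp : ∀ p ∈ E, p.Prime := fun p hp => (hE p hp).1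
  have hSp : ∀ p ∈ S, p.Prime := fun p hp => (hS p hp).1
  have hWe : IsCoprime W e := G2_cop_prod _ _ fun p hp => G2_copW w p (hE p hp).1 (hE p hp).2
  have hWs : IsCoprime W s' := G2_cop_prod _ _ fun p hp => G2_copW w p (hS p hp).1 (hS p hp).2
  have hes : IsCoprime e s' := by
    apply G2_cop_prod
    intro p hp
    rw [isCoprime_comm]
    apply G2_cop_prod
    intro q hq
    rw [Nat.isCoprime_iff_coprime]
    refine (Nat.coprime_primes (hSp p hp) (hEp q hq)).2 ?_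
    rintro rfl
    exact Finset.disjoint_left.1 hES hq hp
  have hWes : IsCoprime (W * e) s' := IsCoprime.mul_left hWs hes
  -- the residues
  have hcp : ∀ p ∈ S, ∃ c : ℤ, (p : ℤ) ∣ D.u (t p) * c + D.v (t p) := by
    intro p hp
    have h1 := (hC.big p (hS p hp).1 (hS p hp).2).1 (t p)
    have h2 : IsCoprime (p : ℤ) (D.u (t p)) := by
      rw [Prime.coprime_iff_not_dvd (Nat.prime_iff_prime_int.1 (hSp p hp))]
      exact h1
    obtain ⟨r, s, hrs⟩ := h2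
    refine ⟨-(s * D.v (t p)), ⟨r * D.v (t p), ?_⟩⟩
    linear_combination (-D.v (t p)) * hrs
  choose! c hc using hcp
  obtain ⟨n1, hn1W, hn1e⟩ := G2_crt2 W e (l * x0) 0 hWe
  obtain ⟨az, haz⟩ := G2_crtS S hSp fun p => c p * n1
  obtain ⟨bz, hbz⟩ := G2_crtS S hSp fun p => c p * (W * e)
  obtain ⟨a1, ha1W, ha1e⟩ := G2_crt2 W e (l * y0) 0 hWe
  obtain ⟨a0, ha0, ha0s⟩ := G2_crt2 (W * e) s' a1 az hWes
  obtain ⟨b0, hb0, hb0s⟩ := G2_crt2 (W * e) s' 0 bz hWes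
  rw [sub_zero] at hn1e ha1e hb0
  have ha0W : W ∣ a0 - l * y0 := by
    have := dvd_add ((Dvd.intro _ rfl : W ∣ W * e).trans ha0) ha1W
    simpa using this
  have ha0e : e ∣ a0 := by
    have := dvd_add ((Dvd.intro_left _ rfl : e ∣ W * e).trans ha0) ha1e
    simpa using this
  have hb0W : W ∣ b0 := (Dvd.intro _ rfl : W ∣ W * e).trans hb0
  have hb0e : e ∣ b0 := (Dvd.intro_left _ rfl : e ∣ W * e).trans hb0
  have ha0p : ∀ p ∈ S, (p : ℤ) ∣ a0 - c p * n1 := by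
    intro p hp
    have := dvd_add ((G2_prod_dvd S hSp _).1 ha0s p hp) (haz p hp)
    simpa using this
  have hb0p : ∀ p ∈ S, (p : ℤ) ∣ b0 - c p * (W * e) := by
    intro p hp
    have := dvd_add ((G2_prod_dvd S hSp _).1 hb0s p hp) (hbz p hp)
    simpa using this
  refine ⟨n1, a0, b0, fun n => ?_⟩
  have hcast1 : ((primorial w * ∏ p ∈ E, p : ℕ) : ℤ) = W * e := by rw [hW, he]; push_cast; ring
  have hcast2 : ((primorial w * (∏ p ∈ E, p) * ∏ p ∈ S, p : ℕ) : ℤ) = W * e * s' := by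
    rw [hW, he, hs']; push_cast; ring
  rw [hcast1, hcast2]
  have hpS : ∀ s : ℤ, (n : ℤ) = n1 + W * e * s → ∀ p ∈ S,
      ((p : ℤ) ∣ D.L (t p) n ↔ (p : ℤ) ∣ D.m n - (a0 + b0 * s)) := by
    intro s hs p hp
    have hu := (hC.big p (hS p hp).1 (hS p hp).2).1 (t p)
    have hpp := Nat.prime_iff_prime_int.1 (hSp p hp)
    have e1 : D.L (t p) n = D.u (t p) * (D.m n - (a0 + b0 * s)) + (D.u (t p) * ((a0 - c p * n1) + (b0 - c p * (W * e)) * s)
        + (D.u (t p) * c p + D.v (t p)) * n) := by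
      unfold Data.L
      rw [hs]
      ring
    have e2 : (p : ℤ) ∣ D.u (t p) * ((a0 - c p * n1) + (b0 - c p * (W * e)) * s)
        + (D.u (t p) * c p + D.v (t p)) * n :=
      dvd_add (Dvd.dvd.mul_left (dvd_add (ha0p p hp) ((hb0p p hp).mul_right s)) _) ((hc p hp).mul_right _)
    rw [e1, dvd_add_left e2]
    constructor
    · intro h
      exact (hpp.dvd_or_dvd h).resolve_left hu
    · intro h
      exact h.mul_left _
  constructor
  · rintro ⟨⟨hi1, hi2⟩, hi3, hi4⟩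
    have h1 : W ∣ (n : ℤ) - n1 := by
      have := dvd_sub hi1 hn1W
      simpa using this
    have h2 : e ∣ (n : ℤ) - n1 := dvd_sub ((G2_prod_dvd E hEp _).2 fun p hp => (hi3 p hp).1) hn1e
    obtain ⟨s, hs⟩ := (G2_mul_dvd hWe).2 ⟨h1, h2⟩
    have hn : (n : ℤ) = n1 + W * e * s := by linarith
    refine ⟨s, hn, ?_⟩
    rw [G2_mul_dvd hWes, G2_mul_dvd hWe]
    refine ⟨⟨?_, ?_⟩, ?_⟩
    · have : D.m n - (a0 + b0 * s) = (D.m n - l * y0) - (a0 - l * y0) - b0 * s := by ring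
      rw [this]
      exact dvd_sub (dvd_sub hi2 ha0W) (hb0W.mul_right s)
    · exact dvd_sub ((G2_prod_dvd E hEp _).2 fun p hp => (hi3 p hp).2) (dvd_add ha0e (hb0e.mul_right s))
    · exact (G2_prod_dvd S hSp _).2 fun p hp => (hpS s hn p hp).1 (hi4 p hp)
  · rintro ⟨s, hn, hd⟩
    rw [G2_mul_dvd hWes, G2_mul_dvd hWe] at hd
    obtain ⟨⟨hd1, hd2⟩, hd3⟩ := hd
    refine ⟨⟨?_, ?_⟩, ?_, ?_⟩
    · have : (n : ℤ) - l * x0 = (n1 - l * x0) + W * (e * s) := by rw [hn]; ring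
      rw [this]
      exact dvd_add hn1W (Dvd.intro _ rfl)
    · have : D.m n - l * y0 = (D.m n - (a0 + b0 * s)) + (a0 - l * y0) + b0 * s := by ring
      rw [this]
      exact dvd_add (dvd_add hd1 ha0W) (hb0W.mul_right s)
    · intro p hp
      constructor
      · have : e ∣ (n : ℤ) := by
          rw [hn]
          exact dvd_add hn1e ((Dvd.intro_left _ rfl : e ∣ W * e).mul_right s)
        exact (G2_prod_dvd E hEp _).1 this p hp
      · have : e ∣ D.m n := by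
          have h := dvd_add hd2 (dvd_add ha0e (hb0e.mul_right s))
          simpa using h
        exact (G2_prod_dvd E hEp _).1 this p hp
    · intro p hp
      exact (hpS s hn p hp).2 ((G2_prod_dvd S hSp _).1 hd3 p hp)

end Pool.Agent.LibFS14
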