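import Pool.Agent.LibFS14.G1
import Pool.Agent.LibFS14.G2

/-!
Row G3 (SHORT/MEDIUM). Counts over `TT` with divisibility conditions.

PLAN. `TT` is the disjoint union over the `l ∈ range W` prime to `W = primorial w` of the `n` with `D.inc w x0 y0 l n` (`l` depends only on its class modulo `W`; different classes give disjoint sets: for `p ∣ W` not both `x0` and `y0` are divisible by `p`
(`D.Cls.cop`), so `l (x0, y0) = l' (x0, y0)` modulo `p` gives `l = l'` modulo `p`; `W` is squarefree). There are `φ(W)` classes (`Nat.totient`). For each class: `to_ap` and `count` with `D1 = W e`, `D2 = W e s'`, `D1 D2 = W ^ 2 e ^ 2 s'`.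
Error `φ(W) C Y ^ 995`. `K ≥ 1` is only needed for the function `t`.
-/

open Finset

namespace Pool.Agent.LibFS14

private theorem G3_cop {K : ℕ} (D : Data K) {w : ℕ} {x0 y0 : ℤ} (hC : D.Cls w x0 y0) (i : Fin K) :
    IsCoprime (D.u i * y0 + D.v i * x0) (primorial w : ℤ) := by
  rw [Int.isCoprime_iff_gcd_eq_one]
  by_contra hcon
  obtain ⟨p, hp, hpd⟩ := Nat.exists_prime_and_dvd hcon
  have h1 : (p : ℤ) ∣ D.u i * y0 + D.v i * x0 :=
    dvd_trans (Int.natCast_dvd_natCast.2 hpd) (Int.gcd_dvd_left _ _)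
  have h2 : (p : ℤ) ∣ (primorial w : ℤ) :=
    dvd_trans (Int.natCast_dvd_natCast.2 hpd) (Int.gcd_dvd_right _ _)
  have h3 : p ∣ primorial w := Int.natCast_dvd_natCast.1 h2
  exact hC.cop p hp (hp.dvd_primorial_iff.1 h3) i h1

private theorem G3_uniq {K : ℕ} (D : Data K) {w : ℕ} {x0 y0 : ℤ} (hC : D.Cls w x0 y0) (i : Fin K) {l l' : ℤ}
    {n : ℕ} (h : D.inc w x0 y0 l n) (h' : D.inc w x0 y0 l' n) : (primorial w : ℤ) ∣ l - l' := by
  have h1 : (primorial w : ℤ) ∣ (l - l') * x0 := by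
    have h2 := dvd_sub h'.1 h.1
    have h3 : (n : ℤ) - l' * x0 - (n - l * x0) = (l - l') * x0 := by ring
    rwa [h3] at h2
  have h2 : (primorial w : ℤ) ∣ (l - l') * y0 := by
    have h2 := dvd_sub h'.2 h.2
    have h3 : D.m n - l' * y0 - (D.m n - l * y0) = (l - l') * y0 := by ring
    rwa [h3] at h2
  have h3 : (primorial w : ℤ) ∣ (l - l') * (D.u i * y0 + D.v i * x0) := by
    have h4 := dvd_add (dvd_mul_of_dvd_right h2 (D.u i)) (dvd_mul_of_dvd_right h1 (D.v i))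
    have h5 : D.u i * ((l - l') * y0) + D.v i * ((l - l') * x0) =
        (l - l') * (D.u i * y0 + D.v i * x0) := by ring
    rwa [h5] at h4
  exact (G3_cop D hC i).symm.dvd_of_dvd_mul_right h3

private theorem G3_shift {K : ℕ} (D : Data K) {w : ℕ} {x0 y0 : ℤ} {l l' : ℤ} {n : ℕ}
    (h : D.inc w x0 y0 l n) (hl : (primorial w : ℤ) ∣ l - l') : D.inc w x0 y0 l' n := by
  refine ⟨?_, ?_⟩
  · have h1 := dvd_add h.1 (dvd_mul_of_dvd_left hl x0)
    have h2 : (n : ℤ) - l * x0 + (l - l') * x0 = n - l' * x0 := by ring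
    rwa [h2] at h1
  · have h1 := dvd_add h.2 (dvd_mul_of_dvd_left hl y0)
    have h2 : D.m n - l * y0 + (l - l') * y0 = D.m n - l' * y0 := by ring
    rwa [h2] at h1

private theorem G3_U (w : ℕ) : ∃ U : Finset ℕ, (∀ a, a ∈ U ↔ a < primorial w ∧ (primorial w).Coprime a) ∧
    U.card = (primorial w).totient := by
  refine ⟨(range (primorial w)).filter (fun a => (primorial w).Coprime a), ?_, ?_⟩
  · intro a
    rw [mem_filter, mem_range]
  · rw [Nat.totient_eq_card_coprime]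

private theorem G3_sum {K : ℕ} (D : Data K) {w : ℕ} {x0 y0 : ℤ} (hC : D.Cls w x0 y0) (i : Fin K) (N : ℕ)
    (P : ℕ → Prop) [DecidablePred P] (Q : ℕ → ℕ → Prop) [∀ l, DecidablePred (Q l)]
    (hQ : ∀ l n, Q l n ↔ D.inc w x0 y0 (l : ℤ) n ∧ P n) (U : Finset ℕ)
    (hU : ∀ a, a ∈ U ↔ a < primorial w ∧ (primorial w).Coprime a) :
    ∑ n ∈ (D.TT w x0 y0 N).filter P, D.f n =
      ∑ l ∈ U, ∑ n ∈ (Ioc N (2 * N)).filter (Q l), D.f n := by
  have hW : (0 : ℤ) < (primorial w : ℤ) := by exact_mod_cast primorial_pos w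
  rw [← Finset.sum_biUnion]
  · apply Finset.sum_congr _ (fun _ _ => rfl)
    ext n
    simp only [Data.TT, mem_filter, mem_biUnion, hU, hQ]
    constructor
    · rintro ⟨⟨hn, l, hl, hinc⟩, hP⟩
      have h0 : 0 ≤ l % (primorial w : ℤ) := Int.emod_nonneg _ hW.ne'
      have h1 : l % (primorial w : ℤ) < (primorial w : ℤ) := Int.emod_lt_of_pos _ hW
      obtain ⟨a, ha⟩ := Int.eq_ofNat_of_zero_le h0
      have hdvd : (primorial w : ℤ) ∣ l - (a : ℤ) := by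
        rw [← ha]
        exact Int.dvd_self_sub_emod
      refine ⟨a, ⟨?_, ?_⟩, hn, G3_shift D hinc hdvd, hP⟩
      · rw [ha] at h1
        exact_mod_cast h1
      · obtain ⟨c, hc⟩ := hdvd
        have h2 : l = (a : ℤ) + (primorial w : ℤ) * c := by linear_combination hc
        rw [h2] at hl
        have h3 : IsCoprime (a : ℤ) (primorial w : ℤ) := by
          exact IsCoprime.of_add_mul_left_left hl
        exact (Nat.isCoprime_iff_coprime.1 h3).symm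
    · rintro ⟨a, ⟨ha1, ha2⟩, hn, hinc, hP⟩
      exact ⟨⟨hn, (a : ℤ), Nat.isCoprime_iff_coprime.2 ha2.symm, hinc⟩, hP⟩
  · intro a ha b hb hab
    rw [Function.onFun, Finset.disjoint_left]
    intro n hn hn'
    rw [mem_filter, hQ] at hn hn'
    apply hab
    have h1 := G3_uniq D hC i hn.2.1 hn'.2.1
    have ha' : a < primorial w := ((hU a).1 (Finset.mem_coe.1 ha)).1
    have hb' : b < primorial w := ((hU b).1 (Finset.mem_coe.1 hb)).1
    have h3 : (a : ℤ) - b = 0 := by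
      apply Int.eq_zero_of_abs_lt_dvd h1
      rw [abs_lt]
      constructor <;> omega
    omega

open scoped Classical in
theorem count_TT {K : ℕ} (D : Data K) (R : ℝ) {w : ℕ} {x0 y0 : ℤ} (hC : D.Cls w x0 y0) : ∃ C : ℝ, 1 ≤ C ∧
    ∀ (A : ℤ) (B Y : ℕ), D.App R A B Y → ∀ (E S : Finset ℕ) (t : ℕ → Fin K), (∀ p ∈ E, p.Prime ∧ w < p) →
    (∀ p ∈ S, p.Prime ∧ w < p) → Disjoint E S → (∏ p ∈ E, p) * ∏ p ∈ S, p ≤ Y →
    |∑ n ∈ (D.TT w x0 y0 (Y ^ 1000)).filter (fun n : ℕ => (∀ p ∈ E, (p : ℤ) ∣ n ∧ (p : ℤ) ∣ D.m n) ∧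
        ∀ p ∈ S, (p : ℤ) ∣ D.L (t p) n), D.f n -
      D.X0 w (Y ^ 1000) * ((∏ p ∈ E, 1 / (p : ℝ) ^ 2) * ∏ p ∈ S, 1 / (p : ℝ))| ≤ C * (Y : ℝ) ^ 996 := by
  obtain ⟨C, hC1, hcount⟩ := count D R (primorial w) (primorial_pos w)
  have hW : 0 < primorial w := primorial_pos w
  have hphi : 1 ≤ (primorial w).totient := Nat.totient_pos.2 hW
  have hphi' : (1 : ℝ) ≤ ((primorial w).totient : ℝ) := by exact_mod_cast hphi
  refine ⟨((primorial w).totient : ℝ) * C, ?_, ?_⟩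
  · nlinarith
  intro A B Y hApp E S t hE hS hES hle
  have hY1 : 1 ≤ Y := hApp.Y1
  have hY1' : (1 : ℝ) ≤ (Y : ℝ) := by exact_mod_cast hY1
  set e : ℕ := ∏ p ∈ E, p with he
  set s' : ℕ := ∏ p ∈ S, p with hs'
  have he1 : 1 ≤ e := Nat.pos_of_ne_zero (Finset.prod_ne_zero_iff.2 fun p hp => (hE p hp).1.ne_zero)
  have hs1 : 1 ≤ s' := Nat.pos_of_ne_zero (Finset.prod_ne_zero_iff.2 fun p hp => (hS p hp).1.ne_zero)
  obtain ⟨U, hU, hUc⟩ := G3_U w
  rw [G3_sum D hC (t 0) (Y ^ 1000) _ (fun l n => D.inc w x0 y0 (l : ℤ) n ∧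
    ((∀ p ∈ E, (p : ℤ) ∣ n ∧ (p : ℤ) ∣ D.m n) ∧ ∀ p ∈ S, (p : ℤ) ∣ D.L (t p) n)) (fun _ _ => Iff.rfl) U hU]
  have hD1a : 1 ≤ primorial w * e := Nat.mul_pos hW he1
  have hD2a : 1 ≤ primorial w * e * s' := Nat.mul_pos hD1a hs1
  have hD2b : primorial w * e * s' ≤ primorial w * Y := by
    rw [mul_assoc]
    exact Nat.mul_le_mul_left _ hle
  have hD1b : primorial w * e ≤ primorial w * Y :=
    le_trans (Nat.le_mul_of_pos_right _ hs1) hD2b
  -- one class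
  have hone : ∀ l ∈ U,
      |∑ n ∈ (Ioc (Y ^ 1000) (2 * Y ^ 1000)).filter (fun n : ℕ => D.inc w x0 y0 (l : ℤ) n ∧
        ((∀ p ∈ E, (p : ℤ) ∣ n ∧ (p : ℤ) ∣ D.m n) ∧ ∀ p ∈ S, (p : ℤ) ∣ D.L (t p) n)), D.f n -
        D.cF * (Y : ℝ) ^ 1000 / (((primorial w * e : ℕ) : ℝ) * ((primorial w * e * s' : ℕ) : ℝ))| ≤
        C * (Y : ℝ) ^ 995 := by
    intro l _
    obtain ⟨n1, a0, b0, hiff⟩ := to_ap D hC (l : ℤ) E S hE hS hES t
    have h1 := hcount A B Y hApp (primorial w * e) (primorial w * e * s') n1 a0 b0 hD1a hD1b hD2a hD2b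
    have h2 : (Ioc (Y ^ 1000) (2 * Y ^ 1000)).filter (fun n : ℕ => D.inc w x0 y0 (l : ℤ) n ∧
        ((∀ p ∈ E, (p : ℤ) ∣ n ∧ (p : ℤ) ∣ D.m n) ∧ ∀ p ∈ S, (p : ℤ) ∣ D.L (t p) n)) =
        (Ioc (Y ^ 1000) (2 * Y ^ 1000)).filter (fun n : ℕ => ∃ s : ℤ,
          (n : ℤ) = n1 + ((primorial w * e : ℕ) : ℤ) * s ∧
          ((primorial w * e * s' : ℕ) : ℤ) ∣ D.m n - (a0 + b0 * s)) := by
      apply Finset.filter_congr
      intro n _
      exact hiff n
    rw [h2]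
    exact h1
  -- the sum over the classes
  have hmain : D.X0 w (Y ^ 1000) * ((∏ p ∈ E, 1 / (p : ℝ) ^ 2) * ∏ p ∈ S, 1 / (p : ℝ)) =
      ∑ _l ∈ U,
        D.cF * (Y : ℝ) ^ 1000 / (((primorial w * e : ℕ) : ℝ) * ((primorial w * e * s' : ℕ) : ℝ)) := by
    rw [Finset.sum_const, hUc, nsmul_eq_mul]
    have e1 : ∏ p ∈ E, 1 / (p : ℝ) ^ 2 = 1 / (e : ℝ) ^ 2 := by
      rw [Finset.prod_div_distrib, Finset.prod_const_one, he, Nat.cast_prod, Finset.prod_pow]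
    have e2 : ∏ p ∈ S, 1 / (p : ℝ) = 1 / (s' : ℝ) := by
      rw [Finset.prod_div_distrib, Finset.prod_const_one, hs', Nat.cast_prod]
    rw [e1, e2]
    unfold Data.X0
    have hW' : (primorial w : ℝ) ≠ 0 := by exact_mod_cast hW.ne'
    have he' : (e : ℝ) ≠ 0 := by exact_mod_cast (by omega : e ≠ 0)
    have hs'' : (s' : ℝ) ≠ 0 := by exact_mod_cast (by omega : s' ≠ 0)
    push_cast
    field_simp
  rw [hmain, ← Finset.sum_sub_distrib]
  refine le_trans (Finset.abs_sum_le_sum_abs _ _) ?_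
  refine le_trans (Finset.sum_le_sum hone) ?_
  rw [Finset.sum_const, hUc, nsmul_eq_mul, mul_assoc]
  apply mul_le_mul_of_nonneg_left _ (by linarith)
  apply mul_le_mul_of_nonneg_left _ (by linarith)
  exact pow_le_pow_right₀ hY1' (by norm_num)

end Pool.Agent.LibFS14
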