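import Pool.Agent.LibFS14.G3

/-!
Row G4 (SHORT/MEDIUM). The distribution of all points.

PLAN. If `p ∣ n` and `p ∣ D.m n` then `p ∣ D.L i n`, so `[hit] = [p ∣ L] - [p ∣ n, p ∣ m]` and `∏_{p ∈ S} [hit p (t p) n] = ∑_{E ⊆ S} (-1) ^ card E [gcd condition on E] [p ∣ L (t p) n on S \ E]` (`Finset.prod_sub` or `Finset.prod_add`). `count_TT` for every `E`
(`∏ E * ∏ (S \ E) = ∏ S ≤ Y`); main terms: `∑_E (-1) ^ card E ∏_E 1/p^2 ∏_{S \ E} 1/p = ∏_S (1/p - 1/p^2)`; there are `2 ^ card S ≤ ∏ S ≤ Y` sets `E`: error `Y * C Y ^ 996`.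
-/

open Finset

namespace Pool.Agent.LibFS14

open scoped Classical in
theorem dist0 {K : ℕ} (D : Data K) (R : ℝ) {w : ℕ} {x0 y0 : ℤ} (hC : D.Cls w x0 y0) : ∃ C : ℝ, 1 ≤ C ∧
    ∀ (A : ℤ) (B Y : ℕ), D.App R A B Y → ∀ (S : Finset ℕ) (t : ℕ → Fin K), (∀ p ∈ S, p.Prime ∧ w < p) → ∏ p ∈ S, p ≤ Y →
    |∑ n ∈ (D.TT w x0 y0 (Y ^ 1000)).filter (fun n : ℕ => ∀ p ∈ S, D.hit p (t p) n), D.f n -
      D.X0 w (Y ^ 1000) * ∏ p ∈ S, (1 / (p : ℝ) - 1 / (p : ℝ) ^ 2)| ≤ C * (Y : ℝ) ^ 997 := by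
  obtain ⟨C, hC1, hcount⟩ := count_TT D R hC
  refine ⟨C, hC1, fun A B Y hApp S t hS hY => ?_⟩
  set T := D.TT w x0 y0 (Y ^ 1000) with hT
  have hY1 : (1 : ℝ) ≤ Y := by exact_mod_cast hApp.Y1
  -- indicators
  have hind : ∀ n : ℕ, (if ∀ p ∈ S, D.hit p (t p) n then D.f n else 0) =
      ∑ E ∈ S.powerset, (-1 : ℝ) ^ E.card *
        (if (∀ p ∈ E, (p : ℤ) ∣ n ∧ (p : ℤ) ∣ D.m n) ∧ ∀ p ∈ S \ E, (p : ℤ) ∣ D.L (t p) n
          then D.f n else 0) := by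
    intro n
    have h1 : ∏ p ∈ S, (if D.hit p (t p) n then (1 : ℝ) else 0) =
        ∏ p ∈ S, ((if (p : ℤ) ∣ D.L (t p) n then (1 : ℝ) else 0) -
          (if (p : ℤ) ∣ n ∧ (p : ℤ) ∣ D.m n then (1 : ℝ) else 0)) := by
      apply Finset.prod_congr rfl
      intro p _
      unfold Data.hit
      by_cases hb : (p : ℤ) ∣ n ∧ (p : ℤ) ∣ D.m n
      · have ha : (p : ℤ) ∣ D.L (t p) n := by
          unfold Data.L
          exact dvd_add (dvd_mul_of_dvd_right hb.2 _) (dvd_mul_of_dvd_right hb.1 _)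
        simp only [hb, ha, and_self, not_true_eq_false, and_false, if_true, if_false, sub_self]
      · by_cases ha : (p : ℤ) ∣ D.L (t p) n
        · simp only [hb, ha, not_false_eq_true, and_self, if_true, if_false, sub_zero]
        · simp only [hb, ha, not_false_eq_true, and_true, if_false, sub_zero]
    have h2 : (if ∀ p ∈ S, D.hit p (t p) n then D.f n else 0) =
        (∏ p ∈ S, (if D.hit p (t p) n then (1 : ℝ) else 0)) * D.f n := by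
      rw [Finset.prod_ite_zero, Finset.prod_const_one]
      split_ifs <;> simp
    rw [h2, h1, Finset.prod_sub, Finset.sum_mul]
    apply Finset.sum_congr rfl
    intro E _
    rw [Finset.prod_ite_zero, Finset.prod_ite_zero, Finset.prod_const_one, Finset.prod_const_one]
    by_cases h3 : ∀ p ∈ E, (p : ℤ) ∣ n ∧ (p : ℤ) ∣ D.m n
    · by_cases h4 : ∀ p ∈ S \ E, (p : ℤ) ∣ D.L (t p) n
      · rw [if_pos h3, if_pos h4, if_pos ⟨h3, h4⟩]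
        ring
      · rw [if_pos h3, if_neg h4, if_neg (fun h => h4 h.2)]
        ring
    · rw [if_neg h3, if_neg (c := (∀ p ∈ E, (p : ℤ) ∣ n ∧ (p : ℤ) ∣ D.m n) ∧
        ∀ p ∈ S \ E, (p : ℤ) ∣ D.L (t p) n) (fun h => h3 h.1)]
      ring
  have hsum : ∑ n ∈ T.filter (fun n : ℕ => ∀ p ∈ S, D.hit p (t p) n), D.f n =
      ∑ E ∈ S.powerset, (-1 : ℝ) ^ E.card *
        ∑ n ∈ T.filter (fun n : ℕ => (∀ p ∈ E, (p : ℤ) ∣ n ∧ (p : ℤ) ∣ D.m n) ∧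
          ∀ p ∈ S \ E, (p : ℤ) ∣ D.L (t p) n), D.f n := by
    rw [Finset.sum_filter, Finset.sum_congr rfl (fun n _ => hind n), Finset.sum_comm]
    apply Finset.sum_congr rfl
    intro E _
    rw [← Finset.mul_sum, Finset.sum_filter]
  have hmain : D.X0 w (Y ^ 1000) * ∏ p ∈ S, (1 / (p : ℝ) - 1 / (p : ℝ) ^ 2) =
      ∑ E ∈ S.powerset, (-1 : ℝ) ^ E.card *
        (D.X0 w (Y ^ 1000) * ((∏ p ∈ E, 1 / (p : ℝ) ^ 2) * ∏ p ∈ S \ E, 1 / (p : ℝ))) := by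
    rw [Finset.prod_sub, Finset.mul_sum]
    apply Finset.sum_congr rfl
    intro E _
    ring
  rw [hsum, hmain, ← Finset.sum_sub_distrib]
  have hcard : (2 : ℝ) ^ S.card ≤ Y := by
    have h1 : 2 ^ S.card ≤ ∏ p ∈ S, p := Finset.pow_card_le_prod S _ 2 (fun p hp => (hS p hp).1.two_le)
    exact_mod_cast h1.trans hY
  calc |∑ E ∈ S.powerset, ((-1 : ℝ) ^ E.card *
        ∑ n ∈ T.filter (fun n : ℕ => (∀ p ∈ E, (p : ℤ) ∣ n ∧ (p : ℤ) ∣ D.m n) ∧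
          ∀ p ∈ S \ E, (p : ℤ) ∣ D.L (t p) n), D.f n - (-1 : ℝ) ^ E.card *
        (D.X0 w (Y ^ 1000) * ((∏ p ∈ E, 1 / (p : ℝ) ^ 2) * ∏ p ∈ S \ E, 1 / (p : ℝ))))|
      ≤ ∑ E ∈ S.powerset, |(-1 : ℝ) ^ E.card *
        ∑ n ∈ T.filter (fun n : ℕ => (∀ p ∈ E, (p : ℤ) ∣ n ∧ (p : ℤ) ∣ D.m n) ∧
          ∀ p ∈ S \ E, (p : ℤ) ∣ D.L (t p) n), D.f n - (-1 : ℝ) ^ E.card *
        (D.X0 w (Y ^ 1000) * ((∏ p ∈ E, 1 / (p : ℝ) ^ 2) * ∏ p ∈ S \ E, 1 / (p : ℝ)))| :=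
        Finset.abs_sum_le_sum_abs _ _
    _ ≤ ∑ E ∈ S.powerset, C * (Y : ℝ) ^ 996 := by
        apply Finset.sum_le_sum
        intro E hE
        have hES : E ⊆ S := Finset.mem_powerset.1 hE
        rw [← mul_sub, abs_mul, abs_pow, abs_neg, abs_one, one_pow, one_mul]
        apply hcount A B Y hApp E (S \ E) t (fun p hp => hS p (hES hp))
          (fun p hp => hS p (Finset.sdiff_subset hp)) Finset.disjoint_sdiff
        rw [mul_comm, Finset.prod_sdiff hES]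
        exact hY
    _ = (2 : ℝ) ^ S.card * (C * (Y : ℝ) ^ 996) := by
        rw [Finset.sum_const, Finset.card_powerset, nsmul_eq_mul]
        push_cast
        ring
    _ ≤ Y * (C * (Y : ℝ) ^ 996) := by
        apply mul_le_mul_of_nonneg_right hcard
        positivity
    _ = C * (Y : ℝ) ^ 997 := by ring

end Pool.Agent.LibFS14
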