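import Pool.Agent.LibFS14.Defs

/-!
Row H1 (STRONG). The points with `L i = q` prime.

PLAN. `u = D.u i`, `v = D.v i`, `W = primorial w`, `D' = W ∏ S`. `u`, `v` are coprime (`sys.adm`: a common prime factor would divide all values). Choose `(x, y)` with `u y + v x = 1` and: modulo `W` the vector `(x, y)` is a multiple of `(x0, y0)`;
modulo `p ∈ S` it is in the kernel of the form `t p`: start with any solution `(x1, y1)` of `u y + v x = 1`; all solutions are `(x1 + k u, y1 - k v)`; modulo `p ∈ S`: `L_j (x1 + k u, y1 - k v) = L_j (x1, y1) + k (u v_j - u_j v)`, solvable for `k` as `p ∤ det`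
(`j = t p ≠ i`); modulo `p ∣ W`: want `x y0 = y x0` modulo `p`: `x1 y0 - y1 x0 + k (u y0 + v x0)`, solvable as `p ∤ u y0 + v x0`; CRT for `k`.
Identity: let `q ∈ Rg i N` with `q > p` for `p ∈ S`, `q > w` (both follow from `hq`). For every `k : ℤ` the point `n = q x + k D' u`, `m = q y - k D' v` has `u m + v n = q`, `m - α n = q (y - α x) - k D' ρ`, and `D.F (m - α n) ≠ 0` implies `m = D.m n`,
`n ∈ (N, 2 N]` (`n = (q - u (m - α n)) / ρ` and the range of `q`; in particular `n ≥ 0`), all conditions (`inc` with `l = q μ`, `(x, y) = μ (x0, y0)` modulo `W`, prime to `W`; `hit`: `p ∣ L_j` and `p ∤ gcd` because `gcd ∣ q`). Conversely every `n` of the left side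
is of this form: `(n, m) - q (x, y)` is in the kernel of `L i`, so `= k' (u, -v)` (`u`, `v` coprime), and `D' ∣ k'` by the conditions modulo `p ∈ S` (`k' (u v_j - u_j v) = 0`) and modulo `p ∣ W` (`(n, m)` and `q (x, y)` are both multiples of `(x0, y0)` with the
same value of `L i`). So the left side is `∑' k, D.F (q (y - α x) - k D' ρ) = per D.F (D' ρ) (q (y - α x) / (D' ρ))` (finitely many `k` with nonzero terms, `n ↦ k` injective because `u D' ≠ 0`).
-/

open Finset

namespace Pool.Agent.LibFS14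

private theorem H1_crt (P : Finset ℕ) (hP : ∀ p ∈ P, p.Prime) (r : ℕ → ℤ) :
    ∃ k : ℤ, ∀ p ∈ P, (p : ℤ) ∣ k - r p := by
  classical
  induction P using Finset.induction_on with
  | empty => exact ⟨0, fun p hp => absurd hp (Finset.notMem_empty p)⟩
  | insert a P ha ih =>
    obtain ⟨k0, hk0⟩ := ih fun p hp => hP p (Finset.mem_insert_of_mem hp)
    have hcop : IsCoprime ((∏ p ∈ P, p : ℕ) : ℤ) (a : ℤ) := by
      rw [Nat.isCoprime_iff_coprime]
      apply Nat.Coprime.prod_left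
      intro p hp
      rw [Nat.coprime_primes (hP p (Finset.mem_insert_of_mem hp)) (hP a (Finset.mem_insert_self a P))]
      rintro rfl
      exact ha hp
    obtain ⟨s, b, hsb⟩ := hcop
    refine ⟨k0 + (s * (r a - k0)) * ((∏ p ∈ P, p : ℕ) : ℤ), ?_⟩
    intro p hp
    rcases Finset.mem_insert.1 hp with rfl | hp
    · exact ⟨(k0 - r p) * b, by linear_combination (-(k0 - r p)) * hsb⟩
    · have h1 : (p : ℤ) ∣ ((∏ p ∈ P, p : ℕ) : ℤ) :=
        Int.natCast_dvd_natCast.2 (Finset.dvd_prod_of_mem _ hp)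
      have h2 : k0 + (s * (r a - k0)) * ((∏ p ∈ P, p : ℕ) : ℤ) - r p =
          (k0 - r p) + (s * (r a - k0)) * ((∏ p ∈ P, p : ℕ) : ℤ) := by ring
      rw [h2]
      exact dvd_add (hk0 p hp) (Dvd.dvd.mul_left h1 _)

private theorem H1_prime_cop {p : ℕ} (hp : p.Prime) {c : ℤ} (hc : ¬ (p : ℤ) ∣ c) :
    IsCoprime (p : ℤ) c :=
  (Nat.prime_iff_prime_int.1 hp).irreducible.coprime_iff_not_dvd.2 hc

private theorem H1_solve {p : ℕ} (hp : p.Prime) {c : ℤ} (hc : ¬ (p : ℤ) ∣ c) (a0 : ℤ) :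
    ∃ r : ℤ, (p : ℤ) ∣ a0 + r * c := by
  obtain ⟨s, b, hsb⟩ := H1_prime_cop hp hc
  exact ⟨- a0 * b, a0 * s, by linear_combination (-a0) * hsb⟩

private theorem H1_prod_dvd (P : Finset ℕ) (hP : ∀ p ∈ P, p.Prime) (z : ℤ)
    (h : ∀ p ∈ P, (p : ℤ) ∣ z) : ((∏ p ∈ P, p : ℕ) : ℤ) ∣ z := by
  rw [Int.natCast_dvd]
  exact Finset.prod_primes_dvd _ (fun p hp => (hP p hp).prime) fun p hp => Int.natCast_dvd.1 (h p hp)

open scoped Classical in
theorem prime_pts {K : ℕ} (D : Data K) {w : ℕ} {x0 y0 : ℤ} (hC : D.Cls w x0 y0) (i : Fin K) (S : Finset ℕ) (t : ℕ → Fin K)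
    (hS : ∀ p ∈ S, p.Prime ∧ w < p ∧ t p ≠ i) :
    ∃ x y : ℤ, D.u i * y + D.v i * x = 1 ∧ ∀ N q : ℕ, q ∈ D.Rg i N → (∀ p ∈ S, p < q) → w < q →
      ∑ n ∈ (D.TT w x0 y0 N).filter (fun n : ℕ => D.L i n = q ∧ ∀ p ∈ S, D.hit p (t p) n), D.f n =
        per D.F ((primorial w * ∏ p ∈ S, p : ℕ) * D.rho i)
          (q * ((y - D.α * x) / ((primorial w * ∏ p ∈ S, p : ℕ) * D.rho i))) := by
  have hu0 : D.u i ≠ 0 := D.sys.u0 i
  have hρ : 0 < D.rho i := D.sys.pos i
  -- coprimality
  have hcop : IsCoprime (D.u i) (D.v i) := by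
    rw [Int.isCoprime_iff_gcd_eq_one]
    by_contra hg
    obtain ⟨p, hp, hpg⟩ := Nat.exists_prime_and_dvd hg
    obtain ⟨x, y, hxy⟩ := D.sys.adm p hp
    apply hxy i
    have h1 : (p : ℤ) ∣ D.u i := (Int.natCast_dvd_natCast.2 hpg).trans (Int.gcd_dvd_left ..)
    have h2 : (p : ℤ) ∣ D.v i := (Int.natCast_dvd_natCast.2 hpg).trans (Int.gcd_dvd_right ..)
    exact dvd_add (Dvd.dvd.mul_right h1 _) (Dvd.dvd.mul_right h2 _)
  obtain ⟨y1, x1, hxy1⟩ := hcop
  set P0 : Finset ℕ := (range (w + 1)).filter Nat.Prime with hP0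
  have hprim : primorial w = ∏ p ∈ P0, p := rfl
  have hP0mem : ∀ p, p ∈ P0 ↔ p ≤ w ∧ p.Prime := by
    intro p
    rw [hP0, Finset.mem_filter, Finset.mem_range, Nat.lt_succ_iff]
  have hdisj : Disjoint P0 S := by
    rw [Finset.disjoint_left]
    intro p hp hpS
    have h1 := ((hP0mem p).1 hp).1
    have h2 := (hS p hpS).2.1
    omega
  have hPprime : ∀ p ∈ P0 ∪ S, p.Prime := by
    intro p hp
    rcases Finset.mem_union.1 hp with h | h
    · exact ((hP0mem p).1 h).2
    · exact (hS p h).1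
  have hDprod : primorial w * ∏ p ∈ S, p = ∏ p ∈ P0 ∪ S, p := by
    rw [Finset.prod_union hdisj, hprim]
  -- the residue classes
  have hres : ∀ p : ℕ, ∃ r : ℤ, p ∈ P0 ∪ S → (p : ℤ) ∣
      (if p ≤ w then x1 * y0 - y1 * x0 else D.u (t p) * y1 + D.v (t p) * x1) +
        r * (if p ≤ w then D.u i * y0 + D.v i * x0 else D.u i * D.v (t p) - D.u (t p) * D.v i) := by
    intro p
    by_cases hp : p ∈ P0 ∪ S
    · have hpp := hPprime p hp
      by_cases hpw : p ≤ w
      · obtain ⟨r, hr⟩ := H1_solve hpp (hC.cop p hpp hpw i) (x1 * y0 - y1 * x0)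
        refine ⟨r, fun _ => ?_⟩
        rw [if_pos hpw, if_pos hpw]
        exact hr
      · have hpS : p ∈ S := by
          rcases Finset.mem_union.1 hp with h | h
          · exact absurd ((hP0mem p).1 h).1 hpw
          · exact h
        have hdet := (hC.big p hpp (by omega)).2 i (t p) (Ne.symm (hS p hpS).2.2)
        obtain ⟨r, hr⟩ := H1_solve hpp hdet (D.u (t p) * y1 + D.v (t p) * x1)
        refine ⟨r, fun _ => ?_⟩
        rw [if_neg hpw, if_neg hpw]
        exact hr
    · exact ⟨0, fun h => absurd h hp⟩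
  choose r hr using hres
  obtain ⟨k1, hk1⟩ := H1_crt (P0 ∪ S) hPprime r
  obtain ⟨x, hx⟩ : ∃ x, x = x1 + k1 * D.u i := ⟨_, rfl⟩
  obtain ⟨y, hy⟩ : ∃ y, y = y1 - k1 * D.v i := ⟨_, rfl⟩
  have hxy : D.u i * y + D.v i * x = 1 := by
    rw [hx, hy]
    linear_combination hxy1
  have hsmall : ∀ p : ℕ, p.Prime → p ≤ w → (p : ℤ) ∣ x * y0 - y * x0 := by
    intro p hp hpw
    have hmem : p ∈ P0 ∪ S := Finset.mem_union_left _ ((hP0mem p).2 ⟨hpw, hp⟩)
    have h1 := hr p hmem
    rw [if_pos hpw, if_pos hpw] at h1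
    have h2 : x * y0 - y * x0 = (x1 * y0 - y1 * x0 + r p * (D.u i * y0 + D.v i * x0)) +
        (k1 - r p) * (D.u i * y0 + D.v i * x0) := by
      rw [hx, hy]; ring
    rw [h2]
    exact dvd_add h1 (Dvd.dvd.mul_right (hk1 p hmem) _)
  have hlarge : ∀ p ∈ S, (p : ℤ) ∣ D.u (t p) * y + D.v (t p) * x := by
    intro p hpS
    have hmem : p ∈ P0 ∪ S := Finset.mem_union_right _ hpS
    have hpw : ¬ p ≤ w := by
      have := (hS p hpS).2.1
      omega
    have h1 := hr p hmem
    rw [if_neg hpw, if_neg hpw] at h1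
    have h2 : D.u (t p) * y + D.v (t p) * x = (D.u (t p) * y1 + D.v (t p) * x1 +
        r p * (D.u i * D.v (t p) - D.u (t p) * D.v i)) +
        (k1 - r p) * (D.u i * D.v (t p) - D.u (t p) * D.v i) := by
      rw [hx, hy]; ring
    rw [h2]
    exact dvd_add h1 (Dvd.dvd.mul_right (hk1 p hmem) _)
  -- the unit `μ`
  have hcW : IsCoprime (D.u i * y0 + D.v i * x0) (primorial w : ℤ) := by
    rw [hprim, Nat.cast_prod]
    apply IsCoprime.prod_right
    intro p hp
    have h1 := (hP0mem p).1 hp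
    exact (H1_prime_cop h1.2 (hC.cop p h1.2 h1.1 i)).symm
  obtain ⟨μ, b, hμ⟩ := id hcW
  have hμW : IsCoprime μ (primorial w : ℤ) := ⟨D.u i * y0 + D.v i * x0, b, by
    linear_combination hμ⟩
  have hWxy : (primorial w : ℤ) ∣ x * y0 - y * x0 := by
    rw [hprim]
    exact H1_prod_dvd P0 (fun p hp => ((hP0mem p).1 hp).2) _ fun p hp =>
      hsmall p ((hP0mem p).1 hp).2 ((hP0mem p).1 hp).1
  have hWx : (primorial w : ℤ) ∣ x - μ * x0 := by
    have h1 : (primorial w : ℤ) ∣ (D.u i * y0 + D.v i * x0) * (x - μ * x0) := by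
      obtain ⟨e, he⟩ := hWxy
      refine ⟨D.u i * e + b * x0, ?_⟩
      linear_combination (D.u i) * he - x0 * hμ + x0 * hxy
    exact hcW.symm.dvd_of_dvd_mul_left h1
  have hWy : (primorial w : ℤ) ∣ y - μ * y0 := by
    have h1 : (primorial w : ℤ) ∣ (D.u i * y0 + D.v i * x0) * (y - μ * y0) := by
      obtain ⟨e, he⟩ := hWxy
      refine ⟨- D.v i * e + b * y0, ?_⟩
      linear_combination (- D.v i) * he - y0 * hμ + y0 * hxy
    exact hcW.symm.dvd_of_dvd_mul_left h1
  refine ⟨x, y, hxy, ?_⟩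
  intro N q hq hqS hqw
  set Dn : ℕ := primorial w * ∏ p ∈ S, p with hDn
  have hDnpos : 0 < Dn := by
    rw [hDprod]
    exact Finset.prod_pos fun p hp => (hPprime p hp).pos
  have hWD : (primorial w : ℤ) ∣ (Dn : ℤ) := Int.natCast_dvd_natCast.2 (Dvd.intro _ rfl)
  have hpD : ∀ p ∈ S, (p : ℤ) ∣ (Dn : ℤ) := fun p hp =>
    Int.natCast_dvd_natCast.2 (Dvd.dvd.mul_left (Finset.dvd_prod_of_mem _ hp) _)
  have hDnR : (0 : ℝ) < Dn := by exact_mod_cast hDnpos
  have hLr : 0 < (Dn : ℝ) * D.rho i := mul_pos hDnR hρ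
  have hq' := hq
  simp only [Data.Rg, Finset.mem_filter, Finset.mem_range] at hq'
  obtain ⟨-, hqp, hq1, hq2⟩ := hq'
  have hqx : ∀ n m : ℤ, D.u i * m + D.v i * n = q → (m : ℝ) - D.α * n ≠ 0 →
      D.rho i * n = q - D.u i * ((m : ℝ) - D.α * n) := by
    intro n m h _
    have h' : (D.u i : ℝ) * m + D.v i * n = q := by exact_mod_cast h
    unfold Data.rho
    linear_combination h'
  -- the points on the line
  have hA : ∀ n ∈ (D.TT w x0 y0 N).filter
      (fun n : ℕ => D.L i n = q ∧ ∀ p ∈ S, D.hit p (t p) n),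
      ∃ k : ℤ, (n : ℤ) = q * x + k * Dn * D.u i ∧ D.m n = q * y - k * Dn * D.v i := by
    intro n hn
    obtain ⟨hnT, hnL, hnS⟩ := Finset.mem_filter.1 hn
    simp only [Data.TT, Finset.mem_filter] at hnT
    obtain ⟨_, l, hl, hinc1, hinc2⟩ := hnT
    have hker : D.u i * (D.m n - q * y) + D.v i * ((n : ℤ) - q * x) = 0 := by
      have h1 : D.u i * D.m n + D.v i * n = q := hnL
      linear_combination h1 - (q : ℤ) * hxy
    -- the parameter
    have hdv : D.u i ∣ (n : ℤ) - q * x := by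
      have h1 : D.u i ∣ D.v i * ((n : ℤ) - q * x) := by
        refine ⟨-(D.m n - q * y), ?_⟩
        linear_combination hker
      have hcop' : IsCoprime (D.u i) (D.v i) := ⟨y1, x1, hxy1⟩
      exact hcop'.dvd_of_dvd_mul_left h1
    obtain ⟨k', hk'⟩ := hdv
    have hk'' : D.m n - q * y = - (k' * D.v i) := by
      have h1 : D.u i * (D.m n - q * y) = D.u i * (- (k' * D.v i)) := by
        rw [hk'] at hker
        linear_combination hker
      exact mul_left_cancel₀ hu0 h1
    have hDk : (Dn : ℤ) ∣ k' := by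
      rw [hDprod]
      apply H1_prod_dvd _ hPprime
      intro p hp
      have hpp := hPprime p hp
      by_cases hpw : p ≤ w
      · -- small primes
        have hpW : (p : ℤ) ∣ (primorial w : ℤ) := by
          rw [hprim]
          exact Int.natCast_dvd_natCast.2 (Finset.dvd_prod_of_mem _ ((hP0mem p).2 ⟨hpw, hpp⟩))
        have h1 := hpW.trans hinc1
        have h2 := hpW.trans hinc2
        have h3 := hpW.trans hWx
        have h4 := hpW.trans hWy
        have h5 : (p : ℤ) ∣ (l - q * μ) * (D.u i * y0 + D.v i * x0) := by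
          have h6 : (l - q * μ) * (D.u i * y0 + D.v i * x0) =
              - (D.u i * (D.m n - l * y0)) - (D.v i * ((n : ℤ) - l * x0)) +
              q * (D.u i * (y - μ * y0)) + q * (D.v i * (x - μ * x0)) := by
            have h7 : D.u i * D.m n + D.v i * n = q := hnL
            linear_combination h7 - (q : ℤ) * hxy
          rw [h6]
          exact dvd_add (dvd_add (dvd_sub ((Dvd.dvd.mul_left h2 _).neg_right)
            (Dvd.dvd.mul_left h1 _)) (Dvd.dvd.mul_left (Dvd.dvd.mul_left h4 _) _))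
            (Dvd.dvd.mul_left (Dvd.dvd.mul_left h3 _) _)
        have h6 : (p : ℤ) ∣ l - q * μ :=
          ((Nat.prime_iff_prime_int.1 hpp).dvd_or_dvd h5).resolve_right (hC.cop p hpp hpw i)
        have h7 : (p : ℤ) ∣ k' * D.u i := by
          have h8 : k' * D.u i = ((n : ℤ) - l * x0) + (l - q * μ) * x0 - q * (x - μ * x0) := by
            linear_combination - hk'
          rw [h8]
          exact dvd_sub (dvd_add h1 (Dvd.dvd.mul_right h6 _)) (Dvd.dvd.mul_left h3 _)
        have h9 : (p : ℤ) ∣ k' * D.v i := by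
          have h8 : k' * D.v i = -((D.m n - l * y0) + (l - q * μ) * y0 - q * (y - μ * y0)) := by
            linear_combination hk''
          rw [h8]
          exact (dvd_sub (dvd_add h2 (Dvd.dvd.mul_right h6 _)) (Dvd.dvd.mul_left h4 _)).neg_right
        have h10 : k' = y1 * (k' * D.u i) + x1 * (k' * D.v i) := by
          linear_combination (-k') * hxy1
        rw [h10]
        exact dvd_add (Dvd.dvd.mul_left h7 _) (Dvd.dvd.mul_left h9 _)
      · have hpS : p ∈ S := by
          rcases Finset.mem_union.1 hp with h | h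
          · exact absurd ((hP0mem p).1 h).1 hpw
          · exact h
        have hdet := (hC.big p hpp (by omega)).2 i (t p) (Ne.symm (hS p hpS).2.2)
        have h1 : (p : ℤ) ∣ D.u (t p) * D.m n + D.v (t p) * n := (hnS p hpS).1
        have h2 : (p : ℤ) ∣ k' * (D.u i * D.v (t p) - D.u (t p) * D.v i) := by
          have h3 : k' * (D.u i * D.v (t p) - D.u (t p) * D.v i) =
              (D.u (t p) * D.m n + D.v (t p) * n) - q * (D.u (t p) * y + D.v (t p) * x) := by
            linear_combination - D.v (t p) * hk' - D.u (t p) * hk''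
          rw [h3]
          exact dvd_sub h1 (Dvd.dvd.mul_left (hlarge p hpS) _)
        exact ((Nat.prime_iff_prime_int.1 hpp).dvd_or_dvd h2).resolve_right hdet
    obtain ⟨k, hk⟩ := hDk
    refine ⟨k, ?_, ?_⟩
    · rw [hk] at hk'
      linear_combination hk'
    · rw [hk] at hk''
      linear_combination hk''
  have hB : ∀ k : ℤ, D.F (((q * y - k * Dn * D.v i : ℤ) : ℝ) - D.α * ((q * x + k * Dn * D.u i : ℤ) : ℝ)) ≠ 0 →
      ∃ n ∈ (D.TT w x0 y0 N).filter
        (fun n : ℕ => D.L i n = q ∧ ∀ p ∈ S, D.hit p (t p) n),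
        (n : ℤ) = q * x + k * Dn * D.u i ∧ D.m n = q * y - k * Dn * D.v i := by
    intro k hk
    obtain ⟨h0, hε⟩ := D.bump.supp _ hk
    obtain ⟨n', hn'⟩ : ∃ n' : ℤ, n' = q * x + k * Dn * D.u i := ⟨_, rfl⟩
    obtain ⟨m', hm'⟩ : ∃ m' : ℤ, m' = q * y - k * Dn * D.v i := ⟨_, rfl⟩
    rw [← hn', ← hm'] at h0 hε
    have h1ε : (m' : ℝ) - D.α * n' < 1 := hε.trans_le D.ε1
    have hline : D.u i * m' + D.v i * n' = q := by
      rw [hn', hm']
      linear_combination (q : ℤ) * hxy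
    have hrn := hqx n' m' hline h0.ne'
    have habs1 : (D.u i : ℝ) * ((m' : ℝ) - D.α * n') ≤ |(D.u i : ℝ)| := by
      calc (D.u i : ℝ) * ((m' : ℝ) - D.α * n') ≤ |(D.u i : ℝ)| * ((m' : ℝ) - D.α * n') :=
            mul_le_mul_of_nonneg_right (le_abs_self _) h0.le
        _ ≤ |(D.u i : ℝ)| * 1 := mul_le_mul_of_nonneg_left h1ε.le (abs_nonneg _)
        _ = |(D.u i : ℝ)| := mul_one _
    have habs2 : -|(D.u i : ℝ)| ≤ (D.u i : ℝ) * ((m' : ℝ) - D.α * n') := by
      have h2 : -(D.u i : ℝ) * ((m' : ℝ) - D.α * n') ≤ |(D.u i : ℝ)| := by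
        calc -(D.u i : ℝ) * ((m' : ℝ) - D.α * n') ≤ |(D.u i : ℝ)| * ((m' : ℝ) - D.α * n') :=
              mul_le_mul_of_nonneg_right (neg_le_abs _) h0.le
          _ ≤ |(D.u i : ℝ)| * 1 := mul_le_mul_of_nonneg_left h1ε.le (abs_nonneg _)
          _ = |(D.u i : ℝ)| := mul_one _
      linarith
    have hnN : (N : ℝ) < n' := by
      have h2 : D.rho i * N < D.rho i * n' := by rw [hrn]; linarith
      exact lt_of_mul_lt_mul_left h2 hρ.le
    have hn2N : (n' : ℝ) ≤ 2 * N := by
      have h2 : D.rho i * n' ≤ D.rho i * (2 * N) := by rw [hrn]; linarith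
      exact le_of_mul_le_mul_left h2 hρ
    have hnN' : (N : ℤ) < n' := by exact_mod_cast hnN
    have hn2N' : n' ≤ 2 * (N : ℤ) := by exact_mod_cast hn2N
    obtain ⟨n, hn⟩ : ∃ n : ℕ, (n : ℤ) = n' := ⟨n'.toNat, Int.toNat_of_nonneg (by omega)⟩
    have hnR : (n : ℝ) = n' := by rw [← hn]; simp
    have hmn : D.m n = m' := by
      unfold Data.m
      have h2 : ⌊D.α * n⌋ = m' - 1 := by
        rw [Int.floor_eq_iff, hnR]
        push_cast
        constructor <;> linarith
      rw [h2]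
      ring
    have hLn : D.L i n = q := by
      unfold Data.L
      rw [hmn, hn]
      exact hline
    refine ⟨n, ?_, by rw [hn, hn'], by rw [hmn, hm']⟩
    rw [Finset.mem_filter]
    refine ⟨?_, hLn, ?_⟩
    · simp only [Data.TT, Finset.mem_filter, Finset.mem_Ioc]
      refine ⟨⟨by omega, by omega⟩, q * μ, ?_, ?_, ?_⟩
      · apply IsCoprime.mul_left _ hμW
        rw [hprim, Nat.cast_prod]
        apply IsCoprime.prod_right
        intro p hp
        have h1 := (hP0mem p).1 hp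
        rw [Nat.isCoprime_iff_coprime, Nat.coprime_primes hqp h1.2]
        omega
      · obtain ⟨e, he⟩ := hWx
        obtain ⟨g, hg⟩ := hWD
        refine ⟨q * e + k * g * D.u i, ?_⟩
        rw [hn, hn']
        linear_combination (q : ℤ) * he + k * D.u i * hg
      · obtain ⟨e, he⟩ := hWy
        obtain ⟨g, hg⟩ := hWD
        refine ⟨q * e - k * g * D.v i, ?_⟩
        rw [hmn, hm']
        linear_combination (q : ℤ) * he - k * D.v i * hg
    · intro p hpS
      refine ⟨?_, ?_⟩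
      · obtain ⟨e, he⟩ := hlarge p hpS
        obtain ⟨g, hg⟩ := hpD p hpS
        change (p : ℤ) ∣ D.u (t p) * D.m n + D.v (t p) * n
        rw [hmn, hn, hn', hm']
        refine ⟨q * e + k * g * (D.v (t p) * D.u i - D.u (t p) * D.v i), ?_⟩
        linear_combination (q : ℤ) * he + k * (D.v (t p) * D.u i - D.u (t p) * D.v i) * hg
      · rintro ⟨h1, h2⟩
        have h3 : (p : ℤ) ∣ q := by
          rw [← hLn]
          exact dvd_add (Dvd.dvd.mul_left h2 _) (Dvd.dvd.mul_left h1 _)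
        have h4 : p ∣ q := Int.natCast_dvd_natCast.1 h3
        have h5 := (Nat.prime_dvd_prime_iff_eq (hS p hpS).1 hqp).1 h4
        have h6 := hqS p hpS
        omega
  -- the sum
  choose! κ hκ using hA
  have hterm : ∀ k : ℤ, D.F ((Dn * D.rho i) * (q * ((y - D.α * x) / (Dn * D.rho i)) - k)) =
      D.F (((q * y - k * Dn * D.v i : ℤ) : ℝ) - D.α * ((q * x + k * Dn * D.u i : ℤ) : ℝ)) := by
    intro k
    congr 1
    have h1 : (Dn * D.rho i) * (q * ((y - D.α * x) / (Dn * D.rho i)) - k) =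
        q * (y - D.α * x) - (Dn * D.rho i) * k := by
      field_simp
    rw [h1]
    unfold Data.rho
    push_cast
    ring
  unfold per
  set T := (D.TT w x0 y0 N).filter
      (fun n : ℕ => D.L i n = q ∧ ∀ p ∈ S, D.hit p (t p) n) with hT
  rw [tsum_eq_sum (s := T.image κ)]
  · rw [Finset.sum_image]
    · apply Finset.sum_congr rfl
      intro n hn
      obtain ⟨h1, h2⟩ := hκ n hn
      rw [hterm, ← h1, ← h2]
      unfold Data.f
      simp
    · intro n hn n2 hn2 heq
      obtain ⟨h1, -⟩ := hκ n hn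
      obtain ⟨h2, -⟩ := hκ n2 hn2
      have h3 : (n : ℤ) = n2 := by rw [h1, h2, heq]
      exact_mod_cast h3
  · intro k hk
    by_contra hne
    rw [hterm] at hne
    obtain ⟨n, hn, hn1, hn2⟩ := hB k hne
    apply hk
    rw [Finset.mem_image]
    refine ⟨n, hn, ?_⟩
    obtain ⟨h1, -⟩ := hκ n hn
    have h2 : (κ n - k) * ((Dn : ℤ) * D.u i) = 0 := by linear_combination hn1 - h1
    rcases mul_eq_zero.1 h2 with h3 | h3
    · omega
    · exfalso
      rcases mul_eq_zero.1 h3 with h4 | h4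
      · have : (Dn : ℤ) ≠ 0 := by exact_mod_cast hDnpos.ne'
        exact this h4
      · exact hu0 h4

end Pool.Agent.LibFS14
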