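import Pool.Agent.LibFS14.Defs

/-!
Row V5 (MEDIUM). Rational approximations of `h (y - α x) / (D' ρ)`.

PLAN. `Q = u A + v B` (`u = D.u i`, ...): `|Q - ρ B| = |u| |A - α B| ≤ |u| / B`, so `ρ B / 2 ≤ Q ≤ 2 ρ B` for large `B` (`B ^ 2 ≥ Y ^ 1000 / R`). `P = y B - A x`. `u P ... `: the matrix is unimodular: `IsCoprime P Q` because `u y + v x = 1`:
`A = y Q - v P`, `B = u P + x Q` (check by `ring` with `hxy`), and `A, B` are coprime. Exact identity `(y - α x) / ρ - P / Q = (A - α B) / (ρ Q)`.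
So `|h (y - α x) / (D' ρ) - h P / (D' Q)| ≤ h / (B D' ρ Q)`. Reduce `h P / (D' Q) = a / q`: `q = D' Q / g`, `g = gcd (h P, D' Q)` divides `h D'` (as `gcd (P, Q) = 1`), so `q ≥ Q / h ≥ Q / Y ^ 2 ≥ Y ^ 400`, `q ≤ D' Q ≤ W Y * 2 ρ B ≤ Y ^ 600`.
`κ = max 1 (q ^ 2 h / (B D' ρ Q))`, and `q ^ 2 h / (B D' ρ Q) ≤ D' Q h / (B ρ) ≤ W Y * 2 * Y ^ 2 ≤ C Y ^ 4`.
-/

open Finset

namespace Pool.Agent.LibFS14

/-- the reduced fraction -/
private theorem V5_frac (P Q : ℤ) (hQ : 0 < Q) (hPQ : IsCoprime P Q) (h D' : ℕ) (hh : 1 ≤ h)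
    (hD : 1 ≤ D') : ∃ (a : ℤ) (q : ℕ), 1 ≤ q ∧ IsCoprime a (q : ℤ) ∧ a * (D' * Q) = h * P * q ∧
      Q ≤ h * q ∧ (q : ℤ) ≤ D' * Q := by
  have hD0 : (0 : ℤ) < D' := by exact_mod_cast hD
  have hh0 : (0 : ℤ) < h := by exact_mod_cast hh
  have hDQ : (0 : ℤ) < D' * Q := mul_pos hD0 hQ
  set r : ℚ := ((h * P : ℤ) : ℚ) / ((D' * Q : ℤ) : ℚ) with hr
  have h1 : IsCoprime r.num (r.den : ℤ) := Int.isCoprime_iff_gcd_eq_one.2 r.reduced
  have h2 : r.num * (D' * Q) = h * P * r.den := by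
    have e1 : (r.num : ℚ) / (r.den : ℚ) = ((h * P : ℤ) : ℚ) / ((D' * Q : ℤ) : ℚ) := by
      rw [Rat.num_div_den]
    have e2 : (r.den : ℚ) ≠ 0 := by exact_mod_cast r.den_nz
    have e3 : ((D' * Q : ℤ) : ℚ) ≠ 0 := by exact_mod_cast hDQ.ne'
    rw [div_eq_div_iff e2 e3] at e1
    exact_mod_cast e1
  have hq : 1 ≤ r.den := r.den_pos
  have hq0 : (0 : ℤ) < r.den := by exact_mod_cast hq
  refine ⟨r.num, r.den, hq, h1, h2, ?_, ?_⟩
  · apply Int.le_of_dvd (mul_pos hh0 hq0)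
    have h3 : Q ∣ P * (h * r.den) := ⟨r.num * D', by linear_combination (-1 : ℤ) * h2⟩
    exact hPQ.symm.dvd_of_dvd_mul_left h3
  · apply Int.le_of_dvd hDQ
    have h3 : (r.den : ℤ) ∣ r.num * (D' * Q) := ⟨h * P, by rw [h2]; ring⟩
    exact h1.symm.dvd_of_dvd_mul_left h3

theorem approx {K : ℕ} (D : Data K) (R : ℝ) (W : ℕ) (i : Fin K) : ∃ (C : ℝ) (Y0 : ℕ), 1 ≤ C ∧
    ∀ (A : ℤ) (B Y : ℕ), Y0 ≤ Y → D.App R A B Y → ∀ (x y : ℤ) (D' h : ℕ), D.u i * y + D.v i * x = 1 →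
    1 ≤ D' → D' ≤ W * Y → 1 ≤ h → h ≤ Y ^ 2 →
    ∃ (a : ℤ) (q : ℕ) (κ : ℝ), IsCoprime a (q : ℤ) ∧ Y ^ 400 ≤ q ∧ q ≤ Y ^ 600 ∧ 1 ≤ κ ∧ κ ≤ C * (Y : ℝ) ^ 4 ∧
      |h * ((y - D.α * x) / (D' * D.rho i)) - a / q| ≤ κ / (q : ℝ) ^ 2 := by
  have hρ : 0 < D.rho i := D.sys.pos i
  have hρdef : D.rho i = D.u i * D.α + D.v i := rfl
  set ρ := D.rho i with hρs
  set α := D.α with hα
  set u := D.u i with hu
  set v := D.v i with hv
  refine ⟨2 * W + 1, ⌈2 * |(u : ℝ)| * |R| / ρ + 4 * |R| / ρ ^ 2 + 2 * ρ * W⌉₊ + 1, ?_, ?_⟩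
  · have : (0 : ℝ) ≤ W := Nat.cast_nonneg W
    linarith
  intro A B Y hY hApp x y D' h hxy hD1 hD2 hh1 hh2
  have hW0 : (0 : ℝ) ≤ W := Nat.cast_nonneg W
  have t1 : 0 ≤ 2 * |(u : ℝ)| * |R| / ρ := by positivity
  have t2 : 0 ≤ 4 * |R| / ρ ^ 2 := by positivity
  have t3 : 0 ≤ 2 * ρ * W := by positivity
  have hYT : 2 * |(u : ℝ)| * |R| / ρ + 4 * |R| / ρ ^ 2 + 2 * ρ * W ≤ (Y : ℝ) := by
    refine (Nat.le_ceil _).trans ?_
    exact_mod_cast (Nat.le_succ _).trans hY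
  have hY1 : (1 : ℝ) ≤ Y := by exact_mod_cast hApp.Y1
  have hB1 : (1 : ℝ) ≤ B := by exact_mod_cast hApp.B1
  have hY0 : (0 : ℝ) < Y := by linarith
  have hB0 : (0 : ℝ) < B := by linarith
  have hR : 0 < R := by
    by_contra hc
    push Not at hc
    have h1 := hApp.ge
    have h2 : R * (B : ℝ) ^ 2 ≤ 0 := mul_nonpos_of_nonpos_of_nonneg hc (by positivity)
    have h3 : (0 : ℝ) < (Y : ℝ) ^ 1000 := pow_pos hY0 _
    linarith
  rw [abs_of_pos hR] at hYT t1 t2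
  have hle := hApp.le
  have hge := hApp.ge
  -- the three conditions on `Y`
  have c1 : 2 * |(u : ℝ)| ≤ ρ * (B : ℝ) ^ 2 := by
    have h1 : 2 * |(u : ℝ)| * R / ρ ≤ R * (B : ℝ) ^ 2 := by
      have := le_self_pow₀ hY1 (n := 1000) (by norm_num)
      linarith
    rw [div_le_iff₀ hρ] at h1
    have h2 : R * (2 * |(u : ℝ)|) ≤ R * (ρ * (B : ℝ) ^ 2) := by linarith
    exact le_of_mul_le_mul_left h2 hR
  have c2 : 2 * (Y : ℝ) ^ 402 ≤ ρ * B := by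
    have h1 : 4 * R / ρ ^ 2 ≤ (Y : ℝ) ^ 196 := by
      have := le_self_pow₀ hY1 (n := 196) (by norm_num)
      linarith
    rw [div_le_iff₀ (by positivity)] at h1
    have h2 : 4 * R * (Y : ℝ) ^ 804 ≤ (Y : ℝ) ^ 196 * ρ ^ 2 * (Y : ℝ) ^ 804 :=
      mul_le_mul_of_nonneg_right h1 (by positivity)
    have h3 : (Y : ℝ) ^ 196 * ρ ^ 2 * (Y : ℝ) ^ 804 = ρ ^ 2 * (Y : ℝ) ^ 1000 := by
      rw [show (1000 : ℕ) = 196 + 804 from rfl, pow_add]
      ring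
    have h4 : ρ ^ 2 * (Y : ℝ) ^ 1000 ≤ ρ ^ 2 * (R * (B : ℝ) ^ 2) :=
      mul_le_mul_of_nonneg_left hge (by positivity)
    have h5 : R * (2 * (Y : ℝ) ^ 402) ^ 2 ≤ R * (ρ * B) ^ 2 := by
      have e1 : R * (2 * (Y : ℝ) ^ 402) ^ 2 = 4 * R * (Y : ℝ) ^ 804 := by
        rw [mul_pow, ← pow_mul]
        ring
      have e2 : R * (ρ * B) ^ 2 = ρ ^ 2 * (R * (B : ℝ) ^ 2) := by ring
      rw [e1, e2]
      linarith
    have h6 := le_of_mul_le_mul_left h5 hR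
    exact (pow_le_pow_iff_left₀ (by positivity) (by positivity) (by norm_num)).1 h6
  have c3 : 2 * ρ * W ≤ (Y : ℝ) ^ 99 := by
    have := le_self_pow₀ hY1 (n := 99) (by norm_num)
    linarith
  have c4 : (B : ℝ) ≤ (Y : ℝ) ^ 500 := by
    have h1 : (B : ℝ) ^ 2 ≤ ((Y : ℝ) ^ 500) ^ 2 := by
      rw [← pow_mul]
      exact hle
    exact (pow_le_pow_iff_left₀ (by positivity) (by positivity) (by norm_num)).1 h1
  -- the integers `P`, `Q`
  set Q : ℤ := u * A + v * B with hQ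
  set P : ℤ := y * B - A * x with hP
  have hAB : |(A : ℝ) - α * B| ≤ 1 / B := by
    have h1 := hApp.app
    have h2 : (A : ℝ) - α * B = -(B * (α - A / B)) := by
      field_simp
      ring
    rw [h2, abs_neg, abs_mul, abs_of_pos hB0]
    calc (B : ℝ) * |α - A / B| ≤ B * (1 / (B : ℝ) ^ 2) := mul_le_mul_of_nonneg_left h1 hB0.le
      _ = 1 / B := by
        field_simp
  have hQB : |(Q : ℝ) - ρ * B| ≤ ρ * B / 2 := by
    have h1 : (Q : ℝ) - ρ * B = u * ((A : ℝ) - α * B) := by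
      rw [hQ, hρdef]
      push_cast
      ring
    rw [h1, abs_mul]
    calc |(u : ℝ)| * |(A : ℝ) - α * B| ≤ |(u : ℝ)| * (1 / B) :=
          mul_le_mul_of_nonneg_left hAB (abs_nonneg _)
      _ ≤ ρ * B / 2 := by
        rw [mul_one_div, div_le_iff₀ hB0]
        nlinarith
  obtain ⟨q1, q2⟩ := abs_le.1 hQB
  have hρB : 0 < ρ * B := mul_pos hρ hB0
  have hQr : (0 : ℝ) < Q := by linarith
  have hQ0 : 0 < Q := by exact_mod_cast hQr
  have hcop : IsCoprime P Q := by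
    obtain ⟨s, t, hst⟩ := hApp.cop
    refine ⟨t * u - s * v, s * y + t * x, ?_⟩
    rw [hP, hQ]
    linear_combination (s * A + t * B) * hxy + hst
  obtain ⟨a, q, hq1, hcoq, hfrac, hq2, hq3⟩ := V5_frac P Q hQ0 hcop h D' hh1 hD1
  have hDr : (1 : ℝ) ≤ D' := by exact_mod_cast hD1
  have hD0 : (0 : ℝ) < D' := by linarith
  have hD2r : (D' : ℝ) ≤ W * Y := by exact_mod_cast hD2
  have hhr : (1 : ℝ) ≤ h := by exact_mod_cast hh1
  have hh0 : (0 : ℝ) < h := by linarith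
  have hh2r : (h : ℝ) ≤ (Y : ℝ) ^ 2 := by exact_mod_cast hh2
  have hqr : (1 : ℝ) ≤ q := by exact_mod_cast hq1
  have hq0 : (0 : ℝ) < q := by linarith
  have hq2r : (Q : ℝ) ≤ h * q := by exact_mod_cast hq2
  have hq3r : (q : ℝ) ≤ D' * Q := by exact_mod_cast hq3
  have hfr : (a : ℝ) * (D' * Q) = h * P * q := by exact_mod_cast hfrac
  have haq : (a : ℝ) / q = h * P / (D' * Q) := by
    rw [div_eq_div_iff hq0.ne' (mul_pos hD0 hQr).ne']
    exact hfr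
  refine ⟨a, q, max 1 ((q : ℝ) ^ 2 * (h / (B * D' * ρ * Q))), hcoq, ?_, ?_, le_max_left _ _, ?_, ?_⟩
  · have h1 : (Y : ℝ) ^ 400 * (Y : ℝ) ^ 2 ≤ q * (Y : ℝ) ^ 2 := by
      have h2 : (h : ℝ) * q ≤ (Y : ℝ) ^ 2 * q := mul_le_mul_of_nonneg_right hh2r hq0.le
      have h3 : (Y : ℝ) ^ 400 * (Y : ℝ) ^ 2 = (Y : ℝ) ^ 402 := by rw [← pow_add]
      rw [h3]
      nlinarith
    have h2 := le_of_mul_le_mul_right h1 (by positivity)
    exact_mod_cast h2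
  · have h1 : (q : ℝ) ≤ (Y : ℝ) ^ 600 := by
      calc (q : ℝ) ≤ D' * Q := hq3r
        _ ≤ (W * Y) * (2 * ρ * B) := by
          apply mul_le_mul hD2r (by linarith) hQr.le (by positivity)
        _ ≤ (W * Y) * (2 * ρ * (Y : ℝ) ^ 500) := by
          apply mul_le_mul_of_nonneg_left _ (by positivity)
          exact mul_le_mul_of_nonneg_left c4 (by positivity)
        _ = (2 * ρ * W) * ((Y : ℝ) * (Y : ℝ) ^ 500) := by ring
        _ ≤ (Y : ℝ) ^ 99 * ((Y : ℝ) * (Y : ℝ) ^ 500) :=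
          mul_le_mul_of_nonneg_right c3 (by positivity)
        _ = (Y : ℝ) ^ 600 := by
          rw [← pow_succ', ← pow_add]
    exact_mod_cast h1
  · have hY4 : (1 : ℝ) ≤ (Y : ℝ) ^ 4 := one_le_pow₀ hY1
    apply max_le
    · nlinarith
    · have h1 : (q : ℝ) ^ 2 * (h / (B * D' * ρ * Q)) ≤ (D' * Q) ^ 2 * (h / (B * D' * ρ * Q)) := by
        apply mul_le_mul_of_nonneg_right _ (by positivity)
        exact pow_le_pow_left₀ hq0.le hq3r 2
      have h2 : ((D' : ℝ) * Q) ^ 2 * (h / (B * D' * ρ * Q)) = D' * h * (Q / (ρ * B)) := by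
        field_simp
      have h3 : (Q : ℝ) / (ρ * B) ≤ 2 := by
        rw [div_le_iff₀ hρB]
        linarith
      have h4 : (D' : ℝ) * h * (Q / (ρ * B)) ≤ (W * Y) * (Y : ℝ) ^ 2 * 2 := by
        apply mul_le_mul _ h3 (by positivity) (by positivity)
        exact mul_le_mul hD2r hh2r hh0.le (by positivity)
      have h5 : (W * Y : ℝ) * (Y : ℝ) ^ 2 * 2 ≤ (2 * W + 1) * (Y : ℝ) ^ 4 := by
        have h6 : (Y : ℝ) ^ 3 ≤ (Y : ℝ) ^ 4 := pow_le_pow_right₀ hY1 (by norm_num)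
        have h7 : (W : ℝ) * (Y : ℝ) ^ 3 ≤ W * (Y : ℝ) ^ 4 := mul_le_mul_of_nonneg_left h6 hW0
        nlinarith
      linarith
  · have hE : |(h : ℝ) * ((y - α * x) / (D' * ρ)) - a / q| ≤ h / (B * D' * ρ * Q) := by
      rw [haq]
      have h1 : (h : ℝ) * ((y - α * x) / (D' * ρ)) - h * P / (D' * Q) =
          h / (D' * ρ * Q) * ((A : ℝ) - α * B) := by
        have e1 : ((y : ℝ) - α * x) * Q - P * ρ = A - α * B := by
          have e2 : (u : ℝ) * y + v * x = 1 := by exact_mod_cast hxy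
          rw [hρdef, hP, hQ]
          push_cast
          linear_combination ((A : ℝ) - α * B) * e2
        rw [← e1]
        field_simp
      rw [h1, abs_mul, abs_of_pos (by positivity)]
      calc (h : ℝ) / (D' * ρ * Q) * |(A : ℝ) - α * B| ≤ h / (D' * ρ * Q) * (1 / B) :=
            mul_le_mul_of_nonneg_left hAB (by positivity)
        _ = h / (B * D' * ρ * Q) := by
          field_simp
    refine hE.trans ?_
    rw [le_div_iff₀ (by positivity), mul_comm]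
    exact le_max_right _ _

end Pool.Agent.LibFS14
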