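import Pool.Agent.LibFS14.V4
import Pool.Agent.LibFS14.V5

/-!
Row H2 (MEDIUM). The exponential sum over the primes of `Rg`.

PLAN. `θ = (y - α x) / (D' ρ)`. `approx` (V5) gives `a, q, κ` for `h θ`; `vino` (V4) with `X = X2 := ⌊2 ρ N - |u|⌋₊ + 1` and `X = X1 := ⌊ρ N + |u|⌋₊ + 1` (the primes of `Rg` are the primes `q` with `X1 ≤ q < X2`), both between `Y ^ 900` and `R' Y ^ 1000` for large `Y`.
`∑_{X1 ≤ n < X2} Λ n ex (n h θ)` is the difference, at most `2 C Y ^ 990`. Prime powers: `∑_{n < X2} (Λ n - [n prime] log n) ≤ sqrt X2 * log X2 * 2` or so (proper powers `p ^ k ≤ X2`, `k ≥ 2`: `p ≤ sqrt X2`; in Mathlib: `Chebyshev.psi`, `Chebyshev.theta`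
and a bound of their difference, e.g. `Chebyshev.abs_psi_sub_theta_le_sqrt_mul_log`; a cruder bound is enough, anything `≤ C Y ^ 990`). For `Y < Y0` everything is bounded.
-/

open Finset

namespace Pool.Agent.LibFS14

open scoped ArithmeticFunction.vonMangoldt in
private theorem H2_np : ∃ C : ℝ, 0 ≤ C ∧ ∀ X : ℕ,
    ∑ n ∈ (range X).filter (fun n => ¬ n.Prime), ArithmeticFunction.vonMangoldt n ≤ C * Real.sqrt X := by
  obtain ⟨C, hC⟩ := Chebyshev.psi_sub_theta_le_mul_sqrt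
  refine ⟨max C 0, le_max_right _ _, fun X => ?_⟩
  have h1 := hC (X : ℝ)
  rw [Chebyshev.psi_sub_theta_eq_sum_not_prime, Nat.floor_natCast] at h1
  have h2 : C * Real.sqrt X ≤ max C 0 * Real.sqrt X :=
    mul_le_mul_of_nonneg_right (le_max_left _ _) (Real.sqrt_nonneg _)
  refine le_trans ?_ (h1.trans h2)
  have h3 : ∑ n ∈ (range X).filter (fun n => ¬ n.Prime), ArithmeticFunction.vonMangoldt n =
      ∑ n ∈ ((range X).filter (fun n => ¬ n.Prime)).erase 0, ArithmeticFunction.vonMangoldt n := by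
    by_cases h0 : (0 : ℕ) ∈ (range X).filter (fun n => ¬ n.Prime)
    · rw [← Finset.sum_erase_add _ _ h0]
      simp
    · rw [Finset.erase_eq_of_notMem h0]
  rw [h3]
  refine Finset.sum_le_sum_of_subset_of_nonneg ?_ (fun _ _ _ => ArithmeticFunction.vonMangoldt_nonneg)
  intro n hn
  rw [mem_erase, mem_filter, mem_range] at hn
  rw [mem_filter, mem_Ioc]
  exact ⟨⟨by omega, by omega⟩, hn.2.2⟩

private theorem H2_ex (x : ℝ) : ‖ex x‖ = 1 := by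
  unfold ex
  have : (2 * Real.pi * Complex.I * x : ℂ) = ((2 * Real.pi * x : ℝ) : ℂ) * Complex.I := by
    push_cast
    ring
  rw [this, Complex.norm_exp_ofReal_mul_I]

open scoped ArithmeticFunction.vonMangoldt in
private theorem H2_diff (X1 X2 : ℕ) (h : X1 ≤ X2) (z : ℕ → ℂ) (hz : ∀ n, ‖z n‖ = 1) :
    ‖∑ q ∈ (Ico X1 X2).filter (fun n => n.Prime), ((Real.log q : ℝ) : ℂ) * z q‖ ≤
      ‖∑ n ∈ range X1, ((ArithmeticFunction.vonMangoldt n : ℝ) : ℂ) * z n‖ +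
      ‖∑ n ∈ range X2, ((ArithmeticFunction.vonMangoldt n : ℝ) : ℂ) * z n‖ +
      ∑ n ∈ (range X2).filter (fun n => ¬ n.Prime), ArithmeticFunction.vonMangoldt n := by
  have h1 : ∑ n ∈ range X2, ((ArithmeticFunction.vonMangoldt n : ℝ) : ℂ) * z n =
      ∑ n ∈ range X1, ((ArithmeticFunction.vonMangoldt n : ℝ) : ℂ) * z n +
      ∑ n ∈ Ico X1 X2, ((ArithmeticFunction.vonMangoldt n : ℝ) : ℂ) * z n :=
    (Finset.sum_range_add_sum_Ico _ h).symm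
  have h2 := Finset.sum_filter_add_sum_filter_not (Ico X1 X2) (fun n : ℕ => n.Prime)
    (fun n => ((ArithmeticFunction.vonMangoldt n : ℝ) : ℂ) * z n)
  have h3 : ∑ q ∈ (Ico X1 X2).filter (fun n => n.Prime), ((ArithmeticFunction.vonMangoldt q : ℝ) : ℂ) * z q =
      ∑ q ∈ (Ico X1 X2).filter (fun n => n.Prime), ((Real.log q : ℝ) : ℂ) * z q := by
    refine Finset.sum_congr rfl fun q hq => ?_
    rw [ArithmeticFunction.vonMangoldt_apply_prime (mem_filter.1 hq).2]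
  rw [h3] at h2
  have h4 : ‖∑ q ∈ (Ico X1 X2).filter (fun n => ¬ n.Prime), ((ArithmeticFunction.vonMangoldt q : ℝ) : ℂ) * z q‖ ≤
      ∑ n ∈ (range X2).filter (fun n => ¬ n.Prime), ArithmeticFunction.vonMangoldt n := by
    refine (norm_sum_le _ _).trans ?_
    have : ∀ q ∈ (Ico X1 X2).filter (fun n => ¬ n.Prime),
        ‖((ArithmeticFunction.vonMangoldt q : ℝ) : ℂ) * z q‖ = ArithmeticFunction.vonMangoldt q := by
      intro q _
      rw [norm_mul, hz, mul_one, Complex.norm_real, Real.norm_eq_abs,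
        abs_of_nonneg ArithmeticFunction.vonMangoldt_nonneg]
    rw [Finset.sum_congr rfl this]
    refine Finset.sum_le_sum_of_subset_of_nonneg ?_ (fun _ _ _ => ArithmeticFunction.vonMangoldt_nonneg)
    intro n hn
    rw [mem_filter, mem_Ico] at hn
    rw [mem_filter, mem_range]
    exact ⟨hn.1.2, hn.2⟩
  have h5 : ∑ q ∈ (Ico X1 X2).filter (fun n => n.Prime), ((Real.log q : ℝ) : ℂ) * z q =
      ∑ n ∈ range X2, ((ArithmeticFunction.vonMangoldt n : ℝ) : ℂ) * z n -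
      ∑ n ∈ range X1, ((ArithmeticFunction.vonMangoldt n : ℝ) : ℂ) * z n -
      ∑ q ∈ (Ico X1 X2).filter (fun n => ¬ n.Prime), ((ArithmeticFunction.vonMangoldt q : ℝ) : ℂ) * z q := by
    rw [h1, ← h2]
    ring
  rw [h5]
  refine (norm_sub_le _ _).trans ?_
  have h6 := norm_sub_le (∑ n ∈ range X2, ((ArithmeticFunction.vonMangoldt n : ℝ) : ℂ) * z n)
    (∑ n ∈ range X1, ((ArithmeticFunction.vonMangoldt n : ℝ) : ℂ) * z n)
  linarith

private theorem H2_Rg {K : ℕ} (D : Data K) (i : Fin K) (N : ℕ) :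
    D.Rg i N = (Ico (⌊D.rho i * N + |(D.u i : ℝ)|⌋₊ + 1) (⌊2 * D.rho i * N - |(D.u i : ℝ)|⌋₊ + 1)).filter
      (fun n => n.Prime) := by
  ext q
  unfold Data.Rg
  rw [mem_filter, mem_filter, mem_Ico, mem_range]
  have hρ : 0 < D.rho i := D.sys.pos i
  have hu : 0 ≤ |(D.u i : ℝ)| := abs_nonneg _
  constructor
  · rintro ⟨_, hq, h1, h2⟩
    refine ⟨⟨?_, ?_⟩, hq⟩
    · have : ⌊D.rho i * N + |(D.u i : ℝ)|⌋₊ < q := (Nat.floor_lt (by positivity)).2 h1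
      omega
    · have : q ≤ ⌊2 * D.rho i * N - |(D.u i : ℝ)|⌋₊ := Nat.le_floor h2
      omega
  · rintro ⟨⟨h1, h2⟩, hq⟩
    have h3 : q ≤ ⌊2 * D.rho i * N - |(D.u i : ℝ)|⌋₊ := by omega
    have h4 : (q : ℝ) ≤ 2 * D.rho i * N - |(D.u i : ℝ)| := (Nat.le_floor_iff' hq.ne_zero).1 h3
    refine ⟨?_, hq, ?_, h4⟩
    · have : q ≤ ⌊2 * D.rho i * N⌋₊ := Nat.le_floor (by linarith)
      omega
    · exact (Nat.floor_lt (by positivity)).1 (by omega)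

private theorem H2_triv {K : ℕ} (D : Data K) (i : Fin K) (N : ℕ) (z : ℕ → ℂ) (hz : ∀ n, ‖z n‖ = 1) :
    ‖∑ q ∈ D.Rg i N, ((Real.log q : ℝ) : ℂ) * z q‖ ≤ (2 * D.rho i * N + 1) ^ 2 := by
  have hρ : 0 < D.rho i := D.sys.pos i
  have hX : (0 : ℝ) ≤ 2 * D.rho i * N := by positivity
  refine (norm_sum_le _ _).trans ?_
  have h1 : ∀ q ∈ D.Rg i N, ‖((Real.log q : ℝ) : ℂ) * z q‖ ≤ 2 * D.rho i * N + 1 := by
    intro q hq
    have hq' : q ≤ ⌊2 * D.rho i * N⌋₊ := by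
      unfold Data.Rg at hq
      have := mem_range.1 (mem_filter.1 hq).1
      omega
    have h2 : (q : ℝ) ≤ 2 * D.rho i * N := (Nat.cast_le.2 hq').trans (Nat.floor_le hX)
    rw [norm_mul, hz, mul_one, Complex.norm_real, Real.norm_eq_abs, abs_of_nonneg (Real.log_natCast_nonneg q)]
    have h3 : Real.log q ≤ q := Real.log_le_self (by positivity)
    linarith
  refine (Finset.sum_le_card_nsmul _ _ _ h1).trans ?_
  rw [nsmul_eq_mul, sq]
  refine mul_le_mul_of_nonneg_right ?_ (by linarith)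
  have h4 : (D.Rg i N).card ≤ ⌊2 * D.rho i * N⌋₊ + 1 := by
    unfold Data.Rg
    refine (Finset.card_filter_le _ _).trans ?_
    rw [card_range]
  have h5 : ((⌊2 * D.rho i * N⌋₊ : ℕ) : ℝ) ≤ 2 * D.rho i * N := Nat.floor_le hX
  have h6 : ((D.Rg i N).card : ℝ) ≤ ((⌊2 * D.rho i * N⌋₊ + 1 : ℕ) : ℝ) := Nat.cast_le.2 h4
  push_cast at h6
  linarith

theorem exp_primes {K : ℕ} (D : Data K) (R : ℝ) (W : ℕ) (i : Fin K) : ∃ C : ℝ, 1 ≤ C ∧
    ∀ (A : ℤ) (B Y : ℕ), D.App R A B Y → ∀ (x y : ℤ) (D' h : ℕ), D.u i * y + D.v i * x = 1 → 1 ≤ D' → D' ≤ W * Y → 1 ≤ h →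
    h ≤ Y ^ 2 → ‖∑ q ∈ D.Rg i (Y ^ 1000), ((Real.log q : ℝ) : ℂ) * ex (h * (q * ((y - D.α * x) / (D' * D.rho i))))‖ ≤
      C * (Y : ℝ) ^ 991 := by
  classical
  obtain ⟨Ca, Ya, hCa, ha⟩ := approx D R W i
  have hρ : 0 < D.rho i := D.sys.pos i
  have hu : 0 ≤ |(D.u i : ℝ)| := abs_nonneg _
  obtain ⟨R', hR'def⟩ : ∃ R' : ℝ, R' = max Ca (2 * D.rho i + |(D.u i : ℝ)| + 2) := ⟨_, rfl⟩
  have hR'a : Ca ≤ R' := hR'def ▸ le_max_left _ _
  have hR'b : 2 * D.rho i + |(D.u i : ℝ)| + 2 ≤ R' := hR'def ▸ le_max_right _ _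
  have hR' : 1 ≤ R' := hCa.trans hR'a
  obtain ⟨Cv, Yv, hCv, hv⟩ := vino R' hR'
  obtain ⟨Cs, hCs0, hs⟩ := H2_np
  obtain ⟨Y1, hY1⟩ : ∃ Y1 : ℕ, Y1 = max (max Ya Yv) ⌈1 / D.rho i⌉₊ := ⟨_, rfl⟩
  have hC3 : 0 ≤ (2 * D.rho i * (Y1 : ℝ) ^ 1000 + 1) ^ 2 := by positivity
  have hC2 : 0 ≤ 2 * Cv + Cs * Real.sqrt R' := by positivity
  refine ⟨1 + (2 * Cv + Cs * Real.sqrt R') + (2 * D.rho i * (Y1 : ℝ) ^ 1000 + 1) ^ 2, by linarith, ?_⟩
  intro A B Y hApp x y D' h hxy hD1 hD2 hh1 hh2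
  have hYpos : 1 ≤ Y := hApp.Y1
  have hYr : (1 : ℝ) ≤ Y := by exact_mod_cast hYpos
  have hz : ∀ n : ℕ, ‖ex (h * (n * ((y - D.α * x) / (D' * D.rho i))))‖ = 1 := fun n => H2_ex _
  by_cases hY : Y < Y1
  · have h1 := H2_triv D i (Y ^ 1000) (fun n => ex (h * (n * ((y - D.α * x) / (D' * D.rho i))))) hz
    refine h1.trans ?_
    have hYY : (Y : ℝ) ≤ Y1 := by exact_mod_cast hY.le
    have h2 : (Y : ℝ) ^ 1000 ≤ (Y1 : ℝ) ^ 1000 := pow_le_pow_left₀ (by positivity) hYY _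
    have h3 : (2 * D.rho i * ((Y ^ 1000 : ℕ) : ℝ) + 1) ^ 2 ≤ (2 * D.rho i * (Y1 : ℝ) ^ 1000 + 1) ^ 2 := by
      push_cast
      refine pow_le_pow_left₀ (by positivity) ?_ _
      have := mul_le_mul_of_nonneg_left h2 (by positivity : (0 : ℝ) ≤ 2 * D.rho i)
      linarith
    have h4 : (1 : ℝ) ≤ (Y : ℝ) ^ 991 := one_le_pow₀ hYr
    refine h3.trans ?_
    have h5 : (2 * D.rho i * (Y1 : ℝ) ^ 1000 + 1) ^ 2 ≤
        1 + (2 * Cv + Cs * Real.sqrt R') + (2 * D.rho i * (Y1 : ℝ) ^ 1000 + 1) ^ 2 := by linarith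
    exact h5.trans (le_mul_of_one_le_right (by linarith) h4)
  · push Not at hY
    have hYa : Ya ≤ Y := ((le_max_left _ _).trans (le_max_left _ _)).trans (hY1 ▸ hY)
    have hYv : Yv ≤ Y := ((le_max_right _ _).trans (le_max_left _ _)).trans (hY1 ▸ hY)
    have hYρ : 1 / D.rho i ≤ Y := (Nat.le_ceil _).trans (by exact_mod_cast (le_max_right _ _).trans (hY1 ▸ hY))
    obtain ⟨a, q, κ, hcop, hq1, hq2, hκ1, hκ2, happ⟩ := ha A B Y hYa hApp x y D' h hxy hD1 hD2 hh1 hh2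
    have hκ3 : κ ≤ R' * (Y : ℝ) ^ 4 := hκ2.trans (mul_le_mul_of_nonneg_right hR'a (by positivity))
    obtain ⟨ϑ, hϑ⟩ : ∃ ϑ : ℝ, ϑ = h * ((y - D.α * x) / (D' * D.rho i)) := ⟨_, rfl⟩
    rw [← hϑ] at happ
    have hsum : ∑ q ∈ D.Rg i (Y ^ 1000), ((Real.log q : ℝ) : ℂ) * ex (h * (q * ((y - D.α * x) / (D' * D.rho i)))) =
        ∑ q ∈ D.Rg i (Y ^ 1000), ((Real.log q : ℝ) : ℂ) * ex (q * ϑ) := by
      refine Finset.sum_congr rfl fun q _ => ?_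
      rw [hϑ]
      congr 2
      ring
    rw [hsum]
    obtain ⟨N, hN⟩ : ∃ N : ℕ, N = Y ^ 1000 := ⟨_, rfl⟩
    have hNr : (N : ℝ) = (Y : ℝ) ^ 1000 := by rw [hN]; push_cast; rfl
    have hN1 : (1 : ℝ) ≤ N := by rw [hNr]; exact one_le_pow₀ hYr
    rw [← hN, H2_Rg]
    have hYbig : (0 : ℝ) ≤ (Y : ℝ) ^ 991 := by positivity
    by_cases hX : ⌊D.rho i * N + |(D.u i : ℝ)|⌋₊ + 1 ≤ ⌊2 * D.rho i * N - |(D.u i : ℝ)|⌋₊ + 1
    · obtain ⟨X1, hX1⟩ : ∃ X1 : ℕ, X1 = ⌊D.rho i * N + |(D.u i : ℝ)|⌋₊ + 1 := ⟨_, rfl⟩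
      obtain ⟨X2, hX2⟩ : ∃ X2 : ℕ, X2 = ⌊2 * D.rho i * N - |(D.u i : ℝ)|⌋₊ + 1 := ⟨_, rfl⟩
      rw [← hX1, ← hX2] at hX ⊢
      have hX1lo : D.rho i * N ≤ X1 := by
        rw [hX1]
        have := Nat.lt_floor_add_one (D.rho i * N + |(D.u i : ℝ)|)
        push_cast
        linarith
      have hX1hi : (X1 : ℝ) ≤ R' * N := by
        rw [hX1]
        have h1 : ((⌊D.rho i * N + |(D.u i : ℝ)|⌋₊ : ℕ) : ℝ) ≤ D.rho i * N + |(D.u i : ℝ)| :=
          Nat.floor_le (by positivity)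
        push_cast
        have h2 : (2 * D.rho i + |(D.u i : ℝ)| + 2) * N ≤ R' * N :=
          mul_le_mul_of_nonneg_right hR'b (by linarith)
        nlinarith
      have hX2hi : (X2 : ℝ) ≤ R' * N := by
        rw [hX2]
        have h1 : ((⌊2 * D.rho i * N - |(D.u i : ℝ)|⌋₊ : ℕ) : ℝ) ≤ 2 * D.rho i * N :=
          (Nat.cast_le.2 (Nat.floor_le_floor (by linarith))).trans (Nat.floor_le (by positivity))
        push_cast
        have h2 : (2 * D.rho i + |(D.u i : ℝ)| + 2) * N ≤ R' * N :=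
          mul_le_mul_of_nonneg_right hR'b (by linarith)
        nlinarith
      have h900 : Y ^ 900 ≤ X1 := by
        have h1 : (1 : ℝ) ≤ D.rho i * Y := by
          rw [div_le_iff₀ hρ] at hYρ
          linarith
        have h2 : (1 : ℝ) ≤ D.rho i * (Y : ℝ) ^ 100 := by
          have h3 : (Y : ℝ) ≤ (Y : ℝ) ^ 100 := le_self_pow₀ hYr (by norm_num)
          exact h1.trans (mul_le_mul_of_nonneg_left h3 hρ.le)
        have h3 : (Y : ℝ) ^ 900 ≤ D.rho i * N := by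
          rw [hNr, show (Y : ℝ) ^ 1000 = (Y : ℝ) ^ 900 * (Y : ℝ) ^ 100 by rw [← pow_add]]
          have h4 : (0 : ℝ) ≤ (Y : ℝ) ^ 900 := by positivity
          calc (Y : ℝ) ^ 900 = (Y : ℝ) ^ 900 * 1 := by ring
            _ ≤ (Y : ℝ) ^ 900 * (D.rho i * (Y : ℝ) ^ 100) := mul_le_mul_of_nonneg_left h2 h4
            _ = _ := by ring
        have h5 : ((Y ^ 900 : ℕ) : ℝ) ≤ X1 := by
          push_cast
          exact h3.trans hX1lo
        exact_mod_cast h5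
      have v1 := hv Y X1 q a ϑ κ hYv (by rw [← hNr]; exact hX1hi) h900 hcop hq1 hq2 hκ1 hκ3 happ
      have v2 := hv Y X2 q a ϑ κ hYv (by rw [← hNr]; exact hX2hi) (h900.trans hX) hcop hq1 hq2 hκ1 hκ3 happ
      have hd := H2_diff X1 X2 hX (fun n => ex (n * ϑ)) (fun n => H2_ex _)
      refine hd.trans ?_
      have hsq : Real.sqrt X2 ≤ Real.sqrt R' * (Y : ℝ) ^ 500 := by
        have h1 : Real.sqrt X2 ≤ Real.sqrt (R' * N) := Real.sqrt_le_sqrt hX2hi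
        rw [Real.sqrt_mul (by linarith), hNr, show (Y : ℝ) ^ 1000 = ((Y : ℝ) ^ 500) ^ 2 by rw [← pow_mul],
          Real.sqrt_sq (by positivity)] at h1
        exact h1
      have h3 := hs X2
      have h4 : Cs * Real.sqrt X2 ≤ Cs * (Real.sqrt R' * (Y : ℝ) ^ 500) := mul_le_mul_of_nonneg_left hsq hCs0
      have h5 : (Y : ℝ) ^ 500 ≤ (Y : ℝ) ^ 991 := pow_le_pow_right₀ hYr (by norm_num)
      have h6 : (Y : ℝ) ^ 990 ≤ (Y : ℝ) ^ 991 := pow_le_pow_right₀ hYr (by norm_num)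
      have h7 : Cs * Real.sqrt R' * (Y : ℝ) ^ 500 ≤ Cs * Real.sqrt R' * (Y : ℝ) ^ 991 :=
        mul_le_mul_of_nonneg_left h5 (by positivity)
      have h8 : Cv * (Y : ℝ) ^ 990 ≤ Cv * (Y : ℝ) ^ 991 := mul_le_mul_of_nonneg_left h6 (by linarith)
      have h9 : 0 ≤ (1 + (2 * D.rho i * (Y1 : ℝ) ^ 1000 + 1) ^ 2) * (Y : ℝ) ^ 991 :=
        mul_nonneg (by linarith) hYbig
      calc _ ≤ Cv * (Y : ℝ) ^ 990 + Cv * (Y : ℝ) ^ 990 + Cs * (Real.sqrt R' * (Y : ℝ) ^ 500) := by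
            exact add_le_add (add_le_add v1 v2) (h3.trans h4)
        _ ≤ Cv * (Y : ℝ) ^ 991 + Cv * (Y : ℝ) ^ 991 + Cs * Real.sqrt R' * (Y : ℝ) ^ 991 := by linarith
        _ ≤ _ := by linarith
    · rw [Finset.Ico_eq_empty (by omega), Finset.filter_empty, Finset.sum_empty, norm_zero]
      exact mul_nonneg (by linarith) hYbig

end Pool.Agent.LibFS14
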