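import Pool.Agent.LibFS14.H1
import Pool.Agent.LibFS14.H2
import Pool.Agent.LibFS14.F2

/-!
Row H3 (MEDIUM). The distribution of the points with `L i` prime.

PLAN. `th i N n ≠ 0` only if `L i n = q ∈ Rg i N`, then `th = log q`: the left sum is `∑_{q ∈ Rg} log q * ∑_{n ∈ TT, L i n = q, hits} f n = ∑_{q ∈ Rg} log q * per F L (q θ)` (H1 `prime_pts`, `L = D' ρ`, `D' = W ∏ S ≤ W Y`; `p < q`, `w < q` for large `Y` because `q > ρ N`,
`p ≤ Y`; `L ≥ 1` by `Cls.W1`). `per_avg` (F2) with the family `Rg`, weights `log q`, `H = Y ^ 2`, `E = C Y ^ 991` (H2): the sum is `cF / L ∑ log q = X1 ∏_S 1/p` up to `2 CF Y ^ 2 C Y ^ 991 + CF L / Y ^ 2 ∑ log q`, and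
`∑_{Rg} log q ≤ C Y ^ 1000` (Chebyshev: `Chebyshev.theta_le` / `Chebyshev.theta_le_log4_mul_x`), `L ≤ W Y ρ`: total `≤ C' Y ^ 999`. For `Y < Y0` everything is bounded (choose `C'` large).
-/

open Finset

namespace Pool.Agent.LibFS14

private theorem H3_Rg {K : ℕ} (D : Data K) (i : Fin K) (N q : ℕ) (hq : q ∈ D.Rg i N) :
    q.Prime ∧ D.rho i * N + |(D.u i : ℝ)| < q ∧ (q : ℝ) ≤ 2 * D.rho i * N - |(D.u i : ℝ)| := by
  unfold Data.Rg at hq
  exact (Finset.mem_filter.1 hq).2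

private theorem H3_sum {K : ℕ} (D : Data K) (i : Fin K) (N : ℕ) (hρ : 0 < D.rho i) :
    ∑ q ∈ D.Rg i N, Real.log q ≤ Real.log 4 * (2 * D.rho i * N) := by
  have h0 : (0 : ℝ) ≤ 2 * D.rho i * N := by positivity
  refine le_trans ?_ (Chebyshev.theta_le_log4_mul_x h0)
  unfold Chebyshev.theta
  refine Finset.sum_le_sum_of_subset_of_nonneg ?_ ?_
  · intro q hq
    obtain ⟨h1, h2, h3⟩ := H3_Rg D i N q hq
    rw [Finset.mem_filter, Finset.mem_Ioc]
    refine ⟨⟨h1.pos, Nat.le_floor ?_⟩, h1⟩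
    have := abs_nonneg (D.u i : ℝ)
    linarith
  · intro q _ _
    exact Real.log_natCast_nonneg q

private theorem H3_th {K : ℕ} (D : Data K) (i : Fin K) (N n : ℕ) :
    D.th i N n = ∑ q ∈ D.Rg i N, (open scoped Classical in if D.L i n = (q : ℤ) then Real.log q else 0) := by
  classical
  unfold Data.th
  by_cases h : ∃ q ∈ D.Rg i N, (q : ℤ) = D.L i n
  · rw [if_pos h]
    obtain ⟨q, hq, hqL⟩ := h
    rw [Finset.sum_eq_single q]
    · rw [if_pos hqL.symm, ← hqL]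
      norm_cast
    · intro q' _ hne
      rw [if_neg]
      intro h'
      apply hne
      have : (q' : ℤ) = q := by rw [← h', hqL]
      exact_mod_cast this
    · intro h'
      exact absurd hq h'
  · rw [if_neg h]
    refine (Finset.sum_eq_zero fun q hq => ?_).symm
    rw [if_neg]
    intro h'
    exact h ⟨q, hq, h'.symm⟩

private theorem H3_th_le {K : ℕ} (D : Data K) (i : Fin K) (N n : ℕ) (hρ : 0 < D.rho i) :
    0 ≤ D.th i N n ∧ D.th i N n ≤ Real.log 4 * (2 * D.rho i * N) := by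
  classical
  rw [H3_th]
  refine ⟨Finset.sum_nonneg fun q _ => ?_, (Finset.sum_le_sum fun q _ => ?_).trans (H3_sum D i N hρ)⟩
  · split_ifs
    · exact Real.log_natCast_nonneg q
    · exact le_refl _
  · split_ifs
    · exact le_refl _
    · exact Real.log_natCast_nonneg q

private theorem H3_swap {K : ℕ} (D : Data K) (i : Fin K) (N : ℕ) (T : Finset ℕ) (Q : ℕ → Prop) [DecidablePred Q] :
    ∑ n ∈ T.filter Q, D.f n * D.th i N n =
      ∑ q ∈ D.Rg i N, Real.log q * ∑ n ∈ T.filter (fun n => D.L i n = (q : ℤ) ∧ Q n), D.f n := by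
  have h1 : ∀ n, D.f n * D.th i N n = ∑ q ∈ D.Rg i N, (if D.L i n = (q : ℤ) then Real.log q * D.f n else 0) := by
    intro n
    rw [H3_th, Finset.mul_sum]
    refine Finset.sum_congr rfl fun q _ => ?_
    by_cases h : D.L i n = (q : ℤ)
    · rw [if_pos h, if_pos h]
      ring
    · rw [if_neg h, if_neg h]
      ring
  rw [Finset.sum_congr rfl fun n _ => h1 n, Finset.sum_comm]
  refine Finset.sum_congr rfl fun q _ => ?_
  rw [Finset.mul_sum, Finset.sum_filter, Finset.sum_filter]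
  refine Finset.sum_congr rfl fun n _ => ?_
  by_cases h2 : Q n
  · by_cases h3 : D.L i n = (q : ℤ)
    · rw [if_pos h2, if_pos h3, if_pos ⟨h3, h2⟩]
    · rw [if_pos h2, if_neg h3, if_neg (fun h => h3 h.1)]
  · rw [if_neg h2, if_neg (fun h => h2 h.2)]

private theorem H3_f {K : ℕ} (D : Data K) (n : ℕ) : 0 ≤ D.f n ∧ D.f n ≤ 1 :=
  ⟨D.bump.nn _, D.bump.le1 _⟩

private theorem H3_triv {K : ℕ} (D : Data K) {w : ℕ} {x0 y0 : ℤ} (hC : D.Cls w x0 y0) (i : Fin K) (N : ℕ)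
    (hρ : 0 < D.rho i) (Q : ℕ → Prop) [DecidablePred Q] (a : ℝ) (ha0 : 0 ≤ a) (ha1 : a ≤ 1) :
    |∑ n ∈ (D.TT w x0 y0 N).filter Q, D.f n * D.th i N n - D.X1 i w N * a| ≤
      N * (Real.log 4 * (2 * D.rho i * N)) + Real.log 4 * (2 * D.rho i * N) := by
  set T := Real.log 4 * (2 * D.rho i * N) with hT
  have hT0 : 0 ≤ T := by
    have : 0 ≤ Real.log 4 := Real.log_nonneg (by norm_num)
    positivity
  have h1 : 0 ≤ ∑ n ∈ (D.TT w x0 y0 N).filter Q, D.f n * D.th i N n :=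
    Finset.sum_nonneg fun n _ => mul_nonneg (H3_f D n).1 (H3_th_le D i N n hρ).1
  have h2 : ∑ n ∈ (D.TT w x0 y0 N).filter Q, D.f n * D.th i N n ≤ N * T := by
    calc ∑ n ∈ (D.TT w x0 y0 N).filter Q, D.f n * D.th i N n
        ≤ ∑ n ∈ (D.TT w x0 y0 N).filter Q, T := Finset.sum_le_sum fun n _ => by
          have h3 := mul_le_mul (H3_f D n).2 (H3_th_le D i N n hρ).2 (H3_th_le D i N n hρ).1 zero_le_one
          rwa [one_mul] at h3
      _ ≤ ∑ n ∈ Ioc N (2 * N), T := by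
          refine Finset.sum_le_sum_of_subset_of_nonneg ?_ fun _ _ _ => hT0
          intro n hn
          have h := (Finset.mem_filter.1 hn).1
          unfold Data.TT at h
          classical
          rw [Finset.mem_filter] at h
          exact h.1
      _ = N * T := by
          rw [Finset.sum_const, Nat.card_Ioc, nsmul_eq_mul]
          congr 2
          omega
  have h3 : 0 ≤ D.X1 i w N ∧ D.X1 i w N ≤ T := by
    unfold Data.X1
    have hW := hC.W1 i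
    have hW0 : 0 < (primorial w : ℝ) * D.rho i := by linarith
    have h4 : 0 ≤ ∑ q ∈ D.Rg i N, Real.log q := Finset.sum_nonneg fun q _ => Real.log_natCast_nonneg q
    have h5 : D.cF / ((primorial w : ℝ) * D.rho i) ≤ 1 := by
      rw [div_le_one hW0]
      exact D.bump.cle.trans hW
    have h6 : 0 ≤ D.cF / ((primorial w : ℝ) * D.rho i) := div_nonneg D.bump.cpos.le hW0.le
    refine ⟨mul_nonneg h6 h4, ?_⟩
    calc D.cF / ((primorial w : ℝ) * D.rho i) * ∑ q ∈ D.Rg i N, Real.log q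
        ≤ 1 * ∑ q ∈ D.Rg i N, Real.log q := mul_le_mul_of_nonneg_right h5 h4
      _ ≤ T := by
        rw [one_mul]
        exact H3_sum D i N hρ
  have h4 : 0 ≤ D.X1 i w N * a := mul_nonneg h3.1 ha0
  have h5 : D.X1 i w N * a ≤ T := (mul_le_of_le_one_right h3.1 ha1).trans h3.2
  have hN : (0 : ℝ) ≤ N * T := by positivity
  rw [abs_le]
  constructor
  · linarith
  · linarith

open scoped Classical in
theorem dist1 {K : ℕ} (D : Data K) (R : ℝ) {w : ℕ} {x0 y0 : ℤ} (hC : D.Cls w x0 y0) (i : Fin K) : ∃ C : ℝ, 1 ≤ C ∧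
    ∀ (A : ℤ) (B Y : ℕ), D.App R A B Y → ∀ (S : Finset ℕ) (t : ℕ → Fin K), (∀ p ∈ S, p.Prime ∧ w < p ∧ t p ≠ i) →
    ∏ p ∈ S, p ≤ Y →
    |∑ n ∈ (D.TT w x0 y0 (Y ^ 1000)).filter (fun n : ℕ => ∀ p ∈ S, D.hit p (t p) n), D.f n * D.th i (Y ^ 1000) n -
      D.X1 i w (Y ^ 1000) * ∏ p ∈ S, 1 / (p : ℝ)| ≤ C * (Y : ℝ) ^ 999 := by
  have hρ : 0 < D.rho i := D.sys.pos i
  obtain ⟨C2, hC2, hexp⟩ := exp_primes D R (primorial w) i
  have hCF := D.bump.Cpos
  set ρ := D.rho i with hρd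
  set W := primorial w with hWd
  have hl4 : 0 ≤ Real.log 4 := Real.log_nonneg (by norm_num)
  have hWpos : 0 < W := primorial_pos w
  have hWr : (1 : ℝ) ≤ W := by exact_mod_cast hWpos
  -- the threshold
  set Y0 : ℕ := w + ⌈1 / ρ⌉₊ + 1 with hY0
  set N0 : ℝ := (Y0 : ℝ) ^ 1000 with hN0
  set C0 : ℝ := N0 * (Real.log 4 * (2 * ρ * N0)) + Real.log 4 * (2 * ρ * N0) with hC0
  have hN00 : 0 ≤ N0 := by positivity
  have hC00 : 0 ≤ C0 := by positivity
  set C : ℝ := 1 + C0 + 2 * D.CF * C2 + D.CF * W * ρ * (Real.log 4 * (2 * ρ)) with hCd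
  have hC1 : 0 ≤ 2 * D.CF * C2 := by positivity
  have hC3 : 0 ≤ D.CF * W * ρ * (Real.log 4 * (2 * ρ)) := by positivity
  refine ⟨C, by linarith, ?_⟩
  intro A B Y hApp S t hS hSY
  have hexp' := fun x y D' h a1 a2 a3 a4 a5 => hexp A B Y hApp x y D' h a1 a2 a3 a4 a5
  generalize hN : Y ^ 1000 = N at hexp' ⊢
  have hNr : (N : ℝ) = (Y : ℝ) ^ 1000 := by
    rw [← hN]
    exact Nat.cast_pow Y 1000
  have hY1 : 1 ≤ Y := hApp.Y1
  have hY1r : (1 : ℝ) ≤ Y := by exact_mod_cast hY1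
  have hY999 : (1 : ℝ) ≤ (Y : ℝ) ^ 999 := one_le_pow₀ hY1r
  have hp1 : ∀ p ∈ S, (1 : ℝ) ≤ p := fun p hp => by exact_mod_cast (hS p hp).1.one_lt.le
  have hprod0 : 0 ≤ ∏ p ∈ S, 1 / (p : ℝ) := Finset.prod_nonneg fun p hp => by
    have := hp1 p hp
    positivity
  have hprod1 : ∏ p ∈ S, 1 / (p : ℝ) ≤ 1 := Finset.prod_le_one (fun p hp => by
    have := hp1 p hp
    positivity) fun p hp => by
      have := hp1 p hp
      rw [div_le_one (by linarith)]
      exact this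
  by_cases hYY : Y < Y0
  · -- small `Y`
    refine (H3_triv D hC i N hρ _ _ hprod0 hprod1).trans ?_
    have h1 : (N : ℝ) ≤ N0 := by
      rw [hNr, hN0]
      exact pow_le_pow_left₀ (by positivity) (by exact_mod_cast hYY.le) _
    have h2 : (0 : ℝ) ≤ (N : ℝ) := by positivity
    have h3 : Real.log 4 * (2 * ρ * (N : ℝ)) ≤ Real.log 4 * (2 * ρ * N0) :=
      mul_le_mul_of_nonneg_left (mul_le_mul_of_nonneg_left h1 (by positivity)) hl4
    have h4 : (N : ℝ) * (Real.log 4 * (2 * ρ * (N : ℝ))) ≤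
        N0 * (Real.log 4 * (2 * ρ * N0)) := mul_le_mul h1 h3 (by positivity) hN00
    calc (N : ℝ) * (Real.log 4 * (2 * ρ * (N : ℝ))) +
          Real.log 4 * (2 * ρ * (N : ℝ)) ≤ C0 := by rw [hC0]; linarith
      _ ≤ C := by rw [hCd]; linarith
      _ = C * 1 := (mul_one _).symm
      _ ≤ C * (Y : ℝ) ^ 999 := mul_le_mul_of_nonneg_left hY999 (by rw [hCd]; linarith)
  · -- large `Y`
    have hYY' : Y0 ≤ Y := not_lt.1 hYY
    have hwY : w < Y := by omega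
    have hρY : 1 ≤ ρ * Y := by
      have h1 : 1 / ρ ≤ (⌈1 / ρ⌉₊ : ℝ) := Nat.le_ceil _
      have h2 : ((⌈1 / ρ⌉₊ : ℕ) : ℝ) ≤ Y := by
        have : ⌈1 / ρ⌉₊ ≤ Y := by omega
        exact_mod_cast this
      have h3 : 1 / ρ ≤ Y := h1.trans h2
      rw [div_le_iff₀ hρ] at h3
      linarith
    have hbig : (Y : ℝ) ≤ ρ * (N : ℝ) := by
      rw [hNr]
      calc (Y : ℝ) = Y ^ 1 := (pow_one _).symm
        _ ≤ (Y : ℝ) ^ 999 := pow_le_pow_right₀ hY1r (by norm_num)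
        _ = 1 * (Y : ℝ) ^ 999 := (one_mul _).symm
        _ ≤ (ρ * Y) * (Y : ℝ) ^ 999 := mul_le_mul_of_nonneg_right hρY (by positivity)
        _ = ρ * (Y : ℝ) ^ 1000 := by ring
    have hqY : ∀ q ∈ D.Rg i N, Y < q := by
      intro q hq
      obtain ⟨-, h2, -⟩ := H3_Rg D i _ q hq
      have h3 := abs_nonneg (D.u i : ℝ)
      have h4 : (Y : ℝ) < q := by linarith
      exact_mod_cast h4
    obtain ⟨x, y, hxy, hpts⟩ := prime_pts D hC i S t hS
    set P : ℕ := ∏ p ∈ S, p with hPd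
    have hP1 : 1 ≤ P := Finset.prod_pos fun p hp => (hS p hp).1.pos
    have hP1r : (1 : ℝ) ≤ P := by exact_mod_cast hP1
    have hPY : (P : ℝ) ≤ Y := by exact_mod_cast hSY
    have hpP : ∀ p ∈ S, p ≤ P := fun p hp => Nat.le_of_dvd hP1 (Finset.dvd_prod_of_mem _ hp)
    -- the sum as a sum over the primes
    have e1 : ∑ n ∈ (D.TT w x0 y0 N).filter (fun n : ℕ => ∀ p ∈ S, D.hit p (t p) n),
        D.f n * D.th i N n =
        ∑ q ∈ D.Rg i N, Real.log q * per D.F (((W * P : ℕ) : ℝ) * ρ)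
          (q * ((y - D.α * x) / (((W * P : ℕ) : ℝ) * ρ))) := by
      rw [H3_swap]
      refine Finset.sum_congr rfl fun q hq => ?_
      rw [← hpts N q hq (fun p hp => lt_of_le_of_lt ((hpP p hp).trans hSY) (hqY q hq))
        (hwY.trans (hqY q hq))]
    have hL1 : 1 ≤ ((W * P : ℕ) : ℝ) * ρ := by
      push_cast
      have h1 := hC.W1 i
      calc (1 : ℝ) = 1 * 1 := (mul_one _).symm
        _ ≤ ((W : ℝ) * ρ) * P := mul_le_mul h1 hP1r zero_le_one (by linarith)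
        _ = (W : ℝ) * P * ρ := by ring
    have hH : 1 ≤ Y ^ 2 := Nat.one_le_pow _ _ hY1
    have hWP1 : 1 ≤ W * P := Nat.mul_pos hWpos hP1
    have hWPY : W * P ≤ W * Y := Nat.mul_le_mul_left _ hSY
    have havg := per_avg D.bump (((W * P : ℕ) : ℝ) * ρ) hL1 (Y ^ 2) hH (D.Rg i N)
      (fun q => Real.log q) (fun q _ => Real.log_natCast_nonneg q)
      (fun q => q * ((y - D.α * x) / (((W * P : ℕ) : ℝ) * ρ))) (C2 * (Y : ℝ) ^ 991)
      (fun h h1 h2 => hexp' x y (W * P) h hxy hWP1 hWPY h1 h2)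
    rw [← e1] at havg
    have e2 : D.cF / (((W * P : ℕ) : ℝ) * ρ) * ∑ q ∈ D.Rg i N, Real.log q =
        D.X1 i w N * ∏ p ∈ S, 1 / (p : ℝ) := by
      have h1 : ∏ p ∈ S, 1 / (p : ℝ) = 1 / (P : ℝ) := by
        rw [hPd, Nat.cast_prod]
        simp only [one_div]
        exact Finset.prod_inv_distrib _
      rw [h1]
      unfold Data.X1
      rw [← hWd, ← hρd]
      push_cast
      have hW0 : (W : ℝ) ≠ 0 := by positivity
      have hP0 : (P : ℝ) ≠ 0 := by positivity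
      field_simp
    rw [e2] at havg
    refine havg.trans ?_
    have hs := H3_sum D i N hρ
    have b1 : 2 * D.CF * ((Y ^ 2 : ℕ) : ℝ) * (C2 * (Y : ℝ) ^ 991) ≤ 2 * D.CF * C2 * (Y : ℝ) ^ 999 := by
      push_cast
      have h1 : (Y : ℝ) ^ 993 ≤ (Y : ℝ) ^ 999 := pow_le_pow_right₀ hY1r (by norm_num)
      calc 2 * D.CF * (Y : ℝ) ^ 2 * (C2 * (Y : ℝ) ^ 991) = 2 * D.CF * C2 * (Y : ℝ) ^ 993 := by ring
        _ ≤ 2 * D.CF * C2 * (Y : ℝ) ^ 999 := mul_le_mul_of_nonneg_left h1 hC1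
    have b2 : D.CF * (((W * P : ℕ) : ℝ) * ρ) / ((Y ^ 2 : ℕ) : ℝ) * ∑ q ∈ D.Rg i N, Real.log q ≤
        D.CF * W * ρ * (Real.log 4 * (2 * ρ)) * (Y : ℝ) ^ 999 := by
      have hYp : (0 : ℝ) < Y := by linarith
      have h1 : D.CF * (((W * P : ℕ) : ℝ) * ρ) / ((Y ^ 2 : ℕ) : ℝ) ≤ D.CF * W * ρ / Y := by
        push_cast
        rw [div_le_div_iff₀ (by positivity) hYp]
        have h2 : D.CF * W * ρ * Y * P ≤ D.CF * W * ρ * Y * Y :=
          mul_le_mul_of_nonneg_left hPY (by positivity)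
        calc D.CF * ((W : ℝ) * P * ρ) * Y = D.CF * W * ρ * Y * P := by ring
          _ ≤ D.CF * W * ρ * Y * Y := h2
          _ = D.CF * W * ρ * (Y : ℝ) ^ 2 := by ring
      have h0 : 0 ≤ ∑ q ∈ D.Rg i N, Real.log q :=
        Finset.sum_nonneg fun q _ => Real.log_natCast_nonneg q
      calc D.CF * (((W * P : ℕ) : ℝ) * ρ) / ((Y ^ 2 : ℕ) : ℝ) * ∑ q ∈ D.Rg i N, Real.log q
          ≤ D.CF * W * ρ / Y * (Real.log 4 * (2 * ρ * (N : ℝ))) :=
            mul_le_mul h1 hs h0 (by positivity)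
        _ = D.CF * W * ρ * (Real.log 4 * (2 * ρ)) * (Y : ℝ) ^ 999 := by
            rw [hNr]
            field_simp
    have b3 : 0 ≤ (1 + C0) * (Y : ℝ) ^ 999 := by positivity
    calc _ ≤ 2 * D.CF * C2 * (Y : ℝ) ^ 999 + D.CF * W * ρ * (Real.log 4 * (2 * ρ)) * (Y : ℝ) ^ 999 :=
          add_le_add b1 b2
      _ ≤ C * (Y : ℝ) ^ 999 := by
          rw [hCd]
          nlinarith

end Pool.Agent.LibFS14
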