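import Pool.Agent.LibFS14.Defs

/-!
Row V2 (MEDIUM/STRONG). The sum of `min (M, 1 / ‖l ϑ‖)`.

PLAN. Cover `Ioo (-N) N` by at most `2 N / q + 1` blocks of `q` consecutive integers `l = l0 + r`, `0 ≤ r < q`. `l ϑ = l0 ϑ + r a / q + η_r`, `|η_r| ≤ κ / q`. Let `c0 = ⌊q l0 ϑ⌋`: `l ϑ = (c0 + r a) / q + η'_r`, `|η'_r| ≤ (κ + 1) / q ≤ 2 κ / q`.
`i_r = (c0 + r a) % q` runs through every residue once (`a` prime to `q`). The distance of `l ϑ` from the integers is at least `(min (i_r, q - i_r) - 2 κ) / q`. For `min (i, q - i) ≥ 4 κ` this is `≥ min (i, q - i) / (2 q)`, so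
`g l ≤ q / min (i, q - i) ≤ q / i + q / (q - i)`; the sum over these is `≤ 2 q (1 + log q)` (harmonic sum, `harmonic_le_one_add_log`). The other `i` are at most `8 κ + 2 ≤ 10 κ`: `g l ≤ M`. One block: `≤ 10 κ M + 2 q (1 + log q)`.
Total `≤ (2 N / q + 1) * 10 κ (M + q (1 + log q))`, `C = 20`.
-/

open Finset

namespace Pool.Agent.LibFS14

/-- the number of `i < q` below a bound -/
private theorem V2_count (q : ℕ) (x : ℝ) (hx : 0 ≤ x) (M : ℝ) (hM : 0 ≤ M) :
    ∑ i ∈ range q, (if (i : ℝ) < x then M else 0) ≤ (x + 1) * M := by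
  rw [← Finset.sum_filter, Finset.sum_const, nsmul_eq_mul]
  refine mul_le_mul_of_nonneg_right ?_ hM
  have h1 : (range q).filter (fun i : ℕ => (i : ℝ) < x) ⊆ range ⌈x⌉₊ := by
    intro i hi
    rw [Finset.mem_range]
    exact Nat.lt_ceil.2 (Finset.mem_filter.1 hi).2
  have h2 := Finset.card_le_card h1
  rw [Finset.card_range] at h2
  have h3 : ((#((range q).filter (fun i : ℕ => (i : ℝ) < x)) : ℕ) : ℝ) ≤ (⌈x⌉₊ : ℝ) := by
    exact_mod_cast h2
  exact h3.trans (Nat.ceil_lt_add_one hx).le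

private theorem V2_harm (q : ℕ) : ∑ i ∈ range q, (q : ℝ) / ((i + 1 : ℕ) : ℝ) ≤ q * (1 + Real.log q) := by
  have h1 := harmonic_le_one_add_log q
  have h2 : ((harmonic q : ℚ) : ℝ) = ∑ i ∈ range q, 1 / ((i + 1 : ℕ) : ℝ) := by
    rw [harmonic]
    push_cast
    refine Finset.sum_congr rfl fun i _ => ?_
    rw [one_div]
  have h3 : ∑ i ∈ range q, (q : ℝ) / ((i + 1 : ℕ) : ℝ) = q * ∑ i ∈ range q, 1 / ((i + 1 : ℕ) : ℝ) := by
    rw [Finset.mul_sum]
    refine Finset.sum_congr rfl fun i _ => ?_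
    rw [mul_one_div]
  rw [h3, ← h2]
  exact mul_le_mul_of_nonneg_left h1 (Nat.cast_nonneg q)

private theorem V2_harm0 (q : ℕ) : ∑ i ∈ range q, (q : ℝ) / ((i : ℕ) : ℝ) ≤ q * (1 + Real.log q) := by
  refine le_trans ?_ (V2_harm q)
  rcases q with _ | n
  · simp
  · rw [Finset.sum_range_succ', Nat.cast_zero, div_zero, add_zero, Finset.sum_range_succ]
    have : 0 ≤ ((n + 1 : ℕ) : ℝ) / ((n + 1 : ℕ) : ℝ) := by positivity
    linarith

/-- the bound for a residue -/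
private noncomputable def V2_G (κ : ℝ) (q M : ℕ) (j : ℕ) : ℝ :=
  if (j : ℝ) < 4 * κ then (M : ℝ) else (q : ℝ) / (j : ℝ)

private theorem V2_G_nonneg (κ : ℝ) (q M j : ℕ) : 0 ≤ V2_G κ q M j := by
  unfold V2_G
  split_ifs
  · positivity
  · positivity

private theorem V2_G_le (κ : ℝ) (q M j : ℕ) :
    V2_G κ q M j ≤ (if (j : ℝ) < 4 * κ then (M : ℝ) else 0) + (q : ℝ) / (j : ℝ) := by
  unfold V2_G
  split_ifs
  · have : 0 ≤ (q : ℝ) / (j : ℝ) := by positivity
    linarith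
  · rw [zero_add]

private theorem V2_sumG (κ : ℝ) (hκ : 1 ≤ κ) (q M : ℕ) :
    ∑ i ∈ range q, (V2_G κ q M i + V2_G κ q M (q - i)) ≤
      10 * κ * M + 2 * (q * (1 + Real.log q)) := by
  have hM : (0 : ℝ) ≤ M := Nat.cast_nonneg M
  have h4 : (0 : ℝ) ≤ 4 * κ := by linarith
  have hc := V2_count q (4 * κ) h4 (M : ℝ) hM
  have hc2 : (4 * κ + 1) * (M : ℝ) ≤ 5 * κ * M := mul_le_mul_of_nonneg_right (by linarith) hM
  have h1 : ∑ i ∈ range q, V2_G κ q M i ≤ 5 * κ * M + q * (1 + Real.log q) := by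
    calc ∑ i ∈ range q, V2_G κ q M i
        ≤ ∑ i ∈ range q, ((if (i : ℝ) < 4 * κ then (M : ℝ) else 0) + (q : ℝ) / (i : ℝ)) :=
          Finset.sum_le_sum fun i _ => V2_G_le κ q M i
      _ = ∑ i ∈ range q, (if (i : ℝ) < 4 * κ then (M : ℝ) else 0) +
            ∑ i ∈ range q, (q : ℝ) / ((i : ℕ) : ℝ) := Finset.sum_add_distrib
      _ ≤ 5 * κ * M + q * (1 + Real.log q) := by
          have := V2_harm0 q
          linarith
  have h2 : ∑ i ∈ range q, V2_G κ q M (q - i) = ∑ i ∈ range q, V2_G κ q M (i + 1) := by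
    rw [← Finset.sum_range_reflect (fun i => V2_G κ q M (i + 1)) q]
    refine Finset.sum_congr rfl fun i hi => ?_
    have hi' := Finset.mem_range.1 hi
    have e : q - i = q - 1 - i + 1 := by omega
    rw [e]
  have h3 : ∑ i ∈ range q, V2_G κ q M (i + 1) ≤ 5 * κ * M + q * (1 + Real.log q) := by
    calc ∑ i ∈ range q, V2_G κ q M (i + 1)
        ≤ ∑ i ∈ range q, ((if (i : ℝ) < 4 * κ then (M : ℝ) else 0) +
            (q : ℝ) / ((i + 1 : ℕ) : ℝ)) := by
          refine Finset.sum_le_sum fun i _ => (V2_G_le κ q M (i + 1)).trans ?_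
          refine add_le_add ?_ le_rfl
          have hi : (i : ℝ) < ((i + 1 : ℕ) : ℝ) := by
            push_cast
            linarith
          split_ifs with ha hb
          · exact le_rfl
          · exact absurd (hi.trans ha) hb
          · exact hM
          · exact le_rfl
      _ = ∑ i ∈ range q, (if (i : ℝ) < 4 * κ then (M : ℝ) else 0) +
            ∑ i ∈ range q, (q : ℝ) / ((i + 1 : ℕ) : ℝ) := Finset.sum_add_distrib
      _ ≤ 5 * κ * M + q * (1 + Real.log q) := by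
          have := V2_harm q
          linarith
  rw [Finset.sum_add_distrib, h2]
  linarith

/-- one value -/
private theorem V2_one {ϑ κ : ℝ} {a : ℤ} {q M : ℕ} {g : ℤ → ℝ} (hκ : 1 ≤ κ) (hq : 1 ≤ q)
    (happ : |ϑ - a / q| ≤ κ / (q : ℝ) ^ 2) (hg : ∀ l, g l ≤ M)
    (hd : ∀ (l : ℤ) (δ : ℝ), 0 < δ → (∀ k : ℤ, δ ≤ |l * ϑ - k|) → g l ≤ 1 / (2 * δ))
    (l0 : ℤ) (r : ℕ) (hr : r < q) :
    g (l0 + r) ≤ V2_G κ q M ((⌊(q : ℝ) * (l0 * ϑ)⌋ + r * a) % q).toNat +
      V2_G κ q M (q - ((⌊(q : ℝ) * (l0 * ϑ)⌋ + r * a) % q).toNat) := by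
  set c0 : ℤ := ⌊(q : ℝ) * (l0 * ϑ)⌋ with hc0
  set s : ℤ := c0 + r * a with hs
  have hqz : (0 : ℤ) < (q : ℤ) := by exact_mod_cast hq
  have hqr : (0 : ℝ) < (q : ℝ) := by exact_mod_cast hq
  have hi0 := Int.emod_nonneg s hqz.ne'
  have hi1 := Int.emod_lt_of_pos s hqz
  have hdm := Int.emod_add_mul_ediv s q
  obtain ⟨i, hi⟩ := Int.eq_ofNat_of_zero_le hi0
  have hiq : i < q := by
    have : (i : ℤ) < q := by rw [← hi]; exact hi1
    exact_mod_cast this
  have hto : (s % (q : ℤ)).toNat = i := by rw [hi]; exact Int.toNat_natCast i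
  rw [hto]
  have hG1 := V2_G_nonneg κ q M i
  have hG2 := V2_G_nonneg κ q M (q - i)
  by_cases h1 : (i : ℝ) < 4 * κ
  · have e : V2_G κ q M i = M := by
      unfold V2_G
      rw [if_pos h1]
    rw [e]
    linarith [hg (l0 + r)]
  by_cases h2 : ((q - i : ℕ) : ℝ) < 4 * κ
  · have e : V2_G κ q M (q - i) = M := by
      unfold V2_G
      rw [if_pos h2]
    rw [e]
    linarith [hg (l0 + r)]
  push Not at h1 h2
  have e1 : V2_G κ q M i = q / i := by
    unfold V2_G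
    rw [if_neg (not_lt.2 h1)]
  have e2 : V2_G κ q M (q - i) = q / ((q - i : ℕ) : ℝ) := by
    unfold V2_G
    rw [if_neg (not_lt.2 h2)]
  rw [e1] at hG1
  rw [e2] at hG2
  rw [e1, e2]
  have hqi : ((q - i : ℕ) : ℝ) = (q : ℝ) - i := by
    rw [Nat.cast_sub hiq.le]
  set m : ℝ := min (i : ℝ) ((q - i : ℕ) : ℝ) with hm
  have hm4 : 4 * κ ≤ m := le_min h1 h2
  have hm0 : 0 < m := by linarith
  -- the distance
  have hdist : ∀ k : ℤ, m / (2 * q) ≤ |((l0 + r : ℤ) : ℝ) * ϑ - k| := by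
    intro k
    -- the integer part
    have hint : m ≤ |(s : ℝ) - k * q| := by
      have hs' : s - k * q = q * (s / q - k) + i := by
        rw [← hi]
        linarith [hdm]
      rcases lt_or_ge (s / (q : ℤ) - k) 0 with ht | ht
      · have h3 : s - k * q ≤ -((q : ℤ) - i) := by
          rw [hs']
          nlinarith
        have h4 : (s : ℝ) - k * q ≤ -((q : ℝ) - i) := by exact_mod_cast h3
        have h5 : m ≤ (q : ℝ) - i := by
          rw [← hqi]
          exact min_le_right _ _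
        rw [le_abs]
        right
        linarith
      · have h3 : (i : ℤ) ≤ s - k * q := by
          rw [hs']
          nlinarith
        have h4 : (i : ℝ) ≤ (s : ℝ) - k * q := by exact_mod_cast h3
        have h5 : m ≤ (i : ℝ) := min_le_left _ _
        rw [le_abs]
        left
        linarith
    -- the error
    have hfl1 : (c0 : ℝ) ≤ (q : ℝ) * (l0 * ϑ) := Int.floor_le _
    have hfl2 : (q : ℝ) * (l0 * ϑ) < c0 + 1 := Int.lt_floor_add_one _
    have herr : |(q : ℝ) * (((l0 + r : ℤ) : ℝ) * ϑ) - s| ≤ 2 * κ := by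
      have h6 : (q : ℝ) * (((l0 + r : ℤ) : ℝ) * ϑ) - s =
          ((q : ℝ) * (l0 * ϑ) - c0) + r * (q * (ϑ - a / q)) := by
        rw [hs]
        push_cast
        field_simp
        ring
      have h7 : |(r : ℝ) * (q * (ϑ - a / q))| ≤ κ := by
        rw [abs_mul, abs_mul, Nat.abs_cast, Nat.abs_cast]
        have hrq : (r : ℝ) ≤ q := by exact_mod_cast hr.le
        calc (r : ℝ) * (q * |ϑ - a / q|) ≤ q * (q * (κ / (q : ℝ) ^ 2)) := by
              gcongr
          _ = κ := by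
              field_simp
      rw [h6]
      have h8 : |(q : ℝ) * (l0 * ϑ) - c0| ≤ 1 := by
        rw [abs_le]
        constructor <;> linarith
      calc |((q : ℝ) * (l0 * ϑ) - c0) + r * (q * (ϑ - a / q))|
          ≤ |(q : ℝ) * (l0 * ϑ) - c0| + |(r : ℝ) * (q * (ϑ - a / q))| := abs_add_le _ _
        _ ≤ 2 * κ := by linarith
    have h9 : (q : ℝ) * |((l0 + r : ℤ) : ℝ) * ϑ - k| =
        |(q : ℝ) * (((l0 + r : ℤ) : ℝ) * ϑ) - k * q| := by
      rw [← abs_of_pos hqr, ← abs_mul, abs_of_pos hqr]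
      congr 1
      ring
    have h10 : |(s : ℝ) - k * q| ≤ |(q : ℝ) * (((l0 + r : ℤ) : ℝ) * ϑ) - k * q| +
        |(q : ℝ) * (((l0 + r : ℤ) : ℝ) * ϑ) - s| := by
      have h11 : (s : ℝ) - k * q = ((q : ℝ) * (((l0 + r : ℤ) : ℝ) * ϑ) - k * q) -
          ((q : ℝ) * (((l0 + r : ℤ) : ℝ) * ϑ) - s) := by ring
      rw [h11]
      exact abs_sub _ _
    rw [div_le_iff₀ (by positivity)]
    nlinarith
  have hfin := hd (l0 + r) (m / (2 * q)) (by positivity) hdist
  have e3 : 1 / (2 * (m / (2 * (q : ℝ)))) = q / m := by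
    field_simp
  rw [e3] at hfin
  refine hfin.trans ?_
  rcases min_choice (i : ℝ) ((q - i : ℕ) : ℝ) with h | h
  · rw [hm, h]
    linarith
  · rw [hm, h]
    linarith

/-- one block -/
private theorem V2_block {ϑ κ : ℝ} {a : ℤ} {q M : ℕ} {g : ℤ → ℝ} (hκ : 1 ≤ κ) (hq : 1 ≤ q)
    (hco : IsCoprime a (q : ℤ))
    (happ : |ϑ - a / q| ≤ κ / (q : ℝ) ^ 2) (hg : ∀ l, g l ≤ M)
    (hd : ∀ (l : ℤ) (δ : ℝ), 0 < δ → (∀ k : ℤ, δ ≤ |l * ϑ - k|) → g l ≤ 1 / (2 * δ))
    (l0 : ℤ) :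
    ∑ r ∈ range q, g (l0 + r) ≤ 10 * κ * M + 2 * (q * (1 + Real.log q)) := by
  have hqz : (0 : ℤ) < (q : ℤ) := by exact_mod_cast hq
  set c0 : ℤ := ⌊(q : ℝ) * (l0 * ϑ)⌋ with hc0
  have h1 : ∑ r ∈ range q, g (l0 + r) ≤ ∑ r ∈ range q,
      (V2_G κ q M ((c0 + r * a) % q).toNat + V2_G κ q M (q - ((c0 + r * a) % q).toNat)) :=
    Finset.sum_le_sum fun r hr => V2_one hκ hq happ hg hd l0 r (Finset.mem_range.1 hr)
  have hinj : Set.InjOn (fun r : ℕ => ((c0 + r * a) % (q : ℤ)).toNat) (range q : Set ℕ) := by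
    intro r hr r' hr' e
    have hr1 := Finset.mem_range.1 (Finset.mem_coe.1 hr)
    have hr2 := Finset.mem_range.1 (Finset.mem_coe.1 hr')
    have h2 := Int.emod_nonneg (c0 + r * a) hqz.ne'
    have h3 := Int.emod_nonneg (c0 + r' * a) hqz.ne'
    have h4 : (c0 + r * a) % (q : ℤ) = (c0 + r' * a) % (q : ℤ) := by
      have h5 : ((c0 + r * a) % (q : ℤ)).toNat = ((c0 + r' * a) % (q : ℤ)).toNat := e
      rw [← Int.toNat_of_nonneg h2, ← Int.toNat_of_nonneg h3, h5]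
    have h6 : (q : ℤ) ∣ ((r' : ℤ) - r) * a := by
      have h7 := Int.ModEq.dvd (show (c0 + r * a) ≡ (c0 + r' * a) [ZMOD q] from h4)
      have h8 : c0 + r' * a - (c0 + r * a) = ((r' : ℤ) - r) * a := by ring
      rwa [h8] at h7
    have h9 : (q : ℤ) ∣ (r' : ℤ) - r := hco.symm.dvd_of_dvd_mul_right h6
    obtain ⟨t, ht⟩ := h9
    have h10 : t = 0 := by
      have ha : (r' : ℤ) - r < q := by omega
      have hb : -(q : ℤ) < (r' : ℤ) - r := by omega
      rw [ht] at ha hb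
      have h11 : t < 1 := by
        by_contra hh
        push Not at hh
        nlinarith
      have h12 : -1 < t := by
        by_contra hh
        push Not at hh
        nlinarith
      omega
    rw [h10, mul_zero] at ht
    omega
  have h2 : ∑ r ∈ range q,
      (V2_G κ q M ((c0 + r * a) % q).toNat + V2_G κ q M (q - ((c0 + r * a) % q).toNat)) ≤
      ∑ i ∈ range q, (V2_G κ q M i + V2_G κ q M (q - i)) := by
    rw [← Finset.sum_image (f := fun i : ℕ => V2_G κ q M i + V2_G κ q M (q - i)) hinj]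
    refine Finset.sum_le_sum_of_subset_of_nonneg ?_ ?_
    · intro i hi
      obtain ⟨r, _, rfl⟩ := Finset.mem_image.1 hi
      rw [Finset.mem_range]
      have h3 := Int.emod_lt_of_pos (c0 + r * a) hqz
      have h4 := Int.emod_nonneg (c0 + r * a) hqz.ne'
      show ((c0 + r * a) % (q : ℤ)).toNat < q
      omega
    · intro i _ _
      exact add_nonneg (V2_G_nonneg κ q M i) (V2_G_nonneg κ q M (q - i))
  exact h1.trans (h2.trans (V2_sumG κ hκ q M))

private theorem V2_blocks {q : ℕ} {g : ℤ → ℝ} {K : ℝ}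
    (h : ∀ l0 : ℤ, ∑ r ∈ range q, g (l0 + r) ≤ K) (l0 : ℤ) (B : ℕ) :
    ∑ t ∈ range (B * q), g (l0 + t) ≤ B * K := by
  induction B with
  | zero => simp
  | succ B ih =>
    rw [Nat.succ_mul, Finset.sum_range_add]
    have h1 := h (l0 + (B * q : ℕ))
    have h2 : ∑ x ∈ range q, g (l0 + ((B * q + x : ℕ) : ℤ)) = ∑ r ∈ range q, g (l0 + (B * q : ℕ) + r) := by
      refine Finset.sum_congr rfl fun r _ => ?_
      congr 1
      push_cast
      ring
    rw [h2]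
    push_cast at *
    linarith

theorem min_sum : ∃ C : ℝ, 1 ≤ C ∧ ∀ (ϑ κ : ℝ) (a : ℤ) (q M N : ℕ) (g : ℤ → ℝ), 1 ≤ κ → 1 ≤ q → 1 ≤ M → 1 ≤ N →
    IsCoprime a (q : ℤ) → |ϑ - a / q| ≤ κ / (q : ℝ) ^ 2 → (∀ l, 0 ≤ g l) → (∀ l, g l ≤ M) →
    (∀ (l : ℤ) (δ : ℝ), 0 < δ → (∀ k : ℤ, δ ≤ |l * ϑ - k|) → g l ≤ 1 / (2 * δ)) →
    ∑ l ∈ Ioo (-(N : ℤ)) N, g l ≤ C * κ * ((N : ℝ) / q + 1) * (M + q * (1 + Real.log q)) := by
  refine ⟨20, by norm_num, ?_⟩
  intro ϑ κ a q M N g hκ hq hM hN hco happ hg0 hg hd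
  have hqr : (0 : ℝ) < (q : ℝ) := by exact_mod_cast hq
  have hblock := V2_block hκ hq hco happ hg hd
  set B : ℕ := 2 * N / q + 1 with hB
  have hBq : 2 * N < B * q := by
    have := Nat.lt_div_mul_add (a := 2 * N) (b := q) hq
    rw [hB, Nat.add_mul, one_mul]
    exact this
  have h1 := V2_blocks hblock (-(N : ℤ)) B
  have h2 : ∑ l ∈ Ioo (-(N : ℤ)) N, g l ≤ ∑ t ∈ range (B * q), g (-(N : ℤ) + t) := by
    have hinj : Set.InjOn (fun t : ℕ => -(N : ℤ) + t) (range (B * q) : Set ℕ) := by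
      intro t _ t' _ e
      have e' : -(N : ℤ) + t = -(N : ℤ) + t' := e
      omega
    rw [← Finset.sum_image (f := g) hinj]
    refine Finset.sum_le_sum_of_subset_of_nonneg ?_ fun i _ _ => hg0 i
    intro l hl
    rw [Finset.mem_Ioo] at hl
    rw [Finset.mem_image]
    refine ⟨(l + N).toNat, ?_, ?_⟩
    · rw [Finset.mem_range]
      omega
    · show -(N : ℤ) + ((l + N).toNat : ℤ) = l
      omega
  have hBr : (B : ℝ) ≤ 2 * ((N : ℝ) / q + 1) := by
    rw [hB]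
    push_cast
    have h3 : ((2 * N / q : ℕ) : ℝ) ≤ ((2 * N : ℕ) : ℝ) / q := Nat.cast_div_le
    have h4 : ((2 * N : ℕ) : ℝ) / q = 2 * ((N : ℝ) / q) := by
      push_cast
      ring
    rw [h4] at h3
    linarith
  have hlog : 0 ≤ Real.log q := Real.log_natCast_nonneg q
  have hL : 0 ≤ (q : ℝ) * (1 + Real.log q) := by positivity
  have hMr : (0 : ℝ) ≤ M := Nat.cast_nonneg M
  have hK : 10 * κ * M + 2 * (q * (1 + Real.log q)) ≤ 10 * κ * (M + q * (1 + Real.log q)) := by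
    nlinarith
  have hK0 : 0 ≤ 10 * κ * (M + q * (1 + Real.log q)) := by positivity
  calc ∑ l ∈ Ioo (-(N : ℤ)) N, g l ≤ B * (10 * κ * M + 2 * (q * (1 + Real.log q))) := h2.trans h1
    _ ≤ B * (10 * κ * (M + q * (1 + Real.log q))) :=
        mul_le_mul_of_nonneg_left hK (Nat.cast_nonneg B)
    _ ≤ (2 * ((N : ℝ) / q + 1)) * (10 * κ * (M + q * (1 + Real.log q))) :=
        mul_le_mul_of_nonneg_right hBr hK0
    _ = 20 * κ * ((N : ℝ) / q + 1) * (M + q * (1 + Real.log q)) := by ring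

end Pool.Agent.LibFS14
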