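import Pool.Agent.LibFS14.V1
import Pool.Agent.LibFS14.V2

/-!
Row V3 (MEDIUM). Type II sums.

PLAN. `‖∑_n β n f (m n)‖ ^ 2 = ∑_{n, n'} β n conj (β n') f (m n) conj (f (m n'))`; sum over `m ∈ Ico M (2 M)`, exchange: at most `∑_{n, n'} ‖∑_{m} f (m n) conj (f (m n'))‖`; `f (m n) conj (f (m n')) = ex (m (n - n') ϑ)` if `m n < X` and `m n' < X`,
else `0`: the `m` form an interval `Ico M b`. So the inner sum is at most `g (n - n')` with `g l = min M (sup ...)`: define `g l := if ∃ δ > 0, ∀ k, δ ≤ |l ϑ - k| then min M (1 / (2 |l ϑ - round (l ϑ)|)) else M`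
(`V1.geomN`; the trivial bound `M`). For fixed `n` the differences `n - n'` are different elements of `Ioo (-N) N`, so the double sum is at most `N * ∑_{l ∈ Ioo (-N) N} g l`; `min_sum`.
-/

open Finset

namespace Pool.Agent.LibFS14

private theorem V3_norm_ex (x : ℝ) : ‖ex x‖ = 1 := by
  unfold ex
  have h : 2 * Real.pi * Complex.I * x = ((2 * Real.pi * x : ℝ) : ℂ) * Complex.I := by
    push_cast
    ring
  rw [h, Complex.norm_exp_ofReal_mul_I]

private theorem V3_ex_mul_conj (x y : ℝ) : ex x * (starRingEnd ℂ) (ex y) = ex (x - y) := by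
  unfold ex
  rw [← Complex.exp_conj, ← Complex.exp_add]
  congr 1
  simp only [map_mul, Complex.conj_ofReal, Complex.conj_I, map_ofNat]
  push_cast
  ring

/-- the bound of the inner sum -/
private noncomputable def V3_g (ϑ : ℝ) (M : ℕ) (l : ℤ) : ℝ :=
  if |(l : ℝ) * ϑ - round ((l : ℝ) * ϑ)| = 0 then M
  else min M (1 / (2 * |(l : ℝ) * ϑ - round ((l : ℝ) * ϑ)|))

private theorem V3_g_nonneg (ϑ : ℝ) (M : ℕ) (l : ℤ) : 0 ≤ V3_g ϑ M l := by
  unfold V3_g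
  split_ifs with h
  · positivity
  · exact le_min (by positivity) (by positivity)

private theorem V3_g_le (ϑ : ℝ) (M : ℕ) (l : ℤ) : V3_g ϑ M l ≤ M := by
  unfold V3_g
  split_ifs with h
  · exact le_rfl
  · exact min_le_left _ _

private theorem V3_g_le' (ϑ : ℝ) (M : ℕ) (l : ℤ) (δ : ℝ) (hδ : 0 < δ)
    (h : ∀ k : ℤ, δ ≤ |l * ϑ - k|) : V3_g ϑ M l ≤ 1 / (2 * δ) := by
  have h1 := h (round ((l : ℝ) * ϑ))
  unfold V3_g
  rw [if_neg (by linarith)]
  refine (min_le_right _ _).trans ?_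
  exact one_div_le_one_div_of_le (by linarith) (by linarith)

private theorem V3_inner (ϑ : ℝ) (M X n n' : ℕ) (hn : 1 ≤ n) :
    ‖∑ m ∈ Ico M (2 * M), (if m * n < X then ex ((m * n : ℕ) * ϑ) else 0) *
      (starRingEnd ℂ) (if m * n' < X then ex ((m * n' : ℕ) * ϑ) else 0)‖ ≤
      V3_g ϑ M ((n : ℤ) - n') := by
  obtain ⟨mx, hmx⟩ : ∃ mx : ℕ, mx = max n n' := ⟨_, rfl⟩
  have hmx1 : 1 ≤ mx := by
    rw [hmx]
    exact hn.trans (le_max_left _ _)
  obtain ⟨b, hb⟩ : ∃ b : ℕ, b = min (2 * M) ((X + mx - 1) / mx) := ⟨_, rfl⟩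
  have hiff : ∀ m : ℕ, m < (X + mx - 1) / mx ↔ m * mx < X := by
    intro m
    rw [Nat.lt_iff_add_one_le, Nat.le_div_iff_mul_le (by omega), Nat.add_mul, Nat.one_mul]
    omega
  have hterm : ∀ m : ℕ, (if m * n < X then ex ((m * n : ℕ) * ϑ) else 0) *
      (starRingEnd ℂ) (if m * n' < X then ex ((m * n' : ℕ) * ϑ) else 0) =
      if m * mx < X then ex (0 + m * ((((n : ℤ) - n' : ℤ) : ℝ) * ϑ)) else 0 := by
    intro m
    have h1 : m * mx < X ↔ m * n < X ∧ m * n' < X := by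
      rw [hmx]
      rcases le_total n n' with h | h
      · rw [max_eq_right h]
        have := Nat.mul_le_mul_left m h
        omega
      · rw [max_eq_left h]
        have := Nat.mul_le_mul_left m h
        omega
    by_cases h2 : m * n < X
    · by_cases h3 : m * n' < X
      · rw [if_pos h2, if_pos h3, if_pos (h1.2 ⟨h2, h3⟩), V3_ex_mul_conj]
        congr 1
        push_cast
        ring
      · rw [if_neg h3, if_neg (fun h => h3 (h1.1 h).2), map_zero, mul_zero]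
    · rw [if_neg h2, if_neg (fun h => h2 (h1.1 h).1), zero_mul]
  have hsum : ∑ m ∈ Ico M (2 * M), (if m * n < X then ex ((m * n : ℕ) * ϑ) else 0) *
      (starRingEnd ℂ) (if m * n' < X then ex ((m * n' : ℕ) * ϑ) else 0) =
      ∑ m ∈ Ico M b, ex (0 + m * ((((n : ℤ) - n' : ℤ) : ℝ) * ϑ)) := by
    rw [sum_congr rfl fun m _ => hterm m, ← sum_filter]
    refine sum_congr ?_ fun _ _ => rfl
    ext m
    have h1 := hiff m
    simp only [mem_filter, mem_Ico, hb, lt_min_iff]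
    tauto
  rw [hsum]
  have htriv : ‖∑ m ∈ Ico M b, ex (0 + m * ((((n : ℤ) - n' : ℤ) : ℝ) * ϑ))‖ ≤ M := by
    refine (norm_sum_le _ _).trans ?_
    rw [sum_congr rfl fun m _ => V3_norm_ex _, sum_const, Nat.card_Ico, nsmul_eq_mul, mul_one]
    have h1 : b - M ≤ M := by
      have : b ≤ 2 * M := by
        rw [hb]
        exact min_le_left _ _
      omega
    exact_mod_cast h1
  unfold V3_g
  split_ifs with h
  · exact htriv
  · refine le_min htriv ?_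
    exact geomN 0 _ _ (lt_of_le_of_ne (abs_nonneg _) (Ne.symm h)) (fun k => round_le _ k) M b

private theorem V3_sq (s : Finset ℕ) (F : ℕ → ℂ) :
    (((‖∑ n ∈ s, F n‖ ^ 2 : ℝ)) : ℂ) = ∑ n ∈ s, ∑ n' ∈ s, F n * (starRingEnd ℂ) (F n') := by
  rw [← Finset.sum_mul_sum, ← map_sum, Complex.mul_conj, Complex.normSq_eq_norm_sq]

theorem type2 : ∃ C : ℝ, 1 ≤ C ∧ ∀ (ϑ κ : ℝ) (a : ℤ) (q M N X : ℕ) (β : ℕ → ℂ), 1 ≤ κ → 1 ≤ q → 1 ≤ M → 1 ≤ N →
    IsCoprime a (q : ℤ) → |ϑ - a / q| ≤ κ / (q : ℝ) ^ 2 → (∀ n, ‖β n‖ ≤ 1) →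
    ∑ m ∈ Ico M (2 * M), ‖∑ n ∈ Ico N (2 * N), β n * (if m * n < X then ex ((m * n : ℕ) * ϑ) else 0)‖ ^ 2 ≤
      C * κ * N * ((N : ℝ) / q + 1) * (M + q * (1 + Real.log q)) := by
  obtain ⟨C, hC, hmin⟩ := min_sum
  refine ⟨C, hC, fun ϑ κ a q M N X β hκ hq hM hN ha hϑ hβ => ?_⟩
  have h1 := hmin ϑ κ a q M N (V3_g ϑ M) hκ hq hM hN ha hϑ (V3_g_nonneg ϑ M) (V3_g_le ϑ M)
    (V3_g_le' ϑ M)
  have hrow : ∀ n ∈ Ico N (2 * N), ∑ n' ∈ Ico N (2 * N), V3_g ϑ M ((n : ℤ) - n') ≤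
      ∑ l ∈ Ioo (-(N : ℤ)) N, V3_g ϑ M l := by
    intro n hn
    have hinj : Set.InjOn (fun n' : ℕ => (n : ℤ) - n') (Ico N (2 * N) : Finset ℕ) := by
      intro x _ y _ hxy
      have : (n : ℤ) - x = (n : ℤ) - y := hxy
      omega
    rw [← sum_image (f := fun l => V3_g ϑ M l) hinj]
    refine sum_le_sum_of_subset_of_nonneg ?_ (fun l _ _ => V3_g_nonneg ϑ M l)
    intro l hl
    rw [mem_image] at hl
    obtain ⟨n', hn', rfl⟩ := hl
    rw [mem_Ico] at hn hn'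
    rw [mem_Ioo]
    omega
  have hexp : ((∑ m ∈ Ico M (2 * M), ‖∑ n ∈ Ico N (2 * N), β n *
      (if m * n < X then ex ((m * n : ℕ) * ϑ) else 0)‖ ^ 2 : ℝ) : ℂ) =
      ∑ n ∈ Ico N (2 * N), ∑ n' ∈ Ico N (2 * N), β n * (starRingEnd ℂ) (β n') *
        ∑ m ∈ Ico M (2 * M), (if m * n < X then ex ((m * n : ℕ) * ϑ) else 0) *
          (starRingEnd ℂ) (if m * n' < X then ex ((m * n' : ℕ) * ϑ) else 0) := by
    rw [Complex.ofReal_sum]
    rw [sum_congr rfl fun m _ => V3_sq (Ico N (2 * N)) (fun n => β n *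
      (if m * n < X then ex ((m * n : ℕ) * ϑ) else 0))]
    rw [sum_comm]
    refine sum_congr rfl fun n _ => ?_
    rw [sum_comm]
    refine sum_congr rfl fun n' _ => ?_
    rw [mul_sum]
    refine sum_congr rfl fun m _ => ?_
    rw [map_mul]
    ring
  have hnn : 0 ≤ ∑ m ∈ Ico M (2 * M), ‖∑ n ∈ Ico N (2 * N), β n *
      (if m * n < X then ex ((m * n : ℕ) * ϑ) else 0)‖ ^ 2 :=
    sum_nonneg fun m _ => by positivity
  have hle : ∑ m ∈ Ico M (2 * M), ‖∑ n ∈ Ico N (2 * N), β n *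
      (if m * n < X then ex ((m * n : ℕ) * ϑ) else 0)‖ ^ 2 ≤
      ∑ n ∈ Ico N (2 * N), ∑ n' ∈ Ico N (2 * N), V3_g ϑ M ((n : ℤ) - n') := by
    have h2 : ∑ m ∈ Ico M (2 * M), ‖∑ n ∈ Ico N (2 * N), β n *
        (if m * n < X then ex ((m * n : ℕ) * ϑ) else 0)‖ ^ 2 =
        ‖((∑ m ∈ Ico M (2 * M), ‖∑ n ∈ Ico N (2 * N), β n *
          (if m * n < X then ex ((m * n : ℕ) * ϑ) else 0)‖ ^ 2 : ℝ) : ℂ)‖ := by
      rw [Complex.norm_real, Real.norm_of_nonneg hnn]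
    rw [h2, hexp]
    refine (norm_sum_le _ _).trans (sum_le_sum fun n hn => ?_)
    refine (norm_sum_le _ _).trans (sum_le_sum fun n' _ => ?_)
    rw [norm_mul, norm_mul, RCLike.norm_conj]
    have h3 := V3_inner ϑ M X n n' (hN.trans (mem_Ico.1 hn).1)
    have h4 : ‖β n‖ * ‖β n'‖ ≤ 1 := mul_le_one₀ (hβ n) (norm_nonneg _) (hβ n')
    calc ‖β n‖ * ‖β n'‖ * _ ≤ 1 * V3_g ϑ M ((n : ℤ) - n') :=
          mul_le_mul h4 h3 (norm_nonneg _) zero_le_one
      _ = _ := one_mul _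
  refine hle.trans ((sum_le_sum hrow).trans ?_)
  rw [sum_const, Nat.card_Ico, nsmul_eq_mul]
  have h5 : 2 * N - N = N := by omega
  rw [h5]
  calc (N : ℝ) * ∑ l ∈ Ioo (-(N : ℤ)) N, V3_g ϑ M l
      ≤ N * (C * κ * ((N : ℝ) / q + 1) * (M + q * (1 + Real.log q))) :=
        mul_le_mul_of_nonneg_left h1 (by positivity)
    _ = _ := by ring

end Pool.Agent.LibFS14
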