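import Pool.Agent.LibFS14.V3
import Pool.Agent.LibHG31.V3

/-!
Row V4 (MEDIUM/STRONG). Vinogradov's bound, from Vaughan's identity (`LibHG31.VG`).

PLAN. `VG` with `U = Y ^ 60`, `f n = if n < X then ex (n ϑ) else 0`, `B m = q` for all `m`: for `1 ≤ m ≤ U ^ 2 = Y ^ 120 < q` the distance of `m ϑ` from the integers is at least `1 / q - m κ / q ^ 2 ≥ 1 / (2 q)` (`m a / q` is not an integer as `q ∤ m a`;
`2 m κ ≤ 2 R Y ^ 124 ≤ Y ^ 400 ≤ q` for large `Y`), and the multiples of `m` below `Y'` form an arithmetic progression: `V1.geom` gives `≤ 1 / (2 / (2 q)) = q`. `E2 = 1 / Y ^ 55`: for `U ≤ M ≤ N`, `M N ≤ X`: `type2` gives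
`C κ N (N / q + 1) (M + q l)` (`l = 1 + log q`), `(N / q + 1)(M + q l) = N M / q + N l + M + q l ≤ X / q + X l / U + M + q l`, and this times `C κ ≤ C R Y ^ 4` is at most `X / Y ^ 55` for large `Y` (`q ≥ Y ^ 400`, `U = Y ^ 60`, `M ^ 2 ≤ X`, `q ≤ Y ^ 600`,
`X ≥ Y ^ 900`, `l ≤ 1 + 600 log Y ≤ Y ^ (1/2)`...). `E2 ^ (1/4) ≤ Y ^ (-13)`. `VG`: `C log X ^ 8 (Y ^ 60 + Y ^ 120 * q + X * Y ^ (-13)) ≤ C' Y ^ 990`, as `log X ≤ C Y ^ (1/8)`, `X ≤ R Y ^ 1000`.
-/

open Finset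

namespace Pool.Agent.LibFS14

private lemma V4_ev1 (c : ℝ) (hc : 0 ≤ c) : ∀ᶠ Y : ℕ in Filter.atTop, (c + 1000 * Real.log Y) ^ 8 ≤ Y := by
  have h1 : ∀ᶠ Y : ℕ in Filter.atTop, c ≤ Real.log Y :=
    (Real.tendsto_log_atTop.comp tendsto_natCast_atTop_atTop).eventually_ge_atTop c
  have h2 : ∀ᶠ x : ℝ in Filter.atTop, ‖Real.log x ^ 8‖ ≤ (1 / 1001 ^ 8 : ℝ) * ‖id x‖ :=
    (Real.isLittleO_pow_log_id_atTop (n := 8)).def (by norm_num)
  have h3 := tendsto_natCast_atTop_atTop.eventually h2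
  filter_upwards [h1, h3, Filter.eventually_ge_atTop 1] with Y h1 h3 h4
  have hl : 0 ≤ Real.log Y := hc.trans h1
  have h5 : Real.log Y ^ 8 ≤ (1 / 1001 ^ 8 : ℝ) * Y := by
    rw [Real.norm_of_nonneg (by positivity), id, Real.norm_of_nonneg (by positivity)] at h3
    exact h3
  calc (c + 1000 * Real.log Y) ^ 8 ≤ (1001 * Real.log Y) ^ 8 := by
        apply pow_le_pow_left₀ (by positivity)
        linarith
    _ = 1001 ^ 8 * Real.log Y ^ 8 := by ring
    _ ≤ 1001 ^ 8 * ((1 / 1001 ^ 8 : ℝ) * Y) := by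
        apply mul_le_mul_of_nonneg_left h5 (by positivity)
    _ = Y := by
        ring

private lemma V4_ev2 (c : ℝ) : ∀ᶠ Y : ℕ in Filter.atTop, c * (1 + 600 * Real.log Y) ≤ Y := by
  have h0 : 0 ≤ |c| := abs_nonneg c
  have h1 := V4_ev1 0 le_rfl
  have h2 : ∀ᶠ Y : ℕ in Filter.atTop, |c| + 1 ≤ Real.log Y :=
    (Real.tendsto_log_atTop.comp tendsto_natCast_atTop_atTop).eventually_ge_atTop _
  filter_upwards [h1, h2] with Y h1 h2
  have hc : c ≤ |c| := le_abs_self c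
  have hl : 1 ≤ Real.log Y := by linarith
  have h3 : c * (1 + 600 * Real.log Y) ≤ Real.log Y * (601 * Real.log Y) := by
    apply mul_le_mul (by linarith) (by linarith) (by positivity) (by linarith)
  have h4 : Real.log Y * (601 * Real.log Y) ≤ (0 + 1000 * Real.log Y) ^ 8 := by
    have h5 : (0 + 1000 * Real.log Y) ^ 2 ≤ (0 + 1000 * Real.log Y) ^ 8 := by
      apply pow_le_pow_right₀ (by linarith) (by norm_num)
    nlinarith
  linarith

private lemma V4_norm_ex (x : ℝ) : ‖ex x‖ = 1 := by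
  unfold ex
  rw [show (2 * Real.pi * Complex.I * x : ℂ) = ((2 * Real.pi * x : ℝ) : ℂ) * Complex.I by push_cast; ring]
  exact Complex.norm_exp_ofReal_mul_I _

/-- type I -/
private lemma V4_type1 (ϑ κ : ℝ) (a : ℤ) (q m : ℕ) (hm : 1 ≤ m) (hmq : m < q) (hco : IsCoprime a (q : ℤ))
    (hκ : 2 * m * κ ≤ q) (hϑ : |ϑ - a / q| ≤ κ / (q : ℝ) ^ 2) (X Y : ℕ) (hY : Y ≤ X) :
    ‖∑ k ∈ (range Y).filter (fun k => m ∣ k), (if k < X then ex (k * ϑ) else 0)‖ ≤ q := by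
  have hq0 : (0 : ℝ) < q := by
    have : 0 < q := by omega
    exact_mod_cast this
  have hm0 : (0 : ℝ) < m := by exact_mod_cast hm
  -- the sum as a sum over a range
  have hset : ∑ k ∈ (range Y).filter (fun k => m ∣ k), (if k < X then ex (k * ϑ) else 0) =
      ∑ s ∈ range ((Y + m - 1) / m), ex (0 + s * (m * ϑ)) := by
    symm
    apply Finset.sum_bij (fun s _ => m * s)
    · intro s hs
      rw [mem_range] at hs
      rw [mem_filter, mem_range]
      refine ⟨?_, dvd_mul_right _ _⟩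
      have h1 : s + 1 ≤ (Y + m - 1) / m := hs
      rw [Nat.le_div_iff_mul_le (by omega)] at h1
      have h2 : (s + 1) * m = m * s + m := by ring
      omega
    · intro s _ t _ h
      exact Nat.eq_of_mul_eq_mul_left (by omega) h
    · intro k hk
      rw [mem_filter, mem_range] at hk
      obtain ⟨h1, s, rfl⟩ := hk
      refine ⟨s, ?_, rfl⟩
      rw [mem_range, Nat.lt_iff_add_one_le, Nat.le_div_iff_mul_le (by omega)]
      have h2 : (s + 1) * m = m * s + m := by ring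
      omega
    · intro s hs
      rw [mem_range] at hs
      have h1 : s + 1 ≤ (Y + m - 1) / m := hs
      rw [Nat.le_div_iff_mul_le (by omega)] at h1
      have h2 : (s + 1) * m = m * s + m := by ring
      rw [if_pos (by omega)]
      congr 1
      push_cast
      ring
  rw [hset]
  have hδ : (0 : ℝ) < 1 / (2 * q) := by positivity
  have hdist : ∀ k : ℤ, 1 / (2 * (q : ℝ)) ≤ |(m * ϑ) - k| := by
    intro k
    have h1 : (1 : ℝ) / q ≤ |(m : ℝ) * (a / q) - k| := by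
      have h2 : (m : ℤ) * a - k * q ≠ 0 := by
        intro h
        have h3 : (q : ℤ) ∣ m * a := ⟨k, by linarith⟩
        have h4 : (q : ℤ) ∣ m := hco.symm.dvd_of_dvd_mul_right h3
        have h5 : q ∣ m := by exact_mod_cast h4
        have := Nat.le_of_dvd (by omega) h5
        omega
      have h3 : (1 : ℤ) ≤ |(m : ℤ) * a - k * q| := Int.one_le_abs h2
      have h4 : (1 : ℝ) ≤ |(m : ℝ) * a - k * q| := by exact_mod_cast h3
      have h5 : (m : ℝ) * (a / q) - k = ((m : ℝ) * a - k * q) / q := by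
        field_simp
      rw [h5, abs_div, abs_of_pos hq0]
      gcongr
    have h2 : |(m : ℝ) * ϑ - m * (a / q)| ≤ 1 / (2 * q) := by
      rw [← mul_sub, abs_mul, abs_of_pos hm0]
      calc (m : ℝ) * |ϑ - a / q| ≤ m * (κ / (q : ℝ) ^ 2) := by gcongr
        _ = (2 * m * κ) / (2 * (q : ℝ) ^ 2) := by
          field_simp
        _ ≤ q / (2 * (q : ℝ) ^ 2) := by gcongr
        _ = 1 / (2 * q) := by
          field_simp
    have h3 : |(m : ℝ) * (a / q) - k| ≤ |(m : ℝ) * ϑ - m * (a / q)| + |(m * ϑ) - k| := by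
      have := abs_sub_le ((m : ℝ) * (a / q)) (m * ϑ) k
      rwa [abs_sub_comm ((m : ℝ) * (a / q)) (m * ϑ)] at this
    have h4 : (1 : ℝ) / q = 1 / (2 * q) + 1 / (2 * q) := by
      field_simp
      norm_num
    linarith
  have h := geom 0 (m * ϑ) (1 / (2 * q)) hδ hdist ((Y + m - 1) / m)
  refine h.trans (le_of_eq ?_)
  field_simp

private lemma V4_arith (C R κ l X q M N Y : ℝ) (hC : 1 ≤ C) (hR : 1 ≤ R) (hY : 1 ≤ Y) (hκ0 : 1 ≤ κ)
    (hκ : κ ≤ R * Y ^ 4) (hl : 1 ≤ l) (hl2 : 4 * C * R * l ≤ Y) (hX : Y ^ 900 ≤ X) (hq1 : Y ^ 400 ≤ q)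
    (hq2 : q ≤ Y ^ 600) (hM : Y ^ 60 ≤ M) (hMN : M ≤ N) (hX2 : M * N ≤ X) :
    C * κ * N * (N / q + 1) * (M + q * l) ≤ (1 / Y ^ 13) ^ 4 * N * X := by
  have hY0 : 0 < Y := by linarith
  have hM0 : 0 < M := lt_of_lt_of_le (by positivity) hM
  have hN0 : 0 < N := lt_of_lt_of_le hM0 hMN
  have hX0 : 0 < X := lt_of_lt_of_le (by positivity) hX
  have hq0 : 0 < q := lt_of_lt_of_le (by positivity) hq1
  have hl0 : 0 < l := by linarith
  -- the four terms
  have hYpow : ∀ i j : ℕ, i ≤ j → Y ^ i ≤ Y ^ j := fun i j h => pow_le_pow_right₀ hY h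
  have e1 : N * M / q ≤ X * l / Y ^ 60 := by
    rw [div_le_div_iff₀ hq0 (by positivity)]
    calc N * M * Y ^ 60 ≤ X * Y ^ 400 := by
          apply mul_le_mul (by linarith) (hYpow _ _ (by norm_num)) (by positivity) hX0.le
      _ ≤ X * q := by gcongr
      _ ≤ X * l * q := by
          have : 0 ≤ X * q := by positivity
          nlinarith
  have e2 : N * l ≤ X * l / Y ^ 60 := by
    rw [le_div_iff₀ (by positivity)]
    have : N * Y ^ 60 ≤ X := by nlinarith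
    nlinarith
  have e3 : M ≤ X * l / Y ^ 60 := by
    rw [le_div_iff₀ (by positivity)]
    have h1 : M * Y ^ 60 ≤ X := by nlinarith
    nlinarith
  have e4 : q * l ≤ X * l / Y ^ 60 := by
    rw [le_div_iff₀ (by positivity)]
    have h1 : q * Y ^ 60 ≤ X := by
      calc q * Y ^ 60 ≤ Y ^ 600 * Y ^ 60 := by gcongr
        _ = Y ^ 660 := by rw [← pow_add]
        _ ≤ Y ^ 900 := hYpow _ _ (by norm_num)
        _ ≤ X := hX
    nlinarith
  have e5 : (N / q + 1) * (M + q * l) ≤ 4 * (X * l / Y ^ 60) := by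
    have : (N / q + 1) * (M + q * l) = N * M / q + N * l + M + q * l := by
      field_simp
      ring
    rw [this]
    linarith
  have e6 : C * κ * ((N / q + 1) * (M + q * l)) ≤ (1 / Y ^ 13) ^ 4 * X := by
    calc C * κ * ((N / q + 1) * (M + q * l)) ≤ C * (R * Y ^ 4) * (4 * (X * l / Y ^ 60)) := by
          apply mul_le_mul _ e5 (by positivity) (by positivity)
          gcongr
      _ = (4 * C * R * l) * X * (Y ^ 4 / Y ^ 60) := by
          field_simp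
      _ ≤ Y * X * (Y ^ 4 / Y ^ 60) := by gcongr
      _ = X * (Y ^ 5 / Y ^ 60) := by
          ring
      _ ≤ X * (1 / Y ^ 52) := by
          apply mul_le_mul_of_nonneg_left _ hX0.le
          rw [div_le_div_iff₀ (by positivity) (by positivity), one_mul, ← pow_add]
          exact hYpow _ _ (by norm_num)
      _ = (1 / Y ^ 13) ^ 4 * X := by
          rw [one_div_pow, ← pow_mul]
          ring
  calc C * κ * N * (N / q + 1) * (M + q * l) = N * (C * κ * ((N / q + 1) * (M + q * l))) := by ring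
    _ ≤ N * ((1 / Y ^ 13) ^ 4 * X) := by gcongr
    _ = (1 / Y ^ 13) ^ 4 * N * X := by ring

open scoped ArithmeticFunction.vonMangoldt in
theorem vino (R : ℝ) (hR : 1 ≤ R) : ∃ (C : ℝ) (Y0 : ℕ), 1 ≤ C ∧ ∀ (Y X q : ℕ) (a : ℤ) (ϑ κ : ℝ), Y0 ≤ Y →
    (X : ℝ) ≤ R * (Y : ℝ) ^ 1000 → Y ^ 900 ≤ X → IsCoprime a (q : ℤ) → Y ^ 400 ≤ q → q ≤ Y ^ 600 → 1 ≤ κ →
    κ ≤ R * (Y : ℝ) ^ 4 → |ϑ - a / q| ≤ κ / (q : ℝ) ^ 2 →
    ‖∑ n ∈ range X, ((ArithmeticFunction.vonMangoldt n : ℝ) : ℂ) * ex (n * ϑ)‖ ≤ C * (Y : ℝ) ^ 990 := by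
  obtain ⟨C1, hC1, hVG⟩ := Pool.Agent.LibHG31.VG
  obtain ⟨C2, hC2, hT2⟩ := type2
  have hlR : 0 ≤ Real.log R := Real.log_nonneg hR
  have hev := (V4_ev1 (Real.log R) hlR).and ((V4_ev2 (4 * C2 * R)).and (Filter.eventually_ge_atTop (2 + ⌈2 * R⌉₊)))
  obtain ⟨Y0, hY0⟩ := Filter.eventually_atTop.1 hev
  refine ⟨C1 * (2 + R) + 1, Y0, by nlinarith [mul_pos hC1 (by linarith : (0 : ℝ) < 2 + R)], ?_⟩
  intro Y X q a ϑ κ hY hX1 hX2 hco hq1 hq2 hκ1 hκ2 hϑ
  obtain ⟨g1, g2, g3⟩ := hY0 Y hY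
  have hYR : 2 * R ≤ Y := by
    have h1 : 2 * R ≤ ⌈2 * R⌉₊ := Nat.le_ceil _
    have h2 : ((2 + ⌈2 * R⌉₊ : ℕ) : ℝ) ≤ Y := by exact_mod_cast g3
    push_cast at h2
    linarith
  have hY2 : 2 ≤ Y := by omega
  have hYr : (2 : ℝ) ≤ Y := by exact_mod_cast hY2
  have hYr1 : (1 : ℝ) ≤ Y := by linarith
  have hYp : ∀ i j : ℕ, i ≤ j → (Y : ℝ) ^ i ≤ (Y : ℝ) ^ j := fun i j h => pow_le_pow_right₀ hYr1 h
  have hYn : ∀ i j : ℕ, i ≤ j → Y ^ i ≤ Y ^ j := fun i j h => Nat.pow_le_pow_right (by omega) h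
  have hq1r : (Y : ℝ) ^ 400 ≤ q := by exact_mod_cast hq1
  have hq2r : (q : ℝ) ≤ (Y : ℝ) ^ 600 := by exact_mod_cast hq2
  have hX2r : (Y : ℝ) ^ 900 ≤ X := by exact_mod_cast hX2
  have hq0 : 1 ≤ q := le_trans (Nat.one_le_pow _ _ (by omega)) hq1
  have hqr0 : (0 : ℝ) < q := by exact_mod_cast hq0
  have hX0 : (0 : ℝ) < X := lt_of_lt_of_le (by positivity) hX2r
  have hκ0 : 0 ≤ κ := by linarith
  have hlX : Real.log X ≤ Real.log R + 1000 * Real.log Y := by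
    calc Real.log X ≤ Real.log (R * (Y : ℝ) ^ 1000) := Real.log_le_log hX0 hX1
      _ = Real.log R + 1000 * Real.log Y := by
        rw [Real.log_mul (by linarith) (by positivity), Real.log_pow]
        norm_num
  have hlX0 : 0 ≤ Real.log X := by
    apply Real.log_nonneg
    exact le_trans (one_le_pow₀ hYr1) hX2r
  have hlX8 : Real.log X ^ 8 ≤ Y := le_trans (pow_le_pow_left₀ hlX0 hlX 8) g1
  have hlq : 1 + Real.log q ≤ 1 + 600 * Real.log Y := by
    have : Real.log q ≤ Real.log ((Y : ℝ) ^ 600) := Real.log_le_log hqr0 hq2r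
    rw [Real.log_pow] at this
    push_cast at this
    linarith
  have hlq0 : 1 ≤ 1 + Real.log q := by
    have : 0 ≤ Real.log q := Real.log_nonneg (by exact_mod_cast hq0)
    linarith
  have key := hVG X (Y ^ 60) (fun n => if n < X then ex (n * ϑ) else 0) (fun _ => (q : ℝ)) ((1 / (Y : ℝ) ^ 13) ^ 4)
    (le_trans hY2 (by simpa using hYn 1 60 (by norm_num)))
    (by rw [← pow_mul]; exact le_trans (hYn _ _ (by norm_num)) hX2)
    (by
      intro n
      by_cases h : n < X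
      · simp only [h, if_true]
        exact (V4_norm_ex _).le
      · simp only [h, if_false]
        simp)
    (by
      intro n hn
      simp [not_lt.2 hn])
    (fun _ => hqr0.le)
    (by
      intro m hm Z hZ
      rw [mem_Icc, ← pow_mul] at hm
      have hmr : (m : ℝ) ≤ (Y : ℝ) ^ 120 := by exact_mod_cast hm.2
      apply V4_type1 ϑ κ a q m hm.1 _ hco _ hϑ X Z hZ
      · refine lt_of_le_of_lt hm.2 (lt_of_lt_of_le ?_ hq1)
        exact Nat.pow_lt_pow_right (by omega) (by norm_num)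
      · calc 2 * (m : ℝ) * κ ≤ 2 * (Y : ℝ) ^ 120 * (R * (Y : ℝ) ^ 4) := by
              gcongr
          _ = (2 * R) * (Y : ℝ) ^ 124 := by ring
          _ ≤ Y * (Y : ℝ) ^ 124 := by gcongr
          _ = (Y : ℝ) ^ 125 := by ring
          _ ≤ (Y : ℝ) ^ 400 := hYp _ _ (by norm_num)
          _ ≤ q := hq1r)
    (by positivity)
    (by
      apply pow_le_one₀ (by positivity)
      rw [div_le_one (by positivity)]
      exact one_le_pow₀ hYr1)
    (by
      intro M N hM hMN hMNX β hβ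
      have hM1 : 1 ≤ M := le_trans (Nat.one_le_pow _ _ (by omega)) hM
      have h1 := hT2 ϑ κ a q M N X β hκ1 hq0 hM1 (hM1.trans hMN) hco hϑ hβ
      refine h1.trans ?_
      apply V4_arith C2 R κ (1 + Real.log q) X q M N Y hC2 hR hYr1 hκ1 hκ2 hlq0 _ hX2r hq1r hq2r
        (by exact_mod_cast hM) (by exact_mod_cast hMN) (by exact_mod_cast hMNX)
      refine le_trans ?_ g2
      gcongr)
  have hE : ((1 / (Y : ℝ) ^ 13) ^ 4) ^ (1 / 4 : ℝ) = 1 / (Y : ℝ) ^ 13 := by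
    have h0 : (0 : ℝ) ≤ 1 / (Y : ℝ) ^ 13 := by positivity
    have := Real.pow_rpow_inv_natCast h0 (by norm_num : (4 : ℕ) ≠ 0)
    rw [show (1 / 4 : ℝ) = ((4 : ℕ) : ℝ)⁻¹ by norm_num]
    exact this
  have hsum : ∑ n ∈ range X, ((ArithmeticFunction.vonMangoldt n : ℝ) : ℂ) * (if n < X then ex (n * ϑ) else 0) =
      ∑ n ∈ range X, ((ArithmeticFunction.vonMangoldt n : ℝ) : ℂ) * ex (n * ϑ) := by
    apply Finset.sum_congr rfl
    intro n hn
    rw [if_pos (mem_range.1 hn)]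
  rw [hsum] at key
  refine key.trans ?_
  rw [hE]
  have hB : ∑ _m ∈ Icc 1 ((Y ^ 60) ^ 2), (q : ℝ) = (Y : ℝ) ^ 120 * q := by
    rw [Finset.sum_const, Nat.card_Icc, nsmul_eq_mul]
    congr 1
    rw [← pow_mul]
    push_cast
    norm_num
  rw [hB]
  have t1 : ((Y ^ 60 : ℕ) : ℝ) ≤ (Y : ℝ) ^ 989 := by
    push_cast
    exact hYp _ _ (by norm_num)
  have t2 : (Y : ℝ) ^ 120 * q ≤ (Y : ℝ) ^ 989 := by
    calc (Y : ℝ) ^ 120 * q ≤ (Y : ℝ) ^ 120 * (Y : ℝ) ^ 600 := by gcongr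
      _ = (Y : ℝ) ^ 720 := by rw [← pow_add]
      _ ≤ _ := hYp _ _ (by norm_num)
  have t3 : (X : ℝ) * (1 / (Y : ℝ) ^ 13) ≤ R * (Y : ℝ) ^ 989 := by
    rw [mul_one_div, div_le_iff₀ (by positivity)]
    calc (X : ℝ) ≤ R * (Y : ℝ) ^ 1000 := hX1
      _ ≤ R * (Y : ℝ) ^ 1002 := by
        apply mul_le_mul_of_nonneg_left (hYp _ _ (by norm_num)) (by linarith)
      _ = R * (Y : ℝ) ^ 989 * (Y : ℝ) ^ 13 := by rw [mul_assoc, ← pow_add]
  calc C1 * Real.log X ^ 8 * (((Y ^ 60 : ℕ) : ℝ) + (Y : ℝ) ^ 120 * q + X * (1 / (Y : ℝ) ^ 13))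
      ≤ C1 * Y * ((Y : ℝ) ^ 989 + (Y : ℝ) ^ 989 + R * (Y : ℝ) ^ 989) := by
        apply mul_le_mul
        · exact mul_le_mul_of_nonneg_left hlX8 hC1.le
        · linarith
        · positivity
        · positivity
    _ = C1 * (2 + R) * (Y : ℝ) ^ 990 := by ring
    _ ≤ (C1 * (2 + R) + 1) * (Y : ℝ) ^ 990 := by
        have : 0 ≤ (Y : ℝ) ^ 990 := by positivity
        nlinarith

end Pool.Agent.LibFS14
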